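import Pool.Agent.H53.Kak.Geom

/-!
# Multiplicity functions, counting lemmas
-/

set_option autoImplicit false

open MeasureTheory ENNReal
open scoped RealInnerProductSpace

namespace Pool.Agent.H53.Kak

variable {d : ℕ} {ι : Type}

/-- Unit vectors which are `δ`-separated. -/
structure Fam (δ : ℝ) (e : ι → E d) (S : Finset ι) : Prop where
  unit : ∀ i ∈ S, ‖e i‖ = 1
  sep : ∀ i ∈ S, ∀ j ∈ S, i ≠ j → δ ≤ ‖e i - e j‖

lemma Fam.mono {δ : ℝ} {e : ι → E d} {S T : Finset ι} (h : Fam δ e S) (hT : T ⊆ S) : Fam δ e T :=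
  ⟨fun i hi => h.unit i (hT hi), fun i hi j hj => h.sep i (hT hi) j (hT hj)⟩

open Classical in
/-- multiplicity -/
noncomputable def mu (δ : ℝ) (c e : ι → E d) (S : Finset ι) (x : E d) : ℕ :=
  (S.filter (fun j => x ∈ tube δ (c j) (e j))).card

lemma mu_le_card (δ : ℝ) (c e : ι → E d) (S : Finset ι) (x : E d) : mu δ c e S x ≤ S.card := by
  classical
  exact Finset.card_filter_le _ _

lemma mu_mono {δ : ℝ} {c e : ι → E d} {S T : Finset ι} (h : S ⊆ T) (x : E d) :
    mu δ c e S x ≤ mu δ c e T x := by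
  classical
  exact Finset.card_le_card (Finset.filter_subset_filter _ h)

lemma sum_indicator_eq (δ : ℝ) (c e : ι → E d) (S : Finset ι) (x : E d) :
    (∑ i ∈ S, (tube δ (c i) (e i)).indicator (fun _ => (1 : ℝ)) x) = (mu δ c e S x : ℝ) := by
  classical
  rw [mu, Finset.card_filter]
  push_cast
  apply Finset.sum_congr rfl
  intro i _
  rw [Set.indicator_apply]

lemma measurable_mu (δ : ℝ) (c e : ι → E d) (S : Finset ι) :
    Measurable (fun x => (mu δ c e S x : ℝ)) := by
  have : (fun x => (mu δ c e S x : ℝ)) =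
      fun x => ∑ i ∈ S, (tube δ (c i) (e i)).indicator (fun _ => (1 : ℝ)) x := by
    funext x; exact (sum_indicator_eq δ c e S x).symm
  rw [this]
  apply Finset.measurable_sum
  intro i _
  exact measurable_const.indicator (measurableSet_tube _ _ _)

/-- the packing constant -/
noncomputable def CG (d : ℕ) : ℝ := 2 * ((d : ℝ) + 1) * (4 * ((d : ℝ) + 1) ^ 2 + 2) ^ d

lemma CG_pos (d : ℕ) : 0 < CG d := by rw [CG]; positivity

lemma one_le_CG (d : ℕ) : 1 ≤ CG d := by
  rw [CG]
  have h1 : (1 : ℝ) ≤ 2 * ((d : ℝ) + 1) := by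
    have : (0 : ℝ) ≤ d := Nat.cast_nonneg d
    linarith
  have h2 : (1 : ℝ) ≤ (4 * ((d : ℝ) + 1) ^ 2 + 2) ^ d := one_le_pow₀ (by nlinarith [sq_nonneg ((d : ℝ) + 1)])
  nlinarith

/-- at most `CG ((ρ+δ)/δ)^d` directions in a ball of radius `ρ` -/
lemma card_near' {S : Finset ι} {e : ι → E d} {δ : ℝ} (hδ : 0 < δ) (h : Fam δ e S) (u : E d)
    {ρ : ℝ} (hρ : 0 ≤ ρ) (hnear : ∀ j ∈ S, ‖e j - u‖ ≤ ρ) :
    (S.card : ℝ) ≤ CG d * ((ρ + δ) / δ) ^ d := by
  have h1 := card_near S e h.unit δ hδ h.sep u (ρ + δ) (by linarith)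
    (fun j hj => (hnear j hj).trans (by linarith))
  have h2 : 1 ≤ (ρ + δ) / δ := by rw [one_le_div hδ]; linarith
  have h3 : 4 * ((d : ℝ) + 1) ^ 2 * ((ρ + δ) / δ) + 2 ≤
      (4 * ((d : ℝ) + 1) ^ 2 + 2) * ((ρ + δ) / δ) := by nlinarith [sq_nonneg ((d : ℝ) + 1)]
  calc (S.card : ℝ) ≤ 2 * ((d : ℝ) + 1) * (4 * ((d : ℝ) + 1) ^ 2 * ((ρ + δ) / δ) + 2) ^ d := h1
    _ ≤ 2 * ((d : ℝ) + 1) * ((4 * ((d : ℝ) + 1) ^ 2 + 2) * ((ρ + δ) / δ)) ^ d := by gcongr
    _ = CG d * ((ρ + δ) / δ) ^ d := by rw [CG, mul_pow]; ring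

/-- decomposition of a point of a tube -/
lemma tube_decomp {δ : ℝ} {c e x : E d} (h : x ∈ tube δ c e) :
    ∃ s : ℝ, ∃ w : E d, x - c = s • e + w ∧ ‖w‖ ≤ δ ∧ |s| ≤ 1 / 2 ∧ s = ⟪x - c, e⟫ :=
  ⟨⟪x - c, e⟫, (x - c) - ⟪x - c, e⟫ • e, by abel, h.2, h.1, rfl⟩

/-- a tube which passes close to two points is almost parallel to the line through them -/
lemma dir_of_two {δ D : ℝ} {c e x y : E d} (he : ‖e‖ = 1)
    (hx : (tube δ c e ∩ Metric.closedBall x D).Nonempty)
    (hy : (tube δ c e ∩ Metric.closedBall y D).Nonempty) (hxy : x ≠ y) :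
    ‖e - (‖x - y‖⁻¹) • (x - y)‖ ≤ 4 * (δ + D) / ‖x - y‖ ∨
      ‖e - (-((‖x - y‖⁻¹) • (x - y)))‖ ≤ 4 * (δ + D) / ‖x - y‖ := by
  obtain ⟨x', hx'1, hx'2⟩ := hx
  obtain ⟨y', hy'1, hy'2⟩ := hy
  obtain ⟨s, w, h1, h2, -, -⟩ := tube_decomp hx'1
  obtain ⟨t, v, h3, h4, -, -⟩ := tube_decomp hy'1
  rw [Metric.mem_closedBall, dist_eq_norm] at hx'2 hy'2
  set R := ‖x - y‖ with hR
  have hRpos : 0 < R := norm_pos_iff.mpr (sub_ne_zero.mpr hxy)
  set g : E d := (w - v) - (x' - x) + (y' - y) with hg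
  have hgn : ‖g‖ ≤ 2 * (δ + D) := by
    calc ‖g‖ ≤ ‖(w - v) - (x' - x)‖ + ‖y' - y‖ := norm_add_le _ _
      _ ≤ (‖w - v‖ + ‖x' - x‖) + ‖y' - y‖ := by gcongr; exact norm_sub_le _ _
      _ ≤ ((‖w‖ + ‖v‖) + ‖x' - x‖) + ‖y' - y‖ := by gcongr; exact norm_sub_le _ _
      _ ≤ 2 * (δ + D) := by linarith
  have hdec : x - y = (s - t) • e + g := by
    have : x - y = (x' - c) - (y' - c) - (x' - x) + (y' - y) := by abel
    rw [this, h1, h3, hg, sub_smul]
    abel
  have habs : |(|s - t| - R)| ≤ ‖g‖ := by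
    have h5 : ‖(s - t) • e‖ = |s - t| := by rw [norm_smul, he, mul_one, Real.norm_eq_abs]
    rw [← h5, hR, hdec]
    have := abs_norm_sub_norm_le ((s - t) • e) ((s - t) • e + g)
    refine this.trans (le_of_eq ?_)
    rw [sub_add_cancel_left, norm_neg]
  rcases le_total 0 (s - t) with hs | hs
  · left
    rw [abs_of_nonneg hs] at habs
    have hRe : e = R⁻¹ • (R • e) := by rw [smul_smul, inv_mul_cancel₀ hRpos.ne', one_smul]
    have e1 : e - R⁻¹ • (x - y) = R⁻¹ • ((R - (s - t)) • e - g) := by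
      calc e - R⁻¹ • (x - y) = R⁻¹ • (R • e) - R⁻¹ • ((s - t) • e + g) := by rw [← hRe, ← hdec]
        _ = R⁻¹ • ((R - (s - t)) • e - g) := by module
    rw [e1, norm_smul, norm_inv, Real.norm_eq_abs, abs_of_pos hRpos, div_eq_inv_mul]
    refine mul_le_mul_of_nonneg_left ?_ (by positivity)
    calc ‖(R - (s - t)) • e - g‖ ≤ ‖(R - (s - t)) • e‖ + ‖g‖ := norm_sub_le _ _
      _ = |R - (s - t)| + ‖g‖ := by rw [norm_smul, he, mul_one, Real.norm_eq_abs]
      _ ≤ ‖g‖ + ‖g‖ := by rw [abs_sub_comm]; gcongr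
      _ ≤ 4 * (δ + D) := by linarith
  · right
    rw [abs_of_nonpos hs] at habs
    have hRe : e = R⁻¹ • (R • e) := by rw [smul_smul, inv_mul_cancel₀ hRpos.ne', one_smul]
    have e1 : e - (-(R⁻¹ • (x - y))) = R⁻¹ • ((R + (s - t)) • e + g) := by
      calc e - (-(R⁻¹ • (x - y))) = R⁻¹ • (R • e) - (-(R⁻¹ • ((s - t) • e + g))) := by
            rw [← hRe, ← hdec]
        _ = R⁻¹ • ((R + (s - t)) • e + g) := by module
    rw [e1, norm_smul, norm_inv, Real.norm_eq_abs, abs_of_pos hRpos, div_eq_inv_mul]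
    refine mul_le_mul_of_nonneg_left ?_ (by positivity)
    calc ‖(R + (s - t)) • e + g‖ ≤ ‖(R + (s - t)) • e‖ + ‖g‖ := norm_add_le _ _
      _ = |R + (s - t)| + ‖g‖ := by rw [norm_smul, he, mul_one, Real.norm_eq_abs]
      _ ≤ ‖g‖ + ‖g‖ := by
          gcongr
          have : R + (s - t) = -(-(s - t) - R) := by ring
          rw [this, abs_neg]
          exact habs
      _ ≤ 4 * (δ + D) := by linarith

open Classical in
/-- number of tubes close to two points -/
lemma card_two {S : Finset ι} {c e : ι → E d} {δ D : ℝ} (hδ : 0 < δ) (hD : 0 ≤ D)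
    (h : Fam δ e S) {x y : E d} (hxy : x ≠ y) :
    ((S.filter (fun j => (tube δ (c j) (e j) ∩ Metric.closedBall x D).Nonempty ∧
      (tube δ (c j) (e j) ∩ Metric.closedBall y D).Nonempty)).card : ℝ) ≤
      2 * CG d * ((4 * (δ + D) / ‖x - y‖ + δ) / δ) ^ d := by
  set ρ := 4 * (δ + D) / ‖x - y‖ with hρ
  have hρ0 : 0 ≤ ρ := by positivity
  set u := (‖x - y‖⁻¹) • (x - y) with hu
  have hsub : (S.filter (fun j => (tube δ (c j) (e j) ∩ Metric.closedBall x D).Nonempty ∧
      (tube δ (c j) (e j) ∩ Metric.closedBall y D).Nonempty)) ⊆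
      (S.filter (fun j => ‖e j - u‖ ≤ ρ)) ∪ (S.filter (fun j => ‖e j - (-u)‖ ≤ ρ)) := by
    intro j hj
    rw [Finset.mem_filter] at hj
    rw [Finset.mem_union, Finset.mem_filter, Finset.mem_filter]
    rcases dir_of_two (h.unit j hj.1) hj.2.1 hj.2.2 hxy with h1 | h1
    · left; exact ⟨hj.1, h1⟩
    · right; exact ⟨hj.1, h1⟩
  have h1 := card_near' hδ (h.mono (Finset.filter_subset (fun j => ‖e j - u‖ ≤ ρ) S)) u hρ0
    (fun j hj => (Finset.mem_filter.1 hj).2)
  have h2 := card_near' hδ (h.mono (Finset.filter_subset (fun j => ‖e j - (-u)‖ ≤ ρ) S)) (-u) hρ0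
    (fun j hj => (Finset.mem_filter.1 hj).2)
  have h3 := (Finset.card_le_card hsub).trans (Finset.card_union_le _ _)
  have h4 : ((S.filter (fun j => (tube δ (c j) (e j) ∩ Metric.closedBall x D).Nonempty ∧
      (tube δ (c j) (e j) ∩ Metric.closedBall y D).Nonempty)).card : ℝ) ≤
      ((S.filter (fun j => ‖e j - u‖ ≤ ρ)).card : ℝ) + ((S.filter (fun j => ‖e j - (-u)‖ ≤ ρ)).card : ℝ) := by
    exact_mod_cast h3
  linarith

/-- the intersection of two tubes -/
lemma inter_vol {δ θ : ℝ} (hδ : 0 ≤ δ) (hθ : 0 < θ) {c e c' f : E d} (he : ‖e‖ = 1) (hf : ‖f‖ = 1)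
    (h1 : θ ≤ ‖e - f‖) (h2 : θ ≤ ‖e + f‖) :
    volume (tube δ c e ∩ tube δ c' f) ≤ ENNReal.ofReal ((2 * δ) ^ d * (2 * (8 * δ / θ))) := by
  rcases (tube δ c e ∩ tube δ c' f).eq_empty_or_nonempty with h0 | ⟨y, hy1, hy2⟩
  · rw [h0]; simp
  · refine (measure_mono ?_).trans (volume_slab_le δ hδ c e he ⟪y - c, e⟫ (8 * δ / θ))
    rintro x ⟨hx1, hx2⟩
    refine ⟨hx1, ?_⟩
    obtain ⟨s1, w1, a1, a2, -, a3⟩ := tube_decomp hx1
    obtain ⟨s2, w2, b1, b2, -, b3⟩ := tube_decomp hy1
    obtain ⟨t1, v1, p1, p2, -, p3⟩ := tube_decomp hx2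
    obtain ⟨t2, v2, q1, q2, -, q3⟩ := tube_decomp hy2
    rw [← a3, ← b3]
    set s := s1 - s2 with hs
    set t := t1 - t2 with ht
    have e1 : s • e - t • f = (v1 - v2) - (w1 - w2) := by
      have : (x - c) - (y - c) = (x - c') - (y - c') := by abel
      rw [a1, b1, p1, q1] at this
      rw [hs, ht, sub_smul, sub_smul]
      have h5 : s1 • e + w1 - (s2 • e + w2) - (t1 • f + v1 - (t2 • f + v2)) = 0 := by
        rw [this]; abel
      have h6 : s1 • e - s2 • e - (t1 • f - t2 • f) - ((v1 - v2) - (w1 - w2)) =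
          s1 • e + w1 - (s2 • e + w2) - (t1 • f + v1 - (t2 • f + v2)) := by abel
      rw [← sub_eq_zero, h6, h5]
    have e2 : ‖s • e - t • f‖ ≤ 4 * δ := by
      rw [e1]
      calc ‖(v1 - v2) - (w1 - w2)‖ ≤ ‖v1 - v2‖ + ‖w1 - w2‖ := norm_sub_le _ _
        _ ≤ (‖v1‖ + ‖v2‖) + (‖w1‖ + ‖w2‖) := by gcongr <;> exact norm_sub_le _ _
        _ ≤ 4 * δ := by linarith
    have e3 : |(|s| - |t|)| ≤ 4 * δ := by
      have h5 : ‖s • e‖ = |s| := by rw [norm_smul, he, mul_one, Real.norm_eq_abs]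
      have h6 : ‖t • f‖ = |t| := by rw [norm_smul, hf, mul_one, Real.norm_eq_abs]
      rw [← h5, ← h6]
      exact (abs_norm_sub_norm_le _ _).trans e2
    rw [le_div_iff₀ hθ]
    rcases le_total 0 (s * t) with hst | hst
    · have e4 : |t - s| ≤ 4 * δ := by
        have : |t - s| = |(|s| - |t|)| := by
          rcases le_total 0 s with hs0 | hs0 <;> rcases le_total 0 t with ht0 | ht0
          · rw [abs_of_nonneg hs0, abs_of_nonneg ht0, abs_sub_comm]
          · have : s * t = 0 := le_antisymm (mul_nonpos_of_nonneg_of_nonpos hs0 ht0) hst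
            rcases mul_eq_zero.mp this with h | h
            · rw [h]; simp
            · rw [h]; simp
          · have : s * t = 0 := le_antisymm (mul_nonpos_of_nonpos_of_nonneg hs0 ht0) hst
            rcases mul_eq_zero.mp this with h | h
            · rw [h]; simp
            · rw [h]; simp
          · rw [abs_of_nonpos hs0, abs_of_nonpos ht0]; congr 1; ring
        rw [this]; exact e3
      calc |s| * θ ≤ |s| * ‖e - f‖ := by gcongr
        _ = ‖s • (e - f)‖ := by rw [norm_smul, Real.norm_eq_abs]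
        _ = ‖(s • e - t • f) + (t - s) • f‖ := by congr 1; module
        _ ≤ ‖s • e - t • f‖ + ‖(t - s) • f‖ := norm_add_le _ _
        _ ≤ 4 * δ + 4 * δ := by
            gcongr
            rw [norm_smul, hf, mul_one, Real.norm_eq_abs]; exact e4
        _ = 8 * δ := by ring
    · have e4 : |t + s| ≤ 4 * δ := by
        have : |t + s| = |(|s| - |t|)| := by
          rcases le_total 0 s with hs0 | hs0 <;> rcases le_total 0 t with ht0 | ht0
          · have : s * t = 0 := le_antisymm hst (mul_nonneg hs0 ht0)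
            rcases mul_eq_zero.mp this with h | h
            · rw [h]; simp
            · rw [h]; simp
          · rw [abs_of_nonneg hs0, abs_of_nonpos ht0]; congr 1; ring
          · rw [abs_of_nonpos hs0, abs_of_nonneg ht0, ← abs_neg]; congr 1; ring
          · have : s * t = 0 := le_antisymm hst (mul_nonneg_of_nonpos_of_nonpos hs0 ht0)
            rcases mul_eq_zero.mp this with h | h
            · rw [h]; simp
            · rw [h]; simp
        rw [this]; exact e3
      calc |s| * θ ≤ |s| * ‖e + f‖ := by gcongr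
        _ = ‖s • (e + f)‖ := by rw [norm_smul, Real.norm_eq_abs]
        _ = ‖(s • e - t • f) + (t + s) • f‖ := by congr 1; module
        _ ≤ ‖s • e - t • f‖ + ‖(t + s) • f‖ := norm_add_le _ _
        _ ≤ 4 * δ + 4 * δ := by
            gcongr
            rw [norm_smul, hf, mul_one, Real.norm_eq_abs]; exact e4
        _ = 8 * δ := by ring

/-! ### Colouring -/

open Classical in
/-- greedy colouring -/
lemma exists_colour (S : Finset ι) (e : ι → E d) (ρ : ℝ) (hρ : 0 < ρ) (K : ℕ)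
    (hK : ∀ i ∈ S, (S.filter (fun j => ‖e j - e i‖ < ρ)).card ≤ K) (hK0 : 0 < K) :
    ∃ χ : ι → Fin K, ∀ i ∈ S, ∀ j ∈ S, i ≠ j → χ i = χ j → ρ ≤ ‖e i - e j‖ := by
  induction S using Finset.induction_on with
  | empty => exact ⟨fun _ => ⟨0, hK0⟩, by simp⟩
  | insert a S ha ih =>
    obtain ⟨χ, hχ⟩ := ih (fun i hi => (Finset.card_le_card (Finset.filter_subset_filter _
      (Finset.subset_insert a S))).trans (hK i (Finset.mem_insert_of_mem hi)))
    -- a free colour
    set B := S.filter (fun j => ‖e j - e a‖ < ρ) with hB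
    have hBcard : B.card < K := by
      have h1 := hK a (Finset.mem_insert_self a S)
      have h2 : insert a B ⊆ (insert a S).filter (fun j => ‖e j - e a‖ < ρ) := by
        intro j hj
        rw [Finset.mem_insert] at hj
        rw [Finset.mem_filter]
        rcases hj with rfl | hj
        · exact ⟨Finset.mem_insert_self _ _, by simpa using hρ⟩
        · rw [hB, Finset.mem_filter] at hj
          exact ⟨Finset.mem_insert_of_mem hj.1, hj.2⟩
      have h3 : a ∉ B := fun h => ha (Finset.mem_filter.1 h).1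
      have h4 := Finset.card_le_card h2
      rw [Finset.card_insert_of_notMem h3] at h4
      omega
    obtain ⟨k, hk⟩ : ∃ k : Fin K, k ∉ B.image χ := by
      by_contra hcon
      push Not at hcon
      have h1 : (Finset.univ : Finset (Fin K)) ⊆ B.image χ := fun k _ => hcon k
      have h2 := (Finset.card_le_card h1).trans Finset.card_image_le
      rw [Finset.card_univ, Fintype.card_fin] at h2
      omega
    refine ⟨Function.update χ a k, ?_⟩
    intro i hi j hj hij hc
    rw [Finset.mem_insert] at hi hj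
    by_cases hia : i = a
    · subst hia
      have hja : j ≠ i := hij.symm
      have hjS := hj.resolve_left hja
      rw [Function.update_self, Function.update_of_ne hja] at hc
      by_contra hlt
      push Not at hlt
      apply hk
      rw [hc]
      exact Finset.mem_image_of_mem _ (Finset.mem_filter.2 ⟨hjS, by rw [norm_sub_rev]; exact hlt⟩)
    · have hiS := hi.resolve_left hia
      by_cases hja : j = a
      · subst hja
        rw [Function.update_self, Function.update_of_ne hia] at hc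
        by_contra hlt
        push Not at hlt
        apply hk
        rw [← hc]
        exact Finset.mem_image_of_mem _ (Finset.mem_filter.2 ⟨hiS, hlt⟩)
      · rw [Function.update_of_ne hia, Function.update_of_ne hja] at hc
        exact hχ i hiS j (hj.resolve_left hja) hij hc

end Pool.Agent.H53.Kak
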