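import Pool.Agent.H53.Kak.Basic

/-!
# The inequality with a loss; consequences for families with repeated directions
-/

set_option autoImplicit false

open MeasureTheory ENNReal
open scoped RealInnerProductSpace

namespace Pool.Agent.H53.Kak

variable {d : ℕ} {ι : Type}

/-- The Kakeya inequality at exponent `q` with the loss `C δ^(-ε)`. -/
def Loss (d : ℕ) (q ε C : ℝ) : Prop :=
  ∀ δ : ℝ, 0 < δ → δ < 1 → ∀ (ι : Type) (S : Finset ι) (c e : ι → E d), Fam δ e S →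
    eLpNorm (fun x => (mu δ c e S x : ℝ)) (ENNReal.ofReal q) volume ≤
      ENNReal.ofReal (C * δ ^ (-ε) * (δ ^ ((d : ℝ) / q) * (S.card : ℝ) ^ (1 - 1 / (q * d))))

lemma sum_rpow_le {κ : Type} (T : Finset κ) (hT : T.Nonempty) (a : κ → ℝ) (ha : ∀ k ∈ T, 0 ≤ a k)
    {s : ℝ} (hs0 : 0 ≤ s) (hs1 : s ≤ 1) :
    ∑ k ∈ T, a k ^ s ≤ (T.card : ℝ) ^ (1 - s) * (∑ k ∈ T, a k) ^ s := by
  have hTpos : (0 : ℝ) < T.card := by exact_mod_cast Finset.card_pos.mpr hT
  have h := (Real.concaveOn_rpow hs0 hs1).le_map_sum (t := T) (w := fun _ => (T.card : ℝ)⁻¹)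
    (p := a) (fun _ _ => by positivity)
    (by rw [Finset.sum_const, nsmul_eq_mul, mul_inv_cancel₀ hTpos.ne']) (fun k hk => ha k hk)
  simp only [smul_eq_mul] at h
  rw [← Finset.mul_sum, ← Finset.mul_sum] at h
  have hsum : 0 ≤ ∑ k ∈ T, a k := Finset.sum_nonneg ha
  calc ∑ k ∈ T, a k ^ s = (T.card : ℝ) * ((T.card : ℝ)⁻¹ * ∑ k ∈ T, a k ^ s) := by
        rw [← mul_assoc, mul_inv_cancel₀ hTpos.ne', one_mul]
    _ ≤ (T.card : ℝ) * ((T.card : ℝ)⁻¹ * ∑ k ∈ T, a k) ^ s := by gcongr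
    _ = (T.card : ℝ) ^ (1 - s) * (∑ k ∈ T, a k) ^ s := by
        rw [Real.mul_rpow (by positivity) hsum, Real.inv_rpow hTpos.le, Real.rpow_sub hTpos,
          Real.rpow_one]
        field_simp

/-- families in which every direction is repeated at most `K` times -/
lemma multi {q ε C : ℝ} (hd : 1 ≤ d) (hq : 1 ≤ q) (hC : 0 ≤ C) (h : Loss d q ε C) {ρ : ℝ}
    (hρ : 0 < ρ) (hρ1 : ρ < 1) (S : Finset ι) (c e : ι → E d) (hunit : ∀ i ∈ S, ‖e i‖ = 1)
    (K : ℕ) (hK0 : 0 < K) (hK : ∀ i ∈ S, (S.filter (fun j => ‖e j - e i‖ < ρ)).card ≤ K) :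
    eLpNorm (fun x => (mu ρ c e S x : ℝ)) (ENNReal.ofReal q) volume ≤
      ENNReal.ofReal (C * ρ ^ (-ε) * (ρ ^ ((d : ℝ) / q) *
        ((K : ℝ) ^ (1 / (q * d)) * (S.card : ℝ) ^ (1 - 1 / (q * d))))) := by
  classical
  obtain ⟨χ, hχ⟩ := exists_colour S e ρ hρ K (by
    intro i hi
    convert hK i hi) hK0
  have hq0 : 0 < q := by linarith
  have hd1 : (1 : ℝ) ≤ d := by exact_mod_cast hd
  have hqd : 1 ≤ q * d := by nlinarith
  have hs0 : 0 ≤ 1 - 1 / (q * d) := by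
    have : 1 / (q * d) ≤ 1 := by rw [div_le_one (by positivity)]; exact hqd
    linarith
  have hs1 : 1 - 1 / (q * d) ≤ 1 := by
    have : 0 ≤ 1 / (q * d) := by positivity
    linarith
  set A : ℝ := C * ρ ^ (-ε) * ρ ^ ((d : ℝ) / q) with hA
  have hA0 : 0 ≤ A := by positivity
  have hcls : ∀ k : Fin K, eLpNorm (fun x => (mu ρ c e (S.filter (fun j => χ j = k)) x : ℝ))
      (ENNReal.ofReal q) volume ≤
      ENNReal.ofReal (A * ((S.filter (fun j => χ j = k)).card : ℝ) ^ (1 - 1 / (q * d))) := by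
    intro k
    refine (h ρ hρ hρ1 ι (S.filter (fun j => χ j = k)) c e ⟨?_, ?_⟩).trans (le_of_eq ?_)
    · intro i hi
      exact hunit i (Finset.mem_filter.1 hi).1
    · intro i hi j hj hij
      rw [Finset.mem_filter] at hi hj
      exact hχ i hi.1 j hj.1 hij (hi.2.trans hj.2.symm)
    · rw [hA]; congr 1; ring
  have hfun : (fun x => (mu ρ c e S x : ℝ)) =
      ∑ k : Fin K, (fun x => (mu ρ c e (S.filter (fun j => χ j = k)) x : ℝ)) := by
    funext x
    rw [Finset.sum_apply, ← sum_indicator_eq]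
    simp_rw [← sum_indicator_eq]
    rw [Finset.sum_fiberwise]
  have hcard : ∑ k : Fin K, ((S.filter (fun j => χ j = k)).card : ℝ) = S.card := by
    have := Finset.card_eq_sum_card_fiberwise (s := S) (t := Finset.univ) (f := χ)
      (fun _ _ => by simp)
    rw [this]; push_cast; rfl
  have : Nonempty (Fin K) := ⟨⟨0, hK0⟩⟩
  rw [hfun]
  calc eLpNorm (∑ k : Fin K, (fun x => (mu ρ c e (S.filter (fun j => χ j = k)) x : ℝ)))
        (ENNReal.ofReal q) volume
      ≤ ∑ k : Fin K, eLpNorm (fun x => (mu ρ c e (S.filter (fun j => χ j = k)) x : ℝ))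
        (ENNReal.ofReal q) volume := by
        apply eLpNorm_sum_le
        · intro k _
          exact (measurable_mu ρ c e _).aestronglyMeasurable
        · rw [← ENNReal.ofReal_one]
          exact ENNReal.ofReal_le_ofReal hq
    _ ≤ ∑ k : Fin K, ENNReal.ofReal
        (A * ((S.filter (fun j => χ j = k)).card : ℝ) ^ (1 - 1 / (q * d))) :=
        Finset.sum_le_sum fun k _ => hcls k
    _ = ENNReal.ofReal (∑ k : Fin K,
        A * ((S.filter (fun j => χ j = k)).card : ℝ) ^ (1 - 1 / (q * d))) := by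
        rw [ENNReal.ofReal_sum_of_nonneg]
        intro k _; positivity
    _ ≤ _ := by
        apply ENNReal.ofReal_le_ofReal
        rw [← Finset.mul_sum]
        have h1 := sum_rpow_le (Finset.univ : Finset (Fin K)) Finset.univ_nonempty
          (fun k => ((S.filter (fun j => χ j = k)).card : ℝ)) (fun _ _ => by positivity) hs0 hs1
        rw [hcard, Finset.card_univ, Fintype.card_fin] at h1
        have h2 : (1 : ℝ) - (1 - 1 / (q * d)) = 1 / (q * d) := by ring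
        rw [h2] at h1
        calc A * ∑ k : Fin K, ((S.filter (fun j => χ j = k)).card : ℝ) ^ (1 - 1 / (q * d))
            ≤ A * ((K : ℝ) ^ (1 / (q * d)) * (S.card : ℝ) ^ (1 - 1 / (q * d))) := by gcongr
          _ = _ := by rw [hA]; ring

/-- Chebyshev -/
lemma cheb {q X : ℝ} (hq : 0 < q) (hX : 0 ≤ X) {δ : ℝ} {S : Finset ι} {c e : ι → E d}
    (h : eLpNorm (fun x => (mu δ c e S x : ℝ)) (ENNReal.ofReal q) volume ≤ ENNReal.ofReal X)
    {lam : ℝ} (hlam : 0 < lam) :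
    volume {x | lam ≤ mu δ c e S x} ≤ ENNReal.ofReal (lam ^ (-q) * X ^ q) := by
  have h1 := mul_meas_ge_le_pow_eLpNorm' (μ := (volume : Measure (E d)))
    (f := fun x => (mu δ c e S x : ℝ)) (p := ENNReal.ofReal q) (by simpa using hq)
    ENNReal.ofReal_ne_top (measurable_mu δ c e S).aestronglyMeasurable (ENNReal.ofReal lam)
  rw [ENNReal.toReal_ofReal hq.le] at h1
  have hset : {x : E d | lam ≤ mu δ c e S x} =
      {x : E d | ENNReal.ofReal lam ≤ ‖(mu δ c e S x : ℝ)‖ₑ} := by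
    ext x
    simp only [Set.mem_ofPred_eq]
    rw [Real.enorm_of_nonneg (by positivity), ENNReal.ofReal_le_ofReal_iff (by positivity)]
  rw [hset]
  have hl : ENNReal.ofReal lam ^ q = ENNReal.ofReal (lam ^ q) :=
    ENNReal.ofReal_rpow_of_pos hlam
  have hlne : ENNReal.ofReal (lam ^ q) ≠ 0 := by
    simpa using Real.rpow_pos_of_pos hlam q
  rw [hl] at h1
  have h2 : volume {x : E d | ENNReal.ofReal lam ≤ ‖(mu δ c e S x : ℝ)‖ₑ} ≤
      (ENNReal.ofReal (lam ^ q))⁻¹ * (ENNReal.ofReal X) ^ q := by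
    rw [← ENNReal.mul_le_iff_le_inv hlne ENNReal.ofReal_ne_top]
    exact h1.trans (ENNReal.rpow_le_rpow h hq.le)
  refine h2.trans (le_of_eq ?_)
  rw [← ENNReal.ofReal_inv_of_pos (by positivity), ENNReal.ofReal_rpow_of_nonneg hX hq.le,
    ← ENNReal.ofReal_mul (by positivity), Real.rpow_neg hlam.le]

/-- weak-type form of `multi` -/
lemma multi_weak {q ε C : ℝ} (hd : 1 ≤ d) (hq : 1 ≤ q) (hC : 0 ≤ C) (h : Loss d q ε C) {ρ : ℝ}
    (hρ : 0 < ρ) (hρ1 : ρ < 1) (S : Finset ι) (c e : ι → E d) (hunit : ∀ i ∈ S, ‖e i‖ = 1)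
    (K : ℕ) (hK0 : 0 < K) (hK : ∀ i ∈ S, (S.filter (fun j => ‖e j - e i‖ < ρ)).card ≤ K)
    {lam : ℝ} (hlam : 0 < lam) :
    volume {x | lam ≤ mu ρ c e S x} ≤ ENNReal.ofReal (lam ^ (-q) *
      ((C * ρ ^ (-ε)) ^ q * (ρ ^ d * ((K : ℝ) ^ (1 / (d : ℝ)) * (S.card : ℝ) ^ (q - 1 / d))))) := by
  have hq0 : 0 < q := by linarith
  have hd0 : (0 : ℝ) < d := by exact_mod_cast hd
  refine (cheb hq0 (by positivity) (multi hd hq hC h hρ hρ1 S c e hunit K hK0 hK) hlam).trans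
    (le_of_eq ?_)
  have e1 : (ρ ^ ((d : ℝ) / q)) ^ q = ρ ^ d := by
    rw [← Real.rpow_mul hρ.le, ← Real.rpow_natCast ρ d]
    congr 1; field_simp
  have e2 : ((K : ℝ) ^ (1 / (q * d))) ^ q = (K : ℝ) ^ (1 / (d : ℝ)) := by
    rw [← Real.rpow_mul (by positivity)]
    congr 1; field_simp
  have e3 : ((S.card : ℝ) ^ (1 - 1 / (q * d))) ^ q = (S.card : ℝ) ^ (q - 1 / d) := by
    rw [← Real.rpow_mul (by positivity)]
    congr 1; field_simp
  have e4 : (ρ ^ ((d : ℝ) / q) * ((K : ℝ) ^ (1 / (q * d)) * (S.card : ℝ) ^ (1 - 1 / (q * d)))) ^ q =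
      ρ ^ d * ((K : ℝ) ^ (1 / (d : ℝ)) * (S.card : ℝ) ^ (q - 1 / d)) := by
    rw [Real.mul_rpow (by positivity) (by positivity), e1,
      Real.mul_rpow (by positivity) (by positivity), e2, e3]
  rw [Real.mul_rpow (by positivity) (by positivity), e4]

end Pool.Agent.H53.Kak
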