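import Pool.Agent.H53.Kak.WLevel

/-!
# Induction on scales
-/

set_option autoImplicit false

open MeasureTheory ENNReal
open scoped RealInnerProductSpace

namespace Pool.Agent.H53.Kak

variable {d : ℕ}

lemma WK.mono {q δ β β' : ℝ} (hδ : 0 < δ) (h : WK d q δ β) (hββ' : β ≤ β') : WK d q δ β' := by
  intro ι S c e hF lam hlam
  refine (h ι S c e hF lam hlam).trans (ENNReal.ofReal_le_ofReal ?_)
  gcongr

/-- one step of the induction on scales -/
lemma WK_step (hd : 1 ≤ d) {ε θ : ℝ} (hε : 0 < ε) (hθ0 : 0 < θ) (hθ1 : θ ≤ 1 / 2) :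
    ∃ C6 : ℝ, 0 < C6 ∧ ∀ δ β : ℝ, 0 < δ → δ < 1 → 192 * (d + 1) * δ ≤ θ → 0 < β →
      WK d (qW d) (δ / θ) β →
      WK d (qW d) δ (2 * (Ccap d (qW d) + Cconc d (qW d)) * β + C6 * δ ^ (-ε)) := by
  have hG := CG_pos d
  have hinv : 0 < 1 / (d : ℝ) := by
    have : (0 : ℝ) < d := by exact_mod_cast hd
    positivity
  have hqge := qW_ge hd
  have hq1 : 1 < qW d := by linarith
  have hcq := cq_pos hq1
  have hCcap := Ccap_pos d (qW d)
  have hCconc : 0 < Cconc d (qW d) := by rw [Cconc]; positivity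
  have hCbr : 0 < Cbr d θ := by rw [Cbr]; positivity
  set C7 : ℝ := Cbr d θ * 2 ^ (d * d) * (3 * CG d) with hC7
  have hC70 : 0 < C7 := by positivity
  refine ⟨2 + 2 * C7 * (3 + 2 / ε), by positivity, ?_⟩
  intro δ β hδ hδ1 hδθ hβ h
  obtain ⟨L, hL1, hL2⟩ := num_levels hδ hδ1 hε 1
  have hL : 2 / δ ≤ 2 ^ L := by
    rw [pow_one] at hL1
    rw [div_eq_mul_inv]; exact hL1.le
  have hone : 1 ≤ δ ^ (-ε) :=
    Real.one_le_rpow_of_pos_of_le_one_of_nonpos hδ hδ1.le (by linarith)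
  have hstep := WK_of_levels (q := qW d) hq1 hδ
    (β := (Ccap d (qW d) + Cconc d (qW d)) * β + (1 + Cbr d θ * (L + 1) * 2 ^ (d * d) * (3 * CG d)))
    (by positivity)
    (fun ι S c e hF m hm => level_step hd hβ h hδ hδ1 hθ0 hθ1 hδθ S c e hF hm L hL)
  refine hstep.mono hδ ?_
  have h1 : (L : ℝ) + 1 ≤ (3 + 2 / ε) * δ ^ (-ε) := by
    push_cast at hL2
    calc (L : ℝ) + 1 ≤ (1 + 1 + 2 / ε) * δ ^ (-ε) + δ ^ (-ε) := by linarith
      _ = _ := by ring
  calc 2 * ((Ccap d (qW d) + Cconc d (qW d)) * β +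
        (1 + Cbr d θ * (L + 1) * 2 ^ (d * d) * (3 * CG d)))
      = 2 * (Ccap d (qW d) + Cconc d (qW d)) * β + (2 + 2 * C7 * (L + 1)) := by
        rw [hC7]; ring
    _ ≤ 2 * (Ccap d (qW d) + Cconc d (qW d)) * β +
        (2 * δ ^ (-ε) + 2 * C7 * ((3 + 2 / ε) * δ ^ (-ε))) := by
        gcongr
        linarith
    _ = _ := by ring

/-- the weak-type inequality at the exponent `(n + 2) / n` with small losses -/
theorem wolff_weak (hd : 1 ≤ d) {ε : ℝ} (hε : 0 < ε) :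
    ∃ A : ℝ, 0 < A ∧ ∀ δ : ℝ, 0 < δ → δ < 1 → WK d (qW d) δ (A * δ ^ (-ε)) := by
  have hG := CG_pos d
  have hinv : 0 < 1 / (d : ℝ) := by
    have : (0 : ℝ) < d := by exact_mod_cast hd
    positivity
  have hqge := qW_ge hd
  have hq1 : 1 < qW d := by linarith
  have hcq := cq_pos hq1
  have hCcap := Ccap_pos d (qW d)
  have hCconc : 0 < Cconc d (qW d) := by rw [Cconc]; positivity
  set C4 : ℝ := 2 * (Ccap d (qW d) + Cconc d (qW d)) with hC4
  have hC40 : 0 < C4 := by positivity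
  obtain ⟨θ, hθ0, hθ1, hθε⟩ : ∃ θ : ℝ, 0 < θ ∧ θ ≤ 1 / 2 ∧ C4 * θ ^ ε ≤ 1 / 2 := by
    refine ⟨min (1 / 2) ((2 * C4) ^ (-(1 / ε))), by positivity, min_le_left _ _, ?_⟩
    have h1 : (min (1 / 2) ((2 * C4) ^ (-(1 / ε)))) ^ ε ≤ (2 * C4)⁻¹ := by
      calc (min (1 / 2) ((2 * C4) ^ (-(1 / ε)))) ^ ε ≤ ((2 * C4) ^ (-(1 / ε))) ^ ε := by
            gcongr
            exact min_le_right _ _
        _ = (2 * C4)⁻¹ := by
            rw [← Real.rpow_mul (by positivity)]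
            have : -(1 / ε) * ε = -1 := by field_simp
            rw [this, Real.rpow_neg_one]
    calc C4 * (min (1 / 2) ((2 * C4) ^ (-(1 / ε)))) ^ ε ≤ C4 * (2 * C4)⁻¹ := by gcongr
      _ = 1 / 2 := by field_simp
  obtain ⟨C6, hC60, hstep⟩ := WK_step hd hε hθ0 hθ1
  set δ1 : ℝ := θ / (192 * (d + 1)) with hδ1
  have hδ10 : 0 < δ1 := by positivity
  have hd00 : (0 : ℝ) ≤ d := Nat.cast_nonneg d
  set A : ℝ := 2 ^ d * (3 * CG d / δ1) + 2 * C6 with hA
  have hA0 : 0 < A := by positivity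
  have hbase : ∀ δ : ℝ, δ1 ≤ δ → δ < 1 → WK d (qW d) δ (A * δ ^ (-ε)) := by
    intro δ h1 h2
    have hδ : 0 < δ := hδ10.trans_le h1
    have hone : 1 ≤ δ ^ (-ε) :=
      Real.one_le_rpow_of_pos_of_le_one_of_nonpos hδ h2.le (by linarith)
    refine (WK_trivial hd hq1 hδ10 h1 h2).mono hδ ?_
    calc 2 ^ d * (3 * CG d / δ1) ≤ A := by rw [hA]; linarith
      _ = A * 1 := (mul_one _).symm
      _ ≤ _ := by gcongr
  have hind : ∀ k : ℕ, ∀ δ : ℝ, δ1 * θ ^ k ≤ δ → δ < 1 → WK d (qW d) δ (A * δ ^ (-ε)) := by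
    intro k
    induction k with
    | zero => intro δ h1 h2; exact hbase δ (by simpa using h1) h2
    | succ k ih =>
      intro δ h1 h2
      rcases le_or_gt δ1 δ with h3 | h3
      · exact hbase δ h3 h2
      have hδ : 0 < δ := lt_of_lt_of_le (by positivity) h1
      have h4 : 192 * (d + 1) * δ ≤ θ := by
        rw [hδ1, lt_div_iff₀ (by positivity)] at h3
        linarith
      have h5 : δ1 * θ ^ k ≤ δ / θ := by
        rw [le_div_iff₀ hθ0]
        calc δ1 * θ ^ k * θ = δ1 * θ ^ (k + 1) := by ring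
          _ ≤ δ := h1
      have h6 : δ / θ < 1 := by
        rw [div_lt_one hθ0]
        have : δ < 192 * (d + 1) * δ := by nlinarith
        linarith
      have h7 := hstep δ (A * (δ / θ) ^ (-ε)) hδ h2 h4 (by positivity) (ih (δ / θ) h5 h6)
      refine h7.mono hδ ?_
      have h8 : (δ / θ) ^ (-ε) = θ ^ ε * δ ^ (-ε) := by
        rw [Real.div_rpow hδ.le hθ0.le, Real.rpow_neg hθ0.le]
        field_simp
      rw [h8]
      calc C4 * (A * (θ ^ ε * δ ^ (-ε))) + C6 * δ ^ (-ε)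
          = (C4 * θ ^ ε) * (A * δ ^ (-ε)) + C6 * δ ^ (-ε) := by ring
        _ ≤ (1 / 2) * (A * δ ^ (-ε)) + C6 * δ ^ (-ε) := by gcongr
        _ = (A / 2 + C6) * δ ^ (-ε) := by ring
        _ ≤ A * δ ^ (-ε) := by
            have : A / 2 + C6 ≤ A := by
              have h9 : 0 < 2 ^ d * (3 * CG d / δ1) := by positivity
              rw [hA]; linarith
            gcongr
  refine ⟨A, hA0, fun δ hδ hδlt => ?_⟩
  obtain ⟨k, hk⟩ := exists_pow_lt_of_lt_one (div_pos hδ hδ10) (by linarith : θ < 1)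
  refine hind k δ ?_ hδlt
  rw [lt_div_iff₀ hδ10] at hk
  linarith

/-- The lossless multiplicity inequality for every exponent above `(n + 2) / n`. -/
theorem lossless (hd : 1 ≤ d) {q : ℝ} (hq : qW d < q) : ∃ C : ℝ, Loss d q 0 C := by
  have hd0 : (0 : ℝ) < d := by exact_mod_cast hd
  have hinv : 0 < 1 / (d : ℝ) := by positivity
  have hqge := qW_ge hd
  have hq1 : 1 < qW d := by linarith
  set q1 : ℝ := (qW d + q) / 2 with hq1def
  have hq01 : qW d < q1 := by rw [hq1def]; linarith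
  have hq1q : q1 < q := by rw [hq1def]; linarith
  have hq10 : 0 < q1 := by linarith
  refine removal hd (hqge.trans hq01.le) ?_ hq1q
  intro ε hε
  have hε1 : 0 < ε * q1 := by positivity
  obtain ⟨A, hA0, hA⟩ := wolff_weak hd hε1
  set K : ℝ := 2 ^ (qW d) / (1 - (1 / 2) ^ (q1 - qW d)) with hK
  have hK0 : 0 < K := by
    have : ((1 : ℝ) / 2) ^ (q1 - qW d) < 1 :=
      Real.rpow_lt_one (by norm_num) (by norm_num) (by linarith)
    rw [hK]
    apply div_pos (by positivity); linarith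
  refine ⟨(A * K) ^ (1 / q1), ?_⟩
  intro δ hδ hδ1 ι S c e hF
  rcases Nat.eq_zero_or_pos S.card with hS0 | hS
  · have hS1 : S = ∅ := Finset.card_eq_zero.mp hS0
    subst hS1
    have : (fun x => (mu δ c e (∅ : Finset ι) x : ℝ)) = 0 := by
      funext x; simp [mu]
    rw [this, eLpNorm_zero]
    exact bot_le
  have hNr : (0 : ℝ) < S.card := by exact_mod_cast hS
  have hsw := strong_of_weak (q' := qW d) (q1 := q1) (W := A * δ ^ (-(ε * q1))) (by linarith) hq01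
    (by positivity) hδ hd S c e hS (by
      intro κ hκ _
      refine (hA δ hδ hδ1 ι S c e hF (κ * S.card) (by positivity)).trans (le_of_eq ?_)
      congr 1
      rw [Real.mul_rpow hκ.le hNr.le]
      have h1 : (S.card : ℝ) ^ (-(qW d)) * (S.card : ℝ) ^ (qW d - 1 / (d : ℝ)) =
          (S.card : ℝ) ^ (-(1 / (d : ℝ))) := by
        rw [← Real.rpow_add hNr]; congr 1; ring
      rw [← h1]; ring)
  refine hsw.trans (le_of_eq ?_)
  congr 1
  have h2 : A * δ ^ (-(ε * q1)) * 2 ^ (qW d) / (1 - (1 / 2) ^ (q1 - qW d)) =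
      (A * K) * δ ^ (-(ε * q1)) := by rw [hK]; ring
  rw [h2, Real.mul_rpow (by positivity) (by positivity), ← Real.rpow_mul hδ.le]
  have h3 : -(ε * q1) * (1 / q1) = -ε := by field_simp
  rw [h3]

end Pool.Agent.H53.Kak
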