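import Pool.Agent.H53.Kak.Dual

/-!
# The tube form implies the maximal form
-/

set_option autoImplicit false

open MeasureTheory ENNReal
open scoped RealInnerProductSpace

namespace Pool.Agent.H53.Kak

variable {d : ℕ} {ι : Type}

/-- averages at least `t` on the tubes of a family -/
lemma level {q ε C : ℝ} (hd : 1 ≤ d) (hq : 1 < q) (hC : 0 ≤ C) (h : Loss d q ε C) {δ : ℝ}
    (hδ : 0 < δ) (hδ1 : δ < 1) (J : Finset ι) (c e : ι → E d) (hF : Fam δ e J)
    (f : E d → ℝ≥0∞) (hf : Measurable f) {F : ℝ} (hF0 : 0 ≤ F)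
    (hfF : (∫⁻ x, f x ^ (q / (q - 1))) ^ (1 - 1 / q) = ENNReal.ofReal F) {t : ℝ} (ht : 0 ≤ t)
    (hlev : ∀ i ∈ J, ENNReal.ofReal t ≤ ENNReal.ofReal ((δ ^ d)⁻¹) *
      ∫⁻ x in tube δ (c i) (e i), f x) :
    (δ ^ d * J.card) * t ^ (q * d) ≤
      (C * δ ^ (-ε) * (δ ^ (-(((d : ℝ) + 1) * (1 - 1 / q) - 1)) * F)) ^ (q * d) := by
  have hd0 : (0 : ℝ) < d := by exact_mod_cast hd
  have hd1 : (1 : ℝ) ≤ d := by exact_mod_cast hd
  have hq0 : 0 < q := by linarith only [hq, hδ, hδ1]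
  have hq1 : 0 < q - 1 := by linarith only [hq]
  have hqd : 1 < q * d := by nlinarith only [hd1, hq, hd0]
  have hqd0 : 0 < q * d := by linarith only [hδ, hδ1, hqd]
  have hδd : 0 < δ ^ d := by positivity
  rcases Nat.eq_zero_or_pos J.card with hS0 | hpos
  · rw [hS0]; simp only [Nat.cast_zero, mul_zero, zero_mul]; positivity
  have hNr : (0 : ℝ) < J.card := by exact_mod_cast hpos
  -- the basic inequality
  have h1 : ENNReal.ofReal (J.card * t) ≤ ENNReal.ofReal ((δ ^ d)⁻¹ *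
      (F * (C * δ ^ (-ε) * (δ ^ ((d : ℝ) / q) * (J.card : ℝ) ^ (1 - 1 / (q * d)))))) := by
    calc ENNReal.ofReal (J.card * t) = ∑ _i ∈ J, ENNReal.ofReal t := by
          rw [Finset.sum_const, nsmul_eq_mul, ENNReal.ofReal_mul (by positivity),
            ENNReal.ofReal_natCast]
      _ ≤ ∑ i ∈ J, ENNReal.ofReal ((δ ^ d)⁻¹) * ∫⁻ x in tube δ (c i) (e i), f x :=
          Finset.sum_le_sum hlev
      _ = ENNReal.ofReal ((δ ^ d)⁻¹) * ∫⁻ x, f x * (mu δ c e J x : ℝ≥0∞) := by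
          rw [← Finset.mul_sum, sum_setLIntegral δ c e J f hf]
      _ ≤ ENNReal.ofReal ((δ ^ d)⁻¹) * (ENNReal.ofReal F * ENNReal.ofReal
          (C * δ ^ (-ε) * (δ ^ ((d : ℝ) / q) * (J.card : ℝ) ^ (1 - 1 / (q * d))))) := by
          gcongr
          have h2 := ENNReal.lintegral_mul_le_Lp_mul_Lq (volume : Measure (E d)) (holderConj hq)
            hf.aemeasurable (measurable_muE δ c e J).aemeasurable
          have h3 := h δ hδ hδ1 ι J c e hF
          rw [eLpNorm_mu δ c e J hq0] at h3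
          have h4 : 1 / (q / (q - 1)) = 1 - 1 / q := by field_simp
          rw [h4, hfF] at h2
          exact h2.trans (by gcongr)
      _ = _ := by
          rw [← ENNReal.ofReal_mul hF0, ← ENNReal.ofReal_mul (by positivity)]
  rw [ENNReal.ofReal_le_ofReal_iff (by positivity)] at h1
  -- rewrite with powers
  have hp : (0 : ℝ) < (J.card : ℝ) ^ (1 - 1 / (q * d)) := by positivity
  have h2 : (J.card : ℝ) = (J.card : ℝ) ^ (1 / (q * d)) * (J.card : ℝ) ^ (1 - 1 / (q * d)) := by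
    rw [← Real.rpow_add hNr, add_sub_cancel, Real.rpow_one]
  have h3 : (J.card : ℝ) ^ (1 / (q * d)) * t ≤
      (δ ^ d)⁻¹ * (F * (C * δ ^ (-ε) * δ ^ ((d : ℝ) / q))) := by
    have h4 : ((J.card : ℝ) ^ (1 / (q * d)) * t) * (J.card : ℝ) ^ (1 - 1 / (q * d)) ≤
        ((δ ^ d)⁻¹ * (F * (C * δ ^ (-ε) * δ ^ ((d : ℝ) / q)))) *
          (J.card : ℝ) ^ (1 - 1 / (q * d)) := by
      calc _ = ((J.card : ℝ) ^ (1 / (q * d)) * (J.card : ℝ) ^ (1 - 1 / (q * d))) * t := by ring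
        _ = J.card * t := by rw [← h2]
        _ ≤ _ := h1
        _ = _ := by ring
    exact le_of_mul_le_mul_right h4 hp
  clear h2
  have h5 : (δ ^ d) ^ (1 / (q * d)) = δ ^ (1 / q) := by
    rw [← Real.rpow_natCast, ← Real.rpow_mul hδ.le]; congr 1; field_simp
  have h6 : δ ^ (1 / q) * ((δ ^ d)⁻¹ * δ ^ ((d : ℝ) / q)) =
      δ ^ (-(((d : ℝ) + 1) * (1 - 1 / q) - 1)) := by
    rw [← Real.rpow_natCast, ← Real.rpow_neg hδ.le, ← Real.rpow_add hδ, ← Real.rpow_add hδ]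
    congr 1; field_simp; ring
  have h7 : (δ ^ d * J.card) ^ (1 / (q * d)) * t ≤
      C * δ ^ (-ε) * (δ ^ (-(((d : ℝ) + 1) * (1 - 1 / q) - 1)) * F) := by
    rw [Real.mul_rpow hδd.le hNr.le, h5, ← h6]
    calc _ = δ ^ (1 / q) * ((J.card : ℝ) ^ (1 / (q * d)) * t) := by ring
      _ ≤ δ ^ (1 / q) * ((δ ^ d)⁻¹ * (F * (C * δ ^ (-ε) * δ ^ ((d : ℝ) / q)))) := by gcongr
      _ = _ := by ring
  have h8 : (δ ^ d * J.card) * t ^ (q * d) =
      ((δ ^ d * J.card) ^ (1 / (q * d)) * t) ^ (q * d) := by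
    rw [Real.mul_rpow (by positivity) ht, ← Real.rpow_mul (by positivity),
      one_div_mul_cancel hqd0.ne', Real.rpow_one]
  rw [h8]
  exact Real.rpow_le_rpow (by positivity) h7 hqd0.le

/-- dyadic level sets of a function on a finite set -/
lemma dyadic_sum (S : Finset ι) (a : ι → ℝ) (ha : ∀ i ∈ S, 0 ≤ a i) {G : ℝ} (hG : 0 < G)
    (K : ℕ) (hK : ∀ i ∈ S, a i < 2 ^ K * G) {r w : ℝ} (hr : 0 ≤ r) (hw : 0 ≤ w) {L Y : ℝ}
    (hlow : w * S.card ≤ L)
    (hlev : ∀ J ⊆ S, ∀ t : ℝ, 0 ≤ t → (∀ i ∈ J, t ≤ a i) → (w * J.card) * t ^ r ≤ Y) :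
    ∑ i ∈ S, w * a i ^ r ≤ L * G ^ r + K * (2 ^ r * Y) := by
  classical
  have hpt : ∀ i ∈ S, w * a i ^ r ≤ w * G ^ r + ∑ k ∈ Finset.range K,
      (if 2 ^ k * G ≤ a i then w * ((2 : ℝ) ^ (k + 1) * G) ^ r else 0) := by
    intro i hi
    have hterm : ∀ k ∈ Finset.range K, (0 : ℝ) ≤
        (if 2 ^ k * G ≤ a i then w * ((2 : ℝ) ^ (k + 1) * G) ^ r else 0) := by
      intro k _
      split_ifs
      · positivity
      · exact le_rfl
    rcases lt_or_ge (a i) G with h1 | h1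
    · have h2 : w * a i ^ r ≤ w * G ^ r := by
        apply mul_le_mul_of_nonneg_left _ hw
        exact Real.rpow_le_rpow (ha i hi) h1.le hr
      have h3 := Finset.sum_nonneg hterm
      linarith only [h2, h3]
    · -- choose the level
      have hex : ∃ k : ℕ, a i < 2 ^ (k + 1) * G := by
        refine ⟨K, (hK i hi).trans_le ?_⟩
        gcongr
        · norm_num
        · omega
      classical
      set k := Nat.find hex with hk
      have hk1 : a i < 2 ^ (k + 1) * G := Nat.find_spec hex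
      have hk2 : 2 ^ k * G ≤ a i := by
        rcases Nat.eq_zero_or_pos k with h0 | hp
        · rw [h0, pow_zero, one_mul]; exact h1
        · have h4 := Nat.find_min hex (m := k - 1) (by omega)
          push Not at h4
          have h5 : k - 1 + 1 = k := by omega
          rwa [h5] at h4
      have hkK : k < K := by
        by_contra hcon
        push Not at hcon
        have h4 := hK i hi
        have h5 : (2 : ℝ) ^ K * G ≤ 2 ^ k * G := by
          gcongr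
          norm_num
        linarith only [hk2, h4, h5]
      have h6 : w * a i ^ r ≤ (if 2 ^ k * G ≤ a i then w * ((2 : ℝ) ^ (k + 1) * G) ^ r else 0) := by
        rw [if_pos hk2]
        apply mul_le_mul_of_nonneg_left _ hw
        exact Real.rpow_le_rpow (ha i hi) hk1.le hr
      have h7 := Finset.single_le_sum hterm (Finset.mem_range.mpr hkK)
      have h8 : 0 ≤ w * G ^ r := by positivity
      linarith only [h6, h7, h8]
  calc ∑ i ∈ S, w * a i ^ r ≤ ∑ i ∈ S, (w * G ^ r + ∑ k ∈ Finset.range K,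
      (if 2 ^ k * G ≤ a i then w * ((2 : ℝ) ^ (k + 1) * G) ^ r else 0)) := Finset.sum_le_sum hpt
    _ = (w * S.card) * G ^ r + ∑ k ∈ Finset.range K, ∑ i ∈ S,
      (if 2 ^ k * G ≤ a i then w * ((2 : ℝ) ^ (k + 1) * G) ^ r else 0) := by
        rw [Finset.sum_add_distrib, Finset.sum_const, nsmul_eq_mul, Finset.sum_comm]
        ring
    _ ≤ L * G ^ r + ∑ _k ∈ Finset.range K, 2 ^ r * Y := by
        gcongr with k hk
        rw [← Finset.sum_filter, Finset.sum_const, nsmul_eq_mul]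
        have h1 := hlev (S.filter (fun i => 2 ^ k * G ≤ a i)) (Finset.filter_subset _ _)
          (2 ^ k * G) (by positivity) (fun i hi => (Finset.mem_filter.1 hi).2)
        have h2 : ((2 : ℝ) ^ (k + 1) * G) ^ r = 2 ^ r * (2 ^ k * G) ^ r := by
          rw [← Real.mul_rpow (by norm_num) (by positivity)]
          congr 1; rw [pow_succ]; ring
        rw [h2]
        calc _ = 2 ^ r * ((w * ((S.filter (fun i => 2 ^ k * G ≤ a i)).card : ℝ)) *
              (2 ^ k * G) ^ r) := by ring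
          _ ≤ 2 ^ r * Y := by gcongr
    _ = _ := by
        rw [Finset.sum_const, nsmul_eq_mul, Finset.card_range]

/-- the number of levels -/
lemma num_levels {δ ε : ℝ} (hδ : 0 < δ) (hδ1 : δ < 1) (hε : 0 < ε) (m : ℕ) :
    ∃ K : ℕ, 2 ^ m * δ⁻¹ < 2 ^ K ∧ (K : ℝ) ≤ (m + 1 + 2 / ε) * δ ^ (-ε) := by
  obtain ⟨n, hn⟩ : ∃ n : ℕ, δ⁻¹ < 2 ^ n ∧ (n : ℝ) ≤ Real.logb 2 δ⁻¹ + 1 := by
    refine ⟨⌊Real.logb 2 δ⁻¹⌋₊ + 1, ?_, ?_⟩
    · have h1 := Nat.lt_floor_add_one (Real.logb 2 δ⁻¹)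
      have h2 : δ⁻¹ = 2 ^ Real.logb 2 δ⁻¹ :=
        (Real.rpow_logb (by norm_num) (by norm_num) (by positivity)).symm
      calc δ⁻¹ = 2 ^ Real.logb 2 δ⁻¹ := h2
        _ < (2 : ℝ) ^ ((⌊Real.logb 2 δ⁻¹⌋₊ + 1 : ℕ) : ℝ) := by
            apply Real.rpow_lt_rpow_of_exponent_lt (by norm_num)
            push_cast; exact h1
        _ = 2 ^ (⌊Real.logb 2 δ⁻¹⌋₊ + 1) := Real.rpow_natCast _ _
    · push_cast
      have h1 : 0 ≤ Real.logb 2 δ⁻¹ := by
        apply Real.logb_nonneg (by norm_num)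
        exact (one_le_inv₀ hδ).mpr hδ1.le
      linarith only [h1, Nat.floor_le h1]
  refine ⟨m + n, ?_, ?_⟩
  · rw [pow_add]; gcongr; exact hn.1
  · have h1 : Real.logb 2 δ⁻¹ ≤ (2 / ε) * δ ^ (-ε) := by
      rw [Real.logb]
      have h2 : Real.log δ⁻¹ ≤ δ⁻¹ ^ ε / ε := Real.log_le_rpow_div (by positivity) hε
      have h3 : δ⁻¹ ^ ε = δ ^ (-ε) := by rw [Real.inv_rpow hδ.le, Real.rpow_neg hδ.le]
      rw [h3] at h2
      have h4 : (1 : ℝ) / 2 ≤ Real.log 2 := by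
        have := Real.log_two_gt_d9
        linarith only [hδ, hδ1, this]
      rw [div_le_iff₀ (by linarith only [hδ, hδ1, h4])]
      have h5 : 0 < δ ^ (-ε) := by positivity
      calc Real.log δ⁻¹ ≤ δ ^ (-ε) / ε := h2
        _ = 2 / ε * δ ^ (-ε) * (1 / 2) := by ring
        _ ≤ 2 / ε * δ ^ (-ε) * Real.log 2 := by gcongr
    have h6 : 1 ≤ δ ^ (-ε) := Real.one_le_rpow_of_pos_of_le_one_of_nonpos hδ hδ1.le (by linarith only [hε])
    push_cast
    calc (m : ℝ) + n ≤ m + (2 / ε * δ ^ (-ε) + 1) := by linarith only [hn, h1, hn.2]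
      _ ≤ m * δ ^ (-ε) + (2 / ε * δ ^ (-ε) + 1 * δ ^ (-ε)) := by
          have : (m : ℝ) ≤ m * δ ^ (-ε) := le_mul_of_one_le_right (by positivity) h6
          linarith only [h6, this]
      _ = _ := by ring

/-- the tube form implies the maximal form -/
theorem max_of_loss {q : ℝ} (hd : 1 ≤ d) (hq : 1 < q)
    (h : ∀ ε : ℝ, 0 < ε → ∃ C : ℝ, Loss d q ε C) {ε : ℝ} (hε : 0 < ε) :
    ∃ C : ℝ, MaxLoss d q ε C := by
  classical
  have hd0 : (0 : ℝ) < d := by exact_mod_cast hd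
  have hd1 : (1 : ℝ) ≤ d := by exact_mod_cast hd
  have hCG := CG_pos d
  have hq0 : 0 < q := by linarith only [hq]
  have hq1 : 0 < q - 1 := by linarith only [hq]
  have hqd : 1 < q * d := by nlinarith only [hd1, hq, hd0]
  have hqd0 : 0 < q * d := by linarith only [hqd]
  have h1q : 1 / q < 1 := by rw [div_lt_one hq0]; exact hq
  have hε2 : 0 < ε / 2 := by linarith only [hε]
  obtain ⟨C0, hC0⟩ := h (ε / 2) hε2
  set C1 : ℝ := max C0 0 with hC1
  have hC10 : 0 ≤ C1 := le_max_right _ _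
  have hL : Loss d q (ε / 2) C1 := by
    intro δ hδ hδ1 ι S c e hF
    refine (hC0 δ hδ hδ1 ι S c e hF).trans (ENNReal.ofReal_le_ofReal ?_)
    gcongr
    exact le_max_left _ _
  set C2 : ℝ := CG d * 3 ^ d + (d + 1 + 2 / (ε / 2)) * (2 ^ (q * d) * C1 ^ (q * d)) with hC2
  have hC20 : 0 < C2 := by positivity
  refine ⟨C2 ^ (1 / (q * d)), ?_⟩
  intro δ hδ hδ1 ι S c e hF f hf
  have hδd : 0 < δ ^ d := by positivity
  set G0 : ℝ := δ ^ (-(((d : ℝ) + 1) * (1 - 1 / q) - 1)) with hG0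
  have hG0pos : 0 < G0 := by positivity
  set I : ℝ≥0∞ := ∫⁻ x, f x ^ (q / (q - 1)) with hI
  rcases eq_or_ne I ∞ with hItop | hIfin
  · rw [hItop, ENNReal.top_rpow_of_pos (by linarith only [h1q]), ENNReal.mul_top]
    · exact le_top
    · have : 0 < C2 ^ (1 / (q * d)) * δ ^ (-ε) * G0 := by positivity
      simpa using this
  -- averages
  have hhol : ∀ i ∈ S, ∫⁻ x in tube δ (c i) (e i), f x ≤
      I ^ (1 - 1 / q) * ENNReal.ofReal (((2 * δ) ^ d) ^ (1 / q)) := by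
    intro i hi
    have h2 := ENNReal.lintegral_mul_le_Lp_mul_Lq (volume : Measure (E d)) (holderConj hq)
      hf.aemeasurable (g := (tube δ (c i) (e i)).indicator 1)
      (measurable_one.indicator (measurableSet_tube _ _ _)).aemeasurable
    have h4 : 1 / (q / (q - 1)) = 1 - 1 / q := by field_simp
    rw [h4] at h2
    have h5 : ∫⁻ x, (f * ((tube δ (c i) (e i)).indicator 1 : E d → ℝ≥0∞)) x =
        ∫⁻ x in tube δ (c i) (e i), f x := by
      rw [← lintegral_indicator (measurableSet_tube _ _ _)]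
      congr 1
      funext x
      rw [Pi.mul_apply, Set.indicator_apply, Set.indicator_apply]
      split_ifs <;> simp
    rw [h5] at h2
    refine h2.trans ?_
    gcongr
    have h6 : ∫⁻ x, (tube δ (c i) (e i)).indicator (1 : E d → ℝ≥0∞) x ^ q =
        volume (tube δ (c i) (e i)) := by
      rw [← lintegral_indicator_one (measurableSet_tube _ _ _)]
      congr 1
      funext x
      rw [Set.indicator_apply]
      split_ifs
      · simp
      · rw [ENNReal.zero_rpow_of_pos hq0]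
    rw [h6]
    calc volume (tube δ (c i) (e i)) ^ (1 / q) ≤ (ENNReal.ofReal ((2 * δ) ^ d)) ^ (1 / q) := by
          gcongr
          exact volume_tube_le δ hδ.le (c i) (e i) (hF.unit i hi)
      _ = _ := ENNReal.ofReal_rpow_of_nonneg (by positivity) (by positivity)
  rcases eq_or_ne I 0 with hI0 | hIne
  · -- trivial case
    have h1 : ∀ i ∈ S, ENNReal.ofReal (δ ^ d) * (ENNReal.ofReal ((δ ^ d)⁻¹) *
        ∫⁻ x in tube δ (c i) (e i), f x) ^ (q * d) = 0 := by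
      intro i hi
      have h2 := hhol i hi
      rw [hI0, ENNReal.zero_rpow_of_pos (by linarith only [h1q]), zero_mul] at h2
      rw [le_antisymm h2 bot_le, mul_zero, ENNReal.zero_rpow_of_pos hqd0, mul_zero]
    rw [Finset.sum_eq_zero h1, ENNReal.zero_rpow_of_pos (by positivity)]
    exact bot_le
  have hIp : I ^ (1 - 1 / q) ≠ ∞ := ENNReal.rpow_ne_top_of_nonneg (by linarith only [h1q]) hIfin
  have hIp0 : I ^ (1 - 1 / q) ≠ 0 := by
    simp only [ne_eq, ENNReal.rpow_eq_zero_iff, not_or, not_and, not_lt]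
    exact ⟨fun h1 => absurd h1 hIne, fun h1 => absurd h1 hIfin⟩
  set F : ℝ := (I ^ (1 - 1 / q)).toReal with hFdef
  have hFpos : 0 < F := ENNReal.toReal_pos hIp0 hIp
  have hIF : I ^ (1 - 1 / q) = ENNReal.ofReal F := (ENNReal.ofReal_toReal hIp).symm
  have hfin : ∀ i ∈ S, ∫⁻ x in tube δ (c i) (e i), f x ≠ ∞ := by
    intro i hi
    exact ne_top_of_le_ne_top (ENNReal.mul_ne_top hIp ENNReal.ofReal_ne_top) (hhol i hi)
  set a : ι → ℝ := fun i => (δ ^ d)⁻¹ * (∫⁻ x in tube δ (c i) (e i), f x).toReal with ha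
  have ha0 : ∀ i, 0 ≤ a i := fun i => by positivity
  have haE : ∀ i ∈ S, ENNReal.ofReal ((δ ^ d)⁻¹) * ∫⁻ x in tube δ (c i) (e i), f x =
      ENNReal.ofReal (a i) := by
    intro i hi
    rw [ha, ENNReal.ofReal_mul (by positivity), ENNReal.ofReal_toReal (hfin i hi)]
  set G : ℝ := G0 * F with hG
  have hGpos : 0 < G := by positivity
  obtain ⟨K, hK1, hK2⟩ := num_levels hδ hδ1 hε2 d
  have haK : ∀ i ∈ S, a i < 2 ^ K * G := by
    intro i hi
    have h1 : (∫⁻ x in tube δ (c i) (e i), f x).toReal ≤ F * ((2 * δ) ^ d) ^ (1 / q) := by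
      have h2 := hhol i hi
      rw [hIF, ← ENNReal.ofReal_mul hFpos.le] at h2
      exact ENNReal.toReal_le_of_le_ofReal (by positivity) h2
    have h3 : (δ ^ d)⁻¹ * ((2 * δ) ^ d) ^ (1 / q) ≤ 2 ^ d * δ⁻¹ * G0 := by
      have e1 : ((2 * δ) ^ d) ^ (1 / q) = (2 ^ d) ^ (1 / q) * δ ^ ((d : ℝ) / q) := by
        rw [mul_pow, Real.mul_rpow (by positivity) (by positivity), ← Real.rpow_natCast δ d,
          ← Real.rpow_mul hδ.le]
        congr 2; ring
      have e2 : ((2 : ℝ) ^ d) ^ (1 / q) ≤ 2 ^ d := by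
        calc ((2 : ℝ) ^ d) ^ (1 / q) ≤ ((2 : ℝ) ^ d) ^ (1 : ℝ) :=
              Real.rpow_le_rpow_of_exponent_le (one_le_pow₀ (by norm_num)) h1q.le
          _ = 2 ^ d := Real.rpow_one _
      have e3 : (δ ^ d)⁻¹ * δ ^ ((d : ℝ) / q) = δ ^ (-(1 / q)) * G0 := by
        rw [hG0, ← Real.rpow_natCast, ← Real.rpow_neg hδ.le, ← Real.rpow_add hδ,
          ← Real.rpow_add hδ]
        congr 1; field_simp; ring
      have e4 : δ ^ (-(1 / q)) ≤ δ⁻¹ := by
        rw [← Real.rpow_neg_one]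
        exact Real.rpow_le_rpow_of_exponent_ge hδ hδ1.le (by linarith only [h1q])
      rw [e1]
      calc _ = (2 ^ d) ^ (1 / q) * ((δ ^ d)⁻¹ * δ ^ ((d : ℝ) / q)) := by ring
        _ = (2 ^ d) ^ (1 / q) * (δ ^ (-(1 / q)) * G0) := by rw [e3]
        _ ≤ 2 ^ d * (δ⁻¹ * G0) := by gcongr
        _ = _ := by ring
    calc a i = (δ ^ d)⁻¹ * (∫⁻ x in tube δ (c i) (e i), f x).toReal := rfl
      _ ≤ (δ ^ d)⁻¹ * (F * ((2 * δ) ^ d) ^ (1 / q)) := by gcongr
      _ = ((δ ^ d)⁻¹ * ((2 * δ) ^ d) ^ (1 / q)) * F := by ring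
      _ ≤ (2 ^ d * δ⁻¹ * G0) * F := by gcongr
      _ = (2 ^ d * δ⁻¹) * G := by rw [hG]; ring
      _ < 2 ^ K * G := by gcongr
  have hmain := dyadic_sum S a (fun i _ => ha0 i) hGpos K haK (r := q * d) (w := δ ^ d)
    hqd0.le hδd.le (L := CG d * 3 ^ d) (Y := (C1 * δ ^ (-(ε / 2)) * (G0 * F)) ^ (q * d)) (by
      have h1 := card_le_all hδ hδ1 hF
      calc δ ^ d * (S.card : ℝ) ≤ δ ^ d * (CG d * 3 ^ d * (δ ^ d)⁻¹) := by gcongr
        _ = CG d * 3 ^ d := by field_simp) (by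
      intro J hJ t ht hta
      exact level hd hq hC10 hL hδ hδ1 J c e (hF.mono hJ) f hf hFpos.le (by rw [← hI]; exact hIF) ht
        (fun i hi => by
          rw [haE i (hJ hi)]
          exact ENNReal.ofReal_le_ofReal (hta i hi)))
  have hr1 : 1 / (q * d) ≤ 1 := by rw [div_le_one hqd0]; exact hqd.le
  have h6 : 1 ≤ δ ^ (-(ε / 2)) :=
    Real.one_le_rpow_of_pos_of_le_one_of_nonpos hδ hδ1.le (by linarith only [hε])
  have hbound : ∑ i ∈ S, δ ^ d * a i ^ (q * d) ≤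
      C2 * δ ^ (-(ε / 2) - (ε / 2) * (q * d)) * G ^ (q * d) := by
    refine hmain.trans ?_
    have e1 : (C1 * δ ^ (-(ε / 2)) * (G0 * F)) ^ (q * d) =
        C1 ^ (q * d) * δ ^ (-(ε / 2) * (q * d)) * G ^ (q * d) := by
      rw [Real.mul_rpow (by positivity) (by positivity), Real.mul_rpow hC10 (by positivity),
        ← Real.rpow_mul hδ.le, hG]
    have e2 : δ ^ (-(ε / 2) - (ε / 2) * (q * d)) = δ ^ (-(ε / 2)) * δ ^ (-(ε / 2) * (q * d)) := by
      rw [← Real.rpow_add hδ]; congr 1; ring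
    have e3 : 1 ≤ δ ^ (-(ε / 2) - (ε / 2) * (q * d)) := by
      apply Real.one_le_rpow_of_pos_of_le_one_of_nonpos hδ hδ1.le
      have : 0 < (ε / 2) * (q * d) := by positivity
      linarith only [hε, this]
    rw [e1]
    calc CG d * 3 ^ d * G ^ (q * d) +
          K * (2 ^ (q * d) * (C1 ^ (q * d) * δ ^ (-(ε / 2) * (q * d)) * G ^ (q * d)))
        ≤ CG d * 3 ^ d * δ ^ (-(ε / 2) - (ε / 2) * (q * d)) * G ^ (q * d) +
          ((d + 1 + 2 / (ε / 2)) * δ ^ (-(ε / 2))) *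
            (2 ^ (q * d) * (C1 ^ (q * d) * δ ^ (-(ε / 2) * (q * d)) * G ^ (q * d))) := by
          have h7 : CG d * 3 ^ d ≤ CG d * 3 ^ d * δ ^ (-(ε / 2) - (ε / 2) * (q * d)) :=
            le_mul_of_one_le_right (by positivity) e3
          gcongr
      _ = _ := by rw [hC2, e2]; ring
  -- conclusion
  have hsumE : ∑ i ∈ S, ENNReal.ofReal (δ ^ d) *
      (ENNReal.ofReal ((δ ^ d)⁻¹) * ∫⁻ x in tube δ (c i) (e i), f x) ^ (q * d) =
      ENNReal.ofReal (∑ i ∈ S, δ ^ d * a i ^ (q * d)) := by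
    rw [ENNReal.ofReal_sum_of_nonneg (fun i _ => mul_nonneg hδd.le (Real.rpow_nonneg (ha0 i) _))]
    apply Finset.sum_congr rfl
    intro i hi
    rw [haE i hi, ENNReal.ofReal_rpow_of_nonneg (ha0 i) hqd0.le, ← ENNReal.ofReal_mul hδd.le]
  rw [hsumE, hIF, ← ENNReal.ofReal_mul (by positivity),
    ENNReal.ofReal_rpow_of_nonneg (Finset.sum_nonneg fun i _ =>
      mul_nonneg hδd.le (Real.rpow_nonneg (ha0 i) _)) (by positivity)]
  apply ENNReal.ofReal_le_ofReal
  refine (Real.rpow_le_rpow (Finset.sum_nonneg fun i _ =>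
      mul_nonneg hδd.le (Real.rpow_nonneg (ha0 i) _)) hbound (by positivity)).trans ?_
  rw [Real.mul_rpow (by positivity) (by positivity), Real.mul_rpow hC20.le (by positivity),
    ← Real.rpow_mul hδ.le, ← Real.rpow_mul hGpos.le, mul_one_div_cancel hqd0.ne', Real.rpow_one, hG]
  have e5 : δ ^ ((-(ε / 2) - (ε / 2) * (q * d)) * (1 / (q * d))) ≤ δ ^ (-ε) := by
    apply Real.rpow_le_rpow_of_exponent_ge hδ hδ1.le
    have e6 : (-(ε / 2) - (ε / 2) * (q * d)) * (1 / (q * d)) = -(ε / 2) * (1 / (q * d)) - ε / 2 := by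
      field_simp
    rw [e6]
    nlinarith only [hε, hr1]
  calc C2 ^ (1 / (q * d)) * δ ^ ((-(ε / 2) - (ε / 2) * (q * d)) * (1 / (q * d))) * (G0 * F)
      ≤ C2 ^ (1 / (q * d)) * δ ^ (-ε) * (G0 * F) := by gcongr
    _ = _ := by ring

end Pool.Agent.H53.Kak
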