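import Pool.Agent.H53.Kak.WCap

/-!
# Concentrated tubes: decomposition into cells
-/

set_option autoImplicit false

open MeasureTheory ENNReal
open scoped RealInnerProductSpace

namespace Pool.Agent.H53.Kak

variable {d : ℕ} {ι : Type}

/-- grid cells of side `h` -/
def cell (h : ℝ) (k : Fin (d + 1) → ℤ) : Set (E d) := {x | ∀ i, ⌊x i / h⌋ = k i}

lemma measurableSet_cell (h : ℝ) (k : Fin (d + 1) → ℤ) : MeasurableSet (cell h k : Set (E d)) := by
  have : (cell h k : Set (E d)) = ⋂ i, {x : E d | ⌊x i / h⌋ = k i} := by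
    ext x; simp [cell]
  rw [this]
  apply MeasurableSet.iInter
  intro i
  have hm : Measurable (fun x : E d => ⌊x i / h⌋) := by
    apply Int.measurable_floor.comp
    apply Measurable.div_const
    exact (continuous_apply i |>.comp (PiLp.continuous_ofLp 2 _)).measurable
  exact hm (measurableSet_singleton (k i))

lemma cell_disjoint (h : ℝ) {k l : Fin (d + 1) → ℤ} (hkl : k ≠ l) :
    Disjoint (cell h k : Set (E d)) (cell h l) := by
  rw [Set.disjoint_left]
  intro x hx hy
  apply hkl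
  funext i
  rw [← hx i, ← hy i]

lemma norm_le_of_coord {x : E d} {a : ℝ} (ha : 0 ≤ a) (h : ∀ i, |x i| ≤ a) :
    ‖x‖ ≤ (d + 1) * a := by
  apply le_of_sq_le_sq _ (by positivity)
  rw [EuclideanSpace.real_norm_sq_eq]
  calc ∑ i, x i ^ 2 ≤ ∑ _i : Fin (d + 1), a ^ 2 := by
        apply Finset.sum_le_sum
        intro i _
        rw [← sq_abs]
        exact pow_le_pow_left₀ (abs_nonneg _) (h i) 2
    _ = (d + 1) * a ^ 2 := by
        rw [Finset.sum_const, Finset.card_univ, Fintype.card_fin, nsmul_eq_mul]; push_cast; ring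
    _ ≤ ((d + 1) * a) ^ 2 := by
        rw [mul_pow]
        have h1 : (1 : ℝ) ≤ (d : ℝ) + 1 := by
          have : (0 : ℝ) ≤ d := Nat.cast_nonneg d
          linarith
        have h2 : (d : ℝ) + 1 ≤ ((d : ℝ) + 1) ^ 2 := by nlinarith
        gcongr

lemma cell_subset_ball {h r : ℝ} (hh : 0 < h) (hr : (d + 1) * h ≤ r) (k : Fin (d + 1) → ℤ) :
    ∃ x0 : E d, (cell h k : Set (E d)) ⊆ Metric.closedBall x0 r := by
  refine ⟨WithLp.toLp 2 (fun i => h * k i), ?_⟩
  intro x hx
  rw [Metric.mem_closedBall, dist_eq_norm]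
  refine (norm_le_of_coord hh.le ?_).trans hr
  intro i
  have h1 := hx i
  rw [Int.floor_eq_iff] at h1
  rw [le_div_iff₀ hh, div_lt_iff₀ hh] at h1
  rw [PiLp.sub_apply, abs_le]
  constructor
  · have : h * (k i : ℝ) ≤ x i := by linarith [h1.1]
    show -h ≤ x i - h * k i
    linarith
  · show x i - h * k i ≤ h
    nlinarith [h1.2]

/-- the cells near a point -/
noncomputable def nearCells (h : ℝ) (p : E d) : Finset (Fin (d + 1) → ℤ) :=
  Fintype.piFinset (fun i => Finset.Icc (⌊p i / h⌋ - 1) (⌊p i / h⌋ + 1))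

lemma card_nearCells (h : ℝ) (p : E d) : (nearCells h p).card = 3 ^ (d + 1) := by
  rw [nearCells, Fintype.card_piFinset]
  simp only [Int.card_Icc]
  have : ∀ i : Fin (d + 1), (⌊p i / h⌋ + 1 + 1 - (⌊p i / h⌋ - 1)).toNat = 3 := by
    intro i
    have h1 : ⌊p i / h⌋ + 1 + 1 - (⌊p i / h⌋ - 1) = 3 := by ring
    rw [h1]; rfl
  rw [Finset.prod_congr rfl (fun i _ => this i), Finset.prod_const, Finset.card_univ,
    Fintype.card_fin]

lemma mem_nearCells {h : ℝ} (hh : 0 < h) {x p : E d} (hxp : ‖x - p‖ < h) :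
    ∃ k ∈ nearCells h p, x ∈ (cell h k : Set (E d)) := by
  refine ⟨fun i => ⌊x i / h⌋, ?_, fun i => rfl⟩
  rw [nearCells, Fintype.mem_piFinset]
  intro i
  have h1 : |x i - p i| < h := by
    have := PiLp.norm_apply_le (x - p) i
    rw [PiLp.sub_apply, Real.norm_eq_abs] at this
    linarith
  rw [abs_lt] at h1
  rw [Finset.mem_Icc]
  constructor
  · have h2 : p i / h - 1 < x i / h := by
      rw [div_sub_one hh.ne', div_lt_div_iff_of_pos_right hh]; linarith
    have h3 : ⌊p i / h⌋ - 1 ≤ ⌊x i / h⌋ := by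
      rw [Int.le_floor]
      push_cast
      linarith [Int.floor_le (p i / h)]
    exact h3
  · have h2 : x i / h < p i / h + 1 := by
      rw [div_add_one hh.ne', div_lt_div_iff_of_pos_right hh]; linarith
    have h3 : ⌊x i / h⌋ < ⌊p i / h⌋ + 2 := by
      rw [Int.floor_lt]
      push_cast
      linarith [Int.lt_floor_add_one (p i / h)]
    omega

open Classical in
/-- the mass of short pieces of the tubes -/
lemma conc_bound {q B : ℝ} (hd : 1 ≤ d) (hq : 1 + 1 / (d : ℝ) ≤ q) (hB : 0 ≤ B) {δ r h : ℝ}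
    (hRW : RW d q (δ / (2 * r)) B) (hδ : 0 < δ) (hr : 0 < r) (hr1 : 2 * r ≤ 1) (hh : 0 < h)
    (hhr : (d + 1) * h ≤ r) (hδh : 8 * δ ≤ h) (J : Finset ι) (c e : ι → E d)
    (hF : Fam δ e J) {F : Set (E d)} (hFm : MeasurableSet F) (s : ι → ℝ) :
    ∑ j ∈ J, volume (F ∩ tube δ (c j) (e j) ∩ {x | |⟪x - c j, e j⟫ - s j| ≤ h / 4}) ≤
      ENNReal.ofReal (4 * CG d * B * (δ ^ ((d : ℝ) / q) *
        (3 ^ (d + 1) * (J.card : ℝ)) ^ (1 - 1 / (q * d)))) * (volume F) ^ (1 - 1 / q) := by
  have hd0 : (0 : ℝ) < d := by exact_mod_cast hd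
  have hd1 : (1 : ℝ) ≤ d := by exact_mod_cast hd
  have hinv : 0 < 1 / (d : ℝ) := by positivity
  have hq1 : 1 < q := by linarith
  have hq0 : 0 < q := by linarith
  have ha : 1 ≤ q - 1 / d := by linarith
  have hG := CG_pos d
  have h1q : 1 / q < 1 := by rw [div_lt_one hq0]; exact hq1
  set p : ι → E d := fun j => c j + s j • e j with hp
  set W : ι → (Fin (d + 1) → ℤ) → ℝ≥0∞ := fun j k =>
    volume ((F ∩ cell h k) ∩ tube δ (c j) (e j)) with hW
  set Qs : Finset (Fin (d + 1) → ℤ) := J.biUnion (fun j => nearCells h (p j)) with hQs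
  set Jk : (Fin (d + 1) → ℤ) → Finset ι := fun k => J.filter (fun j => k ∈ nearCells h (p j))
    with hJk
  -- pieces are covered by the cells
  have hpiece : ∀ j ∈ J, volume (F ∩ tube δ (c j) (e j) ∩ {x | |⟪x - c j, e j⟫ - s j| ≤ h / 4}) ≤
      ∑ k ∈ nearCells h (p j), W j k := by
    intro j hj
    refine (measure_mono ?_).trans (measure_biUnion_finset_le _ _)
    rintro x ⟨⟨hxF, hxT⟩, hxs⟩
    simp only [Set.mem_ofPred_eq] at hxs
    have hxp : ‖x - p j‖ < h := by
      obtain ⟨t, w, h1, h2, -, h4⟩ := tube_decomp hxT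
      have h5 : x - p j = (t - s j) • e j + w := by
        rw [hp]
        have : x - (c j + s j • e j) = (x - c j) - s j • e j := by abel
        rw [this, h1]; module
      rw [h5]
      rw [← h4] at hxs
      calc ‖(t - s j) • e j + w‖ ≤ ‖(t - s j) • e j‖ + ‖w‖ := norm_add_le _ _
        _ = |t - s j| + ‖w‖ := by rw [norm_smul, hF.unit j hj, mul_one, Real.norm_eq_abs]
        _ ≤ h / 4 + δ := by gcongr
        _ < h := by linarith
    obtain ⟨k, hk, hxk⟩ := mem_nearCells hh hxp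
    simp only [Set.mem_iUnion]
    exact ⟨k, hk, ⟨hxF, hxk⟩, hxT⟩
  -- exchange the sums
  have hswap : ∑ j ∈ J, ∑ k ∈ nearCells h (p j), W j k = ∑ k ∈ Qs, ∑ j ∈ Jk k, W j k := by
    apply Finset.sum_comm'
    intro j k
    simp only [hQs, hJk, Finset.mem_biUnion, Finset.mem_filter]
    constructor
    · rintro ⟨h1, h2⟩
      exact ⟨⟨h1, h2⟩, j, h1, h2⟩
    · rintro ⟨⟨h1, h2⟩, -⟩
      exact ⟨h1, h2⟩
  have hcell : ∀ k ∈ Qs, ∑ j ∈ Jk k, W j k ≤
      ENNReal.ofReal (4 * CG d * B * (δ ^ ((d : ℝ) / q) *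
        ((Jk k).card : ℝ) ^ (1 - 1 / (q * d)))) * (volume (F ∩ cell h k)) ^ (1 - 1 / q) := by
    intro k _
    obtain ⟨x0, hx0⟩ := cell_subset_ball hh hhr k
    exact ballR hd hq1.le hB hRW hδ hr hr1 (Jk k) c e (hF.mono (Finset.filter_subset _ _)) x0
      (hFm.inter (measurableSet_cell h k)) (Set.inter_subset_right.trans hx0)
  -- counting
  have hcount : ∑ k ∈ Qs, ((Jk k).card : ℝ) = 3 ^ (d + 1) * (J.card : ℝ) := by
    have h1 : ∑ k ∈ Qs, (Jk k).card = ∑ j ∈ J, (nearCells h (p j)).card := by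
      simp_rw [Finset.card_eq_sum_ones]
      symm
      apply Finset.sum_comm'
      intro j k
      simp only [hQs, hJk, Finset.mem_biUnion, Finset.mem_filter]
      constructor
      · rintro ⟨h1, h2⟩
        exact ⟨⟨h1, h2⟩, j, h1, h2⟩
      · rintro ⟨⟨h1, h2⟩, -⟩
        exact ⟨h1, h2⟩
    have h2 : ((∑ k ∈ Qs, (Jk k).card : ℕ) : ℝ) = 3 ^ (d + 1) * (J.card : ℝ) := by
      rw [h1]
      simp_rw [card_nearCells]
      rw [Finset.sum_const, smul_eq_mul]; push_cast; ring
    rw [← h2]; push_cast; rfl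
  have hvol : ∑ k ∈ Qs, volume (F ∩ cell h k) ≤ volume F := by
    rw [← measure_biUnion_finset]
    · apply measure_mono
      apply Set.iUnion₂_subset
      intro k _
      exact Set.inter_subset_left
    · intro k _ l _ hkl
      exact (cell_disjoint h hkl).mono Set.inter_subset_right Set.inter_subset_right
    · intro k _
      exact hFm.inter (measurableSet_cell h k)
  set A : ℝ := 4 * CG d * B * δ ^ ((d : ℝ) / q) with hA
  have hA0 : 0 ≤ A := by positivity
  have hhol := ENNReal.inner_le_Lp_mul_Lq Qs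
    (fun k => ENNReal.ofReal (((Jk k).card : ℝ) ^ (1 - 1 / (q * d))))
    (fun k => (volume (F ∩ cell h k)) ^ (1 - 1 / q)) (holderConj hq1).symm
  calc _ ≤ ∑ j ∈ J, ∑ k ∈ nearCells h (p j), W j k := Finset.sum_le_sum hpiece
    _ = ∑ k ∈ Qs, ∑ j ∈ Jk k, W j k := hswap
    _ ≤ ∑ k ∈ Qs, ENNReal.ofReal (4 * CG d * B * (δ ^ ((d : ℝ) / q) *
        ((Jk k).card : ℝ) ^ (1 - 1 / (q * d)))) * (volume (F ∩ cell h k)) ^ (1 - 1 / q) :=
        Finset.sum_le_sum hcell
    _ = ENNReal.ofReal A * ∑ k ∈ Qs, ENNReal.ofReal (((Jk k).card : ℝ) ^ (1 - 1 / (q * d))) *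
        (volume (F ∩ cell h k)) ^ (1 - 1 / q) := by
        rw [Finset.mul_sum]
        apply Finset.sum_congr rfl
        intro k _
        rw [← mul_assoc (ENNReal.ofReal A), ← ENNReal.ofReal_mul hA0, hA]
        congr 2; ring
    _ ≤ ENNReal.ofReal A * ((∑ k ∈ Qs, ENNReal.ofReal (((Jk k).card : ℝ) ^ (1 - 1 / (q * d))) ^ q) ^
        (1 / q) * (∑ k ∈ Qs, ((volume (F ∩ cell h k)) ^ (1 - 1 / q)) ^ (q / (q - 1))) ^
        (1 / (q / (q - 1)))) := by gcongr
    _ ≤ ENNReal.ofReal A * (ENNReal.ofReal ((3 ^ (d + 1) * (J.card : ℝ)) ^ (1 - 1 / (q * d))) *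
        (volume F) ^ (1 - 1 / q)) := by
        gcongr
        · -- first factor
          have h1 : ∑ k ∈ Qs, ENNReal.ofReal (((Jk k).card : ℝ) ^ (1 - 1 / (q * d))) ^ q =
              ENNReal.ofReal (∑ k ∈ Qs, ((Jk k).card : ℝ) ^ (q - 1 / d)) := by
            rw [ENNReal.ofReal_sum_of_nonneg (fun k _ => by positivity)]
            apply Finset.sum_congr rfl
            intro k _
            rw [ENNReal.ofReal_rpow_of_nonneg (by positivity) hq0.le,
              ← Real.rpow_mul (by positivity)]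
            congr 2; field_simp
          rw [h1, ENNReal.ofReal_rpow_of_nonneg (Finset.sum_nonneg fun k _ => by positivity)
            (by positivity)]
          apply ENNReal.ofReal_le_ofReal
          have h2 := sum_rpow_le_rpow_sum Qs (fun k => ((Jk k).card : ℝ))
            (fun k _ => by positivity) ha
          rw [hcount] at h2
          calc (∑ k ∈ Qs, ((Jk k).card : ℝ) ^ (q - 1 / (d : ℝ))) ^ (1 / q)
              ≤ ((3 ^ (d + 1) * (J.card : ℝ)) ^ (q - 1 / (d : ℝ))) ^ (1 / q) := by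
                apply Real.rpow_le_rpow (Finset.sum_nonneg fun k _ => by positivity) h2
                  (by positivity)
            _ = (3 ^ (d + 1) * (J.card : ℝ)) ^ (1 - 1 / (q * d)) := by
                rw [← Real.rpow_mul (by positivity)]
                congr 1; field_simp
        · -- second factor
          have hq1' : 0 < q - 1 := by linarith
          have h1 : ∑ k ∈ Qs, ((volume (F ∩ cell h k)) ^ (1 - 1 / q)) ^ (q / (q - 1)) =
              ∑ k ∈ Qs, volume (F ∩ cell h k) := by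
            apply Finset.sum_congr rfl
            intro k _
            rw [← ENNReal.rpow_mul]
            have : (1 - 1 / q) * (q / (q - 1)) = 1 := by field_simp
            rw [this, ENNReal.rpow_one]
          have h2 : 1 / (q / (q - 1)) = 1 - 1 / q := by field_simp
          rw [h1, h2]
          exact ENNReal.rpow_le_rpow hvol (by linarith)
    _ = _ := by
        rw [← mul_assoc, ← ENNReal.ofReal_mul hA0, hA]
        congr 2; ring

end Pool.Agent.H53.Kak
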