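import Pool.Agent.H53.Kak.Strong

/-!
# The converse and the dual (maximal function) form
-/

set_option autoImplicit false

open MeasureTheory ENNReal
open scoped RealInnerProductSpace

namespace Pool.Agent.H53.Kak

variable {d : ℕ} {ι : Type}

lemma eLpNorm_mu (δ : ℝ) (c e : ι → E d) (S : Finset ι) {q : ℝ} (hq : 0 < q) :
    eLpNorm (fun x => (mu δ c e S x : ℝ)) (ENNReal.ofReal q) volume =
      (∫⁻ x, (mu δ c e S x : ℝ≥0∞) ^ q) ^ (1 / q) := by
  rw [eLpNorm_eq_lintegral_rpow_enorm_toReal (by simpa using hq) ENNReal.ofReal_ne_top,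
    ENNReal.toReal_ofReal hq.le]
  congr 2
  funext x
  rw [Real.enorm_of_nonneg (by positivity), ENNReal.ofReal_natCast]

lemma measurable_muE (δ : ℝ) (c e : ι → E d) (S : Finset ι) :
    Measurable (fun x => (mu δ c e S x : ℝ≥0∞)) := by
  have : (fun x => (mu δ c e S x : ℝ≥0∞)) = fun x => ENNReal.ofReal (mu δ c e S x : ℝ) := by
    funext x; rw [ENNReal.ofReal_natCast]
  rw [this]
  exact (measurable_mu δ c e S).ennreal_ofReal

lemma sum_setLIntegral (δ : ℝ) (c e : ι → E d) (S : Finset ι) (g : E d → ℝ≥0∞)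
    (hg : Measurable g) :
    ∑ i ∈ S, ∫⁻ x in tube δ (c i) (e i), g x = ∫⁻ x, g x * (mu δ c e S x : ℝ≥0∞) := by
  classical
  have h1 : ∀ i ∈ S, ∫⁻ x in tube δ (c i) (e i), g x =
      ∫⁻ x, (tube δ (c i) (e i)).indicator g x := by
    intro i _
    rw [lintegral_indicator (measurableSet_tube _ _ _)]
  rw [Finset.sum_congr rfl h1, ← lintegral_finsetSum]
  · congr 1
    funext x
    unfold mu
    rw [Finset.card_filter]
    push_cast
    rw [Finset.mul_sum]
    apply Finset.sum_congr rfl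
    intro i _
    rw [Set.indicator_apply]
    split_ifs <;> simp
  · intro i _
    exact hg.indicator (measurableSet_tube _ _ _)

/-- the number of `δ`-separated directions -/
lemma card_le_all {δ : ℝ} (hδ : 0 < δ) (hδ1 : δ < 1) {S : Finset ι} {e : ι → E d}
    (hF : Fam δ e S) : (S.card : ℝ) ≤ CG d * 3 ^ d * (δ ^ d)⁻¹ := by
  have hG := CG_pos d
  rcases S.eq_empty_or_nonempty with rfl | ⟨i, hi⟩
  · simp; positivity
  have h1 := card_near' hδ hF (e i) (ρ := 2) (by norm_num) (fun j hj => by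
    calc ‖e j - e i‖ ≤ ‖e j‖ + ‖e i‖ := norm_sub_le _ _
      _ = 2 := by rw [hF.unit j hj, hF.unit i hi]; norm_num)
  calc (S.card : ℝ) ≤ CG d * ((2 + δ) / δ) ^ d := h1
    _ ≤ CG d * (3 / δ) ^ d := by gcongr; linarith
    _ = CG d * 3 ^ d * (δ ^ d)⁻¹ := by rw [div_pow]; ring

/-- The converse: no loss above `q` gives small losses at `q`. -/
theorem loss_of_all {q : ℝ} (hd : 1 ≤ d) (hq : 0 < q)
    (h : ∀ q1 : ℝ, q < q1 → ∃ C : ℝ, Loss d q1 0 C) {ε : ℝ} (hε : 0 < ε) :
    ∃ C : ℝ, Loss d q ε C := by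
  have hd0 : (0 : ℝ) < d := by exact_mod_cast hd
  have hG := CG_pos d
  set q1 : ℝ := q + ε * q / d with hq1
  have hq1q : q < q1 := by
    rw [hq1]
    have : 0 < ε * q / d := by positivity
    linarith
  have hq10 : 0 < q1 := hq.trans hq1q
  obtain ⟨C0, hC0⟩ := h q1 hq1q
  set C1 : ℝ := max C0 0 with hC1
  have hC10 : 0 ≤ C1 := le_max_right _ _
  refine ⟨(C1 ^ q1 * (CG d * 3 ^ d) ^ (q1 - q)) ^ (1 / q), ?_⟩
  intro δ hδ hδ1 ι S c e hF
  have hN := card_le_all hδ hδ1 hF
  rcases Nat.eq_zero_or_pos S.card with h0 | hpos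
  · have h1 : (fun x => (mu δ c e S x : ℝ)) = fun _ => 0 := by
      funext x
      have := mu_le_card δ c e S x
      rw [h0] at this
      have h2 : mu δ c e S x = 0 := by omega
      rw [h2, Nat.cast_zero]
    rw [h1, eLpNorm_zero']
    exact bot_le
  have hNr : (0 : ℝ) < S.card := by exact_mod_cast hpos
  have h1 : eLpNorm (fun x => (mu δ c e S x : ℝ)) (ENNReal.ofReal q1) volume ≤
      ENNReal.ofReal (C1 * (δ ^ ((d : ℝ) / q1) * (S.card : ℝ) ^ (1 - 1 / (q1 * d)))) := by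
    refine (hC0 δ hδ hδ1 ι S c e hF).trans (ENNReal.ofReal_le_ofReal ?_)
    rw [neg_zero, Real.rpow_zero, mul_one]
    gcongr
    exact le_max_left _ _
  rw [eLpNorm_mu δ c e S hq10] at h1
  rw [eLpNorm_mu δ c e S hq]
  have h2 : ∫⁻ x, (mu δ c e S x : ℝ≥0∞) ^ q1 ≤
      ENNReal.ofReal (C1 ^ q1 * (δ ^ d * (S.card : ℝ) ^ (q1 - 1 / d))) := by
    have h3 : ∫⁻ x, (mu δ c e S x : ℝ≥0∞) ^ q1 =
        ((∫⁻ x, (mu δ c e S x : ℝ≥0∞) ^ q1) ^ (1 / q1)) ^ q1 := by
      rw [← ENNReal.rpow_mul, one_div_mul_cancel hq10.ne', ENNReal.rpow_one]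
    rw [h3]
    clear h3
    refine (ENNReal.rpow_le_rpow h1 hq10.le).trans (le_of_eq ?_)
    rw [ENNReal.ofReal_rpow_of_nonneg (by positivity) hq10.le]
    congr 1
    rw [Real.mul_rpow hC10 (by positivity), Real.mul_rpow (by positivity) (by positivity),
      ← Real.rpow_mul hδ.le, ← Real.rpow_mul hNr.le, ← Real.rpow_natCast δ d]
    congr 3
    · field_simp
    · field_simp
  have h3 : ∫⁻ x, (mu δ c e S x : ℝ≥0∞) ^ q ≤ ∫⁻ x, (mu δ c e S x : ℝ≥0∞) ^ q1 := by
    apply lintegral_mono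
    intro x
    rcases Nat.eq_zero_or_pos (mu δ c e S x) with h0 | hp
    · simp only [h0, Nat.cast_zero]
      rw [ENNReal.zero_rpow_of_pos hq, ENNReal.zero_rpow_of_pos hq10]
    · exact ENNReal.rpow_le_rpow_of_exponent_le (by exact_mod_cast hp) hq1q.le
  calc (∫⁻ x, (mu δ c e S x : ℝ≥0∞) ^ q) ^ (1 / q)
      ≤ (ENNReal.ofReal (C1 ^ q1 * (δ ^ d * (S.card : ℝ) ^ (q1 - 1 / d)))) ^ (1 / q) := by
        gcongr
        exact h3.trans h2
    _ = ENNReal.ofReal ((C1 ^ q1 * (δ ^ d * (S.card : ℝ) ^ (q1 - 1 / d))) ^ (1 / q)) :=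
        ENNReal.ofReal_rpow_of_nonneg (by positivity) (by positivity)
    _ ≤ _ := by
        apply ENNReal.ofReal_le_ofReal
        have e1 : (S.card : ℝ) ^ (q1 - 1 / d) = (S.card : ℝ) ^ (q1 - q) * (S.card : ℝ) ^ (q - 1 / d) := by
          rw [← Real.rpow_add hNr]; congr 1; ring
        have e2 : (S.card : ℝ) ^ (q1 - q) ≤ (CG d * 3 ^ d) ^ (q1 - q) * δ ^ (-(ε * q)) := by
          calc (S.card : ℝ) ^ (q1 - q) ≤ (CG d * 3 ^ d * (δ ^ d)⁻¹) ^ (q1 - q) := by
                apply Real.rpow_le_rpow hNr.le hN (by linarith)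
            _ = (CG d * 3 ^ d) ^ (q1 - q) * δ ^ (-(ε * q)) := by
                rw [Real.mul_rpow (by positivity) (by positivity)]
                congr 1
                rw [← Real.rpow_natCast, ← Real.rpow_neg hδ.le, ← Real.rpow_mul hδ.le]
                congr 1
                rw [hq1]; field_simp; ring
        rw [e1]
        have e3 : C1 ^ q1 * (δ ^ d * ((S.card : ℝ) ^ (q1 - q) * (S.card : ℝ) ^ (q - 1 / d))) ≤
            (C1 ^ q1 * (CG d * 3 ^ d) ^ (q1 - q)) * (δ ^ (-(ε * q)) *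
              (δ ^ d * (S.card : ℝ) ^ (q - 1 / d))) := by
          calc _ ≤ C1 ^ q1 * (δ ^ d * (((CG d * 3 ^ d) ^ (q1 - q) * δ ^ (-(ε * q))) *
                (S.card : ℝ) ^ (q - 1 / d))) := by gcongr
            _ = _ := by ring
        refine (Real.rpow_le_rpow (by positivity) e3 (by positivity)).trans (le_of_eq ?_)
        rw [Real.mul_rpow (by positivity) (by positivity),
          Real.mul_rpow (x := δ ^ (-(ε * q))) (by positivity) (by positivity),
          Real.mul_rpow (x := δ ^ d) (by positivity) (by positivity), ← Real.rpow_mul hδ.le,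
          ← Real.rpow_natCast δ d, ← Real.rpow_mul hδ.le, ← Real.rpow_mul hNr.le, mul_assoc]
        congr 3
        · field_simp
        · congr 1
          congr 1; field_simp
        · congr 1; field_simp

/-- The maximal function inequality `L^p → L^r`, `p = q / (q - 1)`, `r = q d`, with a loss. -/
def MaxLoss (d : ℕ) (q ε C : ℝ) : Prop :=
  ∀ δ : ℝ, 0 < δ → δ < 1 → ∀ (ι : Type) (S : Finset ι) (c e : ι → E d), Fam δ e S →
    ∀ f : E d → ℝ≥0∞, Measurable f →
    (∑ i ∈ S, ENNReal.ofReal (δ ^ d) *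
      (ENNReal.ofReal ((δ ^ d)⁻¹) * ∫⁻ x in tube δ (c i) (e i), f x) ^ (q * d)) ^ (1 / (q * d)) ≤
    ENNReal.ofReal (C * δ ^ (-ε) * δ ^ (-(((d : ℝ) + 1) * (1 - 1 / q) - 1))) *
      (∫⁻ x, f x ^ (q / (q - 1))) ^ (1 - 1 / q)

lemma holderConj {q : ℝ} (hq : 1 < q) : (q / (q - 1)).HolderConjugate q := by
  have h1 : 0 < q - 1 := by linarith
  rw [Real.holderConjugate_iff]
  constructor
  · rw [lt_div_iff₀ h1]; linarith
  · field_simp; ring

/-- maximal form implies the tube form -/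
theorem loss_of_max {q ε C : ℝ} (hd : 1 ≤ d) (hq : 1 < q) (h : MaxLoss d q ε C) :
    Loss d q ε C := by
  intro δ hδ hδ1 ι S c e hF
  have hd0 : (0 : ℝ) < d := by exact_mod_cast hd
  have hd1 : (1 : ℝ) ≤ d := by exact_mod_cast hd
  have hq0 : 0 < q := by linarith
  have hq1 : 0 < q - 1 := by linarith
  have hqd : 1 < q * d := by nlinarith
  rw [eLpNorm_mu δ c e S hq0]
  set g : E d → ℝ≥0∞ := fun x => (mu δ c e S x : ℝ≥0∞) ^ (q - 1) with hg
  have hgm : Measurable g := (measurable_muE δ c e S).pow_const _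
  set I : ℝ≥0∞ := ∫⁻ x, (mu δ c e S x : ℝ≥0∞) ^ q with hI
  -- `I` is finite
  have hIfin : I ≠ ∞ := by
    have h1 : I ≤ (S.card : ℝ≥0∞) ^ (q - 1) * ∑ i ∈ S, ENNReal.ofReal ((2 * δ) ^ d) := by
      have h2 : ∑ i ∈ S, ∫⁻ x in tube δ (c i) (e i), g x = I := by
        rw [sum_setLIntegral δ c e S g hgm, hI]
        congr 1
        funext x
        rcases Nat.eq_zero_or_pos (mu δ c e S x) with h0 | hp
        · rw [hg]; simp only [h0, Nat.cast_zero]
          rw [ENNReal.zero_rpow_of_pos hq1, ENNReal.zero_rpow_of_pos hq0, zero_mul]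
        · have hne : (mu δ c e S x : ℝ≥0∞) ≠ 0 := by exact_mod_cast hp.ne'
          have h3 := ENNReal.rpow_add (q - 1) 1 hne (ENNReal.natCast_ne_top _)
          rw [ENNReal.rpow_one, sub_add_cancel] at h3
          rw [h3]
      rw [← h2, Finset.mul_sum]
      apply Finset.sum_le_sum
      intro i hi
      calc ∫⁻ x in tube δ (c i) (e i), g x ≤
            ∫⁻ _x in tube δ (c i) (e i), (S.card : ℝ≥0∞) ^ (q - 1) := by
            apply lintegral_mono
            intro x
            rw [hg]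
            apply ENNReal.rpow_le_rpow _ hq1.le
            exact_mod_cast mu_le_card δ c e S x
        _ = (S.card : ℝ≥0∞) ^ (q - 1) * volume (tube δ (c i) (e i)) := setLIntegral_const _ _
        _ ≤ (S.card : ℝ≥0∞) ^ (q - 1) * ENNReal.ofReal ((2 * δ) ^ d) := by
            gcongr
            exact volume_tube_le δ hδ.le (c i) (e i) (hF.unit i hi)
    refine ne_top_of_le_ne_top ?_ h1
    apply ENNReal.mul_ne_top
    · exact ENNReal.rpow_ne_top_of_nonneg hq1.le (ENNReal.natCast_ne_top _)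
    · exact (ENNReal.sum_lt_top.mpr fun i _ => ENNReal.ofReal_lt_top).ne
  have hgp : ∫⁻ x, g x ^ (q / (q - 1)) = I := by
    rw [hI]
    congr 1
    funext x
    rw [hg]
    simp only
    rw [← ENNReal.rpow_mul]
    congr 1; field_simp
  have hsum : ∑ i ∈ S, ∫⁻ x in tube δ (c i) (e i), g x = I := by
    rw [sum_setLIntegral δ c e S g hgm, hI]
    congr 1
    funext x
    rcases Nat.eq_zero_or_pos (mu δ c e S x) with h0 | hp
    · rw [hg]; simp only [h0, Nat.cast_zero]
      rw [ENNReal.zero_rpow_of_pos hq1, ENNReal.zero_rpow_of_pos hq0, zero_mul]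
    · have hne : (mu δ c e S x : ℝ≥0∞) ≠ 0 := by exact_mod_cast hp.ne'
      have h3 := ENNReal.rpow_add (q - 1) 1 hne (ENNReal.natCast_ne_top _)
      rw [ENNReal.rpow_one, sub_add_cancel] at h3
      rw [h3]
  have hmax := h δ hδ hδ1 ι S c e hF g hgm
  rw [hgp] at hmax
  -- discrete Hölder
  have hδd : 0 < δ ^ d := by positivity
  have hhol : I ≤ (∑ i ∈ S, ENNReal.ofReal (δ ^ d) *
      (ENNReal.ofReal ((δ ^ d)⁻¹) * ∫⁻ x in tube δ (c i) (e i), g x) ^ (q * d)) ^ (1 / (q * d)) *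
      ENNReal.ofReal ((δ ^ d * S.card) ^ (1 - 1 / (q * d))) := by
    set r := q * d with hr
    have hr1 : 0 < r - 1 := by linarith
    have hrr : r.HolderConjugate (r / (r - 1)) := (holderConj hqd).symm
    have h1 := ENNReal.inner_le_Lp_mul_Lq S
      (fun i => ENNReal.ofReal ((δ ^ d) ^ (1 / r)) *
        (ENNReal.ofReal ((δ ^ d)⁻¹) * ∫⁻ x in tube δ (c i) (e i), g x))
      (fun _ => ENNReal.ofReal ((δ ^ d) ^ (1 - 1 / r))) hrr
    have h2 : ∑ i ∈ S, (ENNReal.ofReal ((δ ^ d) ^ (1 / r)) *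
        (ENNReal.ofReal ((δ ^ d)⁻¹) * ∫⁻ x in tube δ (c i) (e i), g x)) *
        ENNReal.ofReal ((δ ^ d) ^ (1 - 1 / r)) = I := by
      rw [← hsum]
      apply Finset.sum_congr rfl
      intro i _
      have h3 : ENNReal.ofReal ((δ ^ d) ^ (1 / r)) * ENNReal.ofReal ((δ ^ d)⁻¹) *
          ENNReal.ofReal ((δ ^ d) ^ (1 - 1 / r)) = 1 := by
        rw [← ENNReal.ofReal_mul (by positivity), ← ENNReal.ofReal_mul (by positivity),
          ← ENNReal.ofReal_one]
        congr 1
        rw [← Real.rpow_neg_one, ← Real.rpow_add hδd, ← Real.rpow_add hδd]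
        have : 1 / r + -1 + (1 - 1 / r) = 0 := by ring
        rw [this, Real.rpow_zero]
      calc _ = (ENNReal.ofReal ((δ ^ d) ^ (1 / r)) * ENNReal.ofReal ((δ ^ d)⁻¹) *
          ENNReal.ofReal ((δ ^ d) ^ (1 - 1 / r))) * ∫⁻ x in tube δ (c i) (e i), g x := by ring
        _ = _ := by rw [h3, one_mul]
    rw [h2] at h1
    refine h1.trans (le_of_eq ?_)
    congr 1
    · congr 1
      apply Finset.sum_congr rfl
      intro i _
      rw [ENNReal.mul_rpow_of_nonneg _ _ (by linarith : 0 ≤ r),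
        ENNReal.ofReal_rpow_of_nonneg (by positivity) (by linarith), ← Real.rpow_mul (by positivity),
        one_div_mul_cancel (by linarith), Real.rpow_one]
    · rw [Finset.sum_const, nsmul_eq_mul, ENNReal.ofReal_rpow_of_nonneg (by positivity) (by positivity),
        ← Real.rpow_mul (by positivity), ← ENNReal.ofReal_natCast, ← ENNReal.ofReal_mul (by positivity),
        ENNReal.ofReal_rpow_of_nonneg (by positivity) (by positivity)]
      congr 1
      have e1 : (1 - 1 / r) * (r / (r - 1)) = 1 := by field_simp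
      have e2 : 1 / (r / (r - 1)) = 1 - 1 / r := by field_simp
      rw [e1, e2, Real.rpow_one, mul_comm]
  have hfin := hhol.trans (mul_le_mul_left hmax _)
  rcases eq_or_ne I 0 with h0 | hIne
  · rw [h0, ENNReal.zero_rpow_of_pos (by positivity)]; exact bot_le
  rcases Nat.eq_zero_or_pos S.card with hS0 | hpos
  · exfalso
    rw [hS0] at hhol
    have : (δ ^ d * ((0 : ℕ) : ℝ)) ^ (1 - 1 / (q * d)) = 0 := by
      rw [Nat.cast_zero, mul_zero, Real.zero_rpow]
      have : 1 / (q * d) < 1 := by rw [div_lt_one (by positivity)]; exact hqd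
      linarith
    rw [this, ENNReal.ofReal_zero, mul_zero] at hhol
    exact hIne (le_antisymm hhol bot_le)
  have hNr : (0 : ℝ) < S.card := by exact_mod_cast hpos
  -- divide
  have hsplit : I = I ^ (1 / q) * I ^ (1 - 1 / q) := by
    rw [← ENNReal.rpow_add _ _ hIne hIfin, add_sub_cancel, ENNReal.rpow_one]
  have hIp0 : I ^ (1 - 1 / q) ≠ 0 := by
    simp only [ne_eq, ENNReal.rpow_eq_zero_iff, not_or, not_and, not_lt]
    constructor
    · intro h1; exact absurd h1 hIne
    · intro h1; exact absurd h1 hIfin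
  have hIpt : I ^ (1 - 1 / q) ≠ ∞ := by
    apply ENNReal.rpow_ne_top_of_nonneg _ hIfin
    have : 1 / q < 1 := by rw [div_lt_one hq0]; exact hq
    linarith
  have hfin2 : I ^ (1 / q) * I ^ (1 - 1 / q) ≤
      (ENNReal.ofReal (C * δ ^ (-ε) * δ ^ (-(((d : ℝ) + 1) * (1 - 1 / q) - 1))) *
      ENNReal.ofReal ((δ ^ d * S.card) ^ (1 - 1 / (q * d)))) * I ^ (1 - 1 / q) := by
    rw [← hsplit]
    refine hfin.trans (le_of_eq ?_)
    ring
  clear hsplit
  rw [ENNReal.mul_le_mul_iff_left hIp0 hIpt] at hfin2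
  refine hfin2.trans (le_of_eq ?_)
  rw [← ENNReal.ofReal_mul' (by positivity)]
  congr 1
  rw [Real.mul_rpow (by positivity) hNr.le, ← Real.rpow_natCast δ d, ← Real.rpow_mul hδ.le]
  have e1 : δ ^ (-(((d : ℝ) + 1) * (1 - 1 / q) - 1)) * δ ^ ((d : ℝ) * (1 - 1 / (q * d))) =
      δ ^ ((d : ℝ) / q) := by
    rw [← Real.rpow_add hδ]
    congr 1
    field_simp
    ring
  rw [← e1]
  ring

end Pool.Agent.H53.Kak
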