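import Pool.Agent.H53.Kak.Norm

/-!
# Localisation to a ball
-/

set_option autoImplicit false

open MeasureTheory ENNReal
open scoped RealInnerProductSpace

namespace Pool.Agent.H53.Kak

variable {d : ℕ} {ι : Type}

/-- rescaling a ball to size one -/
lemma tube_rescale {δ r : ℝ} (hr : 0 < r) {c e x0 z : E d} (hz : z ∈ tube δ c e)
    (hzb : z ∈ Metric.closedBall x0 r) (he : ‖e‖ = 1) :
    (2 * r)⁻¹ • (z + -x0) ∈ tube (δ / (2 * r)) ((2 * r)⁻¹ • (c + ⟪x0 - c, e⟫ • e + -x0)) e := by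
  have h2r : 0 < 2 * r := by linarith
  rw [Metric.mem_closedBall, dist_eq_norm] at hzb
  have e0 : (2 * r)⁻¹ • (z + -x0) - (2 * r)⁻¹ • (c + ⟪x0 - c, e⟫ • e + -x0) =
      (2 * r)⁻¹ • ((z - c) - ⟪x0 - c, e⟫ • e) := by module
  have hee : ⟪e, e⟫ = (1 : ℝ) := by rw [real_inner_self_eq_norm_sq, he]; norm_num
  have e1 : ⟪(z - c) - ⟪x0 - c, e⟫ • e, e⟫ = ⟪z - x0, e⟫ := by
    rw [inner_sub_left, inner_smul_left, hee]
    simp only [conj_trivial, mul_one]
    rw [← inner_sub_left]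
    congr 1; abel
  constructor
  · rw [e0, inner_smul_left, e1]
    simp only [conj_trivial]
    rw [abs_mul, abs_of_pos (by positivity)]
    have h1 : |⟪z - x0, e⟫| ≤ r := by
      have := abs_real_inner_le_norm (z - x0) e
      rw [he, mul_one] at this
      linarith
    rw [inv_mul_le_iff₀ h2r]
    linarith
  · rw [e0, inner_smul_left, e1]
    simp only [conj_trivial]
    have e2 : (2 * r)⁻¹ • ((z - c) - ⟪x0 - c, e⟫ • e) - ((2 * r)⁻¹ * ⟪z - x0, e⟫) • e =
        (2 * r)⁻¹ • ((z - c) - ⟪z - c, e⟫ • e) := by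
      have : ⟪z - c, e⟫ = ⟪z - x0, e⟫ + ⟪x0 - c, e⟫ := by
        rw [← inner_add_left]; congr 1; abel
      rw [this]
      module
    rw [e2, norm_smul, Real.norm_eq_abs, abs_of_pos (by positivity), div_eq_inv_mul]
    exact mul_le_mul_of_nonneg_left hz.2 (by positivity)

lemma vol_preimage_rescale {r : ℝ} (hr : 0 < r) (x0 : E d) (B : Set (E d)) :
    volume ((fun z : E d => (2 * r)⁻¹ • (z + -x0)) ⁻¹' B) =
      ENNReal.ofReal ((2 * r) ^ (d + 1)) * volume B := by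
  have h2r : 0 < 2 * r := by linarith
  have h1 : (fun z : E d => (2 * r)⁻¹ • (z + -x0)) ⁻¹' B =
      (fun z : E d => z + -x0) ⁻¹' ((fun y : E d => (2 * r)⁻¹ • y) ⁻¹' B) := rfl
  rw [h1, measure_preimage_add_right, Measure.addHaar_preimage_smul _ (by positivity),
    finrank_euclideanSpace_fin]
  congr 2
  rw [abs_of_pos (by positivity), inv_pow, inv_inv]

lemma ball_loc {q ε C : ℝ} (hd : 1 ≤ d) (hq : 1 ≤ q) (hC : 0 ≤ C) (h : Loss d q ε C) {δ r : ℝ}
    (hδ : 0 < δ) (hδr : δ < 2 * r) (hr1 : 2 * r ≤ 1) (S : Finset ι) (c e : ι → E d)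
    (hF : Fam δ e S) (x0 : E d) (E0 : Set (E d)) (hE0 : E0 ⊆ Metric.closedBall x0 r)
    {lam : ℝ} (hlam : 0 < lam) (hmu : ∀ x ∈ E0, lam ≤ mu δ c e S x) :
    volume E0 ≤ ENNReal.ofReal (4 * CG d * ((C * (δ / (2 * r)) ^ (-ε)) ^ q *
      (lam ^ (-q) * (δ ^ d * (S.card : ℝ) ^ (q - 1 / d))))) := by
  classical
  have hr : 0 < r := by linarith
  have h2r : 0 < 2 * r := by linarith
  have hd0 : (0 : ℝ) < d := by exact_mod_cast hd
  have hd1 : (1 : ℝ) ≤ d := by exact_mod_cast hd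
  have hG := CG_pos d
  have hG1 := one_le_CG d
  set ρ := δ / (2 * r) with hρ
  have hρ0 : 0 < ρ := by positivity
  have hρ1 : ρ < 1 := by rw [hρ, div_lt_one h2r]; exact hδr
  have hr' : 1 ≤ 1 / r := by rw [one_le_div hr]; linarith
  set c' : ι → E d := fun j => (2 * r)⁻¹ • (c j + ⟪x0 - c j, e j⟫ • e j + -x0) with hc'
  -- the number of close directions
  set K : ℕ := ⌈CG d * (1 / r) ^ d⌉₊ with hKdef
  have hKpos : 0 < K := Nat.ceil_pos.mpr (by positivity)
  have hK1 : 1 ≤ CG d * (1 / r) ^ d := by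
    have : 1 ≤ (1 / r) ^ d := one_le_pow₀ hr'
    nlinarith
  have hKle : (K : ℝ) ≤ 2 * CG d * (1 / r) ^ d := by
    have := (Nat.ceil_lt_add_one (a := CG d * (1 / r) ^ d) (by positivity)).le
    rw [← hKdef] at this
    linarith
  have hK : ∀ i ∈ S, (S.filter (fun j => ‖e j - e i‖ < ρ)).card ≤ K := by
    intro i hi
    have h1 := card_near' hδ (hF.mono (Finset.filter_subset (fun j => ‖e j - e i‖ < ρ) S)) (e i)
      hρ0.le (fun j hj => (Finset.mem_filter.1 hj).2.le)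
    have h2 : (ρ + δ) / δ ≤ 1 / r := by
      have : (ρ + δ) / δ = 1 / (2 * r) + 1 := by rw [hρ]; field_simp
      rw [this]
      have h3 : 1 ≤ 1 / (2 * r) := by rw [one_le_div h2r]; exact hr1
      have h4 : 1 / r = 1 / (2 * r) + 1 / (2 * r) := by field_simp; norm_num
      rw [h4]; linarith
    have h3 : CG d * ((ρ + δ) / δ) ^ d ≤ CG d * (1 / r) ^ d := by gcongr
    have h4 := (h1.trans h3).trans (Nat.le_ceil _)
    exact_mod_cast h4
  have hw := multi_weak hd hq hC h hρ0 hρ1 S c' e hF.unit K hKpos hK hlam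
  have hsub : E0 ⊆ (fun z : E d => (2 * r)⁻¹ • (z + -x0)) ⁻¹' {x | lam ≤ mu ρ c' e S x} := by
    intro z hz
    simp only [Set.mem_preimage, Set.mem_ofPred_eq]
    refine (hmu z hz).trans ?_
    have : mu δ c e S z ≤ mu ρ c' e S ((2 * r)⁻¹ • (z + -x0)) := by
      unfold mu
      apply Finset.card_le_card
      intro j hj
      rw [Finset.mem_filter] at hj ⊢
      exact ⟨hj.1, tube_rescale hr hj.2 (hE0 hz) (hF.unit j hj.1)⟩
    exact_mod_cast this
  have hKd : (K : ℝ) ^ (1 / (d : ℝ)) ≤ 2 * CG d / r := by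
    calc (K : ℝ) ^ (1 / (d : ℝ)) ≤ (2 * CG d * (1 / r) ^ d) ^ (1 / (d : ℝ)) := by gcongr
      _ = (2 * CG d) ^ (1 / (d : ℝ)) * (1 / r) := by
          rw [Real.mul_rpow (by positivity) (by positivity), ← Real.rpow_natCast (1 / r) d,
            ← Real.rpow_mul (by positivity), mul_one_div_cancel hd0.ne', Real.rpow_one]
      _ ≤ (2 * CG d) * (1 / r) := by
          gcongr
          calc (2 * CG d) ^ (1 / (d : ℝ)) ≤ (2 * CG d) ^ (1 : ℝ) := by
                apply Real.rpow_le_rpow_of_exponent_le (by linarith)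
                rw [div_le_one hd0]; exact hd1
            _ = 2 * CG d := Real.rpow_one _
      _ = 2 * CG d / r := by ring
  calc volume E0 ≤ volume ((fun z : E d => (2 * r)⁻¹ • (z + -x0)) ⁻¹' {x | lam ≤ mu ρ c' e S x}) :=
        measure_mono hsub
    _ = ENNReal.ofReal ((2 * r) ^ (d + 1)) * volume {x | lam ≤ mu ρ c' e S x} :=
        vol_preimage_rescale hr x0 _
    _ ≤ ENNReal.ofReal ((2 * r) ^ (d + 1)) * ENNReal.ofReal (lam ^ (-q) *
      ((C * ρ ^ (-ε)) ^ q * (ρ ^ d * ((K : ℝ) ^ (1 / (d : ℝ)) * (S.card : ℝ) ^ (q - 1 / d))))) := by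
        gcongr
    _ = ENNReal.ofReal ((2 * r) ^ (d + 1) * (lam ^ (-q) *
      ((C * ρ ^ (-ε)) ^ q * (ρ ^ d * ((K : ℝ) ^ (1 / (d : ℝ)) * (S.card : ℝ) ^ (q - 1 / d)))))) := by
        exact (ENNReal.ofReal_mul (by positivity)).symm
    _ ≤ _ := by
        apply ENNReal.ofReal_le_ofReal
        calc (2 * r) ^ (d + 1) * (lam ^ (-q) *
              ((C * ρ ^ (-ε)) ^ q * (ρ ^ d * ((K : ℝ) ^ (1 / (d : ℝ)) * (S.card : ℝ) ^ (q - 1 / d)))))
            ≤ (2 * r) ^ (d + 1) * (lam ^ (-q) *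
              ((C * ρ ^ (-ε)) ^ q * (ρ ^ d * ((2 * CG d / r) * (S.card : ℝ) ^ (q - 1 / d))))) := by
              gcongr
          _ = 4 * CG d * ((C * ρ ^ (-ε)) ^ q * (lam ^ (-q) * (δ ^ d * (S.card : ℝ) ^ (q - 1 / d)))) := by
              have : (2 * r) ^ (d + 1) * ρ ^ d * (1 / r) = 2 * δ ^ d := by
                rw [hρ, div_pow, pow_succ]; field_simp
              calc _ = ((2 * r) ^ (d + 1) * ρ ^ d * (1 / r)) * (2 * CG d * ((C * ρ ^ (-ε)) ^ q *
                    (lam ^ (-q) * (S.card : ℝ) ^ (q - 1 / (d : ℝ))))) := by ring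
                _ = _ := by rw [this]; ring

end Pool.Agent.H53.Kak
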