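import Pool.Agent.H53.Kak.Rescale

/-!
# The weak-type bound in a cap
-/

set_option autoImplicit false

open MeasureTheory ENNReal
open scoped RealInnerProductSpace

namespace Pool.Agent.H53.Kak

variable {d : ℕ} {ι : Type}

/-- number of colours -/
noncomputable def K0 (d : ℕ) : ℕ := ⌈3 * CG d * 11 ^ d⌉₊

lemma K0_pos (d : ℕ) : 0 < K0 d := by
  have := CG_pos d
  exact Nat.ceil_pos.mpr (by positivity)

lemma one_le_K0 (d : ℕ) : (1 : ℝ) ≤ K0 d := by exact_mod_cast K0_pos d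

lemma mu_le_sum_colours {K : ℕ} (δ : ℝ) (c e : ι → E d) (S : Finset ι) (χ : ι → Fin K) (x : E d) :
    (mu δ c e S x : ℝ) = ∑ k : Fin K, (mu δ c e (S.filter (fun j => χ j = k)) x : ℝ) := by
  simp_rw [← sum_indicator_eq]
  rw [Finset.sum_fiberwise]

lemma mu_Amap {ω : E d} {θ δ : ℝ} (hω : ‖ω‖ = 1) (hθ : 0 < θ) (hθ1 : θ ≤ 1 / 2) (hδθ : 2 * δ ≤ θ)
    (T : Finset ι) (c e : ι → E d) (hunit : ∀ j ∈ T, ‖e j‖ = 1) (hcap : ∀ j ∈ T, ‖e j - ω‖ ≤ θ)
    (x : E d) :
    mu δ c e T x ≤ mu (δ / θ) (fun p : ι × Fin 3 => Amap ω θ (c p.1) +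
      ((p.2 : ℝ) - 1) • Adir ω θ (e p.1)) (fun p => Adir ω θ (e p.1))
      (T ×ˢ (Finset.univ : Finset (Fin 3))) (Amap ω θ x) := by
  classical
  unfold mu
  refine (Finset.card_le_card ?_).trans (Finset.card_image_le (f := Prod.fst))
  intro j hj
  rw [Finset.mem_filter] at hj
  obtain ⟨k, hk⟩ := tube_Amap hω (hunit j hj.1) hθ hθ1 hδθ (hcap j hj.1) hj.2
  rw [Finset.mem_image]
  refine ⟨(j, k), ?_, rfl⟩
  rw [Finset.mem_filter, Finset.mem_product]
  exact ⟨⟨hj.1, Finset.mem_univ _⟩, hk⟩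

lemma colour_cap {ω : E d} {θ δ : ℝ} (hω : ‖ω‖ = 1) (hθ : 0 < θ) (hθ1 : θ ≤ 1 / 2)
    (hδ : 0 < δ) (T : Finset ι) (e : ι → E d) (hF : Fam δ e T)
    (hcap : ∀ j ∈ T, ‖e j - ω‖ ≤ θ) :
    ∃ χ : ι × Fin 3 → Fin (K0 d), ∀ k, Fam (δ / θ) (fun p : ι × Fin 3 => Adir ω θ (e p.1))
      ((T ×ˢ (Finset.univ : Finset (Fin 3))).filter (fun p => χ p = k)) := by
  classical
  have hρ : 0 < δ / θ := by positivity
  have hF' : Fam (δ / θ / 10) (fun j => Adir ω θ (e j)) T := by
    constructor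
    · intro i hi
      exact norm_Adir hω (hF.unit i hi) hθ1 (hcap i hi)
    · intro i hi j hj hij
      have h1 := Adir_sep hω (hF.unit i hi) (hF.unit j hj) hθ hθ1 (hcap i hi) (hcap j hj)
      have h2 := hF.sep i hi j hj hij
      rw [div_div, div_le_iff₀ (by positivity)]
      linarith
  obtain ⟨χ, hχ⟩ := exists_colour (T ×ˢ (Finset.univ : Finset (Fin 3)))
    (fun p : ι × Fin 3 => Adir ω θ (e p.1)) (δ / θ) hρ (K0 d) (by
      rintro ⟨i, k⟩ hi
      rw [Finset.mem_product] at hi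
      have hsub : ((T ×ˢ (Finset.univ : Finset (Fin 3))).filter
          (fun p => ‖Adir ω θ (e p.1) - Adir ω θ (e i)‖ < δ / θ)) ⊆
          (T.filter (fun j => ‖Adir ω θ (e j) - Adir ω θ (e i)‖ < δ / θ)) ×ˢ
            (Finset.univ : Finset (Fin 3)) := by
        rintro ⟨j, l⟩ hj
        rw [Finset.mem_filter, Finset.mem_product] at hj
        rw [Finset.mem_product, Finset.mem_filter]
        exact ⟨⟨hj.1.1, hj.2⟩, hj.1.2⟩
      have h1 := Finset.card_le_card hsub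
      rw [Finset.card_product, Finset.card_univ, Fintype.card_fin] at h1
      have h2 := card_near' (by positivity : (0 : ℝ) < δ / θ / 10)
        (hF'.mono (Finset.filter_subset (fun j => ‖Adir ω θ (e j) - Adir ω θ (e i)‖ < δ / θ) T))
        (Adir ω θ (e i)) hρ.le (fun j hj => (Finset.mem_filter.1 hj).2.le)
      have h3 : (δ / θ + δ / θ / 10) / (δ / θ / 10) = 11 := by field_simp; norm_num
      rw [h3] at h2
      have h4 : (((T ×ˢ (Finset.univ : Finset (Fin 3))).filter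
          (fun p => ‖Adir ω θ (e p.1) - Adir ω θ (e i)‖ < δ / θ)).card : ℝ) ≤ 3 * CG d * 11 ^ d := by
        calc _ ≤ (((T.filter (fun j => ‖Adir ω θ (e j) - Adir ω θ (e i)‖ < δ / θ)).card * 3 : ℕ) : ℝ) := by
              exact_mod_cast h1
          _ ≤ 3 * CG d * 11 ^ d := by push_cast; linarith
      have h5 := h4.trans (Nat.le_ceil _)
      have h6 : ((T ×ˢ (Finset.univ : Finset (Fin 3))).filter
          (fun p => ‖Adir ω θ (e p.1) - Adir ω θ (e i)‖ < δ / θ)).card ≤ K0 d := by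
        rw [K0]
        exact Nat.cast_le.mp h5
      convert h6) (K0_pos d)
  refine ⟨χ, fun k => ⟨?_, ?_⟩⟩
  · rintro ⟨i, l⟩ hi
    rw [Finset.mem_filter, Finset.mem_product] at hi
    exact norm_Adir hω (hF.unit i hi.1.1) hθ1 (hcap i hi.1.1)
  · intro p hp r hr hpr
    rw [Finset.mem_filter] at hp hr
    exact hχ p hp.1 r hr.1 hpr (hp.2.trans hr.2.symm)

lemma cap_bound {q ε C : ℝ} (hd : 1 ≤ d) (hq : 1 + 1 / (d : ℝ) ≤ q) (hC : 0 ≤ C) (hε : 0 ≤ ε)
    (h : Loss d q ε C) {κ : ℝ} (hκ0 : 0 < κ) (hκ : κ ≤ kap0 d) (b : ℕ) {δ θ : ℝ} (hδ : 0 < δ)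
    (hθ1 : θ ≤ 1 / 2) (hδθ : 2 * δ ≤ θ) {ω : E d} (hω : ‖ω‖ = 1) (T : Finset ι) (c e : ι → E d)
    (hF : Fam δ e T) (hcap : ∀ j ∈ T, ‖e j - ω‖ ≤ θ) {lam : ℝ} (hlam0 : 0 < lam)
    (hlam : κ * (3 * T.card) ≤ lam / K0 d) (hN : κ ^ b * (θ / δ) ^ d ≤ lam / K0 d) :
    volume {x | lam ≤ mu δ c e T x} ≤ ENNReal.ofReal ((4 * CG d * 2 ^ (q - 1 / d) *
      (C * (κ ^ (2 * (b + 3) + 1) / 8) ^ (-ε)) ^ q * ((lam / K0 d) ^ (-q) * δ ^ d)) *
      (3 * T.card) ^ (q - 1 / d)) := by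
  classical
  have hG := CG_pos d
  have hK0 := one_le_K0 d
  have hK0' : (0 : ℝ) < K0 d := by linarith
  have hθ : 0 < θ := by linarith
  have hρ : 0 < δ / θ := by positivity
  have hρ1 : δ / θ < 1 := by rw [div_lt_one hθ]; linarith
  have hd0 : (0 : ℝ) < d := by exact_mod_cast hd
  have hinv : 0 < 1 / (d : ℝ) := by positivity
  have ha : 1 ≤ q - 1 / d := by linarith
  obtain ⟨χ, hχ⟩ := colour_cap hω hθ hθ1 hδ T e hF hcap
  set U := T ×ˢ (Finset.univ : Finset (Fin 3)) with hU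
  set c' : ι × Fin 3 → E d := fun p => Amap ω θ (c p.1) + ((p.2 : ℝ) - 1) • Adir ω θ (e p.1)
    with hc'
  set e' : ι × Fin 3 → E d := fun p => Adir ω θ (e p.1) with he'
  have hsum : ∑ k : Fin (K0 d), ((U.filter (fun p => χ p = k)).card : ℝ) = 3 * T.card := by
    have h1 := Finset.card_eq_sum_card_fiberwise (s := U) (t := Finset.univ) (f := χ)
      (fun _ _ => by simp)
    have h2 : U.card = T.card * 3 := by
      rw [hU, Finset.card_product, Finset.card_univ, Fintype.card_fin]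
    rw [h2] at h1
    have h3 : ((T.card * 3 : ℕ) : ℝ) = ∑ k : Fin (K0 d), ((U.filter (fun p => χ p = k)).card : ℝ) := by
      rw [h1]; push_cast; rfl
    rw [← h3]; push_cast; ring
  have hB0 : 0 ≤ 4 * CG d * 2 ^ (q - 1 / (d : ℝ)) *
      (C * (κ ^ (2 * (b + 3) + 1) / 8) ^ (-ε)) ^ q * ((lam / K0 d) ^ (-q) * δ ^ d) := by
    positivity
  refine sum_up {x | lam ≤ mu δ c e T x} (Finset.univ : Finset (Fin (K0 d)))
    (fun k => (Amap ω θ) ⁻¹' {y | lam / K0 d ≤ mu (δ / θ) c' e' (U.filter (fun p => χ p = k)) y})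
    (fun k => ((U.filter (fun p => χ p = k)).card : ℝ)) hB0 ha (fun k _ => by positivity) ?_
    hsum.le ?_
  · intro k _
    rcases {y | lam / K0 d ≤ mu (δ / θ) c' e' (U.filter (fun p => χ p = k)) y}.eq_empty_or_nonempty
      with hemp | ⟨y, hy⟩
    · rw [hemp, Set.preimage_empty, measure_empty]; exact bot_le
    · have h1 : lam / K0 d ≤ ((U.filter (fun p => χ p = k)).card : ℝ) := by
        refine le_trans hy ?_
        exact_mod_cast mu_le_card _ _ _ _ _
      have hpos : (0 : ℝ) < ((U.filter (fun p => χ p = k)).card : ℝ) :=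
        (div_pos hlam0 hK0').trans_le h1
      have hle : ((U.filter (fun p => χ p = k)).card : ℝ) ≤ 3 * T.card := by
        rw [← hsum]
        exact Finset.single_le_sum (f := fun k => ((U.filter (fun p => χ p = k)).card : ℝ))
          (fun _ _ => by positivity) (Finset.mem_univ k)
      have h2 := near_full hd hq hC hε h hκ0 hκ b hρ hρ1 (U.filter (fun p => χ p = k)) c' e'
        (hχ k) (by
          rw [one_div_div]
          exact hN.trans h1) (by exact_mod_cast hpos) (lam := lam / K0 d) (by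
          refine le_trans ?_ hlam
          gcongr)
      rw [vol_preimage_Amap hω hθ]
      calc _ ≤ ENNReal.ofReal (θ ^ d) * ENNReal.ofReal (4 * CG d * 2 ^ (q - 1 / (d : ℝ)) *
            ((C * (κ ^ (2 * (b + 3) + 1) / 8) ^ (-ε)) ^ q *
            ((lam / K0 d) ^ (-q) * ((δ / θ) ^ d *
              ((U.filter (fun p => χ p = k)).card : ℝ) ^ (q - 1 / (d : ℝ)))))) := by
            gcongr
        _ = _ := by
            rw [← ENNReal.ofReal_mul (by positivity)]
            congr 1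
            have h3 : θ ^ d * (δ / θ) ^ d = δ ^ d := by
              rw [← mul_pow]; congr 1; field_simp
            rw [← h3]; ring
  · intro x hx
    simp only [Set.mem_ofPred_eq] at hx
    by_contra hcon
    simp only [Set.mem_iUnion, not_exists, Set.mem_preimage, Set.mem_ofPred_eq, not_le] at hcon
    have h1 : (mu δ c e T x : ℝ) ≤ mu (δ / θ) c' e' U (Amap ω θ x) := by
      exact Nat.cast_le.mpr (mu_Amap hω hθ hθ1 hδθ T c e hF.unit hcap x)
    have h2 : (mu (δ / θ) c' e' U (Amap ω θ x) : ℝ) < lam := by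
      rw [mu_le_sum_colours (δ / θ) c' e' U χ]
      have : Nonempty (Fin (K0 d)) := ⟨⟨0, K0_pos d⟩⟩
      calc _ < ∑ _k : Fin (K0 d), lam / K0 d :=
            Finset.sum_lt_sum_of_nonempty Finset.univ_nonempty
              (fun k hk => hcon k hk)
        _ = lam := by
            rw [Finset.sum_const, Finset.card_univ, Fintype.card_fin, nsmul_eq_mul]
            field_simp
    linarith

end Pool.Agent.H53.Kak
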