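import Pool.Agent.H53.Kak.Ball

/-!
# Clusters: the weak-type bound for almost full families
-/

set_option autoImplicit false

open MeasureTheory ENNReal
open scoped RealInnerProductSpace

namespace Pool.Agent.H53.Kak

variable {d : ℕ} {ι : Type}

open Classical in
/-- Bonferroni inequality -/
lemma bonf {κ : Type*} (S : Finset ι) (Ks : Finset κ) (P : ι → κ → Prop) :
    2 * ∑ k ∈ Ks, (S.filter (fun i => P i k)).card ≤
      2 * S.card + ∑ p ∈ Ks.offDiag, (S.filter (fun i => P i p.1 ∧ P i p.2)).card := by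
  have h1 : ∑ k ∈ Ks, (S.filter (fun i => P i k)).card =
      ∑ i ∈ S, (Ks.filter (fun k => P i k)).card := by
    simp_rw [Finset.card_filter]
    exact Finset.sum_comm
  have h2 : ∑ p ∈ Ks.offDiag, (S.filter (fun i => P i p.1 ∧ P i p.2)).card =
      ∑ i ∈ S, ((Ks.filter (fun k => P i k)).offDiag).card := by
    simp_rw [Finset.card_filter]
    rw [Finset.sum_comm]
    apply Finset.sum_congr rfl
    intro i _
    rw [← Finset.card_filter]
    congr 1
    ext p
    simp only [Finset.mem_filter, Finset.mem_offDiag]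
    tauto
  rw [h1, h2, Finset.mul_sum]
  have h3 : 2 * S.card = ∑ _i ∈ S, 2 := by simp [mul_comm]
  rw [h3, ← Finset.sum_add_distrib]
  apply Finset.sum_le_sum
  intro i _
  rw [Finset.offDiag_card]
  generalize (Ks.filter (fun k => P i k)).card = b
  rcases b with _ | _ | b
  · simp
  · simp
  · have : (b + 1 + 1) * (b + 1 + 1) - (b + 1 + 1) = (b + 1) * (b + 2) := by
      have h4 : (b + 1 + 1) * (b + 1 + 1) = (b + 1) * (b + 2) + (b + 1 + 1) := by ring
      omega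
    rw [this]
    nlinarith

lemma sum_rpow_le_rpow_sum {κ : Type*} (T : Finset κ) (x : κ → ℝ) (hx : ∀ k ∈ T, 0 ≤ x k) {a : ℝ}
    (ha : 1 ≤ a) : ∑ k ∈ T, x k ^ a ≤ (∑ k ∈ T, x k) ^ a := by
  have hs : 0 ≤ ∑ k ∈ T, x k := Finset.sum_nonneg hx
  rcases hs.eq_or_lt with h0 | hpos
  · have h1 : ∀ k ∈ T, x k = 0 := (Finset.sum_eq_zero_iff_of_nonneg hx).mp h0.symm
    rw [← h0, Real.zero_rpow (by linarith)]
    apply le_of_eq
    apply Finset.sum_eq_zero
    intro k hk
    rw [h1 k hk, Real.zero_rpow (by linarith)]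
  · calc ∑ k ∈ T, x k ^ a ≤ ∑ k ∈ T, x k * (∑ k ∈ T, x k) ^ (a - 1) := by
          apply Finset.sum_le_sum
          intro k hk
          rcases (hx k hk).eq_or_lt with h1 | h1
          · rw [← h1, Real.zero_rpow (by linarith), zero_mul]
          · have : x k ^ a = x k * x k ^ (a - 1) := by
              have h2 := Real.rpow_add h1 1 (a - 1)
              rw [Real.rpow_one] at h2
              rw [← h2]; congr 1; ring
            rw [this]
            apply mul_le_mul_of_nonneg_left _ h1.le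
            apply Real.rpow_le_rpow h1.le _ (by linarith)
            exact Finset.single_le_sum hx hk
      _ = (∑ k ∈ T, x k) ^ a := by
          rw [← Finset.sum_mul]
          have h2 := Real.rpow_add hpos 1 (a - 1)
          rw [Real.rpow_one] at h2
          rw [← h2]; congr 1; ring

/-- weak-type bound at the original scale -/
lemma direct_weak {q ε C : ℝ} (hd : 1 ≤ d) (hq : 1 ≤ q) (hC : 0 ≤ C) (h : Loss d q ε C) {δ : ℝ}
    (hδ : 0 < δ) (hδ1 : δ < 1) (S : Finset ι) (c e : ι → E d) (hF : Fam δ e S)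
    {lam : ℝ} (hlam : 0 < lam) :
    volume {x | lam ≤ mu δ c e S x} ≤ ENNReal.ofReal ((C * δ ^ (-ε)) ^ q *
      (lam ^ (-q) * (δ ^ d * (S.card : ℝ) ^ (q - 1 / d)))) := by
  classical
  have := multi_weak hd hq hC h hδ hδ1 S c e hF.unit 1 one_pos (by
    intro i hi
    have hsub : S.filter (fun j => ‖e j - e i‖ < δ) ⊆ {i} := by
      intro j hj
      rw [Finset.mem_filter] at hj
      rw [Finset.mem_singleton]
      by_contra hne
      exact absurd (hF.sep j hj.1 i hi hne) (not_le.mpr hj.2)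
    exact (Finset.card_le_card hsub).trans (by simp)) hlam
  refine this.trans (le_of_eq ?_)
  congr 1
  rw [Nat.cast_one, Real.one_rpow]
  ring

/-- threshold for `κ` -/
noncomputable def kap0 (d : ℕ) : ℝ := 1 / (2 * 9 ^ (d + 1) * CG d)

lemma kap0_pos (d : ℕ) : 0 < kap0 d := by
  have := CG_pos d
  rw [kap0]; positivity

lemma kap0_le (d : ℕ) : kap0 d ≤ 1 / 18 := by
  have h1 := one_le_CG d
  rw [kap0]
  apply one_div_le_one_div_of_le (by norm_num)
  have h2 : (9 : ℝ) ≤ 9 ^ (d + 1) := by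
    calc (9 : ℝ) = 9 ^ 1 := by norm_num
      _ ≤ 9 ^ (d + 1) := pow_le_pow_right₀ (by norm_num) (by omega)
  nlinarith

section cluster

variable {κ δ lam : ℝ} {b : ℕ} {S : Finset ι} {c e : ι → E d}

/-- any `D`-separated set of points of high multiplicity is small -/
lemma sep_card (hd : 1 ≤ d) (hκ0 : 0 < κ) (hκ : κ ≤ kap0 d) (hδ : 0 < δ)
    (hδκ : δ ≤ κ ^ (2 * (b + 3) + 1) / 8) (hF : Fam δ e S) (hN : κ ^ b * (1 / δ) ^ d ≤ S.card)
    (hNpos : 0 < S.card) (hlam : κ * S.card ≤ lam) (X : Finset (E d))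
    (hX : ∀ x ∈ X, lam ≤ mu δ c e S x)
    (hXsep : ∀ x ∈ X, ∀ y ∈ X, x ≠ y → δ / κ ^ (b + 3) ≤ ‖x - y‖) :
    (X.card : ℝ) ≤ 3 / κ := by
  classical
  have hG := CG_pos d
  have hG1 := one_le_CG d
  have hκ1 : κ ≤ 1 / 18 := hκ.trans (kap0_le d)
  have hκle1 : κ ≤ 1 := by linarith
  have hNr : (0 : ℝ) < S.card := by exact_mod_cast hNpos
  by_contra hcon
  push Not at hcon
  set m : ℕ := ⌈2 / κ⌉₊ with hm
  have hm1 : 2 / κ ≤ m := Nat.le_ceil _
  have hm2 : (m : ℝ) ≤ 3 / κ := by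
    have h1 := (Nat.ceil_lt_add_one (a := 2 / κ) (by positivity)).le
    have h2 : 1 ≤ 1 / κ := by rw [one_le_div hκ0]; exact hκle1
    have h3 : 3 / κ = 2 / κ + 1 / κ := by ring
    rw [h3, hm]; linarith
  have hmX : m ≤ X.card := by
    have : (m : ℝ) ≤ X.card := by linarith
    exact_mod_cast this
  obtain ⟨Y, hYX, hYm⟩ := Finset.exists_subset_card_eq hmX
  have hB := bonf S Y (fun i x => x ∈ tube δ (c i) (e i))
  -- lower bound
  have h1 : (m : ℝ) * (κ * S.card) ≤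
      ((∑ x ∈ Y, (S.filter (fun i => x ∈ tube δ (c i) (e i))).card : ℕ) : ℝ) := by
    push_cast
    calc (m : ℝ) * (κ * S.card) = ∑ _x ∈ Y, (κ * S.card) := by
          rw [Finset.sum_const, hYm, nsmul_eq_mul]
      _ ≤ _ := by
          apply Finset.sum_le_sum
          intro x hx
          refine hlam.trans ((hX x (hYX hx)).trans (le_of_eq ?_))
          rfl
  -- upper bound
  set H : ℝ := 2 * CG d * (5 ^ d * (κ ^ 3 * S.card)) with hH
  have hD0 : 0 < δ / κ ^ (b + 3) := by positivity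
  have hpow1 : κ ^ (2 * (b + 3) + 1) ≤ κ ^ (b + 3) :=
    pow_le_pow_of_le_one hκ0.le hκle1 (by omega)
  have hD1 : δ / κ ^ (b + 3) ≤ 1 := by
    rw [div_le_one (by positivity)]
    linarith [pow_pos hκ0 (b + 3)]
  have h2 : ∀ p ∈ Y.offDiag, (((S.filter (fun i => p.1 ∈ tube δ (c i) (e i) ∧
      p.2 ∈ tube δ (c i) (e i))).card : ℕ) : ℝ) ≤ H := by
    intro p hp
    rw [Finset.mem_offDiag] at hp
    have h3 := hXsep p.1 (hYX hp.1) p.2 (hYX hp.2.1) hp.2.2
    have h4 := card_two hδ le_rfl hF (c := c) hp.2.2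
    have hsub : (S.filter (fun i => p.1 ∈ tube δ (c i) (e i) ∧ p.2 ∈ tube δ (c i) (e i))) ⊆
        S.filter (fun j => (tube δ (c j) (e j) ∩ Metric.closedBall p.1 0).Nonempty ∧
          (tube δ (c j) (e j) ∩ Metric.closedBall p.2 0).Nonempty) := by
      intro j hj
      rw [Finset.mem_filter] at hj ⊢
      exact ⟨hj.1, ⟨p.1, hj.2.1, by simp⟩, ⟨p.2, hj.2.2, by simp⟩⟩
    have h5 : (((S.filter (fun i => p.1 ∈ tube δ (c i) (e i) ∧
      p.2 ∈ tube δ (c i) (e i))).card : ℕ) : ℝ) ≤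
        2 * CG d * ((4 * (δ + 0) / ‖p.1 - p.2‖ + δ) / δ) ^ d :=
      le_trans (by exact_mod_cast Finset.card_le_card hsub) h4
    refine h5.trans ?_
    rw [hH]
    have hppos : 0 < ‖p.1 - p.2‖ := hD0.trans_le h3
    have h6 : (4 * (δ + 0) / ‖p.1 - p.2‖ + δ) / δ ≤ 5 * (κ ^ (b + 3) / δ) := by
      have e1 : (4 * (δ + 0) / ‖p.1 - p.2‖ + δ) / δ = 4 * (1 / ‖p.1 - p.2‖) + 1 := by
        field_simp; ring
      have e2 : 1 / ‖p.1 - p.2‖ ≤ κ ^ (b + 3) / δ := by
        have := one_div_le_one_div_of_le hD0 h3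
        rwa [one_div_div] at this
      have e3 : 1 ≤ κ ^ (b + 3) / δ := by
        have := (one_le_div hD0).mpr hD1
        rwa [one_div_div] at this
      rw [e1]; linarith
    have h7 : (5 * (κ ^ (b + 3) / δ)) ^ d ≤ 5 ^ d * (κ ^ 3 * S.card) := by
      rw [mul_pow]
      apply mul_le_mul_of_nonneg_left _ (by positivity)
      calc (κ ^ (b + 3) / δ) ^ d = (κ ^ (b + 3)) ^ d * (1 / δ) ^ d := by
            rw [← mul_pow]; congr 1; ring
        _ ≤ (κ ^ (b + 3)) ^ 1 * (1 / δ) ^ d := by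
            apply mul_le_mul_of_nonneg_right _ (by positivity)
            exact pow_le_pow_of_le_one (by positivity) (pow_le_one₀ hκ0.le hκle1) hd
        _ = κ ^ 3 * (κ ^ b * (1 / δ) ^ d) := by rw [pow_one, pow_add]; ring
        _ ≤ κ ^ 3 * S.card := by gcongr
    have hpos : 0 ≤ (4 * (δ + 0) / ‖p.1 - p.2‖ + δ) / δ := by positivity
    calc 2 * CG d * ((4 * (δ + 0) / ‖p.1 - p.2‖ + δ) / δ) ^ d
        ≤ 2 * CG d * (5 * (κ ^ (b + 3) / δ)) ^ d := by gcongr
      _ ≤ 2 * CG d * (5 ^ d * (κ ^ 3 * S.card)) := by gcongr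
  have h3 : ((∑ p ∈ Y.offDiag, (S.filter (fun i => p.1 ∈ tube δ (c i) (e i) ∧
      p.2 ∈ tube δ (c i) (e i))).card : ℕ) : ℝ) ≤ (m : ℝ) ^ 2 * H := by
    push_cast
    calc _ ≤ ∑ _p ∈ Y.offDiag, H := Finset.sum_le_sum h2
      _ = (Y.offDiag.card : ℝ) * H := by rw [Finset.sum_const, nsmul_eq_mul]
      _ ≤ (m : ℝ) ^ 2 * H := by
          apply mul_le_mul_of_nonneg_right _ (by positivity)
          rw [Finset.offDiag_card, hYm]
          have : m * m - m ≤ m ^ 2 := by rw [sq]; exact Nat.sub_le _ _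
          exact_mod_cast this
  have hB' : 2 * ((∑ x ∈ Y, (S.filter (fun i => x ∈ tube δ (c i) (e i))).card : ℕ) : ℝ) ≤
      2 * S.card + ((∑ p ∈ Y.offDiag, (S.filter (fun i => p.1 ∈ tube δ (c i) (e i) ∧
      p.2 ∈ tube δ (c i) (e i))).card : ℕ) : ℝ) := by exact_mod_cast hB
  have h4 : 2 * (S.card : ℝ) ≤ (m : ℝ) * (κ * S.card) := by
    calc 2 * (S.card : ℝ) = (2 / κ) * (κ * S.card) := by field_simp
      _ ≤ (m : ℝ) * (κ * S.card) := by gcongr
  have h5 : (m : ℝ) ^ 2 * H ≤ 9 * (2 * CG d * 5 ^ d) * κ * S.card := by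
    calc (m : ℝ) ^ 2 * H ≤ (3 / κ) ^ 2 * H := by gcongr
      _ = _ := by rw [hH]; field_simp; ring
  have h6 : 9 * (2 * CG d * 5 ^ d) * κ ≤ 1 := by
    calc 9 * (2 * CG d * 5 ^ d) * κ ≤ 9 * (2 * CG d * 9 ^ d) * kap0 d := by
          gcongr; norm_num
      _ = 1 := by rw [kap0, pow_succ]; field_simp
  have h7 : (m : ℝ) ^ 2 * H ≤ 1 * S.card := h5.trans (by gcongr)
  linarith

end cluster

end Pool.Agent.H53.Kak
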