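import Mathlib

/-!
# Tubes: volumes and separated directions

The definition of a tube, the volume estimates `lintegral_tube`, `volume_slab_le` and the packing
estimate `card_near` are taken over from helper92 (file `FewCrossings.lean` of the same problem).
-/

set_option autoImplicit false

open MeasureTheory ENNReal
open scoped RealInnerProductSpace

namespace Pool.Agent.H53.Kak

abbrev E (d : ℕ) := EuclideanSpace ℝ (Fin (d + 1))

def tube {d : ℕ} (δ : ℝ) (c e : E d) : Set (E d) :=
  {x | |⟪x - c, e⟫| ≤ 1 / 2 ∧ ‖(x - c) - ⟪x - c, e⟫ • e‖ ≤ δ}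

lemma measurableSet_tube {d : ℕ} (δ : ℝ) (c e : E d) : MeasurableSet (tube δ c e) := by
  have h1 : IsClosed {x : E d | |⟪x - c, e⟫| ≤ 1 / 2} :=
    isClosed_le (by fun_prop) continuous_const
  have h2 : IsClosed {x : E d | ‖(x - c) - ⟪x - c, e⟫ • e‖ ≤ δ} :=
    isClosed_le (by fun_prop) continuous_const
  exact (h1.inter h2).measurableSet

/-- the box set in coordinates -/
lemma lintegral_tube {d : ℕ} (δ : ℝ) (hδ : 0 ≤ δ) (c e : E d) (he : ‖e‖ = 1) (φ : ℝ → ℝ≥0∞)
    (hφ : Measurable φ) :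
    ∫⁻ x in tube δ c e, φ ⟪x - c, e⟫ ≤
      ENNReal.ofReal ((2 * δ) ^ d) * ∫⁻ s in Set.Icc (-(1 / 2) : ℝ) (1 / 2), φ s := by
  classical
  -- orthonormal basis with first vector e
  obtain ⟨b, hb⟩ : ∃ b : OrthonormalBasis (Fin (d + 1)) ℝ (E d), b 0 = e := by
    have h0 : Orthonormal ℝ (({0} : Set (Fin (d + 1))).domRestrict (fun _ : Fin (d + 1) => e)) := by
      constructor
      · intro i; exact he
      · intro i j hij
        exact absurd (Subtype.ext (i.2.trans j.2.symm)) hij
    obtain ⟨b, hb⟩ := Orthonormal.exists_orthonormalBasis_extension_of_card_eq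
      (𝕜 := ℝ) (E := E d) (ι := Fin (d + 1)) (by simp) h0
    exact ⟨b, hb 0 rfl⟩
  -- the coordinate map
  let T : E d → ℝ × (Fin d → ℝ) := fun x =>
    MeasurableEquiv.piFinSuccAbove (fun _ => ℝ) 0 ((MeasurableEquiv.toLp 2 (Fin (d + 1) → ℝ)).symm (b.repr (x - c)))
  have hT : MeasurePreserving T volume volume := by
    have h1 : MeasurePreserving (fun x : E d => x - c) volume volume := measurePreserving_sub_right volume c
    have h2 := b.measurePreserving_repr
    have h3 := EuclideanSpace.volume_preserving_symm_measurableEquiv_toLp (Fin (d + 1))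
    have h4 := volume_preserving_piFinSuccAbove (fun _ : Fin (d + 1) => ℝ) 0
    exact h4.comp (h3.comp (h2.comp h1))
  have hT1 : ∀ x, (T x).1 = ⟪x - c, e⟫ := by
    intro x
    have : (T x).1 = b.repr (x - c) 0 := rfl
    rw [this, b.repr_apply_apply, hb, real_inner_comm]
  have hT2 : ∀ x, ∀ i, (T x).2 i = b.repr (x - c) i.succ := by
    intro x i
    rfl
  -- box
  let g : ℝ × (Fin d → ℝ) → ℝ≥0∞ := fun z =>
    (Set.Icc (-(1 / 2) : ℝ) (1 / 2)).indicator φ z.1 * (Set.pi Set.univ (fun _ : Fin d => Set.Icc (-δ) δ)).indicator 1 z.2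
  have hmeasA : MeasurableSet (Set.Icc (-(1 / 2) : ℝ) (1 / 2)) := measurableSet_Icc
  have hmeasB : MeasurableSet (Set.pi Set.univ (fun _ : Fin d => Set.Icc (-δ) δ)) :=
    MeasurableSet.univ_pi fun _ => measurableSet_Icc
  have hg : Measurable g := by
    apply Measurable.mul
    · exact (hφ.indicator hmeasA).comp measurable_fst
    · exact (measurable_one.indicator hmeasB).comp measurable_snd
  calc ∫⁻ x in tube δ c e, φ ⟪x - c, e⟫
      = ∫⁻ x, (tube δ c e).indicator (fun x => φ ⟪x - c, e⟫) x := by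
        rw [lintegral_indicator (measurableSet_tube δ c e)]
    _ ≤ ∫⁻ x, g (T x) := by
        apply lintegral_mono
        intro x
        by_cases hx : x ∈ tube δ c e
        · rw [Set.indicator_of_mem hx]
          have h1 : (T x).1 ∈ Set.Icc (-(1 / 2) : ℝ) (1 / 2) := by
            rw [hT1]; exact abs_le.1 hx.1
          have h2 : (T x).2 ∈ Set.pi Set.univ (fun _ : Fin d => Set.Icc (-δ) δ) := by
            intro i _
            rw [hT2]
            rw [Set.mem_Icc, ← abs_le]
            have e1 : b.repr ((x - c) - ⟪x - c, e⟫ • e) i.succ = b.repr (x - c) i.succ := by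
              rw [map_sub, map_smul, ← hb]
              simp
            rw [← e1]
            calc |b.repr ((x - c) - ⟪x - c, e⟫ • e) i.succ|
                ≤ ‖b.repr ((x - c) - ⟪x - c, e⟫ • e)‖ := by
                  simpa using PiLp.norm_apply_le (b.repr ((x - c) - ⟪x - c, e⟫ • e)) i.succ
              _ = ‖(x - c) - ⟪x - c, e⟫ • e‖ := by rw [LinearIsometryEquiv.norm_map]
              _ ≤ δ := hx.2
          simp only [g]
          rw [Set.indicator_of_mem h1, Set.indicator_of_mem h2, hT1]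
          simp
        · rw [Set.indicator_of_notMem hx]; exact bot_le
    _ = ∫⁻ z, g z := hT.lintegral_comp hg
    _ = ∫⁻ s, (Set.Icc (-(1 / 2) : ℝ) (1 / 2)).indicator φ s *
          volume (Set.pi Set.univ (fun _ : Fin d => Set.Icc (-δ) δ)) := by
        rw [Measure.volume_eq_prod, lintegral_prod _ hg.aemeasurable]
        apply lintegral_congr
        intro s
        simp only [g]
        rw [lintegral_const_mul _ (measurable_one.indicator hmeasB), lintegral_indicator_one hmeasB]
    _ = ENNReal.ofReal ((2 * δ) ^ d) * ∫⁻ s in Set.Icc (-(1 / 2) : ℝ) (1 / 2), φ s := by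
        rw [lintegral_mul_const _ (hφ.indicator hmeasA), lintegral_indicator hmeasA, mul_comm]
        congr 1
        rw [volume_pi, Measure.pi_pi]
        simp only [Real.volume_Icc, Finset.prod_const, Finset.card_univ, Fintype.card_fin]
        rw [← ENNReal.ofReal_pow (by linarith)]
        congr 1
        ring

lemma exists_coord {d : ℕ} (y : E d) (hy : ‖y‖ = 1) : ∃ k : Fin (d + 1), 1 / ((d : ℝ) + 1) ≤ (y k) ^ 2 := by
  by_contra h
  push Not at h
  have h1 : ∑ k, (y k) ^ 2 = 1 := by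
    have := EuclideanSpace.norm_sq_eq y
    rw [hy] at this
    simpa using this.symm
  have h2 : ∑ k : Fin (d + 1), (y k) ^ 2 < ∑ _k : Fin (d + 1), 1 / ((d : ℝ) + 1) :=
    Finset.sum_lt_sum_of_nonempty Finset.univ_nonempty (fun k _ => h k)
  rw [h1, Finset.sum_const, Finset.card_univ, Fintype.card_fin, nsmul_eq_mul] at h2
  have : ((d + 1 : ℕ) : ℝ) * (1 / ((d : ℝ) + 1)) = 1 := by
    push_cast
    field_simp
  rw [this] at h2
  exact lt_irrefl _ h2

lemma coord_abs_le {d : ℕ} (y : E d) (hy : ‖y‖ = 1) (k : Fin (d + 1)) : |y k| ≤ 1 := by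
  have := PiLp.norm_apply_le y k
  rw [hy] at this
  simpa using this

/-- two unit vectors with a common large coordinate of the same sign and close other coordinates are close -/
lemma close_of_coords {d : ℕ} (y z : E d) (hy : ‖y‖ = 1) (hz : ‖z‖ = 1) (k : Fin (d + 1))
    (hyk : 1 / ((d : ℝ) + 1) ≤ (y k) ^ 2) (hzk : 1 / ((d : ℝ) + 1) ≤ (z k) ^ 2) (hs : 0 ≤ y k * z k)
    (η : ℝ) (hη : 0 < η) (hc : ∀ l : Fin d, |y (k.succAbove l) - z (k.succAbove l)| ≤ η) :
    ‖y - z‖ < 2 * ((d : ℝ) + 1) ^ 2 * η := by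
  have hd : (0 : ℝ) ≤ d := Nat.cast_nonneg d
  have hy1 : (y k) ^ 2 + ∑ l : Fin d, (y (k.succAbove l)) ^ 2 = 1 := by
    have := EuclideanSpace.norm_sq_eq y
    rw [hy, Fin.sum_univ_succAbove _ k] at this
    simpa using this.symm
  have hz1 : (z k) ^ 2 + ∑ l : Fin d, (z (k.succAbove l)) ^ 2 = 1 := by
    have := EuclideanSpace.norm_sq_eq z
    rw [hz, Fin.sum_univ_succAbove _ k] at this
    simpa using this.symm
  have hdiff : (y k) ^ 2 - (z k) ^ 2 =
      - ∑ l : Fin d, (y (k.succAbove l) - z (k.succAbove l)) * (y (k.succAbove l) + z (k.succAbove l)) := by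
    have : ∑ l : Fin d, (y (k.succAbove l) - z (k.succAbove l)) * (y (k.succAbove l) + z (k.succAbove l)) =
        ∑ l : Fin d, (y (k.succAbove l)) ^ 2 - ∑ l : Fin d, (z (k.succAbove l)) ^ 2 := by
      rw [← Finset.sum_sub_distrib]
      exact Finset.sum_congr rfl fun l _ => by ring
    rw [this]; linarith
  have habs : |(y k) ^ 2 - (z k) ^ 2| ≤ d * (η * 2) := by
    rw [hdiff, abs_neg]
    calc |∑ l : Fin d, (y (k.succAbove l) - z (k.succAbove l)) * (y (k.succAbove l) + z (k.succAbove l))|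
        ≤ ∑ l : Fin d, |(y (k.succAbove l) - z (k.succAbove l)) * (y (k.succAbove l) + z (k.succAbove l))| :=
          Finset.abs_sum_le_sum_abs _ _
      _ ≤ ∑ _l : Fin d, η * 2 := by
          apply Finset.sum_le_sum
          intro l _
          rw [abs_mul]
          apply mul_le_mul (hc l) _ (abs_nonneg _) hη.le
          have h1 := coord_abs_le y hy (k.succAbove l)
          have h2 := coord_abs_le z hz (k.succAbove l)
          calc |y (k.succAbove l) + z (k.succAbove l)| ≤ |y (k.succAbove l)| + |z (k.succAbove l)| := abs_add_le _ _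
            _ ≤ 2 := by linarith
      _ = d * (η * 2) := by simp
  have hsum : 4 / ((d : ℝ) + 1) ≤ (y k + z k) ^ 2 := by
    have h1 : (1 / ((d : ℝ) + 1)) ^ 2 ≤ (y k * z k) ^ 2 := by
      rw [mul_pow, sq (1 / ((d : ℝ) + 1))]
      exact mul_le_mul hyk hzk (by positivity) (by positivity)
    have h2 : 1 / ((d : ℝ) + 1) ≤ y k * z k := by
      exact (pow_le_pow_iff_left₀ (by positivity) hs two_ne_zero).1 h1
    have : (y k + z k) ^ 2 = (y k) ^ 2 + (z k) ^ 2 + 2 * (y k * z k) := by ring
    rw [this]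
    have : 4 / ((d : ℝ) + 1) = 1 / ((d : ℝ) + 1) + 1 / ((d : ℝ) + 1) + 2 * (1 / ((d : ℝ) + 1)) := by ring
    rw [this]
    linarith
  have hk : (y k - z k) ^ 2 ≤ d ^ 2 * ((d : ℝ) + 1) * η ^ 2 := by
    have h1 : (y k - z k) ^ 2 * (4 / ((d : ℝ) + 1)) ≤ (d * (η * 2)) ^ 2 := by
      calc (y k - z k) ^ 2 * (4 / ((d : ℝ) + 1)) ≤ (y k - z k) ^ 2 * (y k + z k) ^ 2 :=
            mul_le_mul_of_nonneg_left hsum (sq_nonneg _)
        _ = |(y k) ^ 2 - (z k) ^ 2| ^ 2 := by rw [sq_abs]; ring
        _ ≤ (d * (η * 2)) ^ 2 := by gcongr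
    have h2 : (y k - z k) ^ 2 = ((y k - z k) ^ 2 * (4 / ((d : ℝ) + 1))) * (((d : ℝ) + 1) / 4) := by
      field_simp
    rw [h2]
    calc _ ≤ (d * (η * 2)) ^ 2 * (((d : ℝ) + 1) / 4) := by gcongr
      _ = d ^ 2 * ((d : ℝ) + 1) * η ^ 2 := by ring
  have hnorm : ‖y - z‖ ^ 2 ≤ d ^ 2 * ((d : ℝ) + 1) * η ^ 2 + d * η ^ 2 := by
    have := EuclideanSpace.norm_sq_eq (y - z)
    rw [this, Fin.sum_univ_succAbove _ k]
    apply add_le_add
    · simpa using hk
    · calc ∑ l : Fin d, ‖(y - z) (k.succAbove l)‖ ^ 2 ≤ ∑ _l : Fin d, η ^ 2 := by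
            apply Finset.sum_le_sum
            intro l _
            have := hc l
            simp only [PiLp.sub_apply, Real.norm_eq_abs]
            gcongr
        _ = d * η ^ 2 := by simp
  have hlt : ‖y - z‖ ^ 2 < (2 * ((d : ℝ) + 1) ^ 2 * η) ^ 2 := by
    apply lt_of_le_of_lt hnorm
    have hη2 : 0 < η ^ 2 := by positivity
    have : (2 * ((d : ℝ) + 1) ^ 2 * η) ^ 2 = (4 * ((d : ℝ) + 1) ^ 4) * η ^ 2 := by ring
    rw [this, ← add_mul]
    apply mul_lt_mul_of_pos_right _ hη2
    nlinarith [mul_nonneg hd hd, mul_nonneg (mul_nonneg hd hd) hd, mul_nonneg (mul_nonneg hd hd) (mul_nonneg hd hd)]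
  exact lt_of_pow_lt_pow_left₀ 2 (by positivity) hlt


lemma card_Icc_floor (a b : ℝ) (hab : a ≤ b) : ((Finset.Icc ⌊a⌋ ⌊b⌋).card : ℝ) ≤ b - a + 2 := by
  rw [Int.card_Icc]
  have h1 : ⌊a⌋ ≤ ⌊b⌋ := Int.floor_le_floor hab
  have h2 : (((⌊b⌋ + 1 - ⌊a⌋).toNat : ℕ) : ℝ) = ((⌊b⌋ + 1 - ⌊a⌋ : ℤ) : ℝ) := by
    have : ((⌊b⌋ + 1 - ⌊a⌋).toNat : ℤ) = ⌊b⌋ + 1 - ⌊a⌋ := Int.toNat_of_nonneg (by linarith)
    exact_mod_cast congrArg (Int.cast (R := ℝ)) this
  rw [h2]
  push_cast
  have h3 := Int.floor_le b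
  have h4 := Int.sub_one_lt_floor a
  linarith

/-- number of separated unit vectors in a ball -/
lemma card_near {d : ℕ} {ι : Type*} (S : Finset ι) (e : ι → E d) (hunit : ∀ j ∈ S, ‖e j‖ = 1)
    (δ : ℝ) (hδ : 0 < δ) (hsep : ∀ i ∈ S, ∀ j ∈ S, i ≠ j → δ ≤ ‖e i - e j‖) (u : E d) (ρ : ℝ)
    (hρ : 0 ≤ ρ) (hnear : ∀ j ∈ S, ‖e j - u‖ ≤ ρ) :
    (S.card : ℝ) ≤ 2 * ((d : ℝ) + 1) * (4 * ((d : ℝ) + 1) ^ 2 * (ρ / δ) + 2) ^ d := by
  classical
  set η : ℝ := δ / (2 * ((d : ℝ) + 1) ^ 2) with hη
  have hηpos : 0 < η := by positivity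
  have hδη : 2 * ((d : ℝ) + 1) ^ 2 * η = δ := by rw [hη]; field_simp
  let κ : ι → Fin (d + 1) := fun j => if h : j ∈ S then (exists_coord (e j) (hunit j h)).choose else 0
  have hκ : ∀ j ∈ S, 1 / ((d : ℝ) + 1) ≤ (e j (κ j)) ^ 2 := by
    intro j hj
    simp only [κ, hj, dif_pos]
    exact (exists_coord (e j) (hunit j hj)).choose_spec
  let cls : ι → Fin (d + 1) × Bool := fun j => (κ j, decide (0 ≤ e j (κ j)))
  have hmaps : Set.MapsTo cls (S : Set ι) ((Finset.univ : Finset (Fin (d + 1) × Bool)) : Set _) :=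
    fun _ _ => by simp
  have hfib : ∀ b : Fin (d + 1) × Bool,
      ((S.filter (fun j => cls j = b)).card : ℝ) ≤ (4 * ((d : ℝ) + 1) ^ 2 * (ρ / δ) + 2) ^ d := by
    rintro ⟨k, s⟩
    let F : ι → (Fin d → ℤ) := fun j l => ⌊e j (k.succAbove l) / η⌋
    let box : Finset (Fin d → ℤ) := Fintype.piFinset
      (fun l : Fin d => Finset.Icc ⌊(u (k.succAbove l) - ρ) / η⌋ ⌊(u (k.succAbove l) + ρ) / η⌋)
    have hcard : (S.filter (fun j => cls j = (k, s))).card ≤ box.card := by
      apply Finset.card_le_card_of_injOn F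
      · intro j hj
        have hjS : j ∈ S := (Finset.mem_filter.1 hj).1
        rw [Finset.mem_coe, Fintype.mem_piFinset]
        intro l
        rw [Finset.mem_Icc]
        have h1 : |e j (k.succAbove l) - u (k.succAbove l)| ≤ ρ := by
          have := PiLp.norm_apply_le (e j - u) (k.succAbove l)
          simp only [PiLp.sub_apply, Real.norm_eq_abs] at this
          exact this.trans (hnear j hjS)
        rw [abs_le] at h1
        constructor
        · apply Int.floor_le_floor
          gcongr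
          linarith
        · apply Int.floor_le_floor
          gcongr
          linarith
      · intro i hi j hj hij
        by_contra hne
        have hi' := Finset.mem_filter.1 (Finset.mem_coe.1 hi)
        have hj' := Finset.mem_filter.1 (Finset.mem_coe.1 hj)
        have hik : κ i = k := congrArg Prod.fst hi'.2
        have hjk : κ j = k := congrArg Prod.fst hj'.2
        have his : decide (0 ≤ e i (κ i)) = s := congrArg Prod.snd hi'.2
        have hjs : decide (0 ≤ e j (κ j)) = s := congrArg Prod.snd hj'.2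
        have hs : 0 ≤ e i k * e j k := by
          rw [hik] at his
          rw [hjk] at hjs
          rcases s with _ | _
          · have h1 : e i k < 0 := by simpa using his
            have h2 : e j k < 0 := by simpa using hjs
            exact (mul_pos_of_neg_of_neg h1 h2).le
          · have h1 : 0 ≤ e i k := by simpa using his
            have h2 : 0 ≤ e j k := by simpa using hjs
            exact mul_nonneg h1 h2
        have hlt := close_of_coords (e i) (e j) (hunit i hi'.1) (hunit j hj'.1) k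
          (by have := hκ i hi'.1; rwa [hik] at this) (by have := hκ j hj'.1; rwa [hjk] at this) hs η hηpos
          (by
            intro l
            have h1 : F i l = F j l := congrFun hij l
            have h2 : |e i (k.succAbove l) / η - e j (k.succAbove l) / η| < 1 := Int.abs_sub_lt_one_of_floor_eq_floor h1
            rw [← sub_div, abs_div, abs_of_pos hηpos, div_lt_one hηpos] at h2
            exact h2.le)
        rw [hδη] at hlt
        exact absurd (hsep i hi'.1 j hj'.1 hne) (not_le.2 hlt)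
    calc ((S.filter (fun j => cls j = (k, s))).card : ℝ) ≤ (box.card : ℝ) := by exact_mod_cast hcard
      _ = ∏ l : Fin d, ((Finset.Icc ⌊(u (k.succAbove l) - ρ) / η⌋ ⌊(u (k.succAbove l) + ρ) / η⌋).card : ℝ) := by
          simp only [box]
          rw [Fintype.card_piFinset]
          push_cast
          rfl
      _ ≤ ∏ _l : Fin d, (4 * ((d : ℝ) + 1) ^ 2 * (ρ / δ) + 2) := by
          apply Finset.prod_le_prod
          · intro l _; positivity
          · intro l _
            refine (card_Icc_floor _ _ (by gcongr; linarith)).trans (le_of_eq ?_)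
            rw [hη]
            field_simp
            ring
      _ = (4 * ((d : ℝ) + 1) ^ 2 * (ρ / δ) + 2) ^ d := by simp
  have := Finset.card_eq_sum_card_fiberwise hmaps
  rw [this]
  push_cast
  calc ∑ b : Fin (d + 1) × Bool, ((S.filter (fun j => cls j = b)).card : ℝ)
      ≤ ∑ _b : Fin (d + 1) × Bool, (4 * ((d : ℝ) + 1) ^ 2 * (ρ / δ) + 2) ^ d :=
        Finset.sum_le_sum fun b _ => hfib b
    _ = 2 * ((d : ℝ) + 1) * (4 * ((d : ℝ) + 1) ^ 2 * (ρ / δ) + 2) ^ d := by
        rw [Finset.sum_const, Finset.card_univ, Fintype.card_prod, Fintype.card_fin, Fintype.card_bool, nsmul_eq_mul]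
        push_cast
        ring


lemma volume_tube_le {d : ℕ} (δ : ℝ) (hδ : 0 ≤ δ) (c e : E d) (he : ‖e‖ = 1) :
    volume (tube δ c e) ≤ ENNReal.ofReal ((2 * δ) ^ d) := by
  have h := lintegral_tube δ hδ c e he (fun _ => 1) measurable_const
  simp only [lintegral_const, one_mul, MeasurableSet.univ, Measure.restrict_apply, Set.univ_inter, Real.volume_Icc] at h
  norm_num at h
  exact h


/-- the part of a tube over an interval of heights -/
lemma volume_slab_le {d : ℕ} (δ : ℝ) (hδ : 0 ≤ δ) (c e : E d) (he : ‖e‖ = 1) (s r : ℝ) :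
    volume {x | x ∈ tube δ c e ∧ |⟪x - c, e⟫ - s| ≤ r} ≤ ENNReal.ofReal ((2 * δ) ^ d * (2 * r)) := by
  classical
  have hm : MeasurableSet {y : ℝ | |y - s| ≤ r} := (isClosed_le (by fun_prop) continuous_const).measurableSet
  have h := lintegral_tube δ hδ c e he ({y : ℝ | |y - s| ≤ r}.indicator (fun _ => 1)) (measurable_one.indicator hm)
  have h1 : ∫⁻ x in tube δ c e, {y : ℝ | |y - s| ≤ r}.indicator (fun _ => (1 : ℝ≥0∞)) ⟪x - c, e⟫ =
      volume {x | x ∈ tube δ c e ∧ |⟪x - c, e⟫ - s| ≤ r} := by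
    have hm' : MeasurableSet {x : E d | |⟪x - c, e⟫ - s| ≤ r} :=
      (isClosed_le (by fun_prop) continuous_const).measurableSet
    have e1 : (fun x : E d => {y : ℝ | |y - s| ≤ r}.indicator (fun _ => (1 : ℝ≥0∞)) ⟪x - c, e⟫) =
        {x : E d | |⟪x - c, e⟫ - s| ≤ r}.indicator (fun _ => (1 : ℝ≥0∞)) := by
      funext x
      simp only [Set.indicator_apply, Set.mem_ofPred_eq]
    rw [e1, lintegral_indicator hm', setLIntegral_const, one_mul, Measure.restrict_apply hm']
    congr 1
    ext x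
    simp only [Set.mem_inter_iff, Set.mem_ofPred_eq]
    tauto
  rw [h1] at h
  refine h.trans ?_
  rw [ENNReal.ofReal_mul (by positivity)]
  gcongr
  calc ∫⁻ y in Set.Icc (-(1 / 2) : ℝ) (1 / 2), {y : ℝ | |y - s| ≤ r}.indicator (fun _ => (1 : ℝ≥0∞)) y
      ≤ ∫⁻ y, {y : ℝ | |y - s| ≤ r}.indicator (fun _ => (1 : ℝ≥0∞)) y := setLIntegral_le_lintegral _ _
    _ = volume {y : ℝ | |y - s| ≤ r} := by
        rw [lintegral_indicator hm, setLIntegral_const, one_mul]
    _ = ENNReal.ofReal (2 * r) := by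
        have : {y : ℝ | |y - s| ≤ r} = Set.Icc (s - r) (s + r) := by
          ext y
          simp only [Set.mem_ofPred_eq, Set.mem_Icc, abs_le]
          constructor <;> rintro ⟨h1, h2⟩ <;> constructor <;> linarith
        rw [this, Real.volume_Icc]
        congr 1
        ring


end Pool.Agent.H53.Kak
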