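import Pool.Agent.H53.Kak.Cluster

/-!
# The weak-type bound for almost full families
-/

set_option autoImplicit false

open MeasureTheory ENNReal
open scoped RealInnerProductSpace

namespace Pool.Agent.H53.Kak

variable {d : ℕ} {ι : Type}

/-- In a finite set of points split into the connected components of the graph of distances
at most `R`, two points of one component are at distance at most `#X R`. -/
lemma exists_components (X : Finset (E d)) {R : ℝ} (hR : 0 ≤ R) :
    ∃ (κ : Type) (_ : Fintype κ) (cmp : {x // x ∈ X} → κ),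
      (∀ x y, cmp x ≠ cmp y → R < ‖(x : E d) - y‖) ∧
      (∀ x y, cmp x = cmp y → ‖(x : E d) - y‖ ≤ X.card * R) := by
  classical
  let Γ : SimpleGraph {x // x ∈ X} :=
    { Adj := fun x y => x ≠ y ∧ ‖(x : E d) - y‖ ≤ R
      symm := ⟨fun x y h => ⟨h.1.symm, by rw [norm_sub_rev]; exact h.2⟩⟩
      loopless := ⟨fun x h => h.1 rfl⟩ }
  have hwalk : ∀ (x y : {x // x ∈ X}) (p : Γ.Walk x y), ‖(x : E d) - y‖ ≤ p.length * R := by
    intro x y p
    induction p with
    | nil => simp
    | @cons u v w h p ih =>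
      have h1 : ‖(u : E d) - w‖ ≤ ‖(u : E d) - v‖ + ‖(v : E d) - w‖ := norm_sub_le_norm_sub_add_norm_sub _ _ _
      have h2 : ‖(u : E d) - v‖ ≤ R := h.2
      rw [SimpleGraph.Walk.length_cons]
      push_cast
      linarith only [ih, h1, h2]
  refine ⟨Γ.ConnectedComponent, Fintype.ofFinite _, Γ.connectedComponentMk, ?_, ?_⟩
  · intro x y hxy
    by_contra hcon
    push Not at hcon
    apply hxy
    rw [SimpleGraph.ConnectedComponent.eq]
    by_cases h : x = y
    · rw [h]
    · exact SimpleGraph.Adj.reachable (show Γ.Adj x y from ⟨h, hcon⟩)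
  · intro x y hxy
    rw [SimpleGraph.ConnectedComponent.eq] at hxy
    obtain ⟨p, hp⟩ := hxy.exists_isPath
    refine (hwalk x y p).trans ?_
    have h1 : p.length < Fintype.card {x // x ∈ X} := hp.length_lt
    rw [Fintype.card_coe] at h1
    have : (p.length : ℝ) ≤ X.card := by exact_mod_cast h1.le
    gcongr

open Classical in
/-- counting of the pairs of components -/
lemma bonf_components (S : Finset ι) (X : Finset (E d)) {L : Type} [Fintype L]
    (cmp : {x // x ∈ X} → L) (close : ι → {x // x ∈ X} → Prop) {H : ℝ} (hH : 0 ≤ H)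
    (hpair : ∀ x y, cmp x ≠ cmp y → ((S.filter (fun i => close i x ∧ close i y)).card : ℝ) ≤ H) :
    2 * ∑ k : L, ((S.filter (fun i => ∃ x, cmp x = k ∧ close i x)).card : ℝ) ≤
      2 * S.card + (X.card : ℝ) ^ 2 * H := by
  have h1 : 2 * ∑ k : L, (S.filter (fun i => ∃ x, cmp x = k ∧ close i x)).card ≤
      2 * S.card + ∑ p ∈ (Finset.univ : Finset L).offDiag, (S.filter (fun i =>
      (∃ x, cmp x = p.1 ∧ close i x) ∧ (∃ x, cmp x = p.2 ∧ close i x))).card := by
    convert bonf S (Finset.univ : Finset L) (fun i k => ∃ x, cmp x = k ∧ close i x)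
  have h3 : ∀ p ∈ (Finset.univ : Finset L).offDiag, (((S.filter (fun i =>
      (∃ x, cmp x = p.1 ∧ close i x) ∧ (∃ x, cmp x = p.2 ∧ close i x))).card : ℕ) : ℝ) ≤
      ∑ y ∈ (Finset.univ : Finset ({x // x ∈ X} × {x // x ∈ X})).filter
        (fun y => cmp y.1 = p.1 ∧ cmp y.2 = p.2), H := by
    intro p hp
    rw [Finset.mem_offDiag] at hp
    set T := (Finset.univ : Finset ({x // x ∈ X} × {x // x ∈ X})).filter
        (fun y => cmp y.1 = p.1 ∧ cmp y.2 = p.2) with hT
    have hsub : (S.filter (fun i =>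
      (∃ x, cmp x = p.1 ∧ close i x) ∧ (∃ x, cmp x = p.2 ∧ close i x))) ⊆
        T.biUnion (fun y => S.filter (fun j => close j y.1 ∧ close j y.2)) := by
      intro i hi
      rw [Finset.mem_filter] at hi
      obtain ⟨hiS, ⟨x, hx1, hx2⟩, ⟨y, hy1, hy2⟩⟩ := hi
      rw [Finset.mem_biUnion]
      exact ⟨(x, y), by rw [hT, Finset.mem_filter]; exact ⟨Finset.mem_univ _, hx1, hy1⟩,
        by rw [Finset.mem_filter]; exact ⟨hiS, hx2, hy2⟩⟩
    have h4 := (Finset.card_le_card hsub).trans Finset.card_biUnion_le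
    have h5 : (((S.filter (fun i =>
      (∃ x, cmp x = p.1 ∧ close i x) ∧ (∃ x, cmp x = p.2 ∧ close i x))).card : ℕ) : ℝ) ≤
        ∑ y ∈ T, (((S.filter (fun j => close j y.1 ∧ close j y.2)).card : ℕ) : ℝ) := by
      exact_mod_cast h4
    refine h5.trans (Finset.sum_le_sum ?_)
    intro y hy
    rw [hT, Finset.mem_filter] at hy
    have hne : cmp y.1 ≠ cmp y.2 := by rw [hy.2.1, hy.2.2]; exact hp.2.2
    exact hpair y.1 y.2 hne
  have h2 : ((∑ p ∈ (Finset.univ : Finset L).offDiag, (S.filter (fun i =>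
      (∃ x, cmp x = p.1 ∧ close i x) ∧ (∃ x, cmp x = p.2 ∧ close i x))).card : ℕ) : ℝ) ≤
      (X.card : ℝ) ^ 2 * H := by
    push_cast
    calc _ ≤ ∑ p ∈ (Finset.univ : Finset L).offDiag,
          ∑ y ∈ (Finset.univ : Finset ({x // x ∈ X} × {x // x ∈ X})).filter
            (fun y => cmp y.1 = p.1 ∧ cmp y.2 = p.2), H := Finset.sum_le_sum h3
      _ ≤ ∑ p ∈ (Finset.univ : Finset (L × L)),
          ∑ y ∈ (Finset.univ : Finset ({x // x ∈ X} × {x // x ∈ X})).filter
            (fun y => (cmp y.1, cmp y.2) = p), H := by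
          have : ∀ p : L × L, (Finset.univ : Finset ({x // x ∈ X} × {x // x ∈ X})).filter
            (fun y => cmp y.1 = p.1 ∧ cmp y.2 = p.2) =
            (Finset.univ : Finset ({x // x ∈ X} × {x // x ∈ X})).filter
            (fun y => (cmp y.1, cmp y.2) = p) := by
            intro p
            ext y
            simp only [Finset.mem_filter, Prod.ext_iff]
          simp_rw [this]
          apply Finset.sum_le_sum_of_subset_of_nonneg (Finset.subset_univ _)
          intro p _ _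
          apply Finset.sum_nonneg
          intro _ _
          exact hH
      _ = ∑ y ∈ (Finset.univ : Finset ({x // x ∈ X} × {x // x ∈ X})), H :=
          Finset.sum_fiberwise _ _ _
      _ = (X.card : ℝ) ^ 2 * H := by
          rw [Finset.sum_const, Finset.card_univ, Fintype.card_prod, Fintype.card_coe,
            nsmul_eq_mul]
          push_cast; ring
  revert h1 h2
  generalize (∑ p ∈ (Finset.univ : Finset L).offDiag, (S.filter (fun i =>
      (∃ x, cmp x = p.1 ∧ close i x) ∧ (∃ x, cmp x = p.2 ∧ close i x))).card) = Z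
  intro h1 h2
  have h4 : 2 * ∑ k : L, ((S.filter (fun i => ∃ x, cmp x = k ∧ close i x)).card : ℝ) ≤
      2 * S.card + (Z : ℝ) := by exact_mod_cast h1
  linarith only [h2, h4]

open Classical in
/-- number of tubes close to two points of different components -/
lemma pair_bound {κ δ : ℝ} {b : ℕ} {S : Finset ι} {c e : ι → E d} (hd : 1 ≤ d) (hκ0 : 0 < κ)
    (hκle1 : κ ≤ 1) (hδ : 0 < δ) (hδκ : δ ≤ κ ^ (2 * (b + 3) + 1) / 8) (hF : Fam δ e S)
    (hN : κ ^ b * (1 / δ) ^ d ≤ S.card) (x y : E d)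
    (hdist : δ / κ ^ (2 * (b + 3)) < ‖x - y‖) :
    ((S.filter (fun j => (tube δ (c j) (e j) ∩ Metric.closedBall x (δ / κ ^ (b + 3))).Nonempty ∧
      (tube δ (c j) (e j) ∩ Metric.closedBall y (δ / κ ^ (b + 3))).Nonempty)).card : ℝ) ≤
      2 * CG d * (9 ^ d * (κ ^ 3 * S.card)) := by
  have hG := CG_pos d
  set D : ℝ := δ / κ ^ (b + 3) with hD
  set R : ℝ := δ / κ ^ (2 * (b + 3)) with hR
  have hD0 : 0 < D := by positivity
  have hR0 : 0 < R := by positivity
  have hδD : δ ≤ D := by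
    rw [hD, le_div_iff₀ (by positivity)]
    have : κ ^ (b + 3) ≤ 1 := pow_le_one₀ hκ0.le hκle1
    nlinarith only [hδ, this]
  have hxy : x ≠ y := by
    intro hh
    rw [hh, sub_self, norm_zero] at hdist
    linarith only [hdist, hR0]
  refine (card_two hδ hD0.le hF hxy).trans ?_
  have h6 : (4 * (δ + D) / ‖x - y‖ + δ) / δ ≤ 9 * (κ ^ (b + 3) / δ) := by
    have e1 : 4 * (δ + D) / ‖x - y‖ ≤ 8 * κ ^ (b + 3) := by
      have hpp : 0 < ‖x - y‖ := hR0.trans hdist
      rw [div_le_iff₀ hpp]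
      calc 4 * (δ + D) ≤ 8 * D := by linarith only [hδD]
        _ = 8 * κ ^ (b + 3) * R := by
            rw [hD, hR]
            have : κ ^ (2 * (b + 3)) = κ ^ (b + 3) * κ ^ (b + 3) := by
              rw [two_mul, pow_add]
            rw [this]; field_simp
        _ ≤ 8 * κ ^ (b + 3) * ‖x - y‖ := by gcongr
    have e2 : δ ≤ κ ^ (b + 3) := by
      have : κ ^ (2 * (b + 3) + 1) ≤ κ ^ (b + 3) := pow_le_pow_of_le_one hκ0.le hκle1 (by omega)
      linarith only [hδ, hδκ, this, pow_pos hκ0 (b + 3)]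
    rw [mul_div_assoc']
    apply div_le_div_of_nonneg_right _ hδ.le
    linarith only [e1, e2]
  have h7 : (9 * (κ ^ (b + 3) / δ)) ^ d ≤ 9 ^ d * (κ ^ 3 * S.card) := by
    rw [mul_pow]
    apply mul_le_mul_of_nonneg_left _ (by positivity)
    calc (κ ^ (b + 3) / δ) ^ d = (κ ^ (b + 3)) ^ d * (1 / δ) ^ d := by
          rw [← mul_pow]; congr 1; ring
      _ ≤ (κ ^ (b + 3)) ^ 1 * (1 / δ) ^ d := by
          apply mul_le_mul_of_nonneg_right _ (by positivity)
          exact pow_le_pow_of_le_one (by positivity) (pow_le_one₀ hκ0.le hκle1) hd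
      _ = κ ^ 3 * (κ ^ b * (1 / δ) ^ d) := by rw [pow_one, pow_add]; ring
      _ ≤ κ ^ 3 * S.card := by gcongr
  have hpos : 0 ≤ (4 * (δ + D) / ‖x - y‖ + δ) / δ := by positivity
  calc 2 * CG d * ((4 * (δ + D) / ‖x - y‖ + δ) / δ) ^ d
      ≤ 2 * CG d * (9 * (κ ^ (b + 3) / δ)) ^ d := by gcongr
    _ ≤ 2 * CG d * (9 ^ d * (κ ^ 3 * S.card)) := by gcongr

lemma const_bound {κ x s : ℝ} (hκ0 : 0 < κ) (hκ : κ ≤ kap0 d) (hx0 : 0 ≤ x) (hx : x ≤ 3 / κ)
    (hs : 0 ≤ s) : x ^ 2 * (2 * CG d * (9 ^ d * (κ ^ 3 * s))) ≤ 2 * s := by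
  have hG := CG_pos d
  have h1 : 2 * (9 * 9 ^ d * CG d) * κ ≤ 2 := by
    calc 2 * (9 * 9 ^ d * CG d) * κ ≤ 2 * (9 * 9 ^ d * CG d) * kap0 d := by gcongr
      _ = 1 := by rw [kap0, pow_succ]; field_simp
      _ ≤ 2 := by norm_num
  calc x ^ 2 * (2 * CG d * (9 ^ d * (κ ^ 3 * s)))
      ≤ (3 / κ) ^ 2 * (2 * CG d * (9 ^ d * (κ ^ 3 * s))) := by gcongr
    _ = (2 * (9 * 9 ^ d * CG d) * κ) * s := by field_simp; ring
    _ ≤ 2 * s := by gcongr

lemma sum_up {L : Type*} (A : Set (E d)) (T : Finset L) (E0 : L → Set (E d)) (n : L → ℝ)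
    {B a s : ℝ} (hB : 0 ≤ B) (ha : 1 ≤ a) (hn : ∀ k ∈ T, 0 ≤ n k)
    (hvol : ∀ k ∈ T, volume (E0 k) ≤ ENNReal.ofReal (B * n k ^ a))
    (htot : ∑ k ∈ T, n k ≤ s) (hcov : A ⊆ ⋃ k ∈ T, E0 k) :
    volume A ≤ ENNReal.ofReal (B * s ^ a) := by
  calc volume A ≤ volume (⋃ k ∈ T, E0 k) := measure_mono hcov
    _ ≤ ∑ k ∈ T, volume (E0 k) := measure_biUnion_finset_le _ _
    _ ≤ ∑ k ∈ T, ENNReal.ofReal (B * n k ^ a) := Finset.sum_le_sum hvol
    _ = ENNReal.ofReal (∑ k ∈ T, B * n k ^ a) := by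
        rw [ENNReal.ofReal_sum_of_nonneg]
        intro k hk
        exact mul_nonneg hB (Real.rpow_nonneg (hn k hk) _)
    _ ≤ _ := by
        apply ENNReal.ofReal_le_ofReal
        rw [← Finset.mul_sum]
        apply mul_le_mul_of_nonneg_left _ hB
        refine (sum_rpow_le_rpow_sum T n hn ha).trans ?_
        exact Real.rpow_le_rpow (Finset.sum_nonneg hn) htot (by linarith only [ha])

set_option maxHeartbeats 1000000 in
/-- the weak-type bound for almost full families -/
lemma near_full {q ε C : ℝ} (hd : 1 ≤ d) (hq : 1 + 1 / (d : ℝ) ≤ q) (hC : 0 ≤ C) (hε : 0 ≤ ε)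
    (h : Loss d q ε C) {κ : ℝ} (hκ0 : 0 < κ) (hκ : κ ≤ kap0 d) (b : ℕ) {δ : ℝ} (hδ : 0 < δ)
    (hδ1 : δ < 1) (S : Finset ι) (c e : ι → E d) (hF : Fam δ e S)
    (hN : κ ^ b * (1 / δ) ^ d ≤ S.card) (hNpos : 0 < S.card) {lam : ℝ} (hlam : κ * S.card ≤ lam) :
    volume {x | lam ≤ mu δ c e S x} ≤ ENNReal.ofReal (4 * CG d * 2 ^ (q - 1 / d) *
      ((C * (κ ^ (2 * (b + 3) + 1) / 8) ^ (-ε)) ^ q *
        (lam ^ (-q) * (δ ^ d * (S.card : ℝ) ^ (q - 1 / d))))) := by
  classical
  have hG := CG_pos d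
  have hG1 := one_le_CG d
  have hκ1 : κ ≤ 1 / 18 := hκ.trans (kap0_le d)
  have hκle1 : κ ≤ 1 := by linarith only [hκ0, hκ1]
  have hNr : (0 : ℝ) < S.card := by exact_mod_cast hNpos
  have hd0 : (0 : ℝ) < d := by exact_mod_cast hd
  have hinv : 0 < 1 / (d : ℝ) := by positivity
  have hq1 : 1 ≤ q := by linarith only [hq, hinv]
  have ha : 1 ≤ q - 1 / d := by linarith only [hq]
  have hlam0 : 0 < lam := (mul_pos hκ0 hNr).trans_le hlam
  set A : ℕ := 2 * (b + 3) + 1 with hA
  have hpow : κ ^ A ≤ 1 := pow_le_one₀ hκ0.le hκle1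
  have hpow0 : 0 < κ ^ A := by positivity
  have h2a : (1 : ℝ) ≤ 2 ^ (q - 1 / (d : ℝ)) := Real.one_le_rpow (by norm_num) (by linarith only [hq, hκ0, hκ1])
  by_cases hcase : κ ^ A / 8 ≤ δ
  · -- direct
    refine (direct_weak hd hq1 hC h hδ hδ1 S c e hF hlam0).trans (ENNReal.ofReal_le_ofReal ?_)
    have h1 : δ ^ (-ε) ≤ (κ ^ A / 8) ^ (-ε) :=
      Real.rpow_le_rpow_of_nonpos (by positivity) hcase (by linarith only [hε])
    have h2 : (1 : ℝ) ≤ 4 * CG d * 2 ^ (q - 1 / (d : ℝ)) := by nlinarith only [hG1, hκ1, hκ0, hδ, hδ1, hG, h2a]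
    calc (C * δ ^ (-ε)) ^ q * (lam ^ (-q) * (δ ^ d * (S.card : ℝ) ^ (q - 1 / (d : ℝ))))
        ≤ (C * (κ ^ A / 8) ^ (-ε)) ^ q * (lam ^ (-q) * (δ ^ d * (S.card : ℝ) ^ (q - 1 / (d : ℝ)))) := by
          gcongr
      _ ≤ _ := le_mul_of_one_le_left (by positivity) h2
  · push Not at hcase
    set D : ℝ := δ / κ ^ (b + 3) with hD
    set R : ℝ := δ / κ ^ (2 * (b + 3)) with hR
    set r : ℝ := 4 * δ / κ ^ A with hr
    have hD0 : 0 < D := by positivity
    have hR0 : 0 < R := by positivity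
    have hr0 : 0 < r := by positivity
    have hδD : δ ≤ D := by
      rw [hD, le_div_iff₀ (by positivity)]
      have : κ ^ (b + 3) ≤ 1 := pow_le_one₀ hκ0.le hκle1
      nlinarith only [hδ, this]
    have hDR : D ≤ R := by
      rw [hD, hR]
      apply div_le_div_of_nonneg_left hδ.le (by positivity)
      exact pow_le_pow_of_le_one hκ0.le hκle1 (by omega)
    have h2r1 : 2 * r ≤ 1 := by
      rw [hr]
      have : 2 * (4 * δ / κ ^ A) = δ / (κ ^ A / 8) := by field_simp; norm_num
      rw [this, div_le_one (by positivity)]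
      exact hcase.le
    have hρ : δ / (2 * r) = κ ^ A / 8 := by rw [hr]; field_simp; norm_num
    have hδ2r : δ < 2 * r := by
      rw [hr]
      have : δ < 2 * (4 * δ / κ ^ A) := by
        have h1 : 2 * (4 * δ / κ ^ A) = 8 * (δ / κ ^ A) := by ring
        have h2 : δ ≤ δ / κ ^ A := by
          rw [le_div_iff₀ hpow0]; nlinarith only [hδ, hpow]
        rw [h1]; linarith only [hδ, h2]
      exact this
    -- maximal separated set
    set P : Finset (E d) → Prop := fun X => (∀ x ∈ X, lam ≤ mu δ c e S x) ∧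
      (∀ x ∈ X, ∀ y ∈ X, x ≠ y → D ≤ ‖x - y‖) with hP
    have hbound : ∀ X, P X → (X.card : ℝ) ≤ 3 / κ := fun X hX =>
      sep_card hd hκ0 hκ hδ hcase.le hF hN hNpos hlam X hX.1 hX.2
    obtain ⟨X, hXP, hXmax⟩ : ∃ X, P X ∧ ∀ Y, P Y → Y.card ≤ X.card := by
      set n0 := Nat.findGreatest (fun n => ∃ X, P X ∧ X.card = n) ⌊3 / κ⌋₊ with hn0
      have h0 : ∃ X : Finset (E d), P X ∧ X.card = 0 := ⟨∅, ⟨by simp, by simp⟩, by simp⟩
      obtain ⟨X, hX, hXc⟩ := Nat.findGreatest_spec (P := fun n => ∃ X, P X ∧ X.card = n)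
        (Nat.zero_le ⌊3 / κ⌋₊) h0
      refine ⟨X, hX, ?_⟩
      intro Y hY
      rw [hXc]
      exact Nat.le_findGreatest (Nat.le_floor (hbound Y hY)) ⟨Y, hY, rfl⟩
    have hXcard : (X.card : ℝ) ≤ 3 / κ := hbound X hXP
    have hcov : ∀ z, lam ≤ mu δ c e S z → ∃ x ∈ X, ‖z - x‖ < D := by
      intro z hz
      by_contra hcon
      push Not at hcon
      have hzX : z ∉ X := by
        intro hzX
        have := hcon z hzX
        rw [sub_self, norm_zero] at this
        linarith only [hD0, this]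
      have : P (insert z X) := by
        constructor
        · intro x hx
          rw [Finset.mem_insert] at hx
          rcases hx with rfl | hx
          · exact hz
          · exact hXP.1 x hx
        · intro x hx y hy hxy
          rw [Finset.mem_insert] at hx hy
          rcases hx with rfl | hx <;> rcases hy with rfl | hy
          · exact absurd rfl hxy
          · exact hcon y hy
          · rw [norm_sub_rev]; exact hcon x hx
          · exact hXP.2 x hx y hy hxy
      have := hXmax _ this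
      rw [Finset.card_insert_of_notMem hzX] at this
      omega
    obtain ⟨L, _, cmp, hcmp1, hcmp2⟩ := exists_components X hR0.le
    -- the tubes and the points of a component
    set I : L → Finset ι := fun k => S.filter (fun i => ∃ x : {x // x ∈ X}, cmp x = k ∧
      (tube δ (c i) (e i) ∩ Metric.closedBall (x : E d) D).Nonempty) with hI
    set E0 : L → Set (E d) := fun k => {z | lam ≤ mu δ c e S z ∧ ∃ x : {x // x ∈ X}, cmp x = k ∧
      ‖z - x‖ ≤ D} with hE0
    have hE0cov : {x | lam ≤ mu δ c e S x} ⊆ ⋃ k ∈ (Finset.univ : Finset L), E0 k := by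
      intro z hz
      obtain ⟨x, hx, hzx⟩ := hcov z hz
      simp only [Set.mem_iUnion]
      exact ⟨cmp ⟨x, hx⟩, Finset.mem_univ _, hz, ⟨x, hx⟩, rfl, hzx.le⟩
    set B : ℝ := 4 * CG d * ((C * (κ ^ A / 8) ^ (-ε)) ^ q * (lam ^ (-q) * δ ^ d)) with hB
    have hB0 : 0 ≤ B := by positivity
    have hvol : ∀ k : L, volume (E0 k) ≤ ENNReal.ofReal (B * ((I k).card : ℝ) ^ (q - 1 / (d : ℝ))) := by
      intro k
      rcases (E0 k).eq_empty_or_nonempty with hemp | ⟨z0, hz0, x0, hx0, hzx0⟩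
      · rw [hemp, measure_empty]; exact bot_le
      have hball : E0 k ⊆ Metric.closedBall (x0 : E d) r := by
        rintro z ⟨hz, x, hx, hzx⟩
        rw [Metric.mem_closedBall, dist_eq_norm]
        have h1 : ‖(x : E d) - x0‖ ≤ X.card * R := hcmp2 x x0 (by rw [hx, hx0])
        calc ‖z - x0‖ ≤ ‖z - x‖ + ‖(x : E d) - x0‖ := norm_sub_le_norm_sub_add_norm_sub _ _ _
          _ ≤ D + X.card * R := by gcongr
          _ ≤ R / κ + (3 / κ) * R := by
              have h2 : R ≤ R / κ := by rw [le_div_iff₀ hκ0]; nlinarith only [hδ, hδD, hDR, hδ1, hκ1, hR0]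
              have h3 : D ≤ R / κ := hDR.trans h2
              gcongr
          _ = r := by
              rw [hr, hR, hA, pow_succ]; field_simp; norm_num
      have h1 := ball_loc hd hq1 hC h hδ hδ2r h2r1 (I k) c e
        (hF.mono (Finset.filter_subset _ _)) x0 (E0 k) hball hlam0 (by
          rintro z ⟨hz, x, hx, hzx⟩
          refine hz.trans ?_
          have : mu δ c e S z ≤ mu δ c e (I k) z := by
            unfold mu
            apply Finset.card_le_card
            intro j hj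
            rw [Finset.mem_filter] at hj ⊢
            refine ⟨?_, hj.2⟩
            rw [hI, Finset.mem_filter]
            refine ⟨hj.1, x, hx, z, hj.2, ?_⟩
            rw [Metric.mem_closedBall, dist_eq_norm]
            exact hzx
          exact_mod_cast this)
      refine h1.trans (le_of_eq ?_)
      rw [hρ, hB]
      congr 1
      ring
    -- total number of tubes
    have htot : ∑ k : L, ((I k).card : ℝ) ≤ 2 * S.card := by
      set H : ℝ := 2 * CG d * (9 ^ d * (κ ^ 3 * S.card)) with hH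
      have h3 : 2 * ∑ k : L, ((I k).card : ℝ) ≤ 2 * S.card + (X.card : ℝ) ^ 2 * H :=
        bonf_components S X cmp
          (fun i x => (tube δ (c i) (e i) ∩ Metric.closedBall (x : E d) D).Nonempty)
          (H := H) (by positivity) (by
            intro x y hne
            exact pair_bound hd hκ0 hκle1 hδ hcase.le hF hN x y (hcmp1 x y hne))
      have h5 : (X.card : ℝ) ^ 2 * H ≤ 2 * S.card :=
        const_bound hκ0 hκ (by positivity) hXcard hNr.le
      linarith only [h3, h5]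
    -- sum up
    refine (sum_up {x | lam ≤ mu δ c e S x} Finset.univ E0 (fun k => ((I k).card : ℝ)) hB0 ha
      (fun k _ => by positivity) (fun k _ => hvol k) htot hE0cov).trans (le_of_eq ?_)
    congr 1
    rw [Real.mul_rpow (by norm_num) hNr.le, hB]
    ring

end Pool.Agent.H53.Kak
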