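import Pool.Agent.H53.Kak.NearFull

/-!
# The anisotropic rescaling of a cap of directions
-/

set_option autoImplicit false

open MeasureTheory ENNReal
open scoped RealInnerProductSpace

namespace Pool.Agent.H53.Kak

variable {d : ℕ} {ι : Type}

/-- the map which is the identity on `ω` and multiplication by `θ⁻¹` on its complement -/
noncomputable def Amap (ω : E d) (θ : ℝ) : E d →ₗ[ℝ] E d :=
  θ⁻¹ • LinearMap.id + (1 - θ⁻¹) • ((innerSL ℝ ω).toLinearMap.smulRight ω)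

lemma Amap_apply (ω : E d) (θ : ℝ) (x : E d) :
    Amap ω θ x = θ⁻¹ • x + (1 - θ⁻¹) • (⟪ω, x⟫ • ω) := by
  simp [Amap]

lemma inner_Amap {ω : E d} (hω : ‖ω‖ = 1) (θ : ℝ) (x : E d) : ⟪ω, Amap ω θ x⟫ = ⟪ω, x⟫ := by
  rw [Amap_apply, inner_add_right, inner_smul_right, inner_smul_right, inner_smul_right,
    real_inner_self_eq_norm_sq, hω]
  ring

lemma norm_sq_Amap {ω : E d} (hω : ‖ω‖ = 1) (θ : ℝ) (x : E d) :
    ‖Amap ω θ x‖ ^ 2 = θ⁻¹ ^ 2 * (‖x‖ ^ 2 - ⟪ω, x⟫ ^ 2) + ⟪ω, x⟫ ^ 2 := by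
  rw [← real_inner_self_eq_norm_sq, Amap_apply]
  simp only [inner_add_left, inner_add_right, inner_smul_left, inner_smul_right, conj_trivial,
    real_inner_self_eq_norm_sq, hω, real_inner_comm ω x]
  rw [real_inner_comm x ω]
  ring

lemma sq_inner_le {ω : E d} (hω : ‖ω‖ = 1) (x : E d) : ⟪ω, x⟫ ^ 2 ≤ ‖x‖ ^ 2 := by
  have := abs_real_inner_le_norm ω x
  rw [hω, one_mul] at this
  exact sq_le_sq' (by linarith only [this, neg_abs_le ⟪ω, x⟫, abs_nonneg ⟪ω, x⟫]) (le_of_abs_le this)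

lemma norm_Amap_le {ω : E d} (hω : ‖ω‖ = 1) {θ : ℝ} (hθ : 0 < θ) (hθ1 : θ ≤ 1) (x : E d) :
    ‖Amap ω θ x‖ ≤ ‖x‖ / θ := by
  apply le_of_sq_le_sq _ (by positivity)
  rw [norm_sq_Amap hω, div_pow, div_eq_inv_mul, ← inv_pow]
  have h1 : 1 ≤ θ⁻¹ := (one_le_inv₀ hθ).mpr hθ1
  have h2 : 1 ≤ θ⁻¹ ^ 2 := one_le_pow₀ h1
  nlinarith only [h2, sq_nonneg ⟪ω, x⟫]

lemma det_Amap {ω : E d} (hω : ‖ω‖ = 1) {θ : ℝ} (hθ : 0 < θ) :
    LinearMap.det (Amap ω θ) = θ⁻¹ ^ d := by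
  have hb := LinearMap.det_toMatrix (EuclideanSpace.basisFun (Fin (d + 1)) ℝ).toBasis (Amap ω θ)
  rw [← hb]
  have hM : LinearMap.toMatrix (EuclideanSpace.basisFun (Fin (d + 1)) ℝ).toBasis
      (EuclideanSpace.basisFun (Fin (d + 1)) ℝ).toBasis (Amap ω θ) =
      θ⁻¹ • (1 + Matrix.replicateCol (Fin 1) (fun i => (θ - 1) * ω i) *
        Matrix.replicateRow (Fin 1) (fun j => ω j)) := by
    ext i j
    rw [LinearMap.toMatrix_apply]
    simp only [OrthonormalBasis.coe_toBasis, OrthonormalBasis.coe_toBasis_repr_apply,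
      EuclideanSpace.basisFun_repr, EuclideanSpace.basisFun_apply, Amap_apply, PiLp.add_apply,
      PiLp.smul_apply, smul_eq_mul, Matrix.smul_apply, Matrix.add_apply, Matrix.mul_apply,
      Matrix.replicateCol_apply, Matrix.replicateRow_apply, Finset.univ_unique,
      Finset.sum_const, Finset.card_singleton, one_smul, EuclideanSpace.inner_single_right,
      conj_trivial, one_mul, Matrix.one_apply, PiLp.single_apply]
    field_simp
  have hdet : (1 + Matrix.replicateCol (Fin 1) (fun i => (θ - 1) * ω i) *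
      Matrix.replicateRow (Fin 1) (fun j => ω j)).det =
      1 + (fun j => ω j) ⬝ᵥ (fun i => (θ - 1) * ω i) := by
    rw [Matrix.det_one_add_mul_comm, Matrix.det_fin_one, Matrix.add_apply, Matrix.one_apply_eq,
      Matrix.mul_apply]
    rfl
  rw [hM, Matrix.det_smul, hdet, Fintype.card_fin]
  have h1 : (fun j => ω j) ⬝ᵥ (fun i => (θ - 1) * ω i) = θ - 1 := by
    have h2 : ∑ i, ω i * ω i = 1 := by
      have := EuclideanSpace.real_norm_sq_eq ω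
      rw [hω] at this
      rw [one_pow] at this
      rw [this]
      apply Finset.sum_congr rfl
      intro i _
      ring
    simp only [dotProduct]
    calc ∑ i, ω i * ((θ - 1) * ω i) = (θ - 1) * ∑ i, ω i * ω i := by
          rw [Finset.mul_sum]
          apply Finset.sum_congr rfl
          intro i _
          ring
      _ = θ - 1 := by rw [h2, mul_one]
  rw [h1, pow_succ]
  field_simp
  ring

lemma vol_preimage_Amap {ω : E d} (hω : ‖ω‖ = 1) {θ : ℝ} (hθ : 0 < θ) (B : Set (E d)) :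
    volume ((Amap ω θ) ⁻¹' B) = ENNReal.ofReal (θ ^ d) * volume B := by
  have hdet := det_Amap hω hθ
  have hne : LinearMap.det (Amap ω θ) ≠ 0 := by rw [hdet]; positivity
  rw [Measure.addHaar_preimage_linearMap _ hne, hdet]
  congr 2
  rw [inv_pow, inv_inv, abs_of_pos (by positivity)]

/-- the new direction -/
noncomputable def Adir (ω : E d) (θ : ℝ) (e : E d) : E d := ‖Amap ω θ e‖⁻¹ • Amap ω θ e

section dirs

variable {ω e f : E d} {θ : ℝ}

lemma inner_ge (hω : ‖ω‖ = 1) (he : ‖e‖ = 1) (hθ1 : θ ≤ 1 / 2) (h : ‖e - ω‖ ≤ θ) :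
    7 / 8 ≤ ⟪ω, e⟫ := by
  have h1 : ‖e - ω‖ ^ 2 = 2 - 2 * ⟪ω, e⟫ := by
    rw [norm_sub_sq_real, he, hω, real_inner_comm]; ring
  have h2 : ‖e - ω‖ ≤ 1 / 2 := h.trans hθ1
  nlinarith only [hθ1, h, h1, norm_nonneg (e - ω)]

lemma inner_le_one (hω : ‖ω‖ = 1) (he : ‖e‖ = 1) : ⟪ω, e⟫ ≤ 1 := by
  have := real_inner_le_norm ω e
  rwa [hω, he, one_mul] at this

lemma norm_Amap_dir_le (hω : ‖ω‖ = 1) (he : ‖e‖ = 1) (hθ : 0 < θ) (hθ1 : θ ≤ 1 / 2)
    (h : ‖e - ω‖ ≤ θ) : ‖Amap ω θ e‖ ≤ 3 / 2 := by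
  have h1 : ‖e - ω‖ ^ 2 = 2 - 2 * ⟪ω, e⟫ := by
    rw [norm_sub_sq_real, he, hω, real_inner_comm]; ring
  have h2 : ‖e - ω‖ ^ 2 ≤ θ ^ 2 := by gcongr
  have h3 := inner_ge hω he hθ1 h
  have h4 := inner_le_one hω he
  have h5 : 1 - ⟪ω, e⟫ ^ 2 ≤ θ ^ 2 := by nlinarith only [h1, h2]
  have h6 : θ⁻¹ ^ 2 * (1 - ⟪ω, e⟫ ^ 2) ≤ 1 := by
    calc θ⁻¹ ^ 2 * (1 - ⟪ω, e⟫ ^ 2) ≤ θ⁻¹ ^ 2 * θ ^ 2 := by gcongr
      _ = 1 := by field_simp
  apply le_of_sq_le_sq _ (by norm_num)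
  rw [norm_sq_Amap hω, he, one_pow]
  nlinarith only [hθ1, h1, h6, h3, h2, hθ]

lemma norm_Amap_dir_ge (hω : ‖ω‖ = 1) (he : ‖e‖ = 1) (hθ1 : θ ≤ 1 / 2)
    (h : ‖e - ω‖ ≤ θ) : 7 / 8 ≤ ‖Amap ω θ e‖ := by
  have h3 := inner_ge hω he hθ1 h
  rw [← inner_Amap hω θ e] at h3
  have := real_inner_le_norm ω (Amap ω θ e)
  rw [hω, one_mul] at this
  linarith only [h3, this]

lemma norm_Adir (hω : ‖ω‖ = 1) (he : ‖e‖ = 1) (hθ1 : θ ≤ 1 / 2) (h : ‖e - ω‖ ≤ θ) :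
    ‖Adir ω θ e‖ = 1 := by
  have h1 := norm_Amap_dir_ge hω he hθ1 h
  rw [Adir, norm_smul, norm_inv, norm_norm, inv_mul_cancel₀ (by linarith only [h1])]

/-- the new directions are separated -/
lemma Adir_sep (hω : ‖ω‖ = 1) (he : ‖e‖ = 1) (hf : ‖f‖ = 1) (hθ : 0 < θ) (hθ1 : θ ≤ 1 / 2)
    (h1 : ‖e - ω‖ ≤ θ) (h2 : ‖f - ω‖ ≤ θ) : ‖e - f‖ ≤ 10 * θ * ‖Adir ω θ e - Adir ω θ f‖ := by
  set p := ⟪ω, e⟫ with hp
  set r := ⟪ω, f⟫ with hr
  set L := ‖Amap ω θ e‖ with hL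
  set M := ‖Amap ω θ f‖ with hM
  have hp1 : 7 / 8 ≤ p := inner_ge hω he hθ1 h1
  have hr1 : 7 / 8 ≤ r := inner_ge hω hf hθ1 h2
  have hp2 : p ≤ 1 := inner_le_one hω he
  have hL1 : 7 / 8 ≤ L := norm_Amap_dir_ge hω he hθ1 h1
  have hM1 : 7 / 8 ≤ M := norm_Amap_dir_ge hω hf hθ1 h2
  have hL2 : L ≤ 3 / 2 := norm_Amap_dir_le hω he hθ hθ1 h1
  have hM2 : M ≤ 3 / 2 := norm_Amap_dir_le hω hf hθ hθ1 h2
  have hp0 : 0 < p := by linarith only [hθ, hθ1, hp1]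
  have hr0 : 0 < r := by linarith only [hθ, hθ1, hr1]
  have hL0 : 0 < L := by linarith only [hθ, hθ1, hL1]
  have hM0 : 0 < M := by linarith only [hθ, hθ1, hM1]
  -- the slopes
  have e1 : p⁻¹ • Amap ω θ e - r⁻¹ • Amap ω θ f = θ⁻¹ • (p⁻¹ • e - r⁻¹ • f) := by
    rw [Amap_apply, Amap_apply, ← hp, ← hr]
    have h3 : p⁻¹ • ((1 - θ⁻¹) • (p • ω)) = (1 - θ⁻¹) • ω := by
      rw [smul_smul, smul_smul]; congr 1; field_simp
    have h4 : r⁻¹ • ((1 - θ⁻¹) • (r • ω)) = (1 - θ⁻¹) • ω := by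
      rw [smul_smul, smul_smul]; congr 1; field_simp
    rw [smul_add, smul_add, h3, h4]
    module
  set D := p⁻¹ • e - r⁻¹ • f with hD
  have e2 : ‖e - f‖ ≤ 2 * ‖D‖ := by
    have h3 : e - f = p • D + (p * r⁻¹ - 1) • f := by
      rw [hD, smul_sub, smul_smul, smul_smul, mul_inv_cancel₀ hp0.ne', one_smul]; module
    have h4 : |p * r⁻¹ - 1| ≤ p * ‖D‖ := by
      have h5 := abs_norm_sub_norm_le (p⁻¹ • e) (r⁻¹ • f)
      rw [norm_smul, norm_smul, he, hf, mul_one, mul_one, norm_inv, norm_inv, Real.norm_eq_abs,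
        Real.norm_eq_abs, abs_of_pos hp0, abs_of_pos hr0] at h5
      have h6 : p * r⁻¹ - 1 = -(p * (p⁻¹ - r⁻¹)) := by field_simp; ring
      rw [h6, abs_neg, abs_mul, abs_of_pos hp0]
      gcongr
    calc ‖e - f‖ = ‖p • D + (p * r⁻¹ - 1) • f‖ := by rw [h3]
      _ ≤ ‖p • D‖ + ‖(p * r⁻¹ - 1) • f‖ := norm_add_le _ _
      _ = p * ‖D‖ + |p * r⁻¹ - 1| := by
          rw [norm_smul, norm_smul, hf, mul_one, Real.norm_eq_abs, Real.norm_eq_abs,
            abs_of_pos hp0]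
      _ ≤ p * ‖D‖ + p * ‖D‖ := by gcongr
      _ ≤ 1 * ‖D‖ + 1 * ‖D‖ := by gcongr
      _ = 2 * ‖D‖ := by ring
  exact by
   have e3 : θ⁻¹ * ‖D‖ ≤ 5 * ‖Adir ω θ e - Adir ω θ f‖ := by
     have h3 : θ⁻¹ * ‖D‖ = ‖p⁻¹ • Amap ω θ e - r⁻¹ • Amap ω θ f‖ := by
       rw [e1, norm_smul, norm_inv, Real.norm_eq_abs, abs_of_pos hθ]
     rw [h3]
     have h4 : Amap ω θ e = L • Adir ω θ e := by
       rw [Adir, smul_smul, ← hL, mul_inv_cancel₀ hL0.ne', one_smul]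
     have h5 : Amap ω θ f = M • Adir ω θ f := by
       rw [Adir, smul_smul, ← hM, mul_inv_cancel₀ hM0.ne', one_smul]
     have hne : ‖Adir ω θ f‖ = 1 := norm_Adir hω hf hθ1 h2
     have hpe : ⟪ω, Adir ω θ e⟫ = p / L := by
       rw [Adir, inner_smul_right, inner_Amap hω, ← hp, ← hL, div_eq_inv_mul]
     have hpf : ⟪ω, Adir ω θ f⟫ = r / M := by
       rw [Adir, inner_smul_right, inner_Amap hω, ← hr, ← hM, div_eq_inv_mul]
     have h6 : |p / L - r / M| ≤ ‖Adir ω θ e - Adir ω θ f‖ := by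
       rw [← hpe, ← hpf, ← inner_sub_right]
       have := abs_real_inner_le_norm ω (Adir ω θ e - Adir ω θ f)
       rwa [hω, one_mul] at this
     have h7 : p⁻¹ • Amap ω θ e - r⁻¹ • Amap ω θ f =
         (L / p) • (Adir ω θ e - Adir ω θ f) + (L / p - M / r) • Adir ω θ f := by
       rw [h4, h5]
       module
     have h8 : |L / p - M / r| ≤ 3 * ‖Adir ω θ e - Adir ω θ f‖ := by
       have h9 : L / p - M / r = -((L / p) * (M / r) * (p / L - r / M)) := by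
         field_simp; ring
       rw [h9, abs_neg, abs_mul, abs_of_pos (by positivity)]
       have h10 : L / p ≤ 12 / 7 := by
         rw [div_le_iff₀ hp0]; linarith only [hp1, hL2]
       have h11 : M / r ≤ 12 / 7 := by
         rw [div_le_iff₀ hr0]; linarith only [hr1, hM2]
       calc L / p * (M / r) * |p / L - r / M| ≤ 12 / 7 * (12 / 7) * ‖Adir ω θ e - Adir ω θ f‖ := by
             gcongr
         _ ≤ 3 * ‖Adir ω θ e - Adir ω θ f‖ := by
             gcongr; norm_num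
     rw [h7]
     calc _ ≤ ‖(L / p) • (Adir ω θ e - Adir ω θ f)‖ + ‖(L / p - M / r) • Adir ω θ f‖ :=
           norm_add_le _ _
       _ = (L / p) * ‖Adir ω θ e - Adir ω θ f‖ + |L / p - M / r| := by
           rw [norm_smul, norm_smul, hne, mul_one, Real.norm_eq_abs, Real.norm_eq_abs,
             abs_of_pos (by positivity)]
       _ ≤ 2 * ‖Adir ω θ e - Adir ω θ f‖ + 3 * ‖Adir ω θ e - Adir ω θ f‖ := by
           gcongr
           rw [div_le_iff₀ hp0]; linarith only [hθ, hθ1, hp1, hL2]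
       _ = 5 * ‖Adir ω θ e - Adir ω θ f‖ := by ring
   exact by
    have e4 : ‖D‖ ≤ θ * (5 * ‖Adir ω θ e - Adir ω θ f‖) := by
      rwa [inv_mul_le_iff₀ hθ] at e3
    linarith only [e2, e4]

end dirs

lemma norm_sub_proj_le {v e : E d} (he : ‖e‖ = 1) : ‖v - ⟪v, e⟫ • e‖ ≤ ‖v‖ := by
  apply le_of_sq_le_sq _ (norm_nonneg _)
  have : ‖v - ⟪v, e⟫ • e‖ ^ 2 = ‖v‖ ^ 2 - ⟪v, e⟫ ^ 2 := by
    rw [norm_sub_sq_real, inner_smul_right, norm_smul, he, mul_one, Real.norm_eq_abs, sq_abs]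
    ring
  rw [this]
  nlinarith only [sq_nonneg ⟪v, e⟫]

/-- the image of a tube is covered by three tubes -/
lemma tube_Amap {ω c e x : E d} {θ δ : ℝ} (hω : ‖ω‖ = 1) (he : ‖e‖ = 1) (hθ : 0 < θ)
    (hθ1 : θ ≤ 1 / 2) (hδθ : 2 * δ ≤ θ) (h : ‖e - ω‖ ≤ θ) (hx : x ∈ tube δ c e) :
    ∃ k : Fin 3, Amap ω θ x ∈ tube (δ / θ)
      (Amap ω θ c + ((k : ℝ) - 1) • Adir ω θ e) (Adir ω θ e) := by
  obtain ⟨s, w, h1, h2, h3, -⟩ := tube_decomp hx
  set g := Adir ω θ e with hg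
  set L := ‖Amap ω θ e‖ with hL
  have hL1 : 7 / 8 ≤ L := norm_Amap_dir_ge hω he hθ1 h
  have hL2 : L ≤ 3 / 2 := norm_Amap_dir_le hω he hθ hθ1 h
  have hL0 : 0 < L := by linarith only [hθ, hθ1, hL1]
  have hg1 : ‖g‖ = 1 := norm_Adir hω he hθ1 h
  have hgg : ⟪g, g⟫ = (1 : ℝ) := by rw [real_inner_self_eq_norm_sq, hg1]; norm_num
  have hAe : Amap ω θ e = L • g := by
    rw [hg, Adir, smul_smul, ← hL, mul_inv_cancel₀ hL0.ne', one_smul]
  have hw : ‖Amap ω θ w‖ ≤ δ / θ := (norm_Amap_le hω hθ (by linarith only [hθ, hθ1]) w).trans (by gcongr)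
  have hdec : Amap ω θ x - Amap ω θ c = (s * L) • g + Amap ω θ w := by
    rw [← map_sub, h1, map_add, map_smul, hAe, smul_smul]
  set v := Amap ω θ w with hv
  set t := s * L + ⟪v, g⟫ with ht
  have htabs : |t| ≤ 3 / 2 := by
    have h4 : |⟪v, g⟫| ≤ δ / θ := by
      have := abs_real_inner_le_norm v g
      rw [hg1, mul_one] at this
      exact this.trans hw
    have h5 : δ / θ ≤ 1 / 2 := by rw [div_le_iff₀ hθ]; linarith only [hδθ]
    have h6 : |s * L| ≤ 3 / 4 := by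
      rw [abs_mul, abs_of_pos hL0]
      nlinarith only [h3, hL2, hθ, hθ1, hL1, abs_nonneg s]
    calc |t| ≤ |s * L| + |⟪v, g⟫| := abs_add_le _ _
      _ ≤ 3 / 2 := by linarith only [hθ, hθ1, h4, h5, h6]
  have key : ∀ a : ℝ, |t - a| ≤ 1 / 2 →
      Amap ω θ x ∈ tube (δ / θ) (Amap ω θ c + a • g) g := by
    intro a ha
    have e1 : Amap ω θ x - (Amap ω θ c + a • g) = (s * L - a) • g + v := by
      rw [← sub_sub, hdec]; module
    have e2 : ⟪(s * L - a) • g + v, g⟫ = t - a := by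
      rw [inner_add_left, inner_smul_left, hgg, ht]
      simp only [conj_trivial]
      ring
    constructor
    · rw [e1, e2]; exact ha
    · rw [e1, e2]
      have e3 : (s * L - a) • g + v - (t - a) • g = v - ⟪v, g⟫ • g := by rw [ht]; module
      rw [e3]
      exact (norm_sub_proj_le hg1).trans hw
  exact by
   rw [abs_le] at htabs
   rcases lt_or_ge t (-(1 / 2)) with h4 | h4
   · refine ⟨0, key _ ?_⟩
     rw [abs_le]
     constructor
     · simp; linarith only [htabs]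
     · simp; linarith only [h4]
   · rcases le_or_gt t (1 / 2) with h5 | h5
     · refine ⟨1, key _ ?_⟩
       rw [abs_le]
       constructor
       · simp; linarith only [h4]
       · simp; linarith only [h5]
     · refine ⟨2, key _ ?_⟩
       rw [abs_le]
       constructor
       · simp; linarith only [h5]
       · simp; linarith only [htabs]

end Pool.Agent.H53.Kak
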