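import Pool.Agent.H53.Kak.WeakAll

/-!
# From the weak-type bound to the strong-type bound without loss
-/

set_option autoImplicit false

open MeasureTheory ENNReal
open scoped RealInnerProductSpace

namespace Pool.Agent.H53.Kak

variable {d : ℕ} {ι : Type}

/-- the weak-type bound with a power of the density -/
lemma weak_pow {q ε C : ℝ} (hd : 1 ≤ d) (hq : 1 + 1 / (d : ℝ) ≤ q) (hC : 0 ≤ C) (hε : 0 ≤ ε)
    (h : Loss d q ε C) : ∃ W : ℝ, 0 ≤ W ∧ ∀ κ : ℝ, 0 < κ → κ ≤ 1 → ∀ δ : ℝ, 0 < δ → δ < 1 →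
    ∀ (ι : Type) (S : Finset ι) (c e : ι → E d), Fam δ e S → 0 < S.card →
    volume {x | κ * S.card ≤ mu δ c e S x} ≤ ENNReal.ofReal
      (W * κ ^ (-(q + (2 * d + 9) * ε * q)) * (δ ^ d * (S.card : ℝ) ^ (-(1 / (d : ℝ))))) := by
  have hK1p := K1_pos d
  have hG := CG_pos d
  have hd0 : (0 : ℝ) < d := by exact_mod_cast hd
  have hinv : 0 < 1 / (d : ℝ) := by positivity
  have hq1 : 1 ≤ q := by linarith
  have hq0 : 0 ≤ q := by linarith
  set W2 : ℝ := 4 * CG d * 2 ^ (q - 1 / (d : ℝ)) * (C * (8 * K1 d ^ (2 * (d + 1 + 3) + 1)) ^ ε) ^ q *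
    (4 * K0 d) ^ q * (CG d * 3 ^ (d + 1)) ^ (q - 1 / (d : ℝ)) with hW2
  have hW20 : 0 ≤ W2 := by positivity
  refine ⟨2 ^ (d + 5) + W2, by positivity, ?_⟩
  intro κ hκ0 hκ1 δ hδ hδ1 ι S c e hF hS
  have hNr : (0 : ℝ) < S.card := by exact_mod_cast hS
  refine (weak_all hd hq hC hε h hκ0 hκ1 hδ hδ1 S c e hF hS).trans (ENNReal.ofReal_le_ofReal ?_)
  set V : ℝ := δ ^ d * (S.card : ℝ) ^ (-(1 / (d : ℝ))) with hV
  have hV0 : 0 ≤ V := by positivity
  set A : ℕ := 2 * (d + 1 + 3) + 1 with hA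
  have hAr : (A : ℝ) = 2 * d + 9 := by rw [hA]; push_cast; ring
  have e1 : (C * ((κ / K1 d) ^ A / 8) ^ (-ε)) ^ q =
      (C * (8 * K1 d ^ A) ^ ε) ^ q * κ ^ (-((2 * d + 9) * ε * q)) := by
    have h1 : ((κ / K1 d) ^ A / 8) ^ (-ε) = (8 * K1 d ^ A) ^ ε * κ ^ (-((2 * d + 9) * ε)) := by
      have h2 : (κ / K1 d) ^ A / 8 = κ ^ (A : ℝ) / (8 * K1 d ^ A) := by
        rw [Real.rpow_natCast, div_pow]; field_simp
      rw [h2, Real.div_rpow (by positivity) (by positivity), ← Real.rpow_mul hκ0.le,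
        Real.rpow_neg (x := 8 * K1 d ^ A) (by positivity), div_inv_eq_mul, hAr]
      rw [mul_comm]
      congr 2
      ring
    rw [h1, ← mul_assoc, Real.mul_rpow (by positivity) (by positivity), ← Real.rpow_mul hκ0.le]
    congr 2
    ring
  have e2 : κ ^ (-(q + (2 * d + 9) * ε * q)) = κ ^ (-((2 * d + 9) * ε * q)) * κ ^ (-q) := by
    rw [← Real.rpow_add hκ0]; congr 1; ring
  have e3 : κ⁻¹ ≤ κ ^ (-(q + (2 * d + 9) * ε * q)) := by
    rw [← Real.rpow_neg_one]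
    apply Real.rpow_le_rpow_of_exponent_ge hκ0 hκ1
    have : 0 ≤ (2 * (d : ℝ) + 9) * ε * q := by positivity
    linarith
  have e4 : Mc d q ε C (κ / K1 d) * (4 * K0 d) ^ q * (CG d * 3 ^ (d + 1)) ^ (q - 1 / (d : ℝ)) *
        κ ^ (-q) * V = W2 * κ ^ (-(q + (2 * d + 9) * ε * q)) * V := by
    rw [Mc, ← hA, e1, e2, hW2]
    ring
  rw [e4]
  have e5 : 2 ^ (d + 5) * κ⁻¹ * V ≤ 2 ^ (d + 5) * κ ^ (-(q + (2 * d + 9) * ε * q)) * V := by
    gcongr
  calc _ ≤ 2 ^ (d + 5) * κ ^ (-(q + (2 * d + 9) * ε * q)) * V +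
        W2 * κ ^ (-(q + (2 * d + 9) * ε * q)) * V := by gcongr
    _ = _ := by ring

/-- dyadic layers -/
lemma lintegral_le_layers (δ : ℝ) (S : Finset ι) (c e : ι → E d) {q1 : ℝ} (hq1 : 0 < q1)
    (hS : 0 < S.card) :
    ∫⁻ x, ENNReal.ofReal ((mu δ c e S x : ℝ) ^ q1) ≤
      ∑' k : ℕ, ENNReal.ofReal (((1 / 2) ^ k * S.card) ^ q1) *
        volume {x | (1 / 2) ^ (k + 1) * (S.card : ℝ) ≤ mu δ c e S x} := by
  have hNr : (0 : ℝ) < S.card := by exact_mod_cast hS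
  have hmeas : ∀ k : ℕ, MeasurableSet {x | (1 / 2) ^ (k + 1) * (S.card : ℝ) ≤ mu δ c e S x} :=
    fun k => measurableSet_le measurable_const (measurable_mu δ c e S)
  have hpt : ∀ x, ENNReal.ofReal ((mu δ c e S x : ℝ) ^ q1) ≤
      ∑' k : ℕ, ENNReal.ofReal (((1 / 2) ^ k * S.card) ^ q1) *
        {x | (1 / 2) ^ (k + 1) * (S.card : ℝ) ≤ mu δ c e S x}.indicator 1 x := by
    intro x
    rcases Nat.eq_zero_or_pos (mu δ c e S x) with h0 | hpos
    · rw [h0, Nat.cast_zero, Real.zero_rpow hq1.ne', ENNReal.ofReal_zero]; exact bot_le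
    · have hm : (0 : ℝ) < mu δ c e S x := by exact_mod_cast hpos
      have hmN : (mu δ c e S x : ℝ) ≤ S.card := by exact_mod_cast mu_le_card δ c e S x
      obtain ⟨k, hk1, hk2⟩ := exists_nat_pow_near_of_lt_one (x := (mu δ c e S x : ℝ) / S.card)
        (y := (1 / 2 : ℝ)) (by positivity) (by rw [div_le_one hNr]; exact hmN) (by norm_num)
        (by norm_num)
      rw [lt_div_iff₀ hNr] at hk1
      rw [div_le_iff₀ hNr] at hk2
      refine le_trans ?_ (ENNReal.le_tsum k)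
      rw [Set.indicator_of_mem (by exact hk1.le), Pi.one_apply, mul_one]
      apply ENNReal.ofReal_le_ofReal
      exact Real.rpow_le_rpow hm.le hk2 hq1.le
  calc _ ≤ ∫⁻ x, ∑' k : ℕ, ENNReal.ofReal (((1 / 2) ^ k * S.card) ^ q1) *
        {x | (1 / 2) ^ (k + 1) * (S.card : ℝ) ≤ mu δ c e S x}.indicator 1 x :=
        lintegral_mono hpt
    _ = ∑' k : ℕ, ∫⁻ x, ENNReal.ofReal (((1 / 2) ^ k * S.card) ^ q1) *
        {x | (1 / 2) ^ (k + 1) * (S.card : ℝ) ≤ mu δ c e S x}.indicator 1 x := by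
        rw [lintegral_tsum]
        intro k
        exact ((measurable_one.indicator (hmeas k)).const_mul _).aemeasurable
    _ = _ := by
        congr 1
        funext k
        rw [lintegral_const_mul _ (measurable_one.indicator (hmeas k)),
          lintegral_indicator_one (hmeas k)]

lemma strong_of_weak {q' q1 W : ℝ} (hq' : 0 < q') (hq1 : q' < q1) (hW : 0 ≤ W)
    {δ : ℝ} (hδ : 0 < δ) (hd : 1 ≤ d) (S : Finset ι) (c e : ι → E d) (hS : 0 < S.card)
    (h : ∀ κ : ℝ, 0 < κ → κ ≤ 1 → volume {x | κ * S.card ≤ mu δ c e S x} ≤ ENNReal.ofReal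
      (W * κ ^ (-q') * (δ ^ d * (S.card : ℝ) ^ (-(1 / (d : ℝ)))))) :
    eLpNorm (fun x => (mu δ c e S x : ℝ)) (ENNReal.ofReal q1) volume ≤
      ENNReal.ofReal ((W * 2 ^ q' / (1 - (1 / 2) ^ (q1 - q'))) ^ (1 / q1) *
        (δ ^ ((d : ℝ) / q1) * (S.card : ℝ) ^ (1 - 1 / (q1 * d)))) := by
  have hNr : (0 : ℝ) < S.card := by exact_mod_cast hS
  have hq10 : 0 < q1 := by linarith
  have hd0 : (0 : ℝ) < d := by exact_mod_cast hd
  set V : ℝ := δ ^ d * (S.card : ℝ) ^ (-(1 / (d : ℝ))) with hV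
  have hV0 : 0 ≤ V := by positivity
  set r : ℝ := (1 / 2) ^ (q1 - q') with hr
  have hr0 : 0 < r := by positivity
  have hr1 : r < 1 := Real.rpow_lt_one (by norm_num) (by norm_num) (by linarith)
  set B : ℝ := W * 2 ^ q' * (V * (S.card : ℝ) ^ q1) with hB
  have hB0 : 0 ≤ B := by positivity
  have hterm : ∀ k : ℕ, ENNReal.ofReal (((1 / 2) ^ k * S.card) ^ q1) *
        volume {x | (1 / 2) ^ (k + 1) * (S.card : ℝ) ≤ mu δ c e S x} ≤ ENNReal.ofReal (B * r ^ k) := by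
    intro k
    have h1 := h ((1 / 2) ^ (k + 1)) (by positivity) (pow_le_one₀ (by norm_num) (by norm_num))
    calc _ ≤ ENNReal.ofReal (((1 / 2) ^ k * S.card) ^ q1) *
          ENNReal.ofReal (W * ((1 / 2 : ℝ) ^ (k + 1)) ^ (-q') * V) := by gcongr
      _ = ENNReal.ofReal (((1 / 2) ^ k * S.card) ^ q1 * (W * ((1 / 2 : ℝ) ^ (k + 1)) ^ (-q') * V)) := by
          exact (ENNReal.ofReal_mul (by positivity)).symm
      _ = ENNReal.ofReal (B * r ^ k) := by
          congr 1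
          have e1 : (((1 / 2 : ℝ)) ^ k * S.card) ^ q1 = ((1 / 2 : ℝ)) ^ (k * q1) * (S.card : ℝ) ^ q1 := by
            rw [Real.mul_rpow (by positivity) hNr.le, ← Real.rpow_natCast, ← Real.rpow_mul (by norm_num)]
          have e2 : ((1 / 2 : ℝ) ^ (k + 1)) ^ (-q') = (1 / 2 : ℝ) ^ (-(k * q')) * 2 ^ q' := by
            rw [← Real.rpow_natCast, ← Real.rpow_mul (by norm_num)]
            have : (2 : ℝ) ^ q' = (1 / 2 : ℝ) ^ (-q') := by
              rw [one_div, Real.inv_rpow (by norm_num), Real.rpow_neg (by norm_num), inv_inv]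
            rw [this, ← Real.rpow_add (by norm_num)]
            congr 1; push_cast; ring
          have e3 : r ^ k = (1 / 2 : ℝ) ^ (k * q1) * (1 / 2 : ℝ) ^ (-(k * q')) := by
            rw [hr, ← Real.rpow_natCast, ← Real.rpow_mul (by norm_num), ← Real.rpow_add (by norm_num)]
            congr 1; ring
          rw [e1, e2, e3, hB]
          ring
  have hsum : ∫⁻ x, ENNReal.ofReal ((mu δ c e S x : ℝ) ^ q1) ≤ ENNReal.ofReal (B / (1 - r)) := by
    refine (lintegral_le_layers δ S c e hq10 hS).trans ?_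
    refine (ENNReal.tsum_le_tsum hterm).trans ?_
    rw [← ENNReal.ofReal_tsum_of_nonneg (fun k => by positivity)
      ((summable_geometric_of_lt_one hr0.le hr1).mul_left B), tsum_mul_left,
      tsum_geometric_of_lt_one hr0.le hr1, div_eq_mul_inv]
  rw [eLpNorm_eq_lintegral_rpow_enorm_toReal (by simpa using hq10) ENNReal.ofReal_ne_top,
    ENNReal.toReal_ofReal hq10.le]
  have e1 : ∫⁻ x, ‖(mu δ c e S x : ℝ)‖ₑ ^ q1 = ∫⁻ x, ENNReal.ofReal ((mu δ c e S x : ℝ) ^ q1) := by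
    congr 1
    funext x
    rw [Real.enorm_of_nonneg (by positivity), ENNReal.ofReal_rpow_of_nonneg (by positivity) hq10.le]
  rw [e1]
  have h1r : 0 < 1 - r := by linarith
  calc (∫⁻ x, ENNReal.ofReal ((mu δ c e S x : ℝ) ^ q1)) ^ (1 / q1)
      ≤ (ENNReal.ofReal (B / (1 - r))) ^ (1 / q1) := by gcongr
    _ = ENNReal.ofReal ((B / (1 - r)) ^ (1 / q1)) :=
        ENNReal.ofReal_rpow_of_nonneg (by positivity) (by positivity)
    _ = _ := by
        congr 1
        have e2 : B / (1 - r) = (W * 2 ^ q' / (1 - r)) * (V * (S.card : ℝ) ^ q1) := by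
          rw [hB]; ring
        rw [e2, Real.mul_rpow (by positivity) (by positivity)]
        congr 1
        have e3 : V * (S.card : ℝ) ^ q1 = δ ^ (d : ℝ) * (S.card : ℝ) ^ (q1 - 1 / d) := by
          rw [hV, Real.rpow_natCast, mul_assoc, ← Real.rpow_add hNr]
          congr 2; ring
        rw [e3, Real.mul_rpow (by positivity) (by positivity), ← Real.rpow_mul hδ.le,
          ← Real.rpow_mul hNr.le]
        congr 2
        · ring
        · field_simp

/-- **ε-removal.** -/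
theorem removal {q : ℝ} (hd : 1 ≤ d) (hq : 1 + 1 / (d : ℝ) ≤ q)
    (h : ∀ ε : ℝ, 0 < ε → ∃ C : ℝ, Loss d q ε C) {q1 : ℝ} (hq1 : q < q1) :
    ∃ C : ℝ, Loss d q1 0 C := by
  have hd0 : (0 : ℝ) < d := by exact_mod_cast hd
  have hinv : 0 < 1 / (d : ℝ) := by positivity
  have hq0 : 0 < q := by linarith
  -- choice of ε
  set ε : ℝ := (q1 - q) / (2 * (2 * d + 9) * q) with hε
  have hε0 : 0 < ε := by
    rw [hε]
    apply div_pos (by linarith); positivity
  obtain ⟨C0, hC0⟩ := h ε hε0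
  have hL : Loss d q ε (max C0 0) := by
    intro δ hδ hδ1 ι S c e hF
    refine (hC0 δ hδ hδ1 ι S c e hF).trans (ENNReal.ofReal_le_ofReal ?_)
    gcongr
    exact le_max_left _ _
  obtain ⟨W, hW0, hW⟩ := weak_pow hd hq (le_max_right _ _) hε0.le hL
  set q' : ℝ := q + (2 * d + 9) * ε * q with hq'
  have hq'e : q' = (q + q1) / 2 := by
    rw [hq', hε]; field_simp; ring
  refine ⟨(W * 2 ^ q' / (1 - (1 / 2) ^ (q1 - q'))) ^ (1 / q1), ?_⟩
  intro δ hδ hδ1 ι S c e hF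
  rcases Nat.eq_zero_or_pos S.card with h0 | hpos
  · have h1 : (fun x => (mu δ c e S x : ℝ)) = fun _ => 0 := by
      funext x
      have := mu_le_card δ c e S x
      rw [h0] at this
      have h2 : mu δ c e S x = 0 := by omega
      rw [h2, Nat.cast_zero]
    rw [h1, eLpNorm_zero']
    exact bot_le
  · refine (strong_of_weak (q' := q') (by rw [hq'e]; linarith) (by rw [hq'e]; linarith) hW0 hδ hd
      S c e hpos (fun κ hκ0 hκ1 => hW κ hκ0 hκ1 δ hδ hδ1 ι S c e hF hpos)).trans (le_of_eq ?_)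
    congr 1
    rw [neg_zero, Real.rpow_zero, mul_one]

end Pool.Agent.H53.Kak
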