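import Pool.Agent.H53.Kak.WDefs

/-!
# Localisation to balls for the restricted form
-/

set_option autoImplicit false

open MeasureTheory ENNReal
open scoped RealInnerProductSpace

namespace Pool.Agent.H53.Kak

variable {d : ℕ} {ι : Type}

/-- families in which every direction is repeated at most `K` times, restricted form -/
lemma multiR {q B : ℝ} (hd : 1 ≤ d) (hq : 1 ≤ q) (hB : 0 ≤ B) {ρ : ℝ} (h : RW d q ρ B)
    (hρ : 0 < ρ) (S : Finset ι) (c e : ι → E d) (hunit : ∀ i ∈ S, ‖e i‖ = 1)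
    (K : ℕ) (hK0 : 0 < K) (hK : ∀ i ∈ S, (S.filter (fun j => ‖e j - e i‖ < ρ)).card ≤ K)
    {F : Set (E d)} (hFm : MeasurableSet F) :
    ∑ j ∈ S, volume (F ∩ tube ρ (c j) (e j)) ≤
      ENNReal.ofReal (B * (ρ ^ ((d : ℝ) / q) *
        ((K : ℝ) ^ (1 / (q * d)) * (S.card : ℝ) ^ (1 - 1 / (q * d))))) *
        (volume F) ^ (1 - 1 / q) := by
  classical
  obtain ⟨χ, hχ⟩ := exists_colour S e ρ hρ K (by
    intro i hi
    convert hK i hi) hK0
  have hq0 : 0 < q := by linarith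
  have hd1 : (1 : ℝ) ≤ d := by exact_mod_cast hd
  have hqd : 1 ≤ q * d := by nlinarith
  have hs0 : 0 ≤ 1 - 1 / (q * d) := by
    have : 1 / (q * d) ≤ 1 := by rw [div_le_one (by positivity)]; exact hqd
    linarith
  have hs1 : 1 - 1 / (q * d) ≤ 1 := by
    have : 0 ≤ 1 / (q * d) := by positivity
    linarith
  set A : ℝ := B * ρ ^ ((d : ℝ) / q) with hA
  have hA0 : 0 ≤ A := by positivity
  have hcls : ∀ k : Fin K, ∑ j ∈ S.filter (fun j => χ j = k), volume (F ∩ tube ρ (c j) (e j)) ≤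
      ENNReal.ofReal (A * ((S.filter (fun j => χ j = k)).card : ℝ) ^ (1 - 1 / (q * d))) *
        (volume F) ^ (1 - 1 / q) := by
    intro k
    refine (h ι (S.filter (fun j => χ j = k)) c e ⟨?_, ?_⟩ F hFm).trans (le_of_eq ?_)
    · intro i hi
      exact hunit i (Finset.mem_filter.1 hi).1
    · intro i hi j hj hij
      rw [Finset.mem_filter] at hi hj
      exact hχ i hi.1 j hj.1 hij (hi.2.trans hj.2.symm)
    · rw [hA]; congr 2; ring
  have hcard : ∑ k : Fin K, ((S.filter (fun j => χ j = k)).card : ℝ) = S.card := by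
    have := Finset.card_eq_sum_card_fiberwise (s := S) (t := Finset.univ) (f := χ)
      (fun _ _ => by simp)
    rw [this]; push_cast; rfl
  have : Nonempty (Fin K) := ⟨⟨0, hK0⟩⟩
  calc ∑ j ∈ S, volume (F ∩ tube ρ (c j) (e j))
      = ∑ k : Fin K, ∑ j ∈ S.filter (fun j => χ j = k), volume (F ∩ tube ρ (c j) (e j)) :=
        (Finset.sum_fiberwise _ _ _).symm
    _ ≤ ∑ k : Fin K, ENNReal.ofReal
        (A * ((S.filter (fun j => χ j = k)).card : ℝ) ^ (1 - 1 / (q * d))) *
        (volume F) ^ (1 - 1 / q) := Finset.sum_le_sum fun k _ => hcls k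
    _ = ENNReal.ofReal (∑ k : Fin K,
        A * ((S.filter (fun j => χ j = k)).card : ℝ) ^ (1 - 1 / (q * d))) *
        (volume F) ^ (1 - 1 / q) := by
        rw [← Finset.sum_mul, ENNReal.ofReal_sum_of_nonneg]
        intro k _; positivity
    _ ≤ _ := by
        gcongr
        rw [← Finset.mul_sum]
        have h1 := sum_rpow_le (Finset.univ : Finset (Fin K)) Finset.univ_nonempty
          (fun k => ((S.filter (fun j => χ j = k)).card : ℝ)) (fun _ _ => by positivity) hs0 hs1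
        rw [hcard, Finset.card_univ, Fintype.card_fin] at h1
        have h2 : (1 : ℝ) - (1 - 1 / (q * d)) = 1 / (q * d) := by ring
        rw [h2] at h1
        calc A * ∑ k : Fin K, ((S.filter (fun j => χ j = k)).card : ℝ) ^ (1 - 1 / (q * d))
            ≤ A * ((K : ℝ) ^ (1 / (q * d)) * (S.card : ℝ) ^ (1 - 1 / (q * d))) := by gcongr
          _ = _ := by rw [hA]; ring

/-- localisation to a ball of radius `r`, restricted form -/
lemma ballR {q B : ℝ} (hd : 1 ≤ d) (hq : 1 ≤ q) (hB : 0 ≤ B) {δ r : ℝ} (h : RW d q (δ / (2 * r)) B)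
    (hδ : 0 < δ) (hr : 0 < r) (hr1 : 2 * r ≤ 1) (S : Finset ι) (c e : ι → E d)
    (hF : Fam δ e S) (x0 : E d) {F0 : Set (E d)} (hF0m : MeasurableSet F0)
    (hF0 : F0 ⊆ Metric.closedBall x0 r) :
    ∑ j ∈ S, volume (F0 ∩ tube δ (c j) (e j)) ≤
      ENNReal.ofReal (4 * CG d * B * (δ ^ ((d : ℝ) / q) * (S.card : ℝ) ^ (1 - 1 / (q * d)))) *
        (volume F0) ^ (1 - 1 / q) := by
  classical
  have h2r : 0 < 2 * r := by linarith
  have hd0 : (0 : ℝ) < d := by exact_mod_cast hd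
  have hd1 : (1 : ℝ) ≤ d := by exact_mod_cast hd
  have hq0 : 0 < q := by linarith
  have hG := CG_pos d
  have hG1 := one_le_CG d
  set ρ := δ / (2 * r) with hρ
  have hρ0 : 0 < ρ := by positivity
  have hr' : 1 ≤ 1 / r := by rw [one_le_div hr]; linarith
  set c' : ι → E d := fun j => (2 * r)⁻¹ • (c j + ⟪x0 - c j, e j⟫ • e j + -x0) with hc'
  -- the number of close directions
  set K : ℕ := ⌈CG d * (1 / r) ^ d⌉₊ with hKdef
  have hKpos : 0 < K := Nat.ceil_pos.mpr (by positivity)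
  have hK1 : 1 ≤ CG d * (1 / r) ^ d := by
    have : 1 ≤ (1 / r) ^ d := one_le_pow₀ hr'
    nlinarith
  have hKle : (K : ℝ) ≤ 2 * CG d * (1 / r) ^ d := by
    have := (Nat.ceil_lt_add_one (a := CG d * (1 / r) ^ d) (by positivity)).le
    rw [← hKdef] at this
    linarith
  have hK : ∀ i ∈ S, (S.filter (fun j => ‖e j - e i‖ < ρ)).card ≤ K := by
    intro i hi
    have h1 := card_near' hδ (hF.mono (Finset.filter_subset (fun j => ‖e j - e i‖ < ρ) S)) (e i)
      hρ0.le (fun j hj => (Finset.mem_filter.1 hj).2.le)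
    have h2 : (ρ + δ) / δ ≤ 1 / r := by
      have : (ρ + δ) / δ = 1 / (2 * r) + 1 := by rw [hρ]; field_simp
      rw [this]
      have h3 : 1 ≤ 1 / (2 * r) := by rw [one_le_div h2r]; exact hr1
      have h4 : 1 / r = 1 / (2 * r) + 1 / (2 * r) := by field_simp; norm_num
      rw [h4]; linarith
    have h3 : CG d * ((ρ + δ) / δ) ^ d ≤ CG d * (1 / r) ^ d := by gcongr
    have h4 := (h1.trans h3).trans (Nat.le_ceil _)
    exact_mod_cast h4
  have hKd : (K : ℝ) ^ (1 / (d : ℝ)) ≤ 2 * CG d / r := by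
    calc (K : ℝ) ^ (1 / (d : ℝ)) ≤ (2 * CG d * (1 / r) ^ d) ^ (1 / (d : ℝ)) := by gcongr
      _ = (2 * CG d) ^ (1 / (d : ℝ)) * (1 / r) := by
          rw [Real.mul_rpow (by positivity) (by positivity), ← Real.rpow_natCast (1 / r) d,
            ← Real.rpow_mul (by positivity), mul_one_div_cancel hd0.ne', Real.rpow_one]
      _ ≤ (2 * CG d) * (1 / r) := by
          gcongr
          calc (2 * CG d) ^ (1 / (d : ℝ)) ≤ (2 * CG d) ^ (1 : ℝ) := by
                apply Real.rpow_le_rpow_of_exponent_le (by linarith)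
                rw [div_le_one hd0]; exact hd1
            _ = 2 * CG d := Real.rpow_one _
      _ = 2 * CG d / r := by ring
  -- the maps
  set φ : E d → E d := fun z => (2 * r)⁻¹ • (z + -x0) with hφ
  set ψ : E d → E d := fun y => (2 * r) • y + x0 with hψ
  have hψφ : ∀ z, ψ (φ z) = z := by
    intro z
    simp only [hψ, hφ]
    rw [smul_smul, mul_inv_cancel₀ h2r.ne', one_smul]
    abel
  set F1 : Set (E d) := ψ ⁻¹' F0 with hF1
  have hψc : Continuous ψ := by
    rw [hψ]; fun_prop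
  have hF1m : MeasurableSet F1 := hψc.measurable hF0m
  have hF0eq : φ ⁻¹' F1 = F0 := by
    ext z
    simp only [hF1, Set.mem_preimage, hψφ]
  have hvolF : volume F0 = ENNReal.ofReal ((2 * r) ^ (d + 1)) * volume F1 := by
    rw [← hF0eq]
    exact vol_preimage_rescale hr x0 F1
  have hone : ∀ j ∈ S, volume (F0 ∩ tube δ (c j) (e j)) ≤
      ENNReal.ofReal ((2 * r) ^ (d + 1)) * volume (F1 ∩ tube ρ (c' j) (e j)) := by
    intro j hj
    rw [← vol_preimage_rescale hr x0]
    apply measure_mono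
    rintro z ⟨hz0, hz⟩
    refine ⟨?_, tube_rescale hr hz (hF0 hz0) (hF.unit j hj)⟩
    show ψ (φ z) ∈ F0
    rw [hψφ]; exact hz0
  have hw := multiR hd hq hB h hρ0 S c' e hF.unit K hKpos hK hF1m
  set s : ℝ := 1 - 1 / q with hs
  have hs0 : 0 ≤ s := by
    have : 1 / q ≤ 1 := by rw [div_le_one hq0]; exact hq
    rw [hs]; linarith
  have hrs : (volume F0) ^ s = ENNReal.ofReal (((2 * r) ^ (d + 1)) ^ s) * (volume F1) ^ s := by
    rw [hvolF, ENNReal.mul_rpow_of_nonneg _ _ hs0, ENNReal.ofReal_rpow_of_pos (by positivity)]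
  calc ∑ j ∈ S, volume (F0 ∩ tube δ (c j) (e j))
      ≤ ∑ j ∈ S, ENNReal.ofReal ((2 * r) ^ (d + 1)) * volume (F1 ∩ tube ρ (c' j) (e j)) :=
        Finset.sum_le_sum hone
    _ = ENNReal.ofReal ((2 * r) ^ (d + 1)) * ∑ j ∈ S, volume (F1 ∩ tube ρ (c' j) (e j)) := by
        rw [Finset.mul_sum]
    _ ≤ ENNReal.ofReal ((2 * r) ^ (d + 1)) * (ENNReal.ofReal (B * (ρ ^ ((d : ℝ) / q) *
        ((K : ℝ) ^ (1 / (q * d)) * (S.card : ℝ) ^ (1 - 1 / (q * d))))) *
        (volume F1) ^ s) := by gcongr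
    _ = ENNReal.ofReal ((2 * r) ^ (d + 1) * (B * (ρ ^ ((d : ℝ) / q) *
        ((K : ℝ) ^ (1 / (q * d)) * (S.card : ℝ) ^ (1 - 1 / (q * d)))))) *
        (volume F1) ^ s := by
        rw [← mul_assoc, ← ENNReal.ofReal_mul (by positivity)]
    _ ≤ ENNReal.ofReal (4 * CG d * B * (δ ^ ((d : ℝ) / q) * (S.card : ℝ) ^ (1 - 1 / (q * d))) *
        ((2 * r) ^ (d + 1)) ^ s) * (volume F1) ^ s := by
        refine mul_le_mul_left (ENNReal.ofReal_le_ofReal ?_) _
        -- exponents
        have e1 : ρ ^ ((d : ℝ) / q) = δ ^ ((d : ℝ) / q) * (2 * r) ^ (-((d : ℝ) / q)) := by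
          rw [hρ, Real.div_rpow hδ.le h2r.le, Real.rpow_neg h2r.le]; rfl
        have e2 : (K : ℝ) ^ (1 / (q * d)) ≤ (2 * CG d / r) ^ (1 / q) := by
          calc (K : ℝ) ^ (1 / (q * d)) = ((K : ℝ) ^ (1 / (d : ℝ))) ^ (1 / q) := by
                rw [← Real.rpow_mul (by positivity)]; congr 1; field_simp
            _ ≤ _ := by gcongr
        have e3 : (2 * r) ^ (d + 1) * (2 * r) ^ (-((d : ℝ) / q)) =
            ((2 * r) ^ (d + 1)) ^ s * (2 * r) ^ (1 / q) := by
          rw [← Real.rpow_natCast (2 * r) (d + 1), ← Real.rpow_mul h2r.le,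
            ← Real.rpow_add h2r, ← Real.rpow_add h2r]
          congr 1
          rw [hs]; push_cast; field_simp; ring
        have e4 : (2 * r) ^ (1 / q) * (2 * CG d / r) ^ (1 / q) ≤ 4 * CG d := by
          rw [← Real.mul_rpow h2r.le (by positivity)]
          have : 2 * r * (2 * CG d / r) = 4 * CG d := by field_simp; norm_num
          rw [this]
          calc (4 * CG d) ^ (1 / q) ≤ (4 * CG d) ^ (1 : ℝ) := by
                apply Real.rpow_le_rpow_of_exponent_le (by linarith)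
                rw [div_le_one hq0]; exact hq
            _ = 4 * CG d := Real.rpow_one _
        calc (2 * r) ^ (d + 1) * (B * (ρ ^ ((d : ℝ) / q) *
              ((K : ℝ) ^ (1 / (q * d)) * (S.card : ℝ) ^ (1 - 1 / (q * d)))))
            ≤ (2 * r) ^ (d + 1) * (B * ((δ ^ ((d : ℝ) / q) * (2 * r) ^ (-((d : ℝ) / q))) *
              ((2 * CG d / r) ^ (1 / q) * (S.card : ℝ) ^ (1 - 1 / (q * d))))) := by
              rw [e1]; gcongr
          _ = ((2 * r) ^ (d + 1) * (2 * r) ^ (-((d : ℝ) / q))) * (2 * CG d / r) ^ (1 / q) *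
              (B * (δ ^ ((d : ℝ) / q) * (S.card : ℝ) ^ (1 - 1 / (q * d)))) := by ring
          _ = ((2 * r) ^ (1 / q) * (2 * CG d / r) ^ (1 / q)) * (((2 * r) ^ (d + 1)) ^ s *
              (B * (δ ^ ((d : ℝ) / q) * (S.card : ℝ) ^ (1 - 1 / (q * d))))) := by
              rw [e3]; ring
          _ ≤ (4 * CG d) * (((2 * r) ^ (d + 1)) ^ s *
              (B * (δ ^ ((d : ℝ) / q) * (S.card : ℝ) ^ (1 - 1 / (q * d))))) := by gcongr
          _ = _ := by ring
    _ = _ := by
        rw [hrs, ENNReal.ofReal_mul (by positivity)]; ring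

end Pool.Agent.H53.Kak
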