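import Pool.Agent.H53.Kak.WPlane

/-!
# The hairbrush
-/

set_option autoImplicit false

open MeasureTheory ENNReal
open scoped RealInnerProductSpace

namespace Pool.Agent.H53.Kak

variable {d : ℕ} {ι : Type}

/-- Cauchy-Schwarz for a finite family of subsets -/
lemma cs_sets {F : Set (E d)} (hFm : MeasurableSet F) (H : Finset ι) (Z : ι → Set (E d))
    (hZm : ∀ k ∈ H, MeasurableSet (Z k)) (hZF : ∀ k ∈ H, Z k ⊆ F) :
    (∑ k ∈ H, volume (Z k)) ^ 2 ≤ volume F * ∑ j ∈ H, ∑ k ∈ H, volume (Z j ∩ Z k) := by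
  classical
  set f : E d → ℝ≥0∞ := fun x => ∑ k ∈ H, (Z k).indicator 1 x with hf
  have hfm : Measurable f := by
    apply Finset.measurable_sum
    intro k hk
    exact measurable_one.indicator (hZm k hk)
  have h1 : ∫⁻ x, f x = ∑ k ∈ H, volume (Z k) := by
    rw [hf, lintegral_finsetSum']
    · apply Finset.sum_congr rfl
      intro k hk
      rw [lintegral_indicator_one (hZm k hk)]
    · intro k hk
      exact (measurable_one.indicator (hZm k hk)).aemeasurable
  have h2 : ∫⁻ x, f x ^ (2 : ℝ) = ∑ j ∈ H, ∑ k ∈ H, volume (Z j ∩ Z k) := by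
    have e1 : ∀ x, f x ^ (2 : ℝ) = ∑ j ∈ H, ∑ k ∈ H, (Z j ∩ Z k).indicator 1 x := by
      intro x
      rw [ENNReal.rpow_two, sq, hf]
      simp only
      rw [Finset.sum_mul_sum]
      apply Finset.sum_congr rfl
      intro j _
      apply Finset.sum_congr rfl
      intro k _
      by_cases hj : x ∈ Z j <;> by_cases hk : x ∈ Z k <;> simp [hj, hk]
    simp_rw [e1]
    rw [lintegral_finsetSum']
    · apply Finset.sum_congr rfl
      intro j hj
      rw [lintegral_finsetSum']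
      · apply Finset.sum_congr rfl
        intro k hk
        rw [lintegral_indicator_one ((hZm j hj).inter (hZm k hk))]
      · intro k hk
        exact (measurable_one.indicator ((hZm j hj).inter (hZm k hk))).aemeasurable
    · intro j hj
      exact (Finset.measurable_sum H fun k hk =>
        measurable_one.indicator ((hZm j hj).inter (hZm k hk))).aemeasurable
  have h3 := ENNReal.lintegral_mul_le_Lp_mul_Lq (volume : Measure (E d))
    Real.HolderConjugate.two_two hfm.aemeasurable (g := F.indicator 1)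
    (measurable_one.indicator hFm).aemeasurable
  have h4 : ∫⁻ x, (f * (F.indicator 1 : E d → ℝ≥0∞)) x = ∫⁻ x, f x := by
    congr 1
    funext x
    rw [Pi.mul_apply]
    by_cases hx : x ∈ F
    · rw [Set.indicator_of_mem hx, Pi.one_apply, mul_one]
    · rw [Set.indicator_of_notMem hx, mul_zero]
      symm
      apply Finset.sum_eq_zero
      intro k hk
      exact Set.indicator_of_notMem (fun h => hx (hZF k hk h)) _
  have h5 : ∫⁻ x, (F.indicator (1 : E d → ℝ≥0∞) x) ^ (2 : ℝ) = volume F := by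
    rw [← lintegral_indicator_one hFm]
    congr 1
    funext x
    by_cases hx : x ∈ F
    · rw [Set.indicator_of_mem hx, Pi.one_apply, ENNReal.one_rpow]
    · rw [Set.indicator_of_notMem hx, ENNReal.zero_rpow_of_pos (by norm_num)]
  rw [h4, h1, h2, h5] at h3
  have hsq : ∀ x : ℝ≥0∞, (x ^ ((1 : ℝ) / 2)) ^ 2 = x := by
    intro x
    rw [← ENNReal.rpow_two, ← ENNReal.rpow_mul]
    norm_num
  calc (∑ k ∈ H, volume (Z k)) ^ 2
      ≤ ((∑ j ∈ H, ∑ k ∈ H, volume (Z j ∩ Z k)) ^ ((1 : ℝ) / 2) * (volume F) ^ ((1 : ℝ) / 2)) ^ 2 := by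
        gcongr
    _ = _ := by rw [mul_pow, hsq, hsq, mul_comm]

open Classical in
/-- the pair integral -/
lemma pair_integral {δ σ m : ℝ} (S : Finset ι) (c e : ι → E d) {F : Set (E d)}
    (hFm : MeasurableSet F) (hm : 0 < m) (hlow : ∀ x ∈ F, m ≤ mu δ c e S x)
    (hpair : ∀ x ∈ F, ((mu δ c e S x : ℝ)) ^ 2 / 2 ≤
        (((S ×ˢ S).filter (fun p => (x ∈ tube δ (c p.1) (e p.1) ∧
          x ∈ tube δ (c p.2) (e p.2)) ∧
          σ ≤ ‖e p.1 - e p.2‖ ∧ σ ≤ ‖e p.1 + e p.2‖)).card : ℝ)) :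
    ENNReal.ofReal (m ^ 2 / 2) * volume F ≤
      ∑ p ∈ (S ×ˢ S).filter (fun p => σ ≤ ‖e p.1 - e p.2‖ ∧ σ ≤ ‖e p.1 + e p.2‖),
        volume (F ∩ tube δ (c p.2) (e p.2) ∩ tube δ (c p.1) (e p.1)) := by
  set P := (S ×ˢ S).filter (fun p => σ ≤ ‖e p.1 - e p.2‖ ∧ σ ≤ ‖e p.1 + e p.2‖) with hP
  have hmeas : ∀ p : ι × ι, MeasurableSet (tube δ (c p.2) (e p.2) ∩ tube δ (c p.1) (e p.1)) :=
    fun p => (measurableSet_tube _ _ _).inter (measurableSet_tube _ _ _)
  calc ENNReal.ofReal (m ^ 2 / 2) * volume F = ∫⁻ _x in F, ENNReal.ofReal (m ^ 2 / 2) := by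
        rw [setLIntegral_const]
    _ ≤ ∫⁻ x in F, ∑ p ∈ P,
        (tube δ (c p.2) (e p.2) ∩ tube δ (c p.1) (e p.1)).indicator 1 x := by
        apply setLIntegral_mono' hFm
        intro x hx
        have h1 : ∑ p ∈ P, (tube δ (c p.2) (e p.2) ∩ tube δ (c p.1) (e p.1)).indicator
            (1 : E d → ℝ≥0∞) x = (((S ×ˢ S).filter (fun p => (x ∈ tube δ (c p.1) (e p.1) ∧
          x ∈ tube δ (c p.2) (e p.2)) ∧
          σ ≤ ‖e p.1 - e p.2‖ ∧ σ ≤ ‖e p.1 + e p.2‖)).card : ℝ≥0∞) := by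
          simp only [Set.indicator_apply, Pi.one_apply, Set.mem_inter_iff]
          rw [Finset.sum_boole, hP, Finset.filter_filter]
          congr 2
          ext p
          simp only [Finset.mem_filter]
          tauto
        rw [h1, ← ENNReal.ofReal_natCast]
        apply ENNReal.ofReal_le_ofReal
        refine le_trans ?_ (hpair x hx)
        have := hlow x hx
        gcongr
    _ = ∑ p ∈ P, volume (F ∩ tube δ (c p.2) (e p.2) ∩ tube δ (c p.1) (e p.1)) := by
        rw [lintegral_finsetSum']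
        · apply Finset.sum_congr rfl
          intro p _
          rw [lintegral_indicator_one (hmeas p), Measure.restrict_apply (hmeas p),
            Set.inter_comm, Set.inter_assoc]
        · intro p _
          exact (measurable_one.indicator (hmeas p)).aemeasurable

/-- mass of the tubes inside a subset of bounded multiplicity -/
lemma mass_upper {δ M : ℝ} (S : Finset ι) (c e : ι → E d) {F : Set (E d)}
    (hFm : MeasurableSet F) (hup : ∀ x ∈ F, (mu δ c e S x : ℝ) ≤ M) :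
    ∑ j ∈ S, volume (F ∩ tube δ (c j) (e j)) ≤ ENNReal.ofReal M * volume F := by
  rw [sum_inter_eq]
  calc ∫⁻ x in F, (mu δ c e S x : ℝ≥0∞) ≤ ∫⁻ _x in F, ENNReal.ofReal M := by
        apply setLIntegral_mono' hFm
        intro x hx
        rw [← ENNReal.ofReal_natCast]
        exact ENNReal.ofReal_le_ofReal (hup x hx)
    _ = _ := by rw [setLIntegral_const]

open Classical in
/-- the stem of the hairbrush -/
lemma exists_stem {δ σ m : ℝ} (hδ : 0 < δ) (hσ : 0 < σ) (hm : 0 < m) (S Jb : Finset ι)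
    (c e : ι → E d) (hF : Fam δ e S) {F : Set (E d)} (hFm : MeasurableSet F)
    {V : ℝ} (hV : 0 < V) (hVF : volume F = ENNReal.ofReal V)
    (hlow : ∀ x ∈ F, m ≤ mu δ c e S x) (hup : ∀ x ∈ F, (mu δ c e S x : ℝ) ≤ 2 * m)
    (hpair : ∀ x ∈ F, ((mu δ c e S x : ℝ)) ^ 2 / 2 ≤
        (((S ×ˢ S).filter (fun p => (x ∈ tube δ (c p.1) (e p.1) ∧
          x ∈ tube δ (c p.2) (e p.2)) ∧
          σ ≤ ‖e p.1 - e p.2‖ ∧ σ ≤ ‖e p.1 + e p.2‖)).card : ℝ))
    (hbad : ∑ j ∈ Jb, volume (F ∩ tube δ (c j) (e j)) ≤ ENNReal.ofReal (m / 8 * V)) :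
    ∃ i ∈ S, ∃ H ⊆ S \ Jb, (∀ j ∈ H, (tube δ (c i) (e i) ∩ tube δ (c j) (e j)).Nonempty) ∧
      m ^ 2 * V * σ ≤ 64 * S.card * H.card * ((2 * δ) ^ d * δ) := by
  set P := (S ×ˢ S).filter (fun p => σ ≤ ‖e p.1 - e p.2‖ ∧ σ ≤ ‖e p.1 + e p.2‖) with hP
  set w : ι × ι → ℝ≥0∞ := fun p => volume (F ∩ tube δ (c p.2) (e p.2) ∩ tube δ (c p.1) (e p.1))
    with hw
  have h1 : ENNReal.ofReal (m ^ 2 / 2 * V) ≤ ∑ p ∈ P, w p := by
    have := pair_integral S c e hFm hm hlow hpair
    rw [hVF, ← ENNReal.ofReal_mul (by positivity)] at this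
    exact this
  have h2 : ∑ p ∈ P, w p = ∑ p ∈ P.filter (fun p => p.2 ∈ Jb), w p +
      ∑ p ∈ P.filter (fun p => p.2 ∉ Jb), w p :=
    (Finset.sum_filter_add_sum_filter_not P (fun p => p.2 ∈ Jb) w).symm
  have h3 : ∑ p ∈ P.filter (fun p => p.2 ∈ Jb), w p ≤ ENNReal.ofReal (m ^ 2 / 4 * V) := by
    calc ∑ p ∈ P.filter (fun p => p.2 ∈ Jb), w p ≤ ∑ p ∈ S ×ˢ Jb, w p := by
          apply Finset.sum_le_sum_of_subset
          intro p hp
          rw [Finset.mem_filter, hP, Finset.mem_filter, Finset.mem_product] at hp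
          rw [Finset.mem_product]
          exact ⟨hp.1.1.1, hp.2⟩
      _ = ∑ j ∈ Jb, ∑ i ∈ S, w (i, j) := Finset.sum_product_right _ _ _
      _ ≤ ∑ j ∈ Jb, ENNReal.ofReal (2 * m) * volume (F ∩ tube δ (c j) (e j)) := by
          apply Finset.sum_le_sum
          intro j _
          exact mass_upper S c e (hFm.inter (measurableSet_tube _ _ _))
            (fun x hx => hup x hx.1)
      _ = ENNReal.ofReal (2 * m) * ∑ j ∈ Jb, volume (F ∩ tube δ (c j) (e j)) := by
          rw [Finset.mul_sum]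
      _ ≤ ENNReal.ofReal (2 * m) * ENNReal.ofReal (m / 8 * V) := by gcongr
      _ = _ := by rw [← ENNReal.ofReal_mul (by positivity)]; congr 1; ring
  have h4 : ENNReal.ofReal (m ^ 2 / 4 * V) ≤ ∑ p ∈ P.filter (fun p => p.2 ∉ Jb), w p := by
    by_contra hcon
    push Not at hcon
    have h5 : ∑ p ∈ P, w p < ENNReal.ofReal (m ^ 2 / 2 * V) := by
      rw [h2]
      calc _ < ENNReal.ofReal (m ^ 2 / 4 * V) + ENNReal.ofReal (m ^ 2 / 4 * V) :=
            ENNReal.add_lt_add_of_le_of_lt (ne_top_of_le_ne_top ENNReal.ofReal_ne_top h3) h3 hcon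
        _ = _ := by
            rw [← ENNReal.ofReal_add (by positivity) (by positivity)]; congr 1; ring
    exact absurd h1 (not_le.mpr h5)
  -- rewrite as a double sum
  have h5 : ∑ p ∈ P.filter (fun p => p.2 ∉ Jb), w p = ∑ i ∈ S, ∑ j ∈ (S \ Jb).filter
      (fun j => σ ≤ ‖e i - e j‖ ∧ σ ≤ ‖e i + e j‖), w (i, j) := by
    rw [Finset.sum_sigma']
    apply Finset.sum_bij' (fun p _ => (⟨p.1, p.2⟩ : (_ : ι) × ι)) (fun q _ => (q.1, q.2))
    · intro p hp
      simp only [hP, Finset.mem_filter, Finset.mem_product] at hp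
      simp only [Finset.mem_sigma, Finset.mem_filter, Finset.mem_sdiff]
      exact ⟨hp.1.1.1, ⟨hp.1.1.2, hp.2⟩, hp.1.2⟩
    · intro q hq
      simp only [Finset.mem_sigma, Finset.mem_filter, Finset.mem_sdiff] at hq
      simp only [hP, Finset.mem_filter, Finset.mem_product]
      exact ⟨⟨⟨hq.1, hq.2.1.1⟩, hq.2.2⟩, hq.2.1.2⟩
    · intro p _; rfl
    · intro q _; rfl
    · intro p _; rfl
  have hSne : S.Nonempty := by
    by_contra hcon
    rw [Finset.not_nonempty_iff_eq_empty] at hcon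
    rw [h5, hcon, Finset.sum_empty] at h4
    have : 0 < m ^ 2 / 4 * V := by positivity
    have h6 := (ENNReal.ofReal_pos.mpr this)
    exact absurd h4 (not_le.mpr h6)
  have hNpos : (0 : ℝ) < S.card := by exact_mod_cast hSne.card_pos
  -- pigeonhole
  obtain ⟨i, hi, hi2⟩ : ∃ i ∈ S, ENNReal.ofReal (m ^ 2 / 4 * V / S.card) ≤
      ∑ j ∈ (S \ Jb).filter (fun j => σ ≤ ‖e i - e j‖ ∧ σ ≤ ‖e i + e j‖), w (i, j) := by
    by_contra hcon
    push Not at hcon
    have h6 : ∑ i ∈ S, ∑ j ∈ (S \ Jb).filter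
      (fun j => σ ≤ ‖e i - e j‖ ∧ σ ≤ ‖e i + e j‖), w (i, j) <
        ∑ _i ∈ S, ENNReal.ofReal (m ^ 2 / 4 * V / S.card) :=
      ENNReal.sum_lt_sum_of_nonempty hSne hcon
    rw [Finset.sum_const, nsmul_eq_mul, ← ENNReal.ofReal_natCast,
      ← ENNReal.ofReal_mul (by positivity)] at h6
    have h7 : (S.card : ℝ) * (m ^ 2 / 4 * V / S.card) = m ^ 2 / 4 * V := by field_simp
    rw [h7, ← h5] at h6
    exact absurd h4 (not_le.mpr h6)
  set H := ((S \ Jb).filter (fun j => σ ≤ ‖e i - e j‖ ∧ σ ≤ ‖e i + e j‖)).filter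
    (fun j => (tube δ (c i) (e i) ∩ tube δ (c j) (e j)).Nonempty) with hH
  refine ⟨i, hi, H, (Finset.filter_subset _ _).trans (Finset.filter_subset _ _), ?_, ?_⟩
  · intro j hj
    exact (Finset.mem_filter.1 hj).2
  · have h6 : ∑ j ∈ (S \ Jb).filter (fun j => σ ≤ ‖e i - e j‖ ∧ σ ≤ ‖e i + e j‖), w (i, j) ≤
        ENNReal.ofReal (H.card * ((2 * δ) ^ d * (2 * (8 * δ / σ)))) := by
      have h7 : ∑ j ∈ (S \ Jb).filter (fun j => σ ≤ ‖e i - e j‖ ∧ σ ≤ ‖e i + e j‖), w (i, j) =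
          ∑ j ∈ H, w (i, j) := by
        rw [hH]
        symm
        apply Finset.sum_subset (Finset.filter_subset _ _)
        intro j hj hjH
        have hemp : ¬ (tube δ (c i) (e i) ∩ tube δ (c j) (e j)).Nonempty := by
          intro h
          exact hjH (Finset.mem_filter.2 ⟨hj, h⟩)
        rw [Set.not_nonempty_iff_eq_empty] at hemp
        have : w (i, j) ≤ volume (tube δ (c i) (e i) ∩ tube δ (c j) (e j)) :=
          measure_mono (fun x hx => ⟨hx.2, hx.1.2⟩)
        rw [hemp, measure_empty] at this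
        exact le_antisymm this bot_le
      rw [h7]
      calc ∑ j ∈ H, w (i, j) ≤ ∑ _j ∈ H, ENNReal.ofReal ((2 * δ) ^ d * (2 * (8 * δ / σ))) := by
            apply Finset.sum_le_sum
            intro j hj
            rw [hH, Finset.mem_filter, Finset.mem_filter, Finset.mem_sdiff] at hj
            refine le_trans (measure_mono (fun x hx => ⟨hx.2, hx.1.2⟩ : _ ⊆
              tube δ (c i) (e i) ∩ tube δ (c j) (e j))) ?_
            exact inter_vol hδ.le hσ (hF.unit i hi) (hF.unit j hj.1.1.1) hj.1.2.1 hj.1.2.2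
        _ = _ := by
            rw [Finset.sum_const, nsmul_eq_mul, ENNReal.ofReal_mul (Nat.cast_nonneg _),
              ENNReal.ofReal_natCast]
    have h7 := hi2.trans h6
    rw [ENNReal.ofReal_le_ofReal_iff (by positivity)] at h7
    rw [div_le_iff₀ hNpos] at h7
    have h8 : m ^ 2 / 4 * V * σ ≤
        H.card * ((2 * δ) ^ d * (2 * (8 * δ / σ))) * S.card * σ := by gcongr
    have h9 : H.card * ((2 * δ) ^ d * (2 * (8 * δ / σ))) * S.card * σ =
        16 * S.card * H.card * ((2 * δ) ^ d * δ) := by field_simp; ring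
    rw [h9] at h8
    linarith

end Pool.Agent.H53.Kak
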