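import Pool.Agent.H53.Kak.WBrush

/-!
# The hairbrush inequality
-/

set_option autoImplicit false

open MeasureTheory ENNReal
open scoped RealInnerProductSpace

namespace Pool.Agent.H53.Kak

variable {d : ℕ} {ι : Type}

lemma measurableSet_axial (c e : E d) (s τ : ℝ) :
    MeasurableSet {x : E d | |⟪x - c, e⟫ - s| ≤ τ} := by
  have : IsClosed {x : E d | |⟪x - c, e⟫ - s| ≤ τ} :=
    isClosed_le (by fun_prop) continuous_const
  exact this.measurableSet

open Classical in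
/-- the hairbrush inequality for a set with transversal pairs and without concentration -/
lemma brush_bound {δ σ τ m : ℝ} (hδ : 0 < δ) (hσ : 0 < σ) (hτ : 0 < τ) (hτ1 : τ ≤ 1)
    (hτδ : 24 * δ ≤ τ) (hm : 0 < m) (S Jb : Finset ι)
    (c e : ι → E d) (hF : Fam δ e S) {F : Set (E d)} (hFm : MeasurableSet F)
    {V : ℝ} (hV : 0 < V) (hVF : volume F = ENNReal.ofReal V)
    (hlow : ∀ x ∈ F, m ≤ mu δ c e S x) (hup : ∀ x ∈ F, (mu δ c e S x : ℝ) ≤ 2 * m)
    (hpair : ∀ x ∈ F, ((mu δ c e S x : ℝ)) ^ 2 / 2 ≤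
        (((S ×ˢ S).filter (fun p => (x ∈ tube δ (c p.1) (e p.1) ∧
          x ∈ tube δ (c p.2) (e p.2)) ∧
          σ ≤ ‖e p.1 - e p.2‖ ∧ σ ≤ ‖e p.1 + e p.2‖)).card : ℝ))
    (hbad : ∑ j ∈ Jb, volume (F ∩ tube δ (c j) (e j)) ≤ ENNReal.ofReal (m / 8 * V))
    (hbig : ∀ j ∈ S \ Jb, ENNReal.ofReal (m * V / (16 * S.card)) ≤ volume (F ∩ tube δ (c j) (e j)))
    (hnc : ∀ j ∈ S \ Jb, ∀ s : ℝ,
      volume (F ∩ tube δ (c j) (e j) ∩ {x | |⟪x - c j, e j⟫ - s| ≤ τ}) ≤
        volume (F ∩ tube δ (c j) (e j)) / 2)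
    (L : ℕ) (hL : 2 / δ ≤ 2 ^ L) :
    m ^ 4 * V ^ 2 * σ ≤ 65536 * (S.card : ℝ) ^ 3 *
      (512 * CG d * (37 / τ) ^ d * (L + 1) * (2 * δ) ^ d) * ((2 * δ) ^ d * δ) := by
  have hG := CG_pos d
  obtain ⟨i, hi, H, hHS, hHne, hstem⟩ := exists_stem hδ hσ hm S Jb c e hF hFm hV hVF hlow hup
    hpair hbad
  have hNpos : (0 : ℝ) < S.card := by exact_mod_cast Finset.card_pos.mpr ⟨i, hi⟩
  have hHS' : H ⊆ S := hHS.trans Finset.sdiff_subset
  have hHpos : (0 : ℝ) < H.card := by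
    rcases Nat.eq_zero_or_pos H.card with h0 | hp
    · exfalso
      rw [h0] at hstem
      have : 0 < m ^ 2 * V * σ := by positivity
      simp at hstem
      linarith only [this, hstem]
    · exact_mod_cast hp
  set w0 : ℝ := m * V / (16 * S.card) with hw0
  have hw0pos : 0 < w0 := by positivity
  set R : ℝ := 512 * CG d * (37 / τ) ^ d * (L + 1) * (2 * δ) ^ d with hR
  have hR0 : 0 < R := by positivity
  set y : ι → E d := fun j => if h : (tube δ (c i) (e i) ∩ tube δ (c j) (e j)).Nonempty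
    then h.some else 0 with hy
  have hyT : ∀ k ∈ H, y k ∈ tube δ (c i) (e i) ∧ y k ∈ tube δ (c k) (e k) := by
    intro k hk
    have h := hHne k hk
    simp only [hy, dif_pos h]
    exact h.some_mem
  set Z : ι → Set (E d) := fun j => (F ∩ tube δ (c j) (e j)) \
    {x | |⟪x - c j, e j⟫ - ⟪y j - c j, e j⟫| ≤ τ} with hZ
  have hZm : ∀ k ∈ H, MeasurableSet (Z k) := fun k _ =>
    (hFm.inter (measurableSet_tube _ _ _)).diff (measurableSet_axial _ _ _ _)
  have hZF : ∀ k ∈ H, Z k ⊆ F := fun k _ x hx => hx.1.1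
  have hZvol : ∀ k ∈ H, ENNReal.ofReal (w0 / 2) ≤ volume (Z k) := by
    intro k hk
    have h1 := hnc k (hHS hk) ⟪y k - c k, e k⟫
    have h2 := hbig k (hHS hk)
    have h3 := measure_inter_add_sdiff (μ := (volume : Measure (E d))) (F ∩ tube δ (c k) (e k))
      (measurableSet_axial (c k) (e k) ⟪y k - c k, e k⟫ τ)
    have hfin : volume (F ∩ tube δ (c k) (e k)) ≠ ∞ := by
      refine ne_top_of_le_ne_top ?_ (measure_mono (Set.inter_subset_left : _ ⊆ F))
      rw [hVF]; exact ENNReal.ofReal_ne_top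
    have h4 : volume (F ∩ tube δ (c k) (e k)) / 2 ≤ volume (Z k) := by
      by_contra hcon
      push Not at hcon
      have h5 : volume (F ∩ tube δ (c k) (e k)) <
          volume (F ∩ tube δ (c k) (e k)) / 2 + volume (F ∩ tube δ (c k) (e k)) / 2 := by
        calc volume (F ∩ tube δ (c k) (e k)) =
            volume (F ∩ tube δ (c k) (e k) ∩ {x | |⟪x - c k, e k⟫ - ⟪y k - c k, e k⟫| ≤ τ}) +
              volume (Z k) := h3.symm
          _ < _ := ENNReal.add_lt_add_of_le_of_lt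
              (ne_top_of_le_ne_top hfin (measure_mono Set.inter_subset_left)) h1 hcon
      rw [ENNReal.add_halves] at h5
      exact absurd h5 (lt_irrefl _)
    refine le_trans ?_ h4
    have h5 : ENNReal.ofReal (w0 / 2) = ENNReal.ofReal w0 / 2 := by
      rw [ENNReal.ofReal_div_of_pos (by norm_num)]
      norm_num
    rw [h5]
    gcongr
  have hcs := cs_sets hFm H Z hZm hZF
  have hrows : ∑ j ∈ H, ∑ k ∈ H, volume (Z j ∩ Z k) ≤ ENNReal.ofReal (H.card * R) := by
    calc _ ≤ ∑ _j ∈ H, ENNReal.ofReal R := by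
          apply Finset.sum_le_sum
          intro j hj
          exact cordoba_row hδ hτ hτ1 hτδ H c e (hF.mono hHS') (c i) (e i) Z y hyT
            (fun k _ x hx => ⟨hx.1.2, by
              have := hx.2
              simp only [Set.mem_ofPred_eq, not_le] at this
              exact this⟩) L hL hj
      _ = _ := by
          rw [Finset.sum_const, nsmul_eq_mul, ENNReal.ofReal_mul (Nat.cast_nonneg _),
            ENNReal.ofReal_natCast]
  have hlower : ENNReal.ofReal (H.card * (w0 / 2)) ≤ ∑ k ∈ H, volume (Z k) := by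
    calc ENNReal.ofReal (H.card * (w0 / 2)) = ∑ _k ∈ H, ENNReal.ofReal (w0 / 2) := by
          rw [Finset.sum_const, nsmul_eq_mul, ENNReal.ofReal_mul (Nat.cast_nonneg _),
            ENNReal.ofReal_natCast]
      _ ≤ _ := Finset.sum_le_sum hZvol
  have hreal : (H.card * (w0 / 2)) ^ 2 ≤ V * (H.card * R) := by
    have h1 : ENNReal.ofReal ((H.card * (w0 / 2)) ^ 2) ≤ ENNReal.ofReal (V * (H.card * R)) := by
      calc ENNReal.ofReal ((H.card * (w0 / 2)) ^ 2) = (ENNReal.ofReal (H.card * (w0 / 2))) ^ 2 :=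
            ENNReal.ofReal_pow (by positivity) 2
        _ ≤ (∑ k ∈ H, volume (Z k)) ^ 2 := by gcongr
        _ ≤ volume F * ∑ j ∈ H, ∑ k ∈ H, volume (Z j ∩ Z k) := hcs
        _ ≤ ENNReal.ofReal V * ENNReal.ofReal (H.card * R) := by rw [hVF]; gcongr
        _ = _ := by rw [← ENNReal.ofReal_mul hV.le]
    rwa [ENNReal.ofReal_le_ofReal_iff (by positivity)] at h1
  -- algebra
  set h : ℝ := (H.card : ℝ) with hh
  set N : ℝ := (S.card : ℝ) with hN
  have h1 : h * w0 ^ 2 ≤ 4 * V * R := by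
    have h2 : h * (h * w0 ^ 2) ≤ h * (4 * V * R) := by nlinarith only [hreal]
    exact le_of_mul_le_mul_left h2 hHpos
  have h2 : h * (m ^ 2 * V) ≤ 1024 * N ^ 2 * R := by
    rw [hw0, div_pow, mul_pow, mul_pow, mul_div_assoc', div_le_iff₀ (by positivity)] at h1
    have h3 : V * (h * (m ^ 2 * V)) ≤ V * (1024 * N ^ 2 * R) := by nlinarith only [h1]
    exact le_of_mul_le_mul_left h3 hV
  calc m ^ 4 * V ^ 2 * σ = (m ^ 2 * V * σ) * (m ^ 2 * V) := by ring
    _ ≤ (64 * N * h * ((2 * δ) ^ d * δ)) * (m ^ 2 * V) := by gcongr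
    _ = (64 * N * ((2 * δ) ^ d * δ)) * (h * (m ^ 2 * V)) := by ring
    _ ≤ (64 * N * ((2 * δ) ^ d * δ)) * (1024 * N ^ 2 * R) := by gcongr
    _ = 65536 * N ^ 3 * R * ((2 * δ) ^ d * δ) := by ring

end Pool.Agent.H53.Kak
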