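import Pool.Agent.H53.Kak.WBall

/-!
# Caps for the weak-type form at a fixed scale
-/

set_option autoImplicit false

open MeasureTheory ENNReal
open scoped RealInnerProductSpace

namespace Pool.Agent.H53.Kak

variable {d : ℕ} {ι : Type}

lemma capW {q β : ℝ} (hd : 1 ≤ d) (hq : 1 + 1 / (d : ℝ) ≤ q) (hβ : 0 ≤ β)
    {δ θ : ℝ} (h : WK d q (δ / θ) β) (hδ : 0 < δ)
    (hθ1 : θ ≤ 1 / 2) (hδθ : 2 * δ ≤ θ) {ω : E d} (hω : ‖ω‖ = 1) (T : Finset ι) (c e : ι → E d)
    (hF : Fam δ e T) (hcap : ∀ j ∈ T, ‖e j - ω‖ ≤ θ) {lam : ℝ} (hlam0 : 0 < lam) :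
    volume {x | lam ≤ mu δ c e T x} ≤ ENNReal.ofReal ((β * ((lam / K0 d) ^ (-q) * δ ^ d)) *
      (3 * T.card) ^ (q - 1 / d)) := by
  classical
  have hG := CG_pos d
  have hK0 := one_le_K0 d
  have hK0' : (0 : ℝ) < K0 d := by linarith
  have hθ : 0 < θ := by linarith
  have hρ : 0 < δ / θ := by positivity
  have hd0 : (0 : ℝ) < d := by exact_mod_cast hd
  have hinv : 0 < 1 / (d : ℝ) := by positivity
  have ha : 1 ≤ q - 1 / d := by linarith
  obtain ⟨χ, hχ⟩ := colour_cap hω hθ hθ1 hδ T e hF hcap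
  set U := T ×ˢ (Finset.univ : Finset (Fin 3)) with hU
  set c' : ι × Fin 3 → E d := fun p => Amap ω θ (c p.1) + ((p.2 : ℝ) - 1) • Adir ω θ (e p.1)
    with hc'
  set e' : ι × Fin 3 → E d := fun p => Adir ω θ (e p.1) with he'
  have hsum : ∑ k : Fin (K0 d), ((U.filter (fun p => χ p = k)).card : ℝ) = 3 * T.card := by
    have h1 := Finset.card_eq_sum_card_fiberwise (s := U) (t := Finset.univ) (f := χ)
      (fun _ _ => by simp)
    have h2 : U.card = T.card * 3 := by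
      rw [hU, Finset.card_product, Finset.card_univ, Fintype.card_fin]
    rw [h2] at h1
    have h3 : ((T.card * 3 : ℕ) : ℝ) = ∑ k : Fin (K0 d), ((U.filter (fun p => χ p = k)).card : ℝ) := by
      rw [h1]; push_cast; rfl
    rw [← h3]; push_cast; ring
  refine sum_up {x | lam ≤ mu δ c e T x} (Finset.univ : Finset (Fin (K0 d)))
    (fun k => (Amap ω θ) ⁻¹' {y | lam / K0 d ≤ mu (δ / θ) c' e' (U.filter (fun p => χ p = k)) y})
    (fun k => ((U.filter (fun p => χ p = k)).card : ℝ)) (by positivity) ha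
    (fun k _ => by positivity) ?_ hsum.le ?_
  · intro k _
    have h2 := h (ι × Fin 3) (U.filter (fun p => χ p = k)) c' e' (hχ k) (lam / K0 d)
      (by positivity)
    rw [vol_preimage_Amap hω hθ]
    calc _ ≤ ENNReal.ofReal (θ ^ d) * ENNReal.ofReal (β * ((lam / K0 d) ^ (-q) * ((δ / θ) ^ d *
              ((U.filter (fun p => χ p = k)).card : ℝ) ^ (q - 1 / (d : ℝ))))) := by
          gcongr
      _ = _ := by
          rw [← ENNReal.ofReal_mul (by positivity)]
          congr 1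
          have h3 : θ ^ d * (δ / θ) ^ d = δ ^ d := by
            rw [← mul_pow]; congr 1; field_simp
          rw [← h3]; ring
  · intro x hx
    simp only [Set.mem_ofPred_eq] at hx
    by_contra hcon
    simp only [Set.mem_iUnion, not_exists, Set.mem_preimage, Set.mem_ofPred_eq, not_le] at hcon
    have h1 : (mu δ c e T x : ℝ) ≤ mu (δ / θ) c' e' U (Amap ω θ x) := by
      exact Nat.cast_le.mpr (mu_Amap hω hθ hθ1 hδθ T c e hF.unit hcap x)
    have h2 : (mu (δ / θ) c' e' U (Amap ω θ x) : ℝ) < lam := by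
      rw [mu_le_sum_colours (δ / θ) c' e' U χ]
      have : Nonempty (Fin (K0 d)) := ⟨⟨0, K0_pos d⟩⟩
      calc _ < ∑ _k : Fin (K0 d), lam / K0 d :=
            Finset.sum_lt_sum_of_nonempty Finset.univ_nonempty
              (fun k hk => hcon k hk)
        _ = lam := by
            rw [Finset.sum_const, Finset.card_univ, Fintype.card_fin, nsmul_eq_mul]
            field_simp
    linarith

/-- the constant in `caps_exists` -/
noncomputable def Ccap (d : ℕ) (q : ℝ) : ℝ := (4 * K0 d) ^ q * (CG d * 3 ^ (d + 1)) ^ (q - 1 / (d : ℝ))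

lemma Ccap_pos (d : ℕ) (q : ℝ) : 0 < Ccap d q := by
  have h1 := one_le_K0 d
  have h2 := CG_pos d
  have h3 : (0 : ℝ) < K0 d := by linarith
  rw [Ccap]; positivity

open Classical in
/-- removing the points with popular caps -/
lemma caps_exists {q β : ℝ} (hd : 1 ≤ d) (hq : 1 + 1 / (d : ℝ) ≤ q) (hβ : 0 ≤ β)
    {δ θ : ℝ} (h : WK d q (δ / θ) β) (hδ : 0 < δ) (hθ1 : θ ≤ 1 / 2) (hδθ : 2 * δ ≤ θ)
    (S : Finset ι) (c e : ι → E d) (hF : Fam δ e S) {m : ℝ} (hm : 0 < m) :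
    ∃ A : Set (E d), MeasurableSet A ∧
      volume A ≤ ENNReal.ofReal (Ccap d q * β * (m ^ (-q) * (δ ^ d * (S.card : ℝ) ^ (q - 1 / d)))) ∧
      ∀ x, m ≤ mu δ c e S x → x ∉ A → ((mu δ c e S x : ℝ)) ^ 2 / 2 ≤
        (((S ×ˢ S).filter (fun p => (x ∈ tube δ (c p.1) (e p.1) ∧
          x ∈ tube δ (c p.2) (e p.2)) ∧
          θ / 2 ≤ ‖e p.1 - e p.2‖ ∧ θ / 2 ≤ ‖e p.1 + e p.2‖)).card : ℝ) := by
  have hG := CG_pos d
  have hK0 := one_le_K0 d
  have hK0p : (0 : ℝ) < K0 d := by linarith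
  have hθ : 0 < θ := by linarith
  have hd0 : (0 : ℝ) < d := by exact_mod_cast hd
  have hinv : 0 < 1 / (d : ℝ) := by positivity
  have ha : 1 ≤ q - 1 / d := by linarith
  have hθ2 : 0 < θ / 2 := by linarith
  set D : Finset (E d) := S.image e ∪ S.image (fun i => -e i) with hD
  have hDunit : ∀ u ∈ D, ‖u‖ = 1 := by
    intro u hu
    rw [hD, Finset.mem_union, Finset.mem_image, Finset.mem_image] at hu
    rcases hu with ⟨i, hi, rfl⟩ | ⟨i, hi, rfl⟩
    · exact hF.unit i hi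
    · rw [norm_neg]; exact hF.unit i hi
  obtain ⟨Ω, hΩD, hΩsep, hΩcov⟩ := exists_net D hθ2
  have hΩF : Fam (θ / 2) (fun u : E d => u) Ω :=
    ⟨fun u hu => hDunit u (hΩD hu), fun u hu v hv huv => hΩsep u hu v hv huv⟩
  have h2θ : 2 * (θ / 2) = θ := by ring
  set A : Set (E d) := ⋃ ω ∈ Ω, {x | m / 4 ≤
      mu δ c e (S.filter (fun j => ‖e j - ω‖ ≤ 2 * (θ / 2))) x} with hA
  refine ⟨A, ?_, ?_, ?_⟩
  · rw [hA]
    apply Finset.measurableSet_biUnion
    intro ω _
    exact measurableSet_level _ _ _ _ _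
  · refine (sum_up A Ω (fun ω => {x | m / 4 ≤
        mu δ c e (S.filter (fun j => ‖e j - ω‖ ≤ 2 * (θ / 2))) x})
        (fun ω => 3 * ((S.filter (fun j => ‖e j - ω‖ ≤ 2 * (θ / 2))).card : ℝ))
        (B := β * ((m / 4 / K0 d) ^ (-q) * δ ^ d))
        (s := 3 * (CG d * 3 ^ d * S.card)) (by positivity) ha (fun k _ => by positivity) ?_ ?_
        (by rw [hA])).trans (le_of_eq ?_)
    · intro ω hω
      exact capW hd hq hβ h hδ hθ1 hδθ (hDunit ω (hΩD hω))
        (S.filter (fun j => ‖e j - ω‖ ≤ 2 * (θ / 2))) c e (hF.mono (Finset.filter_subset _ _))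
        (fun j hj => by rw [← h2θ]; exact (Finset.mem_filter.1 hj).2) (by positivity)
    · rw [← Finset.mul_sum]
      gcongr
      exact sum_caps hθ2 Ω hΩF S e
    · congr 1
      have h1 : (m / 4 / K0 d : ℝ) ^ (-q) = (4 * K0 d) ^ q * m ^ (-q) := by
        have : (m / 4 / K0 d : ℝ) = (4 * (K0 d : ℝ))⁻¹ * m := by field_simp
        rw [this, Real.mul_rpow (by positivity) hm.le,
          Real.inv_rpow (by positivity), Real.rpow_neg (by positivity), inv_inv]
      have h2 : (3 * (CG d * 3 ^ d * S.card) : ℝ) ^ (q - 1 / (d : ℝ)) =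
          (CG d * 3 ^ (d + 1)) ^ (q - 1 / (d : ℝ)) * (S.card : ℝ) ^ (q - 1 / (d : ℝ)) := by
        rw [← Real.mul_rpow (by positivity) (by positivity), pow_succ]; congr 1; ring
      rw [h1, h2, Ccap]
      ring
  · intro x hx hxA
    set M := S.filter (fun j => x ∈ tube δ (c j) (e j)) with hM
    have hMmu : M.card = mu δ c e S x := rfl
    rw [← hMmu] at hx ⊢
    have hMpos : 0 < M.card := by
      have : (0 : ℝ) < M.card := hm.trans_le hx
      exact_mod_cast this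
    have hcapcase : ∀ u ∈ D, ((M.card : ℝ) / 4 ≤ ((M.filter (fun j => ‖e j - u‖ < θ / 2)).card : ℝ)) →
        x ∈ A := by
      intro u hu hcard
      obtain ⟨ω, hω, huω⟩ := hΩcov u hu
      rw [hA]
      simp only [Set.mem_iUnion, Set.mem_ofPred_eq]
      refine ⟨ω, hω, ?_⟩
      have h1 : (M.filter (fun j => ‖e j - u‖ < θ / 2)).card ≤
          mu δ c e (S.filter (fun j => ‖e j - ω‖ ≤ 2 * (θ / 2))) x := by
        unfold mu
        apply Finset.card_le_card
        intro j hj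
        rw [hM, Finset.mem_filter, Finset.mem_filter] at hj
        rw [Finset.mem_filter, Finset.mem_filter]
        refine ⟨⟨hj.1.1, ?_⟩, hj.1.2⟩
        calc ‖e j - ω‖ ≤ ‖e j - u‖ + ‖u - ω‖ := norm_sub_le_norm_sub_add_norm_sub _ _ _
          _ ≤ 2 * (θ / 2) := by linarith [hj.2]
      have h2 : ((M.filter (fun j => ‖e j - u‖ < θ / 2)).card : ℝ) ≤
          mu δ c e (S.filter (fun j => ‖e j - ω‖ ≤ 2 * (θ / 2))) x := by exact_mod_cast h1
      linarith
    rcases pairs_or_cap (θ / 2) M e hMpos with h1 | ⟨i, hi, h1 | h1⟩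
    · have h2 : ((M ×ˢ M).filter (fun p => θ / 2 ≤ ‖e p.1 - e p.2‖ ∧
          θ / 2 ≤ ‖e p.1 + e p.2‖)).card ≤
          ((S ×ˢ S).filter (fun p =>
            (x ∈ tube δ (c p.1) (e p.1) ∧ x ∈ tube δ (c p.2) (e p.2)) ∧
            θ / 2 ≤ ‖e p.1 - e p.2‖ ∧ θ / 2 ≤ ‖e p.1 + e p.2‖)).card := by
        apply Finset.card_le_card
        intro p hp
        rw [Finset.mem_filter, Finset.mem_product, hM, Finset.mem_filter, Finset.mem_filter] at hp
        rw [Finset.mem_filter, Finset.mem_product]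
        exact ⟨⟨hp.1.1.1, hp.1.2.1⟩, ⟨hp.1.1.2, hp.1.2.2⟩, hp.2⟩
      have h4 : (((M ×ˢ M).filter (fun p => θ / 2 ≤ ‖e p.1 - e p.2‖ ∧
        θ / 2 ≤ ‖e p.1 + e p.2‖)).card : ℝ) ≤ (((S ×ˢ S).filter (fun p =>
            (x ∈ tube δ (c p.1) (e p.1) ∧ x ∈ tube δ (c p.2) (e p.2)) ∧
            θ / 2 ≤ ‖e p.1 - e p.2‖ ∧ θ / 2 ≤ ‖e p.1 + e p.2‖)).card : ℝ) := by exact_mod_cast h2
      linarith
    · exfalso
      have hiS : i ∈ S := (Finset.mem_filter.1 hi).1
      exact hxA (hcapcase (e i) (by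
        rw [hD, Finset.mem_union]; left; exact Finset.mem_image_of_mem _ hiS) h1)
    · exfalso
      have hiS : i ∈ S := (Finset.mem_filter.1 hi).1
      exact hxA (hcapcase (-e i) (by
        rw [hD, Finset.mem_union]; right; exact Finset.mem_image_of_mem (fun i => -e i) hiS) h1)

end Pool.Agent.H53.Kak
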