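import Pool.Agent.H53.Kak.DualMax

/-!
# Weak-type and restricted forms at a fixed scale
-/

set_option autoImplicit false

open MeasureTheory ENNReal
open scoped RealInnerProductSpace

namespace Pool.Agent.H53.Kak

variable {d : ℕ} {ι : Type}

/-- weak-type inequality at scale `δ` with constant `β` -/
def WK (d : ℕ) (q δ β : ℝ) : Prop :=
  ∀ (ι : Type) (S : Finset ι) (c e : ι → E d), Fam δ e S → ∀ lam : ℝ, 0 < lam →
    volume {x | lam ≤ mu δ c e S x} ≤
      ENNReal.ofReal (β * (lam ^ (-q) * (δ ^ d * (S.card : ℝ) ^ (q - 1 / d))))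

/-- restricted form at scale `δ` with constant `B` -/
def RW (d : ℕ) (q δ B : ℝ) : Prop :=
  ∀ (ι : Type) (S : Finset ι) (c e : ι → E d), Fam δ e S → ∀ F : Set (E d), MeasurableSet F →
    ∑ j ∈ S, volume (F ∩ tube δ (c j) (e j)) ≤
      ENNReal.ofReal (B * (δ ^ ((d : ℝ) / q) * (S.card : ℝ) ^ (1 - 1 / (q * d)))) *
        (volume F) ^ (1 - 1 / q)

lemma sum_inter_eq (δ : ℝ) (c e : ι → E d) (S : Finset ι) (F : Set (E d)) :
    ∑ j ∈ S, volume (F ∩ tube δ (c j) (e j)) = ∫⁻ x in F, (mu δ c e S x : ℝ≥0∞) := by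
  classical
  have h1 : ∀ j ∈ S, volume (F ∩ tube δ (c j) (e j)) =
      ∫⁻ x in F, (tube δ (c j) (e j)).indicator 1 x := by
    intro j _
    rw [lintegral_indicator_one (measurableSet_tube _ _ _),
      Measure.restrict_apply (measurableSet_tube _ _ _), Set.inter_comm]
  rw [Finset.sum_congr rfl h1, ← lintegral_finsetSum]
  · congr 1
    funext x
    unfold mu
    rw [Finset.card_filter]
    push_cast
    apply Finset.sum_congr rfl
    intro i _
    rw [Set.indicator_apply]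
    split_ifs <;> simp
  · intro i _
    exact measurable_one.indicator (measurableSet_tube _ _ _)

lemma measurableSet_level (δ : ℝ) (c e : ι → E d) (S : Finset ι) (lam : ℝ) :
    MeasurableSet {x | lam ≤ mu δ c e S x} :=
  measurableSet_le measurable_const (measurable_mu δ c e S)

/-- total mass -/
lemma level_mass (δ : ℝ) (c e : ι → E d) (S : Finset ι) {F : Set (E d)} (hFm : MeasurableSet F)
    {lam : ℝ} (hF : ∀ x ∈ F, lam ≤ mu δ c e S x) :
    ENNReal.ofReal lam * volume F ≤ ∑ j ∈ S, volume (F ∩ tube δ (c j) (e j)) := by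
  rw [sum_inter_eq]
  calc ENNReal.ofReal lam * volume F = ∫⁻ _x in F, ENNReal.ofReal lam := by
        rw [setLIntegral_const]
    _ ≤ ∫⁻ x in F, (mu δ c e S x : ℝ≥0∞) := by
        apply setLIntegral_mono' hFm
        intro x hx
        rw [← ENNReal.ofReal_natCast]
        exact ENNReal.ofReal_le_ofReal (hF x hx)

lemma sum_vol_le {δ : ℝ} (hδ : 0 ≤ δ) (c e : ι → E d) (S : Finset ι) (hunit : ∀ i ∈ S, ‖e i‖ = 1)
    (F : Set (E d)) :
    ∑ j ∈ S, volume (F ∩ tube δ (c j) (e j)) ≤ ENNReal.ofReal (S.card * (2 * δ) ^ d) := by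
  calc _ ≤ ∑ _j ∈ S, ENNReal.ofReal ((2 * δ) ^ d) := by
        apply Finset.sum_le_sum
        intro j hj
        exact (measure_mono Set.inter_subset_right).trans
          (volume_tube_le δ hδ (c j) (e j) (hunit j hj))
    _ = _ := by
        rw [Finset.sum_const, nsmul_eq_mul, ENNReal.ofReal_mul (by positivity),
          ENNReal.ofReal_natCast]

/-- finiteness and trivial bound of level sets -/
lemma level_trivial {δ : ℝ} (hδ : 0 ≤ δ) (c e : ι → E d) (S : Finset ι)
    (hunit : ∀ i ∈ S, ‖e i‖ = 1) {F : Set (E d)} (hFm : MeasurableSet F)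
    {lam : ℝ} (hlam : 0 < lam) (hF : ∀ x ∈ F, lam ≤ mu δ c e S x) :
    volume F ≤ ENNReal.ofReal (S.card * (2 * δ) ^ d / lam) := by
  have h1 := (level_mass δ c e S hFm hF).trans (sum_vol_le hδ c e S hunit F)
  have hne : ENNReal.ofReal lam ≠ 0 := by simpa using hlam
  have h2 : volume F ≤ (ENNReal.ofReal lam)⁻¹ * ENNReal.ofReal (S.card * (2 * δ) ^ d) := by
    rw [← ENNReal.mul_le_iff_le_inv hne ENNReal.ofReal_ne_top]
    exact h1
  refine h2.trans (le_of_eq ?_)
  rw [← ENNReal.ofReal_inv_of_pos hlam, ← ENNReal.ofReal_mul (by positivity)]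
  congr 1
  field_simp

/-- the trivial weak-type bound -/
lemma WK_trivial {q : ℝ} (hd : 1 ≤ d) (hq : 1 < q) {δ δ1 : ℝ} (hδ1 : 0 < δ1) (hδ : δ1 ≤ δ)
    (hδlt : δ < 1) : WK d q δ (2 ^ d * (3 * CG d / δ1)) := by
  intro ι S c e hF lam hlam
  have hδ0 : 0 < δ := hδ1.trans_le hδ
  have hd0 : (0 : ℝ) < d := by exact_mod_cast hd
  have hG := CG_pos d
  have hG1 := one_le_CG d
  rcases {x | lam ≤ mu δ c e S x}.eq_empty_or_nonempty with hemp | ⟨x, hx⟩
  · rw [hemp, measure_empty]; exact bot_le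
  have hlamN : lam ≤ S.card := le_trans hx (by exact_mod_cast mu_le_card δ c e S x)
  have hNr : (0 : ℝ) < S.card := hlam.trans_le hlamN
  refine (level_trivial hδ0.le c e S hF.unit (measurableSet_level δ c e S lam) hlam
    (fun x hx => hx)).trans (ENNReal.ofReal_le_ofReal ?_)
  have h1 : (S.card : ℝ) / lam ≤ ((S.card : ℝ) / lam) ^ q := by
    have : (1 : ℝ) ≤ S.card / lam := by rw [one_le_div hlam]; exact hlamN
    calc (S.card : ℝ) / lam = ((S.card : ℝ) / lam) ^ (1 : ℝ) := (Real.rpow_one _).symm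
      _ ≤ ((S.card : ℝ) / lam) ^ q := Real.rpow_le_rpow_of_exponent_le this hq.le
  have h2 : ((S.card : ℝ) / lam) ^ q = lam ^ (-q) * ((S.card : ℝ) ^ (q - 1 / d) *
      (S.card : ℝ) ^ (1 / (d : ℝ))) := by
    rw [Real.div_rpow hNr.le hlam.le, ← Real.rpow_add hNr, sub_add_cancel, Real.rpow_neg hlam.le]
    field_simp
  have h3 : (S.card : ℝ) ^ (1 / (d : ℝ)) ≤ 3 * CG d / δ1 := by
    have hN := card_le_all hδ0 hδlt hF
    calc (S.card : ℝ) ^ (1 / (d : ℝ)) ≤ (CG d * 3 ^ d * (δ ^ d)⁻¹) ^ (1 / (d : ℝ)) := by gcongr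
      _ = CG d ^ (1 / (d : ℝ)) * (3 / δ) := by
          have : CG d * 3 ^ d * (δ ^ d)⁻¹ = CG d * (3 / δ) ^ d := by rw [div_pow]; ring
          rw [this, Real.mul_rpow hG.le (by positivity), ← Real.rpow_natCast (3 / δ) d,
            ← Real.rpow_mul (by positivity), mul_one_div_cancel hd0.ne', Real.rpow_one]
      _ ≤ CG d * (3 / δ1) := by
          gcongr
          calc CG d ^ (1 / (d : ℝ)) ≤ CG d ^ (1 : ℝ) := by
                apply Real.rpow_le_rpow_of_exponent_le hG1
                rw [div_le_one hd0]; exact_mod_cast hd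
            _ = CG d := Real.rpow_one _
      _ = 3 * CG d / δ1 := by ring
  calc (S.card : ℝ) * (2 * δ) ^ d / lam = 2 ^ d * δ ^ d * (S.card / lam) := by
        rw [mul_pow]; ring
    _ ≤ 2 ^ d * δ ^ d * (lam ^ (-q) * ((S.card : ℝ) ^ (q - 1 / d) *
          (S.card : ℝ) ^ (1 / (d : ℝ)))) := by
        rw [← h2]; gcongr
    _ ≤ 2 ^ d * δ ^ d * (lam ^ (-q) * ((S.card : ℝ) ^ (q - 1 / d) * (3 * CG d / δ1))) := by
        gcongr
    _ = _ := by ring

/-- from level sets with `m ≤ mu < 2 m` to superlevel sets -/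
lemma WK_of_levels {q : ℝ} (hq : 1 < q) {δ β : ℝ} (hδ : 0 < δ) (hβ : 0 ≤ β)
    (h : ∀ (ι : Type) (S : Finset ι) (c e : ι → E d), Fam δ e S → ∀ m : ℝ, 0 < m →
      volume {x | m ≤ mu δ c e S x ∧ (mu δ c e S x : ℝ) < 2 * m} ≤
        ENNReal.ofReal (β * (m ^ (-q) * (δ ^ d * (S.card : ℝ) ^ (q - 1 / d))))) :
    WK d q δ (2 * β) := by
  intro ι S c e hF lam hlam
  have hcov : {x | lam ≤ mu δ c e S x} ⊆
      ⋃ k : ℕ, {x | 2 ^ k * lam ≤ mu δ c e S x ∧ (mu δ c e S x : ℝ) < 2 * (2 ^ k * lam)} := by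
    intro x hx
    simp only [Set.mem_ofPred_eq] at hx
    have h1 : (1 : ℝ) ≤ mu δ c e S x / lam := by rw [one_le_div hlam]; exact hx
    obtain ⟨k, hk1, hk2⟩ := exists_nat_pow_near h1 (one_lt_two)
    rw [le_div_iff₀ hlam] at hk1
    rw [div_lt_iff₀ hlam, pow_succ] at hk2
    simp only [Set.mem_iUnion, Set.mem_ofPred_eq]
    exact ⟨k, hk1, by linarith⟩
  set X : ℝ := δ ^ d * (S.card : ℝ) ^ (q - 1 / d) with hX
  have hX0 : 0 ≤ X := by positivity
  set r : ℝ := 2 ^ (-q) with hr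
  have hr0 : 0 < r := by positivity
  have hr1 : r ≤ 1 / 2 := by
    rw [hr]
    calc (2 : ℝ) ^ (-q) ≤ 2 ^ (-1 : ℝ) :=
          Real.rpow_le_rpow_of_exponent_le (by norm_num) (by linarith)
      _ = 1 / 2 := by rw [Real.rpow_neg_one]; norm_num
  have hterm : ∀ k : ℕ, volume {x | 2 ^ k * lam ≤ mu δ c e S x ∧
      (mu δ c e S x : ℝ) < 2 * (2 ^ k * lam)} ≤ ENNReal.ofReal (β * (lam ^ (-q) * X) * r ^ k) := by
    intro k
    refine (h ι S c e hF (2 ^ k * lam) (by positivity)).trans (le_of_eq ?_)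
    congr 1
    have : (2 ^ k * lam : ℝ) ^ (-q) = r ^ k * lam ^ (-q) := by
      rw [Real.mul_rpow (by positivity) hlam.le, hr, ← Real.rpow_natCast 2 k,
        ← Real.rpow_natCast (2 ^ (-q)) k, ← Real.rpow_mul (by norm_num),
        ← Real.rpow_mul (by norm_num)]
      congr 2; ring
    rw [this]; ring
  calc volume {x | lam ≤ mu δ c e S x} ≤ volume (⋃ k : ℕ, {x | 2 ^ k * lam ≤ mu δ c e S x ∧
        (mu δ c e S x : ℝ) < 2 * (2 ^ k * lam)}) := measure_mono hcov
    _ ≤ ∑' k : ℕ, volume {x | 2 ^ k * lam ≤ mu δ c e S x ∧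
        (mu δ c e S x : ℝ) < 2 * (2 ^ k * lam)} := measure_iUnion_le _
    _ ≤ ∑' k : ℕ, ENNReal.ofReal (β * (lam ^ (-q) * X) * r ^ k) := ENNReal.tsum_le_tsum hterm
    _ = ENNReal.ofReal (β * (lam ^ (-q) * X) * (1 - r)⁻¹) := by
        rw [← ENNReal.ofReal_tsum_of_nonneg (fun k => by positivity)
          ((summable_geometric_of_lt_one hr0.le (by linarith)).mul_left _), tsum_mul_left,
          tsum_geometric_of_lt_one hr0.le (by linarith)]
    _ ≤ _ := by
        apply ENNReal.ofReal_le_ofReal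
        have h1 : (1 - r)⁻¹ ≤ 2 := by
          rw [inv_le_comm₀ (by linarith) (by norm_num)]; linarith
        calc β * (lam ^ (-q) * X) * (1 - r)⁻¹ ≤ β * (lam ^ (-q) * X) * 2 := by gcongr
          _ = _ := by ring

/-- the constant in the passage from weak type to restricted form -/
noncomputable def cq (q : ℝ) : ℝ := 1 + 2 / (1 - 2 ^ (1 - q))

lemma RW_of_WK {q : ℝ} (hd : 1 ≤ d) (hq : 1 < q) {δ β : ℝ} (hδ : 0 < δ) (hβ : 0 < β)
    (h : WK d q δ β) : RW d q δ (cq q * β ^ (1 / q)) := by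
  have hq0 : 0 < q := by linarith
  obtain ⟨B, hB0, rfl⟩ : ∃ B : ℝ, 0 < B ∧ β = B ^ q :=
    ⟨β ^ (1 / q), by positivity, by
      rw [← Real.rpow_mul hβ.le, one_div_mul_cancel hq0.ne', Real.rpow_one]⟩
  have hBB : (B ^ q) ^ (1 / q) = B := by
    rw [← Real.rpow_mul hB0.le, mul_one_div_cancel hq0.ne', Real.rpow_one]
  rw [hBB]
  clear hBB
  intro ι S c e hF F hFm
  have hd0 : (0 : ℝ) < d := by exact_mod_cast hd
  have h1q : 1 / q < 1 := by rw [div_lt_one hq0]; exact hq
  set r : ℝ := 2 ^ (1 - q) with hr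
  have hr0 : 0 < r := by positivity
  have hr1 : r < 1 := by
    rw [hr]; exact Real.rpow_lt_one_of_one_lt_of_neg (by norm_num) (by linarith)
  have hcq : 0 < cq q := by
    rw [cq, ← hr]
    have : 0 < 2 / (1 - r) := by apply div_pos <;> linarith
    linarith
  rcases Nat.eq_zero_or_pos S.card with hS0 | hpos
  · rw [Finset.card_eq_zero.mp hS0]; simp
  have hNr : (0 : ℝ) < S.card := by exact_mod_cast hpos
  set X : ℝ := δ ^ ((d : ℝ) / q) * (S.card : ℝ) ^ (1 - 1 / (q * d)) with hX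
  have hX0 : 0 < X := by positivity
  have hXq : X ^ q = δ ^ d * (S.card : ℝ) ^ (q - 1 / d) := by
    rw [hX, Real.mul_rpow (by positivity) (by positivity), ← Real.rpow_mul hδ.le,
      ← Real.rpow_mul hNr.le, ← Real.rpow_natCast δ d]
    congr 2
    · field_simp
    · field_simp
  rcases eq_or_ne (volume F) ∞ with hinf | hfin
  · rw [hinf, ENNReal.top_rpow_of_pos (by linarith), ENNReal.mul_top]
    · exact le_top
    · have : 0 < cq q * B * X := by positivity
      simpa using this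
  rcases eq_or_ne (volume F) 0 with h0 | hne
  · have : ∑ j ∈ S, volume (F ∩ tube δ (c j) (e j)) = 0 := by
      apply Finset.sum_eq_zero
      intro j _
      exact measure_mono_null Set.inter_subset_left h0
    rw [this]; exact bot_le
  obtain ⟨V, hVpos, hVE⟩ : ∃ V : ℝ, 0 < V ∧ volume F = ENNReal.ofReal V :=
    ⟨(volume F).toReal, ENNReal.toReal_pos hne hfin, (ENNReal.ofReal_toReal hfin).symm⟩
  set t0 : ℝ := B * X * V ^ (-(1 / q)) with ht0
  have ht0pos : 0 < t0 := by positivity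
  have ht0V : t0 * V = B * X * V ^ (1 - 1 / q) := by
    rw [ht0, mul_assoc]
    congr 1
    have := Real.rpow_add hVpos (-(1 / q)) 1
    rw [Real.rpow_one] at this
    rw [← this]; congr 1; ring
  have ht0q : (B * X) ^ q * t0 ^ (-q) = V := by
    have hBX : 0 < B * X := by positivity
    have h3 : 0 < (B * X) ^ q := by positivity
    have h2 : t0 ^ (-q) = ((B * X) ^ q)⁻¹ * V := by
      rw [ht0, Real.mul_rpow hBX.le (by positivity), Real.rpow_neg hBX.le,
        ← Real.rpow_mul hVpos.le]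
      have : -(1 / q) * -q = 1 := by field_simp
      rw [this, Real.rpow_one]
    rw [h2]
    field_simp
  -- pointwise bound
  have hpt : ∀ x, (mu δ c e S x : ℝ≥0∞) ≤ ENNReal.ofReal t0 +
      ∑' k : ℕ, ENNReal.ofReal (2 ^ (k + 1) * t0) *
        {x | 2 ^ k * t0 ≤ mu δ c e S x}.indicator 1 x := by
    intro x
    rcases lt_or_ge (mu δ c e S x : ℝ) t0 with h1 | h1
    · refine le_trans ?_ le_self_add
      rw [← ENNReal.ofReal_natCast]
      exact ENNReal.ofReal_le_ofReal h1.le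
    · refine le_trans ?_ le_add_self
      have h2 : (1 : ℝ) ≤ mu δ c e S x / t0 := by rw [one_le_div ht0pos]; exact h1
      obtain ⟨k, hk1, hk2⟩ := exists_nat_pow_near h2 (one_lt_two)
      rw [le_div_iff₀ ht0pos] at hk1
      rw [div_lt_iff₀ ht0pos] at hk2
      refine le_trans ?_ (ENNReal.le_tsum k)
      rw [Set.indicator_of_mem (by exact hk1), Pi.one_apply, mul_one, ← ENNReal.ofReal_natCast]
      exact ENNReal.ofReal_le_ofReal hk2.le
  have hterm : ∀ k : ℕ, ENNReal.ofReal (2 ^ (k + 1) * t0) *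
      volume {x | 2 ^ k * t0 ≤ mu δ c e S x} ≤ ENNReal.ofReal (2 * (t0 * V) * r ^ k) := by
    intro k
    have h1 := h ι S c e hF (2 ^ k * t0) (by positivity)
    rw [← hXq] at h1
    calc _ ≤ ENNReal.ofReal (2 ^ (k + 1) * t0) *
          ENNReal.ofReal (B ^ q * ((2 ^ k * t0) ^ (-q) * X ^ q)) := by gcongr
      _ = ENNReal.ofReal (2 ^ (k + 1) * t0 * (B ^ q * ((2 ^ k * t0) ^ (-q) * X ^ q))) :=
          (ENNReal.ofReal_mul (by positivity)).symm
      _ = _ := by
          congr 1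
          have e1 : (2 ^ k * t0 : ℝ) ^ (-q) = (2 : ℝ) ^ (-(k * q)) * t0 ^ (-q) := by
            rw [Real.mul_rpow (by positivity) ht0pos.le, ← Real.rpow_natCast 2 k,
              ← Real.rpow_mul (by norm_num)]
            congr 2; ring
          have e2 : r ^ k = (2 : ℝ) ^ (k : ℕ) * (2 : ℝ) ^ (-(k * q)) := by
            rw [hr, ← Real.rpow_natCast (2 ^ (1 - q)) k, ← Real.rpow_mul (by norm_num),
              ← Real.rpow_natCast 2 k, ← Real.rpow_add (by norm_num)]
            congr 1; ring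
          have e3 : B ^ q * (t0 ^ (-q) * X ^ q) = V := by
            rw [← ht0q, Real.mul_rpow hB0.le hX0.le]; ring
          rw [e1, e2, pow_succ]
          calc (2 : ℝ) ^ k * 2 * t0 * (B ^ q * (2 ^ (-(k * q)) * t0 ^ (-q) * X ^ q))
              = 2 ^ k * 2 * t0 * 2 ^ (-(k * q)) * (B ^ q * (t0 ^ (-q) * X ^ q)) := by ring
            _ = _ := by rw [e3]; ring
  rw [sum_inter_eq]
  calc ∫⁻ x in F, (mu δ c e S x : ℝ≥0∞)
      ≤ ∫⁻ x in F, (ENNReal.ofReal t0 + ∑' k : ℕ, ENNReal.ofReal (2 ^ (k + 1) * t0) *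
        {x | 2 ^ k * t0 ≤ mu δ c e S x}.indicator 1 x) := lintegral_mono hpt
    _ = ENNReal.ofReal t0 * volume F + ∫⁻ x in F, ∑' k : ℕ, ENNReal.ofReal (2 ^ (k + 1) * t0) *
        {x | 2 ^ k * t0 ≤ mu δ c e S x}.indicator 1 x := by
        rw [lintegral_add_left measurable_const, setLIntegral_const]
    _ ≤ ENNReal.ofReal t0 * volume F + ∫⁻ x, ∑' k : ℕ, ENNReal.ofReal (2 ^ (k + 1) * t0) *
        {x | 2 ^ k * t0 ≤ mu δ c e S x}.indicator 1 x := by
        gcongr
        exact Measure.restrict_le_self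
    _ = ENNReal.ofReal t0 * volume F + ∑' k : ℕ, ENNReal.ofReal (2 ^ (k + 1) * t0) *
        volume {x | 2 ^ k * t0 ≤ mu δ c e S x} := by
        congr 1
        rw [lintegral_tsum]
        · congr 1
          funext k
          rw [lintegral_const_mul _ (measurable_one.indicator (measurableSet_level _ _ _ _ _)),
            lintegral_indicator_one (measurableSet_level _ _ _ _ _)]
        · intro k
          exact ((measurable_one.indicator (measurableSet_level _ _ _ _ _)).const_mul _).aemeasurable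
    _ ≤ ENNReal.ofReal (t0 * V) + ∑' k : ℕ, ENNReal.ofReal (2 * (t0 * V) * r ^ k) := by
        gcongr with k
        · rw [hVE, ← ENNReal.ofReal_mul ht0pos.le]
        · exact hterm k
    _ = ENNReal.ofReal (t0 * V + 2 * (t0 * V) * (1 - r)⁻¹) := by
        have h1r : 0 < (1 - r)⁻¹ := by
          rw [inv_pos]; linarith
        rw [← ENNReal.ofReal_tsum_of_nonneg (fun k => by positivity)
          ((summable_geometric_of_lt_one hr0.le hr1).mul_left _), tsum_mul_left,
          tsum_geometric_of_lt_one hr0.le hr1, ← ENNReal.ofReal_add (by positivity) (by positivity)]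
    _ = _ := by
        rw [hVE, ENNReal.ofReal_rpow_of_pos hVpos, ← ENNReal.ofReal_mul (by positivity)]
        congr 1
        rw [ht0V, cq, ← hr, div_eq_mul_inv]
        ring

end Pool.Agent.H53.Kak
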