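import Pool.Agent.H53.Kak.WBrush2

/-!
# One step of the recursion: the level sets
-/

set_option autoImplicit false

open MeasureTheory ENNReal
open scoped RealInnerProductSpace

namespace Pool.Agent.H53.Kak

variable {d : ℕ} {ι : Type}

/-- the exponent `(n + 2) / n` with `n = d + 1` -/
noncomputable def qW (d : ℕ) : ℝ := ((d : ℝ) + 3) / (d + 1)

lemma qW_ge (hd : 1 ≤ d) : 1 + 1 / (d : ℝ) ≤ qW d := by
  have hd1 : (1 : ℝ) ≤ d := by exact_mod_cast hd
  have hd0 : (0 : ℝ) < d := by linarith only [hd1]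
  rw [qW, le_div_iff₀ (by positivity)]
  have : (1 + 1 / (d : ℝ)) * (d + 1) = d + 2 + 1 / d := by field_simp; ring
  rw [this]
  have : 1 / (d : ℝ) ≤ 1 := by rw [div_le_one hd0]; exact hd1
  linarith only [this]

lemma brush_alg (hd : 1 ≤ d) {m V N δ K G : ℝ} (hm : 0 < m) (hV : 0 < V) (hN : 0 < N)
    (hδ : 0 < δ) (hK : 0 ≤ K) (hG : 1 ≤ G) (h1 : m ^ 4 * V ^ 2 ≤ K * N ^ 3 * (δ ^ d * (δ ^ d * δ)))
    (h2 : V ≤ N * (2 * δ) ^ d / m) (h3 : N ≤ G * 3 ^ d * (δ ^ d)⁻¹) :
    V ≤ (1 + K * 2 ^ (d * d) * (3 * G)) * (m ^ (-(qW d)) * (δ ^ d * N ^ (qW d - 1 / (d : ℝ)))) := by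
  have hd1 : (1 : ℝ) ≤ d := by exact_mod_cast hd
  have hd0 : (0 : ℝ) < d := by linarith only [hd1]
  have hG0 : 0 < G := by linarith only [hG]
  set Y : ℝ := m ^ (-(qW d)) * (δ ^ d * N ^ (qW d - 1 / (d : ℝ))) with hY
  have hY0 : 0 < Y := by positivity
  set u : ℝ := N ^ (1 / (d : ℝ)) with hu
  have hu0 : 0 < u := by positivity
  have hu1 : u * δ ≤ 3 * G := by
    have h4 : (G * 3 ^ d * (δ ^ d)⁻¹) ^ (1 / (d : ℝ)) = G ^ (1 / (d : ℝ)) * (3 / δ) := by
      have : G * 3 ^ d * (δ ^ d)⁻¹ = G * (3 / δ) ^ d := by rw [div_pow]; ring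
      rw [this, Real.mul_rpow hG0.le (by positivity), ← Real.rpow_natCast (3 / δ) d,
        ← Real.rpow_mul (by positivity), mul_one_div_cancel hd0.ne', Real.rpow_one]
    have h5 : G ^ (1 / (d : ℝ)) ≤ G := by
      calc G ^ (1 / (d : ℝ)) ≤ G ^ (1 : ℝ) := by
            apply Real.rpow_le_rpow_of_exponent_le hG
            rw [div_le_one hd0]; exact hd1
        _ = G := Real.rpow_one _
    calc u * δ ≤ (G * 3 ^ d * (δ ^ d)⁻¹) ^ (1 / (d : ℝ)) * δ := by rw [hu]; gcongr
      _ = G ^ (1 / (d : ℝ)) * 3 := by rw [h4]; field_simp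
      _ ≤ G * 3 := by gcongr
      _ = 3 * G := by ring
  have hYpow : m ^ (d + 3) * Y ^ (d + 1) = δ ^ (d * (d + 1)) * N ^ ((d : ℝ) + 2 - 1 / d) := by
    have e1 : (m ^ (-(qW d))) ^ (d + 1) = (m ^ (d + 3))⁻¹ := by
      rw [← Real.rpow_natCast (m ^ (-(qW d))) (d + 1), ← Real.rpow_mul hm.le,
        ← Real.rpow_natCast m (d + 3), ← Real.rpow_neg hm.le]
      congr 1
      rw [qW]; push_cast; field_simp
    have e2 : (N ^ (qW d - 1 / (d : ℝ))) ^ (d + 1) = N ^ ((d : ℝ) + 2 - 1 / d) := by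
      rw [← Real.rpow_natCast (N ^ (qW d - 1 / (d : ℝ))) (d + 1), ← Real.rpow_mul hN.le]
      congr 1
      rw [qW]; push_cast; field_simp; ring
    rw [hY, mul_pow, mul_pow, e1, e2, ← pow_mul]
    field_simp
  have hNu : N ^ ((d : ℝ) + 2 - 1 / d) * u = N ^ (d + 2) := by
    rw [hu, ← Real.rpow_add hN, sub_add_cancel]
    have : (d : ℝ) + 2 = ((d + 2 : ℕ) : ℝ) := by push_cast; ring
    rw [this, Real.rpow_natCast]
  have hkey : V ^ (d + 1) ≤ (K * 2 ^ (d * d) * (3 * G)) * Y ^ (d + 1) := by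
    obtain ⟨k, hk⟩ : ∃ k, d = k + 1 := ⟨d - 1, by omega⟩
    have h4 : (m * V) ^ k ≤ (N * (2 * δ) ^ d) ^ k := by
      have : m * V ≤ N * (2 * δ) ^ d := by
        rw [le_div_iff₀ hm] at h2; linarith only [h2]
      gcongr
    have h5 : m ^ (d + 3) * V ^ (d + 1) ≤
        m ^ (d + 3) * ((K * 2 ^ (d * d) * (3 * G)) * Y ^ (d + 1)) := by
      calc m ^ (d + 3) * V ^ (d + 1) = (m ^ 4 * V ^ 2) * (m * V) ^ k := by
            rw [hk]; ring
        _ ≤ (K * N ^ 3 * (δ ^ d * (δ ^ d * δ))) * (N * (2 * δ) ^ d) ^ k := by gcongr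
        _ = K * 2 ^ (d * k) * (N ^ (d + 2)) * (δ ^ (d * (d + 1)) * δ) := by
            have e1 : (N * (2 * δ) ^ d) ^ k = N ^ k * 2 ^ (d * k) * δ ^ (d * k) := by
              rw [mul_pow, ← pow_mul, mul_pow]; ring
            have e2 : N ^ (d + 2) = N ^ 3 * N ^ k := by rw [hk]; ring
            have e3 : δ ^ (d * (d + 1)) = δ ^ d * δ ^ d * δ ^ (d * k) := by
              rw [← pow_add, ← pow_add]
              congr 1
              rw [hk]; ring
            rw [e1, e2, e3]; ring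
        _ ≤ K * 2 ^ (d * d) * (N ^ (d + 2)) * (δ ^ (d * (d + 1)) * δ) := by
            have : (2 : ℝ) ^ (d * k) ≤ 2 ^ (d * d) := by
              apply pow_le_pow_right₀ (by norm_num)
              apply Nat.mul_le_mul_left
              omega
            gcongr
        _ = K * 2 ^ (d * d) * (δ ^ (d * (d + 1)) * N ^ ((d : ℝ) + 2 - 1 / d)) * (u * δ) := by
            rw [← hNu]; ring
        _ ≤ K * 2 ^ (d * d) * (δ ^ (d * (d + 1)) * N ^ ((d : ℝ) + 2 - 1 / d)) * (3 * G) := by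
            gcongr
        _ = m ^ (d + 3) * ((K * 2 ^ (d * d) * (3 * G)) * Y ^ (d + 1)) := by
            rw [← hYpow]; ring
    exact le_of_mul_le_mul_left h5 (by positivity)
  set K' : ℝ := K * 2 ^ (d * d) * (3 * G) with hK'
  have hK'0 : 0 ≤ K' := by positivity
  have h6 : V ^ (d + 1) ≤ ((1 + K') * Y) ^ (d + 1) := by
    refine hkey.trans ?_
    rw [mul_pow (1 + K') Y]
    have : K' ≤ (1 + K') ^ (d + 1) := by
      calc K' ≤ 1 + K' := by linarith only
        _ ≤ (1 + K') ^ (d + 1) := le_self_pow₀ (by linarith only [hK'0]) (by omega)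
    exact mul_le_mul_of_nonneg_right this (by positivity)
  exact le_of_pow_le_pow_left₀ (by omega) (by positivity) h6

/-- the constant in the concentrated case -/
noncomputable def Cconc (d : ℕ) (q : ℝ) : ℝ :=
  (128 * CG d * cq q) ^ q * (3 ^ (d + 1)) ^ (q - 1 / (d : ℝ))

lemma cq_pos {q : ℝ} (hq : 1 < q) : 0 < cq q := by
  have hr1 : (2 : ℝ) ^ (1 - q) < 1 :=
    Real.rpow_lt_one_of_one_lt_of_neg (by norm_num) (by linarith)
  rw [cq]
  have : 0 < 2 / (1 - (2 : ℝ) ^ (1 - q)) := by apply div_pos <;> linarith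
  linarith only [this]

lemma conc_alg {q : ℝ} (hd : 1 ≤ d) (hq : 1 < q) {β δ m V N : ℝ} (hβ : 0 < β) (hδ : 0 < δ)
    (hm : 0 < m) (hV : 0 < V) (hN : 0 < N)
    (h : m * V / 16 ≤ 2 * ((4 * CG d * (cq q * β ^ (1 / q)) * (δ ^ ((d : ℝ) / q) *
        (3 ^ (d + 1) * N) ^ (1 - 1 / (q * d)))) * V ^ (1 - 1 / q))) :
    V ≤ Cconc d q * β * (m ^ (-q) * (δ ^ d * N ^ (q - 1 / (d : ℝ)))) := by
  have hd1 : (1 : ℝ) ≤ d := by exact_mod_cast hd
  have hd0 : (0 : ℝ) < d := by linarith only [hd1]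
  have hq0 : 0 < q := by linarith only [hq]
  have hG := CG_pos d
  have hcq := cq_pos hq
  set Z : ℝ := δ ^ ((d : ℝ) / q) * (3 ^ (d + 1) * N) ^ (1 - 1 / (q * d)) with hZ
  have hZ0 : 0 < Z := by positivity
  have hZq : Z ^ q = δ ^ d * ((3 ^ (d + 1)) ^ (q - 1 / (d : ℝ)) * N ^ (q - 1 / (d : ℝ))) := by
    rw [hZ, Real.mul_rpow (by positivity) (by positivity), ← Real.rpow_mul hδ.le,
      ← Real.rpow_mul (by positivity), ← Real.rpow_natCast δ d,
      ← Real.mul_rpow (by positivity) hN.le]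
    congr 2
    · field_simp
    · field_simp
  have hV1 : V = V ^ (1 / q) * V ^ (1 - 1 / q) := by
    rw [← Real.rpow_add hV]
    have : 1 / q + (1 - 1 / q) = 1 := by ring
    rw [this, Real.rpow_one]
  have hVp : 0 < V ^ (1 - 1 / q) := by positivity
  have h1 : V ^ (1 / q) ≤ (128 * CG d * cq q) * β ^ (1 / q) * Z * m⁻¹ := by
    have h2 : V ^ (1 / q) * V ^ (1 - 1 / q) ≤
        ((128 * CG d * cq q) * β ^ (1 / q) * Z * m⁻¹) * V ^ (1 - 1 / q) := by
      rw [← hV1]
      have h3 : V = (m * V / 16) * (16 * m⁻¹) := by field_simp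
      calc V = (m * V / 16) * (16 * m⁻¹) := h3
        _ ≤ (2 * ((4 * CG d * (cq q * β ^ (1 / q)) * Z) * V ^ (1 - 1 / q))) * (16 * m⁻¹) := by
            gcongr
        _ = _ := by ring
    exact le_of_mul_le_mul_right h2 hVp
  have h2 : V = (V ^ (1 / q)) ^ q := by
    rw [← Real.rpow_mul hV.le, one_div_mul_cancel hq0.ne', Real.rpow_one]
  calc V = (V ^ (1 / q)) ^ q := h2
    _ ≤ ((128 * CG d * cq q) * β ^ (1 / q) * Z * m⁻¹) ^ q := by gcongr
    _ = (128 * CG d * cq q) ^ q * β * Z ^ q * m ^ (-q) := by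
        rw [Real.mul_rpow (by positivity) (by positivity), Real.mul_rpow (by positivity) hZ0.le,
          Real.mul_rpow (by positivity) (by positivity), ← Real.rpow_mul hβ.le,
          one_div_mul_cancel hq0.ne', Real.rpow_one, Real.inv_rpow hm.le, Real.rpow_neg hm.le]
    _ = _ := by rw [hZq, Cconc]; ring

/-- the constant in the brush case -/
noncomputable def Cbr (d : ℕ) (θ : ℝ) : ℝ :=
  65536 * (512 * CG d * (37 * (8 * (d + 1)) / θ) ^ d * 2 ^ d) * 2 ^ d * (2 / θ)

open Classical in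
/-- the level set estimate -/
lemma level_step (hd : 1 ≤ d) {β : ℝ} (hβ : 0 < β) {δ θ : ℝ} (h : WK d (qW d) (δ / θ) β)
    (hδ : 0 < δ) (hδ1 : δ < 1) (hθ0 : 0 < θ) (hθ1 : θ ≤ 1 / 2) (hδθ : 192 * (d + 1) * δ ≤ θ)
    (S : Finset ι) (c e : ι → E d) (hF : Fam δ e S) {m : ℝ} (hm : 0 < m)
    (L : ℕ) (hL : 2 / δ ≤ 2 ^ L) :
    volume {x | m ≤ mu δ c e S x ∧ (mu δ c e S x : ℝ) < 2 * m} ≤
      ENNReal.ofReal (((Ccap d (qW d) + Cconc d (qW d)) * β +
        (1 + Cbr d θ * (L + 1) * 2 ^ (d * d) * (3 * CG d))) *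
        (m ^ (-(qW d)) * (δ ^ d * (S.card : ℝ) ^ (qW d - 1 / (d : ℝ))))) := by
  have hd1 : (1 : ℝ) ≤ d := by exact_mod_cast hd
  have hd0 : (0 : ℝ) < d := by linarith only [hδ, hδ1, hd1]
  have hinv : 0 < 1 / (d : ℝ) := by positivity
  have hqge := qW_ge hd
  have hq1 : 1 < qW d := by linarith only [hinv, hqge]
  have hq0 : 0 < qW d := by linarith only [hδ, hδ1, hinv, hqge]
  have hG := CG_pos d
  have hG1 := one_le_CG d
  have hcq := cq_pos hq1
  have hCcap := Ccap_pos d (qW d)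
  have hCconc : 0 < Cconc d (qW d) := by rw [Cconc]; positivity
  have hCbr : 0 < Cbr d θ := by rw [Cbr]; positivity
  have h2δθ : 2 * δ ≤ θ := by nlinarith only [hδ, hδθ]
  obtain ⟨A, hAm, hAvol, hApair⟩ := caps_exists hd hqge hβ.le h hδ hθ1 h2δθ S c e hF hm
  set Y : ℝ := m ^ (-(qW d)) * (δ ^ d * (S.card : ℝ) ^ (qW d - 1 / (d : ℝ))) with hY
  have hY0 : 0 ≤ Y := by positivity
  set E0 : Set (E d) := {x | m ≤ mu δ c e S x ∧ (mu δ c e S x : ℝ) < 2 * m} with hE0
  have hE0m : MeasurableSet E0 := by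
    rw [hE0]
    exact (measurableSet_level δ c e S m).inter
      (measurableSet_lt (measurable_mu δ c e S) measurable_const)
  set F : Set (E d) := E0 \ A with hFdef
  have hFm : MeasurableSet F := hE0m.diff hAm
  have hlow : ∀ x ∈ F, m ≤ mu δ c e S x := fun x hx => hx.1.1
  have hup : ∀ x ∈ F, (mu δ c e S x : ℝ) ≤ 2 * m := fun x hx => hx.1.2.le
  have htriv := level_trivial hδ.le c e S hF.unit hFm hm hlow
  have hsuff : volume F ≤ ENNReal.ofReal ((Cconc d (qW d) * β +
      (1 + Cbr d θ * (L + 1) * 2 ^ (d * d) * (3 * CG d))) * Y) := by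
    rcases eq_or_ne (volume F) 0 with h0 | hne
    · rw [h0]; exact bot_le
    have hfin : volume F ≠ ∞ := ne_top_of_le_ne_top ENNReal.ofReal_ne_top htriv
    obtain ⟨V, hV, hVF⟩ : ∃ V : ℝ, 0 < V ∧ volume F = ENNReal.ofReal V :=
      ⟨(volume F).toReal, ENNReal.toReal_pos hne hfin, (ENNReal.ofReal_toReal hfin).symm⟩
    rw [hVF]
    apply ENNReal.ofReal_le_ofReal
    have hNpos : (0 : ℝ) < S.card := by
      rcases Nat.eq_zero_or_pos S.card with h0 | hp
      · exfalso
        rw [h0, hVF] at htriv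
        simp at htriv
        linarith only [hV, htriv]
      · exact_mod_cast hp
    set N : ℝ := (S.card : ℝ) with hN
    set w : ι → ℝ≥0∞ := fun j => volume (F ∩ tube δ (c j) (e j)) with hw
    have hwfin : ∀ j, w j ≠ ∞ := fun j =>
      ne_top_of_le_ne_top hfin (measure_mono Set.inter_subset_left)
    set τ : ℝ := θ / (8 * (d + 1)) with hτ
    have hτ0 : 0 < τ := by positivity
    set Jc : Finset ι := S.filter (fun j => ∃ s : ℝ, w j / 2 <
      volume (F ∩ tube δ (c j) (e j) ∩ {x | |⟪x - c j, e j⟫ - s| ≤ τ})) with hJc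
    set Js : Finset ι := S.filter (fun j => w j < ENNReal.ofReal (m * V / (16 * N))) with hJs
    have hJs_sum : ∑ j ∈ Js, w j ≤ ENNReal.ofReal (m * V / 16) := by
      calc ∑ j ∈ Js, w j ≤ ∑ _j ∈ Js, ENNReal.ofReal (m * V / (16 * N)) := by
            apply Finset.sum_le_sum
            intro j hj
            exact (Finset.mem_filter.1 hj).2.le
        _ ≤ ∑ _j ∈ S, ENNReal.ofReal (m * V / (16 * N)) :=
            Finset.sum_le_sum_of_subset (Finset.filter_subset _ _)
        _ = ENNReal.ofReal (m * V / 16) := by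
            rw [Finset.sum_const, nsmul_eq_mul, ← ENNReal.ofReal_natCast,
              ← ENNReal.ofReal_mul (Nat.cast_nonneg _)]
            congr 1
            rw [← hN]; field_simp
    rcases le_or_gt (ENNReal.ofReal (m * V / 16)) (∑ j ∈ Jc, w j) with hcase | hcase
    · -- concentrated
      have hJcs : ∀ j, ∃ s : ℝ, j ∈ Jc → w j / 2 <
          volume (F ∩ tube δ (c j) (e j) ∩ {x | |⟪x - c j, e j⟫ - s| ≤ τ}) := by
        intro j
        by_cases hj : j ∈ Jc
        · obtain ⟨s, hs⟩ := (Finset.mem_filter.1 hj).2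
          exact ⟨s, fun _ => hs⟩
        · exact ⟨0, fun h => absurd h hj⟩
      choose s hs using hJcs
      have hRW := RW_of_WK hd hq1 (by positivity : 0 < δ / θ) hβ h
      have h2r : 2 * (θ / 2) = θ := by ring
      have hconc := conc_bound (B := cq (qW d) * β ^ (1 / qW d)) (r := θ / 2)
        (h := θ / (2 * (d + 1))) hd hqge (by positivity) (by rw [h2r]; exact hRW) hδ
        (by positivity) (by linarith only [hδ, hθ1, h2δθ]) (by positivity)
        (by apply le_of_eq; field_simp)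
        (by
          rw [le_div_iff₀ (by positivity)]
          have : 0 ≤ (d : ℝ) * δ := by positivity
          linarith only [hδ, hδθ, this]) Jc c e
        (hF.mono (Finset.filter_subset _ _)) hFm s
      have hh4 : θ / (2 * ((d : ℝ) + 1)) / 4 = τ := by rw [hτ]; field_simp; norm_num
      rw [hh4] at hconc
      have hsum2 : ∑ j ∈ Jc, w j ≤ 2 * ∑ j ∈ Jc,
          volume (F ∩ tube δ (c j) (e j) ∩ {x | |⟪x - c j, e j⟫ - s j| ≤ τ}) := by
        rw [Finset.mul_sum]
        apply Finset.sum_le_sum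
        intro j hj
        have h1 := (hs j hj).le
        rw [ENNReal.div_le_iff_le_mul (Or.inl (by norm_num)) (Or.inl (by norm_num))] at h1
        rw [mul_comm]; exact h1
      have hJcN : (Jc.card : ℝ) ≤ N := by
        rw [hN]; exact_mod_cast Finset.card_le_card (Finset.filter_subset _ _)
      have h1q : 0 ≤ 1 - 1 / (qW d * d) := by
        rw [sub_nonneg, div_le_one (by positivity)]; nlinarith only [hd1, hinv, hqge]
      have hreal : m * V / 16 ≤ 2 * ((4 * CG d * (cq (qW d) * β ^ (1 / qW d)) *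
          (δ ^ ((d : ℝ) / qW d) * (3 ^ (d + 1) * N) ^ (1 - 1 / (qW d * d)))) *
          V ^ (1 - 1 / qW d)) := by
        have h1 : ENNReal.ofReal (m * V / 16) ≤ ENNReal.ofReal (2 * ((4 * CG d *
            (cq (qW d) * β ^ (1 / qW d)) *
            (δ ^ ((d : ℝ) / qW d) * (3 ^ (d + 1) * N) ^ (1 - 1 / (qW d * d)))) *
            V ^ (1 - 1 / qW d))) := by
          calc ENNReal.ofReal (m * V / 16) ≤ ∑ j ∈ Jc, w j := hcase
            _ ≤ 2 * ∑ j ∈ Jc, volume (F ∩ tube δ (c j) (e j) ∩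
                {x | |⟪x - c j, e j⟫ - s j| ≤ τ}) := hsum2
            _ ≤ 2 * (ENNReal.ofReal (4 * CG d * (cq (qW d) * β ^ (1 / qW d)) *
                (δ ^ ((d : ℝ) / qW d) * (3 ^ (d + 1) * (Jc.card : ℝ)) ^ (1 - 1 / (qW d * d)))) *
                (volume F) ^ (1 - 1 / qW d)) := by gcongr
            _ ≤ 2 * (ENNReal.ofReal (4 * CG d * (cq (qW d) * β ^ (1 / qW d)) *
                (δ ^ ((d : ℝ) / qW d) * (3 ^ (d + 1) * N) ^ (1 - 1 / (qW d * d)))) *
                (volume F) ^ (1 - 1 / qW d)) := by gcongr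
            _ = _ := by
                rw [hVF, ENNReal.ofReal_rpow_of_pos hV, ENNReal.ofReal_mul (p := 2) (by norm_num),
                  ENNReal.ofReal_mul (p := 4 * CG d * (cq (qW d) * β ^ (1 / qW d)) *
                    (δ ^ ((d : ℝ) / qW d) * (3 ^ (d + 1) * N) ^ (1 - 1 / (qW d * d))))
                    (by positivity)]
                norm_num
        rwa [ENNReal.ofReal_le_ofReal_iff (by positivity)] at h1
      have h2 := conc_alg hd hq1 hβ hδ hm hV hNpos hreal
      rw [← hY] at h2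
      refine h2.trans ?_
      have : 0 ≤ (1 + Cbr d θ * (L + 1) * 2 ^ (d * d) * (3 * CG d)) * Y := by positivity
      linarith only [this]
    · -- brush
      have hbad : ∑ j ∈ Jc ∪ Js, volume (F ∩ tube δ (c j) (e j)) ≤ ENNReal.ofReal (m / 8 * V) := by
        calc _ ≤ ∑ j ∈ Jc, w j + ∑ j ∈ Js, w j := by
              rw [← Finset.sum_union_inter]
              exact le_self_add
          _ ≤ ENNReal.ofReal (m * V / 16) + ENNReal.ofReal (m * V / 16) := by
              gcongr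
          _ = ENNReal.ofReal (m / 8 * V) := by
              rw [← ENNReal.ofReal_add (by positivity) (by positivity)]; congr 1; ring
      have hbr := brush_bound (σ := θ / 2) (τ := τ) hδ (by positivity) hτ0
        (by rw [hτ, div_le_one (by positivity)]; linarith only [hδ, hθ1, hd1, h2δθ])
        (by rw [hτ, le_div_iff₀ (by positivity)]; linarith only [hδθ]) hm S (Jc ∪ Js) c e hF hFm hV hVF
        hlow hup (fun x hx => hApair x (hlow x hx) hx.2) hbad
        (by
          intro j hj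
          rw [Finset.mem_sdiff, Finset.mem_union, not_or] at hj
          by_contra hcon
          push Not at hcon
          exact hj.2.2 (Finset.mem_filter.2 ⟨hj.1, hcon⟩))
        (by
          intro j hj s
          rw [Finset.mem_sdiff, Finset.mem_union, not_or] at hj
          by_contra hcon
          push Not at hcon
          exact hj.2.1 (Finset.mem_filter.2 ⟨hj.1, s, hcon⟩)) L hL
      have hVreal : V ≤ N * (2 * δ) ^ d / m := by
        rw [hVF, ENNReal.ofReal_le_ofReal_iff (by positivity)] at htriv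
        exact htriv
      have hbr2 : m ^ 4 * V ^ 2 ≤ (Cbr d θ * (L + 1)) * N ^ 3 * (δ ^ d * (δ ^ d * δ)) := by
        have h1 : m ^ 4 * V ^ 2 = (m ^ 4 * V ^ 2 * (θ / 2)) * (2 / θ) := by field_simp
        rw [h1]
        calc (m ^ 4 * V ^ 2 * (θ / 2)) * (2 / θ) ≤ (65536 * N ^ 3 *
              (512 * CG d * (37 / τ) ^ d * (L + 1) * (2 * δ) ^ d) * ((2 * δ) ^ d * δ)) * (2 / θ) := by
              gcongr
          _ = _ := by
              have h3 : 37 / τ = 37 * (8 * (d + 1)) / θ := by rw [hτ]; field_simp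
              rw [h3, Cbr, mul_pow 2 δ d]; ring
      have h2 := brush_alg hd hm hV hNpos hδ (by positivity) hG1 hbr2 hVreal
        (card_le_all hδ hδ1 hF)
      rw [← hY] at h2
      refine h2.trans ?_
      have : 0 ≤ Cconc d (qW d) * β * Y := by positivity
      linarith only [this]
  calc volume E0 ≤ volume (F ∪ A) := by
        apply measure_mono
        intro x hx
        by_cases hxA : x ∈ A
        · exact Or.inr hxA
        · exact Or.inl ⟨hx, hxA⟩
    _ ≤ volume F + volume A := measure_union_le _ _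
    _ ≤ ENNReal.ofReal ((Cconc d (qW d) * β +
      (1 + Cbr d θ * (L + 1) * 2 ^ (d * d) * (3 * CG d))) * Y) +
        ENNReal.ofReal (Ccap d (qW d) * β * Y) := by
        gcongr
    _ = _ := by
        rw [← ENNReal.ofReal_add (by positivity) (by positivity)]
        congr 1; ring

end Pool.Agent.H53.Kak
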