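import Pool.Agent.H53.Kak.WCells

/-!
# Directions near a plane; the Cordoba sum in a hairbrush
-/

set_option autoImplicit false

open MeasureTheory ENNReal
open scoped RealInnerProductSpace

namespace Pool.Agent.H53.Kak

variable {d : ℕ} {ι : Type}

/-- counting by a real parameter -/
lemma count_param {δ ρ : ℝ} (hδ : 0 < δ) (hρ : 0 < ρ) {T : Finset ι} {e : ι → E d}
    (hF : Fam δ e T) (y : ι → ℝ) {a b : ℝ} (hab : a ≤ b) (hy : ∀ j ∈ T, a ≤ y j ∧ y j ≤ b)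
    (hpair : ∀ i ∈ T, ∀ j ∈ T, |y i - y j| ≤ ρ → ‖e i - e j‖ ≤ 6 * ρ) :
    (T.card : ℝ) ≤ ((b - a) / ρ + 2) * (CG d * ((6 * ρ + δ) / δ) ^ d) := by
  classical
  have hG := CG_pos d
  have hmaps : ∀ j ∈ T, ⌊y j / ρ⌋ ∈ Finset.Icc ⌊a / ρ⌋ ⌊b / ρ⌋ := by
    intro j hj
    rw [Finset.mem_Icc]
    exact ⟨Int.floor_le_floor (div_le_div_of_nonneg_right (hy j hj).1 hρ.le),
      Int.floor_le_floor (div_le_div_of_nonneg_right (hy j hj).2 hρ.le)⟩
  have h1 := Finset.card_eq_sum_card_fiberwise hmaps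
  have h2 : ∀ k ∈ Finset.Icc ⌊a / ρ⌋ ⌊b / ρ⌋,
      ((T.filter (fun j => ⌊y j / ρ⌋ = k)).card : ℝ) ≤ CG d * ((6 * ρ + δ) / δ) ^ d := by
    intro k _
    rcases (T.filter (fun j => ⌊y j / ρ⌋ = k)).eq_empty_or_nonempty with h0 | ⟨i, hi⟩
    · rw [h0, Finset.card_empty, Nat.cast_zero]; positivity
    · apply card_near' hδ (hF.mono (Finset.filter_subset _ _)) (e i) (by positivity)
      intro j hj
      rw [Finset.mem_filter] at hi hj
      apply hpair j hj.1 i hi.1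
      have h3 := hi.2
      have h4 := hj.2
      rw [Int.floor_eq_iff, le_div_iff₀ hρ, div_lt_iff₀ hρ] at h3 h4
      rw [abs_le]
      constructor <;> nlinarith only [h3, h4, h3.1, h3.2, h4.1, h4.2]
  have h3 : (T.card : ℝ) = ∑ k ∈ Finset.Icc ⌊a / ρ⌋ ⌊b / ρ⌋,
      ((T.filter (fun j => ⌊y j / ρ⌋ = k)).card : ℝ) := by
    rw [h1]; push_cast; rfl
  rw [h3]
  calc _ ≤ ∑ _k ∈ Finset.Icc ⌊a / ρ⌋ ⌊b / ρ⌋, CG d * ((6 * ρ + δ) / δ) ^ d := Finset.sum_le_sum h2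
    _ = ((Finset.Icc ⌊a / ρ⌋ ⌊b / ρ⌋).card : ℝ) * (CG d * ((6 * ρ + δ) / δ) ^ d) := by
        rw [Finset.sum_const, nsmul_eq_mul]
    _ ≤ _ := by
        apply mul_le_mul_of_nonneg_right _ (by positivity)
        have := card_Icc_floor (a / ρ) (b / ρ) (div_le_div_of_nonneg_right hab hρ.le)
        rw [sub_div]
        exact this

/-- the second vector of a plane -/
lemma exists_perp {u : E d} (hu : ‖u‖ = 1) (v : E d) :
    ∃ g : E d, ∃ t : ℝ, v = ⟪u, v⟫ • u + t • g ∧ ⟪u, g⟫ = 0 ∧ ‖g‖ ≤ 1 ∧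
      ∀ x : E d, ⟪x, g⟫ * (1 - ‖g‖ ^ 2) = 0 := by
  set w := v - ⟪u, v⟫ • u with hw
  have hv : v = ⟪u, v⟫ • u + w := by rw [hw]; abel
  have huw : ⟪u, w⟫ = 0 := by
    rw [hw, inner_sub_right, inner_smul_right, real_inner_self_eq_norm_sq, hu]; ring
  rcases eq_or_ne w 0 with h0 | hne
  · refine ⟨0, 0, ?_, by simp, by simp, by simp⟩
    rw [zero_smul, add_zero]
    rw [h0, add_zero] at hv
    exact hv
  · have hn : ‖w‖ ≠ 0 := norm_ne_zero_iff.mpr hne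
    refine ⟨‖w‖⁻¹ • w, ‖w‖, ?_, ?_, ?_, ?_⟩
    · rw [smul_smul, mul_inv_cancel₀ hn, one_smul]; exact hv
    · rw [inner_smul_right, huw, mul_zero]
    · rw [norm_smul, norm_inv, norm_norm, inv_mul_cancel₀ hn]
    · intro x
      rw [norm_smul, norm_inv, norm_norm, inv_mul_cancel₀ hn]; ring

section plane

variable {u g e f : E d} {ρ : ℝ}

/-- the remainder after projection to the plane -/
lemma plane_decomp (hu : ‖u‖ = 1) (hug : ⟪u, g⟫ = 0) (hg : ∀ x : E d, ⟪x, g⟫ * (1 - ‖g‖ ^ 2) = 0)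
    (he : ‖e‖ = 1) {β γ : ℝ} (h : ‖e - β • u - γ • g‖ ≤ ρ) (hρ : 0 ≤ ρ) :
    ∃ r : E d, e = ⟪e, u⟫ • u + ⟪e, g⟫ • g + r ∧ ‖r‖ ≤ ρ ∧
      ⟪e, u⟫ ^ 2 + ⟪e, g⟫ ^ 2 + ‖r‖ ^ 2 = 1 := by
  set z := ⟪e, u⟫ with hz
  set y := ⟪e, g⟫ with hy
  set r := e - z • u - y • g with hr
  have huu : ⟪u, u⟫ = (1 : ℝ) := by rw [real_inner_self_eq_norm_sq, hu]; norm_num
  have hgu : ⟪g, u⟫ = 0 := by rw [real_inner_comm]; exact hug
  have hgg : ⟪g, g⟫ = ‖g‖ ^ 2 := real_inner_self_eq_norm_sq g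
  have hru : ⟪r, u⟫ = 0 := by
    rw [hr, inner_sub_left, inner_sub_left, inner_smul_left, inner_smul_left, huu, hgu, ← hz]
    simp
  have hrg : ⟪r, g⟫ = 0 := by
    rw [hr, inner_sub_left, inner_sub_left, inner_smul_left, inner_smul_left, hug, hgg, ← hy]
    have := hg e
    rw [← hy] at this
    simp only [conj_trivial, mul_zero, sub_zero]
    linarith only [this]
  have hyg : y ^ 2 * ‖g‖ ^ 2 = y ^ 2 := by
    have := hg e
    rw [← hy] at this
    have h2 : y * (y * (1 - ‖g‖ ^ 2)) = 0 := by rw [this, mul_zero]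
    linarith only [h2]
  have hpy : ∀ a b : ℝ, ‖a • u + b • g + r‖ ^ 2 = a ^ 2 + b ^ 2 * ‖g‖ ^ 2 + ‖r‖ ^ 2 := by
    intro a b
    have h1 : ⟪u, r⟫ = 0 := by rw [real_inner_comm]; exact hru
    have h2 : ⟪g, r⟫ = 0 := by rw [real_inner_comm]; exact hrg
    rw [← real_inner_self_eq_norm_sq]
    simp only [inner_add_left, inner_add_right, inner_smul_left, inner_smul_right, conj_trivial,
      huu, hgu, hug, hgg, hru, hrg, h1, h2, real_inner_self_eq_norm_sq r]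
    ring
  have hdec : e = z • u + y • g + r := by rw [hr]; abel
  refine ⟨r, hdec, ?_, ?_⟩
  · have h1 : e - β • u - γ • g = (z - β) • u + (y - γ) • g + r := by
      rw [hr]; module
    apply le_of_sq_le_sq _ hρ
    have h2 := hpy (z - β) (y - γ)
    rw [← h1] at h2
    have h3 : ‖e - β • u - γ • g‖ ^ 2 ≤ ρ ^ 2 := by gcongr
    nlinarith only [h2, h3, sq_nonneg (z - β), sq_nonneg ((y - γ) * ‖g‖)]
  · have h1 := hpy z y
    rw [← hdec, he, hyg] at h1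
    linarith only [h1]

omit u g e f in
/-- real inequality behind `plane_pair` -/
lemma real_pair {z y z' y' a b : ℝ} (h1 : z ^ 2 + y ^ 2 + a = 1)
    (h2 : z' ^ 2 + y' ^ 2 + b = 1) (ha : 0 ≤ a) (hb : 0 ≤ b) (ha' : a ≤ ρ / 4) (hb' : b ≤ ρ / 4)
    (hzz : 1 ≤ |z + z'|) (hyy : |y - y'| ≤ ρ) : |z - z'| ≤ 9 / 4 * ρ := by
  have hy : |y| ≤ 1 := by
    rw [abs_le_one_iff_mul_self_le_one]; nlinarith only [h1, ha, sq_nonneg z]
  have hy' : |y'| ≤ 1 := by
    rw [abs_le_one_iff_mul_self_le_one]; nlinarith only [h2, hb, sq_nonneg z']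
  have hrs : |b - a| ≤ ρ / 4 := by
    rw [abs_le]; constructor <;> linarith
  have h3 : (z - z') * (z + z') = (y' - y) * (y' + y) + (b - a) := by linarith only [h1, h2]
  have h4 : |z - z'| * |z + z'| ≤ 9 / 4 * ρ := by
    rw [← abs_mul, h3]
    calc _ ≤ |(y' - y) * (y' + y)| + |b - a| := abs_add_le _ _
      _ ≤ ρ * 2 + ρ / 4 := by
          have h5 : |y' + y| ≤ 2 := by
            calc |y' + y| ≤ |y'| + |y| := abs_add_le _ _
              _ ≤ 2 := by linarith only [hy, hy']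
          have h6 : |(y' - y) * (y' + y)| ≤ ρ * 2 := by
            rw [abs_mul, abs_sub_comm]
            exact mul_le_mul hyy h5 (abs_nonneg _) ((abs_nonneg _).trans hyy)
          linarith only [hrs, h6]
      _ = 9 / 4 * ρ := by ring
  calc |z - z'| = |z - z'| * 1 := (mul_one _).symm
    _ ≤ |z - z'| * |z + z'| := mul_le_mul_of_nonneg_left hzz (abs_nonneg _)
    _ ≤ _ := h4

/-- two directions near the plane with close second coordinates -/
lemma plane_pair (hu : ‖u‖ = 1) (hug : ⟪u, g⟫ = 0) (hg1 : ‖g‖ ≤ 1)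
    (hg : ∀ x : E d, ⟪x, g⟫ * (1 - ‖g‖ ^ 2) = 0)
    (he : ‖e‖ = 1) (hf : ‖f‖ = 1) {β γ β' γ' : ℝ} (h : ‖e - β • u - γ • g‖ ≤ ρ)
    (h' : ‖f - β' • u - γ' • g‖ ≤ ρ) (hρ : 0 < ρ) (hρ1 : ρ ≤ 1 / 4) :
    (1 ≤ |⟪e, u⟫ + ⟪f, u⟫| → |⟪e, g⟫ - ⟪f, g⟫| ≤ ρ → ‖e - f‖ ≤ 6 * ρ) ∧
    (1 ≤ |⟪e, g⟫ + ⟪f, g⟫| → |⟪e, u⟫ - ⟪f, u⟫| ≤ ρ → ‖e - f‖ ≤ 6 * ρ) := by
  obtain ⟨r, hr1, hr2, hr3⟩ := plane_decomp hu hug hg he h hρ.le
  obtain ⟨s, hs1, hs2, hs3⟩ := plane_decomp hu hug hg hf h' hρ.le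
  generalize ⟪e, u⟫ = z at *
  generalize ⟪e, g⟫ = y at *
  generalize ⟪f, u⟫ = z' at *
  generalize ⟪f, g⟫ = y' at *
  have hr0 : 0 ≤ ‖r‖ := norm_nonneg r
  have hs0 : 0 ≤ ‖s‖ := norm_nonneg s
  have hr4 : ‖r‖ ^ 2 ≤ ρ / 4 := by
    calc ‖r‖ ^ 2 ≤ ρ ^ 2 := by gcongr
      _ ≤ ρ / 4 := by nlinarith only [hρ, hρ1]
  have hs4 : ‖s‖ ^ 2 ≤ ρ / 4 := by
    calc ‖s‖ ^ 2 ≤ ρ ^ 2 := by gcongr
      _ ≤ ρ / 4 := by nlinarith only [hρ, hρ1]
  have hnorm : ‖e - f‖ ≤ |z - z'| + |y - y'| + 2 * ρ := by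
    have h1 : e - f = (z - z') • u + (y - y') • g + (r - s) := by
      rw [hr1, hs1]; module
    rw [h1]
    calc _ ≤ ‖(z - z') • u + (y - y') • g‖ + ‖r - s‖ := norm_add_le _ _
      _ ≤ (‖(z - z') • u‖ + ‖(y - y') • g‖) + (‖r‖ + ‖s‖) := by
          gcongr
          · exact norm_add_le _ _
          · exact norm_sub_le _ _
      _ ≤ (|z - z'| + |y - y'|) + (ρ + ρ) := by
          gcongr
          · rw [norm_smul, hu, mul_one, Real.norm_eq_abs]
          · rw [norm_smul, Real.norm_eq_abs]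
            exact mul_le_of_le_one_right (abs_nonneg _) hg1
      _ = _ := by ring
  constructor
  · intro hzz hyy
    have h3 := real_pair (ρ := ρ) hr3 hs3 (by positivity) (by positivity) hr4 hs4 hzz hyy
    linarith only [hρ, hnorm, hyy, h3]
  · intro hyy hzz
    have h3 := real_pair (ρ := ρ) (z := y) (y := z) (z' := y') (y' := z') (a := ‖r‖ ^ 2)
      (b := ‖s‖ ^ 2) (by linarith only [hr3]) (by linarith only [hs3]) (by positivity) (by positivity) hr4 hs4 hyy hzz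
    linarith only [hρ, hnorm, hzz, h3]

end plane

/-- the number of directions near a plane and near one of its directions -/
lemma near_plane_count {δ ρ φ : ℝ} (hδ : 0 < δ) (hρ : 0 < ρ) (hρ1 : ρ ≤ 1 / 4) (hφ : 0 ≤ φ)
    {T : Finset ι} {e : ι → E d} (hF : Fam δ e T) {u : E d} (hu : ‖u‖ = 1) (v : E d)
    (hT : ∀ k ∈ T, (‖e k - u‖ ≤ φ ∨ ‖e k + u‖ ≤ φ) ∧ ∃ β γ : ℝ, ‖e k - β • u - γ • v‖ ≤ ρ) :
    (T.card : ℝ) ≤ 8 * (φ / ρ + 1) * (CG d * ((6 * ρ + δ) / δ) ^ d) := by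
  classical
  have hG := CG_pos d
  obtain ⟨g, t, hv, hug, hg1, hg⟩ := exists_perp hu v
  -- rewrite the hypothesis with `g`
  have hT2 : ∀ k ∈ T, ∃ β γ : ℝ, ‖e k - β • u - γ • g‖ ≤ ρ := by
    intro k hk
    obtain ⟨β, γ, h⟩ := (hT k hk).2
    refine ⟨β + γ * ⟪u, v⟫, γ * t, ?_⟩
    have h1 : γ • v = (γ * ⟪u, v⟫) • u + (γ * t) • g := by
      conv_lhs => rw [hv]
      module
    have : e k - (β + γ * ⟪u, v⟫) • u - (γ * t) • g = e k - β • u - γ • v := by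
      rw [h1]; module
    rw [this]; exact h
  have hpair : ∀ i ∈ T, ∀ j ∈ T,
      (1 ≤ |⟪e i, u⟫ + ⟪e j, u⟫| → |⟪e i, g⟫ - ⟪e j, g⟫| ≤ ρ → ‖e i - e j‖ ≤ 6 * ρ) ∧
      (1 ≤ |⟪e i, g⟫ + ⟪e j, g⟫| → |⟪e i, u⟫ - ⟪e j, u⟫| ≤ ρ → ‖e i - e j‖ ≤ 6 * ρ) := by
    intro i hi j hj
    obtain ⟨β, γ, h⟩ := hT2 i hi
    obtain ⟨β', γ', h'⟩ := hT2 j hj
    exact plane_pair hu hug hg1 hg (hF.unit i hi) (hF.unit j hj) h h' hρ hρ1
  have hsq : ∀ k ∈ T, 15 / 16 ≤ ⟪e k, u⟫ ^ 2 + ⟪e k, g⟫ ^ 2 := by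
    intro k hk
    obtain ⟨β, γ, h⟩ := hT2 k hk
    obtain ⟨r, -, hr2, hr3⟩ := plane_decomp hu hug hg (hF.unit k hk) h hρ.le
    have : ‖r‖ ^ 2 ≤ 1 / 16 := by nlinarith only [hρ1, hρ, hr2, norm_nonneg r]
    linarith only [hr3, this]
  have hyφ : ∀ k ∈ T, -φ ≤ ⟪e k, g⟫ ∧ ⟪e k, g⟫ ≤ φ := by
    intro k hk
    rw [← abs_le]
    rcases (hT k hk).1 with h | h
    · have h1 : ⟪e k, g⟫ = ⟪e k - u, g⟫ := by rw [inner_sub_left, hug, sub_zero]
      rw [h1]
      calc |⟪e k - u, g⟫| ≤ ‖e k - u‖ * ‖g‖ := abs_real_inner_le_norm _ _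
        _ ≤ φ * 1 := by gcongr
        _ = φ := mul_one _
    · have h1 : ⟪e k, g⟫ = ⟪e k + u, g⟫ := by rw [inner_add_left, hug, add_zero]
      rw [h1]
      calc |⟪e k + u, g⟫| ≤ ‖e k + u‖ * ‖g‖ := abs_real_inner_le_norm _ _
        _ ≤ φ * 1 := by gcongr
        _ = φ := mul_one _
  exact by
   have hbig : ∀ k ∈ T, |⟪e k, u⟫| < 1 / 2 → 1 ≤ φ := by
     intro k hk hz
     rw [abs_lt] at hz
     have h1 : ‖e k - u‖ ^ 2 = 2 - 2 * ⟪e k, u⟫ := by
       rw [norm_sub_sq_real, hF.unit k hk, hu]; ring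
     have h2 : ‖e k + u‖ ^ 2 = 2 + 2 * ⟪e k, u⟫ := by
       rw [norm_add_sq_real, hF.unit k hk, hu]; ring
     rcases (hT k hk).1 with h | h
     · have : ‖e k - u‖ ^ 2 ≤ φ ^ 2 := by gcongr
       nlinarith only [hz, h1, this, hφ]
     · have : ‖e k + u‖ ^ 2 ≤ φ ^ 2 := by gcongr
       nlinarith only [h2, this, hρ, hz, hρ1, hφ]
   set Cn : ℝ := CG d * ((6 * ρ + δ) / δ) ^ d with hCn
   have hCn0 : 0 < Cn := by positivity
   set P1 := T.filter (fun k => 1 / 2 ≤ ⟪e k, u⟫) with hP1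
   set P2 := T.filter (fun k => ⟪e k, u⟫ ≤ -(1 / 2)) with hP2
   set P3 := T.filter (fun k => |⟪e k, u⟫| < 1 / 2 ∧ 1 / 2 ≤ ⟪e k, g⟫) with hP3
   set P4 := T.filter (fun k => |⟪e k, u⟫| < 1 / 2 ∧ ⟪e k, g⟫ ≤ -(1 / 2)) with hP4
   have hcover : T ⊆ P1 ∪ P2 ∪ P3 ∪ P4 := by
     intro k hk
     simp only [Finset.mem_union, hP1, hP2, hP3, hP4, Finset.mem_filter]
     by_cases h1 : 1 / 2 ≤ ⟪e k, u⟫
     · left; left; left; exact ⟨hk, h1⟩
     · by_cases h2 : ⟪e k, u⟫ ≤ -(1 / 2)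
       · left; left; right; exact ⟨hk, h2⟩
       · push Not at h1 h2
         have h3 : |⟪e k, u⟫| < 1 / 2 := abs_lt.mpr ⟨h2, h1⟩
         have h4 : 1 / 4 ≤ ⟪e k, g⟫ ^ 2 := by
           have := hsq k hk
           have h5 : ⟪e k, u⟫ ^ 2 ≤ 1 / 4 := by
             have := sq_abs ⟪e k, u⟫
             nlinarith only [h1, h2, abs_nonneg ⟪e k, u⟫]
           linarith only [hρ, hρ1, this, h5]
         rcases le_or_gt 0 ⟪e k, g⟫ with h5 | h5
         · left; right; exact ⟨hk, h3, by nlinarith only [h4, h5]⟩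
         · right; exact ⟨hk, h3, by nlinarith only [h4, h5]⟩
   exact by
    have c1 : (P1.card : ℝ) ≤ (2 * φ / ρ + 2) * Cn := by
      have := count_param hδ hρ (hF.mono (Finset.filter_subset _ T : P1 ⊆ T))
        (fun k => ⟪e k, g⟫) (a := -φ) (b := φ) (by linarith only [hφ])
        (fun j hj => hyφ j (Finset.mem_filter.1 hj).1) (by
          intro i hi j hj hij
          rw [Finset.mem_filter] at hi hj
          exact (hpair i hi.1 j hj.1).1 (by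
            rw [abs_of_nonneg (by linarith only [hρ, hρ1, hi, hj, hi.2, hj.2])]; linarith only [hi, hj, hi.2, hj.2]) hij)
      have h2 : (φ - -φ) / ρ = 2 * φ / ρ := by ring
      rwa [h2] at this
    have c2 : (P2.card : ℝ) ≤ (2 * φ / ρ + 2) * Cn := by
      have := count_param hδ hρ (hF.mono (Finset.filter_subset _ T : P2 ⊆ T))
        (fun k => ⟪e k, g⟫) (a := -φ) (b := φ) (by linarith only [hφ])
        (fun j hj => hyφ j (Finset.mem_filter.1 hj).1) (by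
          intro i hi j hj hij
          rw [Finset.mem_filter] at hi hj
          exact (hpair i hi.1 j hj.1).1 (by
            rw [abs_of_nonpos (by linarith only [hρ, hρ1, hi, hj, hi.2, hj.2])]; linarith only [hi, hj, hi.2, hj.2]) hij)
      have h2 : (φ - -φ) / ρ = 2 * φ / ρ := by ring
      rwa [h2] at this
    have c3 : (P3.card : ℝ) ≤ (2 * φ / ρ + 2) * Cn := by
      rcases P3.eq_empty_or_nonempty with h0 | ⟨k0, hk0⟩
      · rw [h0, Finset.card_empty, Nat.cast_zero]; positivity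
      · rw [hP3, Finset.mem_filter] at hk0
        have hφ1 := hbig k0 hk0.1 hk0.2.1
        have := count_param hδ hρ (hF.mono (Finset.filter_subset _ T : P3 ⊆ T))
          (fun k => ⟪e k, u⟫) (a := -(1 / 2)) (b := 1 / 2) (by norm_num)
          (fun j hj => by
            rw [Finset.mem_filter, abs_lt] at hj
            exact ⟨hj.2.1.1.le, hj.2.1.2.le⟩) (by
            intro i hi j hj hij
            rw [Finset.mem_filter] at hi hj
            exact (hpair i hi.1 j hj.1).2 (by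
              rw [abs_of_nonneg (by linarith only [hρ, hρ1, hi, hj, hi.2.2, hj.2.2])]; linarith only [hi, hj, hi.2.2, hj.2.2]) hij)
        refine this.trans ?_
        apply mul_le_mul_of_nonneg_right _ hCn0.le
        have h2 : (1 / 2 - -(1 / 2) : ℝ) / ρ ≤ 2 * φ / ρ := by
          apply div_le_div_of_nonneg_right _ hρ.le; linarith only [hρ, hρ1, hφ1]
        linarith only [h2]
    exact by
     have c4 : (P4.card : ℝ) ≤ (2 * φ / ρ + 2) * Cn := by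
       rcases P4.eq_empty_or_nonempty with h0 | ⟨k0, hk0⟩
       · rw [h0, Finset.card_empty, Nat.cast_zero]; positivity
       · rw [hP4, Finset.mem_filter] at hk0
         have hφ1 := hbig k0 hk0.1 hk0.2.1
         have := count_param hδ hρ (hF.mono (Finset.filter_subset _ T : P4 ⊆ T))
           (fun k => ⟪e k, u⟫) (a := -(1 / 2)) (b := 1 / 2) (by norm_num)
           (fun j hj => by
             rw [Finset.mem_filter, abs_lt] at hj
             exact ⟨hj.2.1.1.le, hj.2.1.2.le⟩) (by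
             intro i hi j hj hij
             rw [Finset.mem_filter] at hi hj
             exact (hpair i hi.1 j hj.1).2 (by
               rw [abs_of_nonpos (by linarith only [hρ, hρ1, hi, hj, hi.2.2, hj.2.2])]; linarith only [hi, hj, hi.2.2, hj.2.2]) hij)
         refine this.trans ?_
         apply mul_le_mul_of_nonneg_right _ hCn0.le
         have h2 : (1 / 2 - -(1 / 2) : ℝ) / ρ ≤ 2 * φ / ρ := by
           apply div_le_div_of_nonneg_right _ hρ.le; linarith only [hρ, hρ1, hφ1]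
         linarith only [h2]
     have hcard : (T.card : ℝ) ≤ P1.card + P2.card + P3.card + P4.card := by
       have h1 := Finset.card_le_card hcover
       have h2 := Finset.card_union_le (P1 ∪ P2 ∪ P3) P4
       have h3 := Finset.card_union_le (P1 ∪ P2) P3
       have h4 := Finset.card_union_le P1 P2
       have h5 : T.card ≤ P1.card + P2.card + P3.card + P4.card := by omega
       exact_mod_cast h5
     calc (T.card : ℝ) ≤ P1.card + P2.card + P3.card + P4.card := hcard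
       _ ≤ (2 * φ / ρ + 2) * Cn + (2 * φ / ρ + 2) * Cn + (2 * φ / ρ + 2) * Cn +
           (2 * φ / ρ + 2) * Cn := by linarith only [c1, c2, c3, c4]
       _ = 8 * (φ / ρ + 1) * Cn := by ring

/-- the direction of a tube through the stem and through a far point of another such tube -/
lemma dir_plane {δ τ : ℝ} (hτ : 0 < τ) {c0 e0 cj ej ck ek yj yk x : E d}
    (hyj0 : yj ∈ tube δ c0 e0) (hyj : yj ∈ tube δ cj ej)
    (hyk0 : yk ∈ tube δ c0 e0) (hyk : yk ∈ tube δ ck ek)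
    (hxj : x ∈ tube δ cj ej) (hxk : x ∈ tube δ ck ek)
    (hfar : τ < |⟪x - ck, ek⟫ - ⟪yk - ck, ek⟫|) :
    ∃ β γ : ℝ, ‖ek - β • ej - γ • e0‖ ≤ 6 * δ / τ := by
  obtain ⟨s1, w1, a1, a2, -, a3⟩ := tube_decomp hyj0
  obtain ⟨s2, w2, b1, b2, -, b3⟩ := tube_decomp hyj
  obtain ⟨s3, w3, c1, c2, -, c3⟩ := tube_decomp hyk0
  obtain ⟨s4, w4, d1, d2, -, d3⟩ := tube_decomp hyk
  obtain ⟨s5, w5, f1, f2, -, f3⟩ := tube_decomp hxj
  obtain ⟨s6, w6, g1, g2, -, g3⟩ := tube_decomp hxk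
  rw [← g3, ← d3] at hfar
  have hne : s6 - s4 ≠ 0 := by
    intro h
    rw [h, abs_zero] at hfar
    linarith only [hτ, hfar]
  -- x - c0 in two ways
  have e1 : x - c0 = s1 • e0 + (s5 - s2) • ej + (w1 + w5 - w2) := by
    have : x - c0 = (x - cj) - (yj - cj) + (yj - c0) := by abel
    rw [this, f1, b1, a1]; module
  have e2 : x - c0 = s3 • e0 + (s6 - s4) • ek + (w3 + w6 - w4) := by
    have : x - c0 = (x - ck) - (yk - ck) + (yk - c0) := by abel
    rw [this, g1, d1, c1]; module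
  set W := (w1 + w5 - w2) - (w3 + w6 - w4) with hW
  have hWn : ‖W‖ ≤ 6 * δ := by
    calc ‖W‖ ≤ ‖w1 + w5 - w2‖ + ‖w3 + w6 - w4‖ := norm_sub_le _ _
      _ ≤ (‖w1 + w5‖ + ‖w2‖) + (‖w3 + w6‖ + ‖w4‖) := by gcongr <;> exact norm_sub_le _ _
      _ ≤ ((‖w1‖ + ‖w5‖) + ‖w2‖) + ((‖w3‖ + ‖w6‖) + ‖w4‖) := by gcongr <;> exact norm_add_le _ _
      _ ≤ 6 * δ := by linarith only [a2, b2, c2, d2, f2, g2]
  have e3 : (s6 - s4) • ek = (s5 - s2) • ej + (s1 - s3) • e0 + W := by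
    have h1 : (s6 - s4) • ek = (x - c0) - s3 • e0 - (w3 + w6 - w4) := by
      rw [e2]; abel
    rw [h1, e1, hW]; module
  refine ⟨(s6 - s4)⁻¹ * (s5 - s2), (s6 - s4)⁻¹ * (s1 - s3), ?_⟩
  have e4 : ek - ((s6 - s4)⁻¹ * (s5 - s2)) • ej - ((s6 - s4)⁻¹ * (s1 - s3)) • e0 =
      (s6 - s4)⁻¹ • W := by
    have h1 : ek = (s6 - s4)⁻¹ • ((s6 - s4) • ek) := by
      rw [smul_smul, inv_mul_cancel₀ hne, one_smul]
    nth_rewrite 1 [h1]
    rw [e3]; module
  rw [e4, norm_smul, norm_inv, Real.norm_eq_abs, inv_mul_eq_div]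
  have hδ0 : 0 ≤ 6 * δ := (norm_nonneg W).trans hWn
  calc ‖W‖ / |s6 - s4| ≤ 6 * δ / |s6 - s4| := by gcongr
    _ ≤ 6 * δ / τ := by
        apply div_le_div_of_nonneg_left hδ0 hτ hfar.le

lemma level_count {δ τ : ℝ} (hδ : 0 < δ) (hτ : 0 < τ) (hτ1 : τ ≤ 1)
    (hτδ : 24 * δ ≤ τ) (T : Finset ι) (e : ι → E d) (hF : Fam δ e T) {u : E d} (hu : ‖u‖ = 1)
    (e0 : E d) (l : ℕ)
    (hT : ∀ k ∈ T, (‖e k - u‖ ≤ 2 ^ l * δ ∨ ‖e k + u‖ ≤ 2 ^ l * δ) ∧
      ∃ β γ : ℝ, ‖e k - β • u - γ • e0‖ ≤ 6 * δ / τ) :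
    (T.card : ℝ) * (32 * (2 ^ l)⁻¹ * (2 * δ) ^ d) ≤
      512 * CG d * (37 / τ) ^ d * (2 * δ) ^ d := by
  have hG := CG_pos d
  set ρ : ℝ := 6 * δ / τ with hρ
  have hρ0 : 0 < ρ := by positivity
  have hρ1 : ρ ≤ 1 / 4 := by rw [hρ, div_le_iff₀ hτ]; linarith only [hτδ]
  have hδρ : δ ≤ ρ := by rw [hρ, le_div_iff₀ hτ]; nlinarith only [hδ, hτ1]
  have h3 := near_plane_count hδ hρ0 hρ1 (φ := 2 ^ l * δ) (by positivity) hF hu e0 hT
  have h4 : (6 * ρ + δ) / δ ≤ 37 / τ := by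
    have : (6 * ρ + δ) / δ = 36 / τ + 1 := by rw [hρ]; field_simp; norm_num
    rw [this]
    have : 1 ≤ 1 / τ := by rw [one_le_div hτ]; exact hτ1
    have h5 : 37 / τ = 36 / τ + 1 / τ := by ring
    rw [h5]; linarith only [this]
  have h5 : 2 ^ l * δ / ρ + 1 ≤ 2 * 2 ^ l := by
    have h6 : 2 ^ l * δ / ρ ≤ 2 ^ l := by
      rw [div_le_iff₀ hρ0]; gcongr
    have h7 : (1 : ℝ) ≤ 2 ^ l := one_le_pow₀ (by norm_num)
    linarith only [h6, h7]
  have h8 : 0 ≤ (6 * ρ + δ) / δ := by positivity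
  have h9 : (T.card : ℝ) ≤ 16 * 2 ^ l * (CG d * (37 / τ) ^ d) := by
    calc (T.card : ℝ) ≤ 8 * (2 ^ l * δ / ρ + 1) * (CG d * ((6 * ρ + δ) / δ) ^ d) := h3
      _ ≤ 8 * (2 * 2 ^ l) * (CG d * (37 / τ) ^ d) := by gcongr
      _ = _ := by ring
  calc (T.card : ℝ) * (32 * (2 ^ l)⁻¹ * (2 * δ) ^ d)
      ≤ (16 * 2 ^ l * (CG d * (37 / τ) ^ d)) * (32 * (2 ^ l)⁻¹ * (2 * δ) ^ d) := by gcongr
    _ = _ := by field_simp; norm_num

set_option maxHeartbeats 2000000 in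
open Classical in
/-- one row of the Cordoba sum -/
lemma cordoba_row {δ τ : ℝ} (hδ : 0 < δ) (hτ : 0 < τ) (hτ1 : τ ≤ 1)
    (hτδ : 24 * δ ≤ τ) (H : Finset ι) (c e : ι → E d) (hF : Fam δ e H) (c0 e0 : E d)
    (Z : ι → Set (E d)) (y : ι → E d)
    (hy : ∀ k ∈ H, y k ∈ tube δ c0 e0 ∧ y k ∈ tube δ (c k) (e k))
    (hZ : ∀ k ∈ H, ∀ x ∈ Z k, x ∈ tube δ (c k) (e k) ∧
      τ < |⟪x - c k, e k⟫ - ⟪y k - c k, e k⟫|)
    (L : ℕ) (hL : 2 / δ ≤ 2 ^ L) {j : ι} (hj : j ∈ H) :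
    ∑ k ∈ H, volume (Z j ∩ Z k) ≤
      ENNReal.ofReal (512 * CG d * (37 / τ) ^ d * (L + 1) * (2 * δ) ^ d) := by
  have hG := CG_pos d
  set ρ : ℝ := 6 * δ / τ with hρ
  have hρ0 : 0 < ρ := by positivity
  have hρ1 : ρ ≤ 1 / 4 := by rw [hρ, div_le_iff₀ hτ]; linarith only [hτδ]
  have hδρ : δ ≤ ρ := by rw [hρ, le_div_iff₀ hτ]; nlinarith only [hδ, hτ1]
  set H' := H.filter (fun k => ∃ β γ : ℝ, ‖e k - β • e j - γ • e0‖ ≤ ρ) with hH'
  set T : ℕ → Finset ι := fun l => H'.filter (fun k => ‖e k - e j‖ ≤ 2 ^ l * δ ∨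
    ‖e k + e j‖ ≤ 2 ^ l * δ) with hT
  set v : ℕ → ℝ := fun l => 32 * (2 ^ l)⁻¹ with hv
  -- pointwise
  have hpt : ∀ k ∈ H, volume (Z j ∩ Z k) ≤ ∑ l ∈ Finset.range (L + 1),
      (if k ∈ T l then ENNReal.ofReal (v l * (2 * δ) ^ d) else 0) := by
    intro k hk
    rcases (Z j ∩ Z k).eq_empty_or_nonempty with h0 | ⟨x, hxj, hxk⟩
    · rw [h0, measure_empty]; exact bot_le
    have h1 := hZ j hj x hxj
    have h2 := hZ k hk x hxk
    have hk' : k ∈ H' := by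
      rw [hH', Finset.mem_filter]
      exact ⟨hk, dir_plane hτ (hy j hj).1 (hy j hj).2 (hy k hk).1 (hy k hk).2 h1.1 h2.1 h2.2⟩
    have hsubT : Z j ∩ Z k ⊆ tube δ (c j) (e j) ∩ tube δ (c k) (e k) :=
      fun x hx => ⟨(hZ j hj x hx.1).1, (hZ k hk x hx.2).1⟩
    set a : ℝ := min ‖e k - e j‖ ‖e k + e j‖ with ha
    have ha2 : a ≤ 2 := by
      calc a ≤ ‖e k - e j‖ := min_le_left _ _
        _ ≤ ‖e k‖ + ‖e j‖ := norm_sub_le _ _
        _ = 2 := by rw [hF.unit k hk, hF.unit j hj]; norm_num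
    have hmemT : ∀ l : ℕ, a ≤ 2 ^ l * δ → k ∈ T l := by
      intro l hl
      rw [hT, Finset.mem_filter]
      refine ⟨hk', ?_⟩
      rcases min_choice ‖e k - e j‖ ‖e k + e j‖ with h3 | h3
      · left; rw [← h3]; exact hl
      · right; rw [← h3]; exact hl
    -- choose the level
    have hex : ∃ l : ℕ, a ≤ 2 ^ l * δ := by
      refine ⟨L, ha2.trans ?_⟩
      rwa [div_le_iff₀ hδ] at hL
    set l := Nat.find hex with hl
    have hl1 : a ≤ 2 ^ l * δ := Nat.find_spec hex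
    have hlL : l ≤ L := Nat.find_min' hex (by
      refine ha2.trans ?_
      rwa [div_le_iff₀ hδ] at hL)
    have hvol : volume (Z j ∩ Z k) ≤ ENNReal.ofReal (v l * (2 * δ) ^ d) := by
      refine (measure_mono hsubT).trans ?_
      rcases Nat.eq_zero_or_pos l with h0 | hp
      · refine ((measure_mono Set.inter_subset_left).trans
          (volume_tube_le δ hδ.le (c j) (e j) (hF.unit j hj))).trans ?_
        apply ENNReal.ofReal_le_ofReal
        rw [hv, h0]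
        simp only [pow_zero, inv_one, mul_one]
        have : 0 ≤ (2 * δ) ^ d := by positivity
        linarith only [this]
      · have hlow : 2 ^ (l - 1) * δ < a := by
          have := Nat.find_min hex (m := l - 1) (by omega)
          push Not at this
          exact this
        have hapos : 0 < a := lt_of_le_of_lt (by positivity) hlow
        refine (inter_vol hδ.le hapos (hF.unit j hj) (hF.unit k hk) ?_ ?_).trans ?_
        · rw [norm_sub_rev]; exact min_le_left _ _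
        · have h3 : ‖e j + e k‖ = ‖e k + e j‖ := congrArg norm (add_comm _ _)
          rw [h3]; exact min_le_right _ _
        · apply ENNReal.ofReal_le_ofReal
          rw [mul_comm (v l)]
          apply mul_le_mul_of_nonneg_left _ (by positivity)
          rw [hv]
          have h3 : (2 : ℝ) ^ l = 2 * 2 ^ (l - 1) := by
            rw [← pow_succ']; congr 1; omega
          have h4 : 8 * δ / a ≤ 8 * δ / (2 ^ (l - 1) * δ) :=
            div_le_div_of_nonneg_left (by positivity) (by positivity) hlow.le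
          have h5 : 8 * δ / (2 ^ (l - 1) * δ) = 8 * (2 ^ (l - 1))⁻¹ := by field_simp
          have h6 : (32 : ℝ) * (2 ^ l)⁻¹ = 16 * (2 ^ (l - 1))⁻¹ := by
            rw [h3]; field_simp; norm_num
          show 2 * (8 * δ / a) ≤ 32 * (2 ^ l)⁻¹
          rw [h6]
          linarith only [h4, h5]
    refine hvol.trans ?_
    have h3 : ENNReal.ofReal (v l * (2 * δ) ^ d) =
        (if k ∈ T l then ENNReal.ofReal (v l * (2 * δ) ^ d) else 0) := by
      rw [if_pos (hmemT l hl1)]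
    rw [h3]
    exact Finset.single_le_sum
      (f := fun l => (if k ∈ T l then ENNReal.ofReal (v l * (2 * δ) ^ d) else 0))
      (fun _ _ => bot_le) (Finset.mem_range.mpr (by omega))
  -- counting
  exact by
   have hcount : ∀ l ∈ Finset.range (L + 1), ∑ k ∈ H,
       (if k ∈ T l then ENNReal.ofReal (v l * (2 * δ) ^ d) else 0) ≤
       ENNReal.ofReal (512 * CG d * (37 / τ) ^ d * (2 * δ) ^ d) := by
     intro l _
     have h1 : ∑ k ∈ H, (if k ∈ T l then ENNReal.ofReal (v l * (2 * δ) ^ d) else 0) =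
         ENNReal.ofReal ((T l).card * (v l * (2 * δ) ^ d)) := by
       rw [← Finset.sum_filter]
       have h2 : H.filter (fun k => k ∈ T l) = T l := by
         ext k
         simp only [hT, hH', Finset.mem_filter]
         tauto
       rw [h2, Finset.sum_const, nsmul_eq_mul, ENNReal.ofReal_mul (p := ((T l).card : ℝ))
         (Nat.cast_nonneg _), ENNReal.ofReal_natCast]
     rw [h1]
     apply ENNReal.ofReal_le_ofReal
     have hTH : T l ⊆ H := (Finset.filter_subset _ _).trans (Finset.filter_subset _ _)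
     exact level_count hδ hτ hτ1 hτδ (T l) e (hF.mono hTH) (hF.unit j hj) e0 l (by
       intro k hk
       rw [hT, Finset.mem_filter, hH', Finset.mem_filter] at hk
       exact ⟨hk.2, hk.1.2⟩)
   calc ∑ k ∈ H, volume (Z j ∩ Z k) ≤ ∑ k ∈ H, ∑ l ∈ Finset.range (L + 1),
         (if k ∈ T l then ENNReal.ofReal (v l * (2 * δ) ^ d) else 0) := Finset.sum_le_sum hpt
     _ = ∑ l ∈ Finset.range (L + 1), ∑ k ∈ H,
         (if k ∈ T l then ENNReal.ofReal (v l * (2 * δ) ^ d) else 0) := Finset.sum_comm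
     _ ≤ ∑ _l ∈ Finset.range (L + 1), ENNReal.ofReal (512 * CG d * (37 / τ) ^ d * (2 * δ) ^ d) :=
         Finset.sum_le_sum hcount
     _ = _ := by
         rw [Finset.sum_const, Finset.card_range, nsmul_eq_mul, ← ENNReal.ofReal_natCast,
           ← ENNReal.ofReal_mul (by positivity)]
         congr 1; push_cast; ring

end Pool.Agent.H53.Kak
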