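import Pool.Agent.H53.Kak.Caps

/-!
# The weak-type bound without loss
-/

set_option autoImplicit false

open MeasureTheory ENNReal
open scoped RealInnerProductSpace

namespace Pool.Agent.H53.Kak

variable {d : ℕ} {ι : Type}

open Classical in
/-- points with many transversal pairs -/
lemma pairs_bound {δ θ : ℝ} (hδ : 0 < δ) (hθ : 0 < θ) (S : Finset ι) (c e : ι → E d)
    (hunit : ∀ i ∈ S, ‖e i‖ = 1) {m : ℝ} (hm : 0 < m) (A : Set (E d))
    (hA : ∀ x ∈ A, m ≤ (((S ×ˢ S).filter (fun p => (x ∈ tube δ (c p.1) (e p.1) ∧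
      x ∈ tube δ (c p.2) (e p.2)) ∧ θ ≤ ‖e p.1 - e p.2‖ ∧ θ ≤ ‖e p.1 + e p.2‖)).card : ℝ)) :
    volume A ≤ ENNReal.ofReal (m⁻¹ * ((S.card : ℝ) ^ 2 * ((2 * δ) ^ d * (2 * (8 * δ / θ))))) := by
  set P := (S ×ˢ S).filter (fun p => θ ≤ ‖e p.1 - e p.2‖ ∧ θ ≤ ‖e p.1 + e p.2‖) with hP
  set F : E d → ℝ≥0∞ := fun x => ∑ p ∈ P,
    (tube δ (c p.1) (e p.1) ∩ tube δ (c p.2) (e p.2)).indicator 1 x with hF
  have hFmeas : Measurable F := by
    apply Finset.measurable_sum
    intro p _
    exact measurable_one.indicator ((measurableSet_tube _ _ _).inter (measurableSet_tube _ _ _))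
  have hsub : A ⊆ {x | ENNReal.ofReal m ≤ F x} := by
    intro x hx
    simp only [Set.mem_ofPred_eq]
    have h1 : F x = (((S ×ˢ S).filter (fun p => (x ∈ tube δ (c p.1) (e p.1) ∧
      x ∈ tube δ (c p.2) (e p.2)) ∧ θ ≤ ‖e p.1 - e p.2‖ ∧ θ ≤ ‖e p.1 + e p.2‖)).card : ℝ≥0∞) := by
      rw [hF]
      simp only [Set.indicator_apply, Pi.one_apply, Set.mem_inter_iff]
      rw [Finset.sum_boole, hP, Finset.filter_filter]
      congr 2
      ext p
      simp only [Finset.mem_filter]
      tauto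
    rw [h1]
    rw [← ENNReal.ofReal_natCast]
    exact ENNReal.ofReal_le_ofReal (hA x hx)
  have hint : ∫⁻ x, F x ≤ ENNReal.ofReal ((S.card : ℝ) ^ 2 * ((2 * δ) ^ d * (2 * (8 * δ / θ)))) := by
    rw [hF, lintegral_finsetSum']
    · calc _ ≤ ∑ _p ∈ P, ENNReal.ofReal ((2 * δ) ^ d * (2 * (8 * δ / θ))) := by
            apply Finset.sum_le_sum
            intro p hp
            rw [hP, Finset.mem_filter, Finset.mem_product] at hp
            rw [lintegral_indicator_one ((measurableSet_tube _ _ _).inter (measurableSet_tube _ _ _))]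
            exact inter_vol hδ.le hθ (hunit _ hp.1.1) (hunit _ hp.1.2) hp.2.1 hp.2.2
        _ = (P.card : ℝ≥0∞) * ENNReal.ofReal ((2 * δ) ^ d * (2 * (8 * δ / θ))) := by
            rw [Finset.sum_const, nsmul_eq_mul]
        _ ≤ ENNReal.ofReal ((S.card : ℝ) ^ 2) * ENNReal.ofReal ((2 * δ) ^ d * (2 * (8 * δ / θ))) := by
            gcongr
            rw [← ENNReal.ofReal_natCast]
            apply ENNReal.ofReal_le_ofReal
            have := Finset.card_filter_le (S ×ˢ S)
              (fun p => θ ≤ ‖e p.1 - e p.2‖ ∧ θ ≤ ‖e p.1 + e p.2‖)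
            rw [Finset.card_product] at this
            rw [sq]
            exact_mod_cast this
        _ = _ := by rw [← ENNReal.ofReal_mul (by positivity)]
    · intro p _
      exact (measurable_one.indicator
        ((measurableSet_tube _ _ _).inter (measurableSet_tube _ _ _))).aemeasurable
  have hmk := mul_meas_ge_le_lintegral (μ := (volume : Measure (E d))) hFmeas (ENNReal.ofReal m)
  have hmne : ENNReal.ofReal m ≠ 0 := by simpa using hm
  have h2 : volume {x | ENNReal.ofReal m ≤ F x} ≤ (ENNReal.ofReal m)⁻¹ *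
      ENNReal.ofReal ((S.card : ℝ) ^ 2 * ((2 * δ) ^ d * (2 * (8 * δ / θ)))) := by
    rw [← ENNReal.mul_le_iff_le_inv hmne ENNReal.ofReal_ne_top]
    exact hmk.trans hint
  refine ((measure_mono hsub).trans h2).trans (le_of_eq ?_)
  rw [← ENNReal.ofReal_inv_of_pos hm, ← ENNReal.ofReal_mul (by positivity)]

open Classical in
/-- either many transversal pairs, or a popular cap -/
lemma pairs_or_cap (θ : ℝ) (M : Finset ι) (e : ι → E d) (hM : 0 < M.card) :
    ((M.card : ℝ) ^ 2 / 2 ≤ (((M ×ˢ M).filter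
      (fun p => θ ≤ ‖e p.1 - e p.2‖ ∧ θ ≤ ‖e p.1 + e p.2‖)).card : ℝ)) ∨
    ∃ i ∈ M, ((M.card : ℝ) / 4 ≤ ((M.filter (fun j => ‖e j - e i‖ < θ)).card : ℝ)) ∨
      ((M.card : ℝ) / 4 ≤ ((M.filter (fun j => ‖e j - (-e i)‖ < θ)).card : ℝ)) := by
  by_contra hcon
  push Not at hcon
  obtain ⟨h1, h2⟩ := hcon
  have hMr : (0 : ℝ) < M.card := by exact_mod_cast hM
  have h3 : ((M ×ˢ M).card : ℝ) = (((M ×ˢ M).filter
      (fun p => θ ≤ ‖e p.1 - e p.2‖ ∧ θ ≤ ‖e p.1 + e p.2‖)).card : ℝ) +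
      (((M ×ˢ M).filter
      (fun p => ¬ (θ ≤ ‖e p.1 - e p.2‖ ∧ θ ≤ ‖e p.1 + e p.2‖))).card : ℝ) := by
    have := Finset.card_filter_add_card_filter_not (s := M ×ˢ M)
      (fun p : ι × ι => θ ≤ ‖e p.1 - e p.2‖ ∧ θ ≤ ‖e p.1 + e p.2‖)
    rw [← this]; push_cast; rfl
  have h4 : (((M ×ˢ M).filter
      (fun p => ¬ (θ ≤ ‖e p.1 - e p.2‖ ∧ θ ≤ ‖e p.1 + e p.2‖))).card : ℝ) ≤
      ∑ i ∈ M, (((M.filter (fun j => ‖e j - e i‖ < θ)).card : ℝ) +
        ((M.filter (fun j => ‖e j - (-e i)‖ < θ)).card : ℝ)) := by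
    have hsub : ((M ×ˢ M).filter
      (fun p => ¬ (θ ≤ ‖e p.1 - e p.2‖ ∧ θ ≤ ‖e p.1 + e p.2‖))) ⊆
      M.biUnion (fun i => ((M.filter (fun j => ‖e j - e i‖ < θ)).image (fun j => (i, j))) ∪
        ((M.filter (fun j => ‖e j - (-e i)‖ < θ)).image (fun j => (i, j)))) := by
      rintro ⟨i, j⟩ hp
      rw [Finset.mem_filter, Finset.mem_product] at hp
      rw [Finset.mem_biUnion]
      refine ⟨i, hp.1.1, ?_⟩
      rw [Finset.mem_union, Finset.mem_image, Finset.mem_image]
      rcases le_or_gt θ ‖e i - e j‖ with h5 | h5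
      · rcases le_or_gt θ ‖e i + e j‖ with h6 | h6
        · exact absurd ⟨h5, h6⟩ hp.2
        · right
          refine ⟨j, ?_, rfl⟩
          rw [Finset.mem_filter]
          have h7 : e j - (-e i) = e i + e j := by abel
          rw [h7]
          exact ⟨hp.1.2, h6⟩
      · left
        refine ⟨j, ?_, rfl⟩
        rw [Finset.mem_filter, norm_sub_rev]
        exact ⟨hp.1.2, h5⟩
    have h5 := (Finset.card_le_card hsub).trans Finset.card_biUnion_le
    calc _ ≤ ((∑ i ∈ M, (((M.filter (fun j => ‖e j - e i‖ < θ)).image (fun j => (i, j))) ∪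
        ((M.filter (fun j => ‖e j - (-e i)‖ < θ)).image (fun j => (i, j)))).card : ℕ) : ℝ) := by
          exact Nat.cast_le.mpr h5
      _ ≤ _ := by
          push_cast
          apply Finset.sum_le_sum
          intro i _
          have h6 := Finset.card_union_le ((M.filter (fun j => ‖e j - e i‖ < θ)).image (fun j => (i, j)))
            ((M.filter (fun j => ‖e j - (-e i)‖ < θ)).image (fun j => (i, j)))
          have h7 : ((M.filter (fun j => ‖e j - e i‖ < θ)).image (fun j => (i, j))).card ≤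
            (M.filter (fun j => ‖e j - e i‖ < θ)).card := Finset.card_image_le
          have h8 : ((M.filter (fun j => ‖e j - (-e i)‖ < θ)).image (fun j => (i, j))).card ≤
            (M.filter (fun j => ‖e j - (-e i)‖ < θ)).card := Finset.card_image_le
          exact_mod_cast h6.trans (add_le_add h7 h8)
  have h5 : ∑ i ∈ M, (((M.filter (fun j => ‖e j - e i‖ < θ)).card : ℝ) +
        ((M.filter (fun j => ‖e j - (-e i)‖ < θ)).card : ℝ)) ≤ (M.card : ℝ) * (M.card / 2) := by
    calc _ ≤ ∑ _i ∈ M, (M.card : ℝ) / 2 := by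
          apply Finset.sum_le_sum
          intro i hi
          obtain ⟨h6, h7⟩ := h2 i hi
          linarith
      _ = _ := by rw [Finset.sum_const, nsmul_eq_mul]
  rw [Finset.card_product] at h3
  push_cast at h3
  nlinarith

open Classical in
/-- a maximal separated subset -/
lemma exists_net (D : Finset (E d)) {θ : ℝ} (hθ : 0 < θ) :
    ∃ Ω ⊆ D, (∀ u ∈ Ω, ∀ v ∈ Ω, u ≠ v → θ ≤ ‖u - v‖) ∧ ∀ u ∈ D, ∃ v ∈ Ω, ‖u - v‖ < θ := by
  induction D using Finset.induction_on with
  | empty => exact ⟨∅, by simp, by simp, by simp⟩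
  | insert a D ha ih =>
    obtain ⟨Ω, h1, h2, h3⟩ := ih
    by_cases h : ∃ v ∈ Ω, ‖a - v‖ < θ
    · refine ⟨Ω, h1.trans (Finset.subset_insert _ _), h2, ?_⟩
      intro u hu
      rw [Finset.mem_insert] at hu
      rcases hu with rfl | hu
      · exact h
      · exact h3 u hu
    · push Not at h
      refine ⟨insert a Ω, Finset.insert_subset_insert _ h1, ?_, ?_⟩
      · intro u hu v hv huv
        rw [Finset.mem_insert] at hu hv
        rcases hu with rfl | hu <;> rcases hv with rfl | hv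
        · exact absurd rfl huv
        · exact h v hv
        · rw [norm_sub_rev]; exact h u hu
        · exact h2 u hu v hv huv
      · intro u hu
        rw [Finset.mem_insert] at hu
        rcases hu with rfl | hu
        · exact ⟨u, Finset.mem_insert_self _ _, by simpa using hθ⟩
        · obtain ⟨v, hv, huv⟩ := h3 u hu
          exact ⟨v, Finset.mem_insert_of_mem hv, huv⟩

open Classical in
/-- the caps around a separated set overlap boundedly -/
lemma sum_caps {θ : ℝ} (hθ : 0 < θ) (Ω : Finset (E d)) (hΩ : Fam θ (fun u : E d => u) Ω)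
    (S : Finset ι) (e : ι → E d) :
    ∑ ω ∈ Ω, ((S.filter (fun j => ‖e j - ω‖ ≤ 2 * θ)).card : ℝ) ≤ CG d * 3 ^ d * S.card := by
  have h1 : ∑ ω ∈ Ω, ((S.filter (fun j => ‖e j - ω‖ ≤ 2 * θ)).card : ℝ) =
      ∑ j ∈ S, ((Ω.filter (fun ω => ‖e j - ω‖ ≤ 2 * θ)).card : ℝ) := by
    simp_rw [Finset.card_filter]
    push_cast
    exact Finset.sum_comm
  rw [h1]
  calc _ ≤ ∑ _j ∈ S, CG d * 3 ^ d := by
        apply Finset.sum_le_sum
        intro j _
        have h2 := card_near' hθ (hΩ.mono (Finset.filter_subset (fun ω => ‖e j - ω‖ ≤ 2 * θ) Ω))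
          (e j) (ρ := 2 * θ) (by positivity) (fun u hu => by
            rw [norm_sub_rev]; exact (Finset.mem_filter.1 hu).2)
        have h3 : (2 * θ + θ) / θ = 3 := by field_simp; norm_num
        rwa [h3] at h2
    _ = _ := by rw [Finset.sum_const, nsmul_eq_mul]; ring

end Pool.Agent.H53.Kak
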