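import Pool.Agent.H53.Kak.Weak

/-!
# The weak-type bound without loss for all families
-/

set_option autoImplicit false

open MeasureTheory ENNReal
open scoped RealInnerProductSpace

namespace Pool.Agent.H53.Kak

variable {d : ℕ} {ι : Type}

/-- the constant by which `κ` is divided -/
noncomputable def K1 (d : ℕ) : ℝ := 12 * K0 d / kap0 d

lemma K1_ge (d : ℕ) : 216 * (K0 d : ℝ) ≤ K1 d := by
  have h1 := kap0_pos d
  have h2 := kap0_le d
  have h3 := one_le_K0 d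
  rw [K1, le_div_iff₀ h1]
  nlinarith only [h2]

lemma K1_pos (d : ℕ) : 0 < K1 d := by
  have h1 := K1_ge d
  have h3 := one_le_K0 d
  linarith only [h1, h3]

/-- the constant of the capped bound -/
noncomputable def Mc (d : ℕ) (q ε C κ : ℝ) : ℝ := 4 * CG d * 2 ^ (q - 1 / (d : ℝ)) *
      (C * (κ ^ (2 * (d + 1 + 3) + 1) / 8) ^ (-ε)) ^ q

lemma popular_cap {q ε C : ℝ} (hd : 1 ≤ d) (hq : 1 + 1 / (d : ℝ) ≤ q) (hC : 0 ≤ C) (hε : 0 ≤ ε)
    (h : Loss d q ε C) {κ : ℝ} (hκ0 : 0 < κ) (hκ1 : κ ≤ 1) {δ : ℝ} (hδ : 0 < δ)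
    (S : Finset ι) (c e : ι → E d) (hF : Fam δ e S) (hS : 0 < S.card) {θ : ℝ}
    (hθdef : θ = δ * (S.card : ℝ) ^ (1 / (d : ℝ)) / κ) (hθ1 : θ ≤ 1 / 4)
    {ω : E d} (hω : ‖ω‖ = 1) (T : Finset ι) (hTS : T ⊆ S) (hcap : ∀ j ∈ T, ‖e j - ω‖ ≤ 2 * θ) :
    volume {x | κ * S.card / 4 ≤ mu δ c e T x} ≤ ENNReal.ofReal (Mc d q ε C (κ / K1 d) *
      ((κ * S.card / 4 / K0 d) ^ (-q) * δ ^ d) * (3 * T.card) ^ (q - 1 / d)) := by
  have hK1 := K1_ge d
  have hK1p := K1_pos d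
  have hK0 := one_le_K0 d
  have hK0p : (0 : ℝ) < K0 d := by linarith only [hK0]
  have hNr : (0 : ℝ) < S.card := by exact_mod_cast hS
  have hN1 : (1 : ℝ) ≤ S.card := by exact_mod_cast hS
  have hkap := kap0_pos d
  have hkap' := kap0_le d
  have hd0 : (0 : ℝ) < d := by exact_mod_cast hd
  have hTle : (T.card : ℝ) ≤ S.card := by exact_mod_cast Finset.card_le_card hTS
  have hκ' : κ / K1 d ≤ kap0 d := by
    rw [div_le_iff₀ hK1p, K1]
    have : kap0 d * (12 * (K0 d : ℝ) / kap0 d) = 12 * K0 d := by field_simp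
    rw [this]; linarith only [hκ1, hK0, hkap, hkap']
  have hroot : (1 : ℝ) ≤ (S.card : ℝ) ^ (1 / (d : ℝ)) := Real.one_le_rpow hN1 (by positivity)
  have hrootd : ((S.card : ℝ) ^ (1 / (d : ℝ))) ^ d = S.card := by
    rw [← Real.rpow_natCast, ← Real.rpow_mul hNr.le, one_div_mul_cancel hd0.ne', Real.rpow_one]
  have hb := cap_bound hd hq hC hε h (κ := κ / K1 d) (by positivity) hκ' (d + 1) (δ := δ)
    (θ := 2 * θ) hδ (by linarith only [hθ1]) (by
      rw [hθdef]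
      have : δ ≤ δ * (S.card : ℝ) ^ (1 / (d : ℝ)) / κ := by
        rw [le_div_iff₀ hκ0]
        calc δ * κ ≤ δ * 1 := by gcongr
          _ ≤ δ * (S.card : ℝ) ^ (1 / (d : ℝ)) := by gcongr
      linarith only [this]) hω T c e (hF.mono hTS) hcap (lam := κ * S.card / 4) (by positivity) (by
      have h1 : κ / K1 d * (3 * T.card) ≤ κ / (216 * K0 d) * (3 * S.card) := by gcongr
      refine h1.trans ?_
      rw [div_div, div_mul_eq_mul_div, div_le_div_iff₀ (by positivity) (by positivity)]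
      have : 0 ≤ κ * S.card * K0 d := by positivity
      nlinarith only [this]) (by
      have h1 : (2 * θ / δ) ^ d = 2 ^ d * S.card / κ ^ d := by
        rw [hθdef]
        have : 2 * (δ * (S.card : ℝ) ^ (1 / (d : ℝ)) / κ) / δ =
            2 * (S.card : ℝ) ^ (1 / (d : ℝ)) / κ := by field_simp
        rw [this, div_pow, mul_pow, hrootd]
      rw [h1]
      have h2 : (κ / K1 d) ^ (d + 1) * (2 ^ d * S.card / κ ^ d) =
          κ * S.card * (2 ^ d / K1 d ^ (d + 1)) := by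
        rw [div_pow, pow_succ κ d]; field_simp
      rw [h2]
      have h3 : (2 : ℝ) ^ d / K1 d ^ (d + 1) ≤ 1 / (4 * K0 d) := by
        rw [div_le_div_iff₀ (by positivity) (by positivity), one_mul, pow_succ]
        have h4 : (2 : ℝ) ^ d ≤ K1 d ^ d := by
          gcongr; linarith only [hK1, hK0, hkap, hkap']
        have h5 : 4 * (K0 d : ℝ) ≤ K1 d := by linarith only [hK1, hK0, hkap, hkap']
        gcongr
      calc κ * S.card * (2 ^ d / K1 d ^ (d + 1)) ≤ κ * S.card * (1 / (4 * K0 d)) := by gcongr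
        _ = κ * S.card / 4 / K0 d := by field_simp)
  exact hb

/-- The weak-type inequality without loss in `δ`, with a loss in the density. -/
theorem weak_all {q ε C : ℝ} (hd : 1 ≤ d) (hq : 1 + 1 / (d : ℝ) ≤ q) (hC : 0 ≤ C) (hε : 0 ≤ ε)
    (h : Loss d q ε C) {κ : ℝ} (hκ0 : 0 < κ) (hκ1 : κ ≤ 1) {δ : ℝ} (hδ : 0 < δ) (hδ1 : δ < 1)
    (S : Finset ι) (c e : ι → E d) (hF : Fam δ e S) (hS : 0 < S.card) :
    volume {x | κ * S.card ≤ mu δ c e S x} ≤ ENNReal.ofReal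
      (2 ^ (d + 5) * κ⁻¹ * (δ ^ d * (S.card : ℝ) ^ (-(1 / (d : ℝ)))) +
      Mc d q ε C (κ / K1 d) * (4 * K0 d) ^ q * (CG d * 3 ^ (d + 1)) ^ (q - 1 / (d : ℝ)) *
        κ ^ (-q) * (δ ^ d * (S.card : ℝ) ^ (-(1 / (d : ℝ))))) := by
  classical
  have hK1 := K1_ge d
  have hK1p := K1_pos d
  have hK0 := one_le_K0 d
  have hK0p : (0 : ℝ) < K0 d := by linarith only [hδ, hδ1, hK0]
  have hNr : (0 : ℝ) < S.card := by exact_mod_cast hS
  have hN1 : (1 : ℝ) ≤ S.card := by exact_mod_cast hS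
  have hd0 : (0 : ℝ) < d := by exact_mod_cast hd
  have hG := CG_pos d
  have hG1 := one_le_CG d
  have hinv : 0 < 1 / (d : ℝ) := by positivity
  have hq1 : 1 ≤ q := by linarith only [hq, hinv]
  have ha : 1 ≤ q - 1 / d := by linarith only [hq]
  have hMc : 0 ≤ Mc d q ε C (κ / K1 d) := by rw [Mc]; positivity
  have hkap := kap0_pos d
  have hκ' : κ / K1 d ≤ kap0 d := by
    rw [div_le_iff₀ hK1p, K1]
    have : kap0 d * (12 * (K0 d : ℝ) / kap0 d) = 12 * K0 d := by field_simp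
    rw [this]; linarith only [hκ1, hδ, hδ1, hK0]
  have hNq : (S.card : ℝ) ^ (-q) * (S.card : ℝ) ^ (q - 1 / (d : ℝ)) =
      (S.card : ℝ) ^ (-(1 / (d : ℝ))) := by
    rw [← Real.rpow_add hNr]; congr 1; ring
  have hrootd : ((S.card : ℝ) ^ (1 / (d : ℝ))) ^ d = S.card := by
    rw [← Real.rpow_natCast, ← Real.rpow_mul hNr.le, one_div_mul_cancel hd0.ne', Real.rpow_one]
  set θ : ℝ := δ * (S.card : ℝ) ^ (1 / (d : ℝ)) / κ with hθdef
  have hθ0 : 0 < θ := by positivity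
  by_cases hθ : 1 / 4 ≤ θ
  · -- direct
    have h1 := near_full hd hq hC hε h (κ := κ / K1 d) (by positivity) hκ' (d + 1) hδ hδ1 S c e hF
      (by
        have h2 : κ / 4 ≤ δ * (S.card : ℝ) ^ (1 / (d : ℝ)) := by
          rw [hθdef, le_div_iff₀ hκ0] at hθ; linarith only [hθ]
        have h3 : (κ / 4) ^ d ≤ δ ^ d * S.card := by
          rw [← hrootd, ← mul_pow]; gcongr
        have h4 : κ / K1 d ≤ κ / 4 := by gcongr; linarith only [hδ, hδ1, hK1, hK0]
        have h5 : κ / K1 d ≤ 1 := by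
          rw [div_le_one hK1p]; linarith only [hκ1, hK1, hK0]
        calc (κ / K1 d) ^ (d + 1) * (1 / δ) ^ d ≤ (κ / K1 d) ^ d * (1 / δ) ^ d := by
              apply mul_le_mul_of_nonneg_right _ (by positivity)
              exact pow_le_pow_of_le_one (by positivity) h5 (by omega)
          _ ≤ (κ / 4) ^ d * (1 / δ) ^ d := by gcongr
          _ ≤ δ ^ d * S.card * (1 / δ) ^ d := by gcongr
          _ = S.card := by
              rw [one_div, inv_pow]; field_simp)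
      hS (lam := κ * S.card) (by
        have : κ / K1 d ≤ κ := by
          rw [div_le_iff₀ hK1p]; nlinarith only [hκ0, hδ, hδ1, hK1, hK0]
        gcongr)
    refine h1.trans (ENNReal.ofReal_le_ofReal ?_)
    have h2 : (κ * S.card : ℝ) ^ (-q) * (δ ^ d * (S.card : ℝ) ^ (q - 1 / (d : ℝ))) =
        κ ^ (-q) * (δ ^ d * (S.card : ℝ) ^ (-(1 / (d : ℝ)))) := by
      rw [Real.mul_rpow hκ0.le hNr.le, ← hNq]; ring
    have h3 : 4 * CG d * 2 ^ (q - 1 / (d : ℝ)) *
      ((C * ((κ / K1 d) ^ (2 * (d + 1 + 3) + 1) / 8) ^ (-ε)) ^ q *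
        ((κ * S.card : ℝ) ^ (-q) * (δ ^ d * (S.card : ℝ) ^ (q - 1 / (d : ℝ))))) =
        Mc d q ε C (κ / K1 d) * (κ ^ (-q) * (δ ^ d * (S.card : ℝ) ^ (-(1 / (d : ℝ))))) := by
      rw [h2, Mc]; ring
    rw [h3]
    have h4 : (1 : ℝ) ≤ (4 * K0 d) ^ q := Real.one_le_rpow (by linarith only [hδ, hδ1, hK0]) (by linarith only [hq, hδ, hδ1, hinv])
    have h5 : (1 : ℝ) ≤ (CG d * 3 ^ (d + 1)) ^ (q - 1 / (d : ℝ)) := by
      apply Real.one_le_rpow _ (by linarith only [hq, hδ, hδ1])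
      have : (1 : ℝ) ≤ 3 ^ (d + 1) := one_le_pow₀ (by norm_num)
      nlinarith only [hG1, hδ, hδ1, hG, this]
    have h6 : (1 : ℝ) ≤ (4 * K0 d) ^ q * (CG d * 3 ^ (d + 1)) ^ (q - 1 / (d : ℝ)) :=
      one_le_mul_of_one_le_of_one_le h4 h5
    have h7 : 0 ≤ Mc d q ε C (κ / K1 d) * (κ ^ (-q) * (δ ^ d * (S.card : ℝ) ^ (-(1 / (d : ℝ))))) := by
      positivity
    have h8 : 0 ≤ 2 ^ (d + 5) * κ⁻¹ * (δ ^ d * (S.card : ℝ) ^ (-(1 / (d : ℝ)))) := by positivity
    calc _ ≤ ((4 * K0 d) ^ q * (CG d * 3 ^ (d + 1)) ^ (q - 1 / (d : ℝ))) *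
          (Mc d q ε C (κ / K1 d) * (κ ^ (-q) * (δ ^ d * (S.card : ℝ) ^ (-(1 / (d : ℝ)))))) :=
          le_mul_of_one_le_left h7 h6
      _ ≤ _ := by
          have : ((4 * K0 d) ^ q * (CG d * 3 ^ (d + 1)) ^ (q - 1 / (d : ℝ))) *
          (Mc d q ε C (κ / K1 d) * (κ ^ (-q) * (δ ^ d * (S.card : ℝ) ^ (-(1 / (d : ℝ)))))) =
          Mc d q ε C (κ / K1 d) * (4 * K0 d) ^ q * (CG d * 3 ^ (d + 1)) ^ (q - 1 / (d : ℝ)) *
        κ ^ (-q) * (δ ^ d * (S.card : ℝ) ^ (-(1 / (d : ℝ)))) := by ring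
          linarith only [h8]
  · push Not at hθ
    -- the net
    set D : Finset (E d) := S.image e ∪ S.image (fun i => -e i) with hD
    have hDunit : ∀ u ∈ D, ‖u‖ = 1 := by
      intro u hu
      rw [hD, Finset.mem_union, Finset.mem_image, Finset.mem_image] at hu
      rcases hu with ⟨i, hi, rfl⟩ | ⟨i, hi, rfl⟩
      · exact hF.unit i hi
      · rw [norm_neg]; exact hF.unit i hi
    obtain ⟨Ω, hΩD, hΩsep, hΩcov⟩ := exists_net D hθ0
    have hΩF : Fam θ (fun u : E d => u) Ω :=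
      ⟨fun u hu => hDunit u (hΩD hu), fun u hu v hv huv => hΩsep u hu v hv huv⟩
    -- the two parts
    set A1 : Set (E d) := {x | (κ * S.card) ^ 2 / 2 ≤ (((S ×ˢ S).filter (fun p =>
      (x ∈ tube δ (c p.1) (e p.1) ∧ x ∈ tube δ (c p.2) (e p.2)) ∧
      θ ≤ ‖e p.1 - e p.2‖ ∧ θ ≤ ‖e p.1 + e p.2‖)).card : ℝ)} with hA1
    set A2 : Set (E d) := ⋃ ω ∈ Ω, {x | κ * S.card / 4 ≤
      mu δ c e (S.filter (fun j => ‖e j - ω‖ ≤ 2 * θ)) x} with hA2
    have hcov : {x | κ * S.card ≤ mu δ c e S x} ⊆ A1 ∪ A2 := by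
      intro x hx
      simp only [Set.mem_ofPred_eq] at hx
      set M := S.filter (fun j => x ∈ tube δ (c j) (e j)) with hM
      have hMmu : M.card = mu δ c e S x := rfl
      rw [← hMmu] at hx
      have hMpos : 0 < M.card := by
        have : (0 : ℝ) < M.card := (mul_pos hκ0 hNr).trans_le hx
        exact_mod_cast this
      have hcapcase : ∀ u ∈ D, ((M.card : ℝ) / 4 ≤ ((M.filter (fun j => ‖e j - u‖ < θ)).card : ℝ)) →
          x ∈ A2 := by
        intro u hu hcard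
        obtain ⟨ω, hω, huω⟩ := hΩcov u hu
        rw [hA2]
        simp only [Set.mem_iUnion, Set.mem_ofPred_eq]
        refine ⟨ω, hω, ?_⟩
        have h1 : (M.filter (fun j => ‖e j - u‖ < θ)).card ≤
            mu δ c e (S.filter (fun j => ‖e j - ω‖ ≤ 2 * θ)) x := by
          unfold mu
          apply Finset.card_le_card
          intro j hj
          rw [hM, Finset.mem_filter, Finset.mem_filter] at hj
          rw [Finset.mem_filter, Finset.mem_filter]
          refine ⟨⟨hj.1.1, ?_⟩, hj.1.2⟩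
          calc ‖e j - ω‖ ≤ ‖e j - u‖ + ‖u - ω‖ := norm_sub_le_norm_sub_add_norm_sub _ _ _
            _ ≤ 2 * θ := by linarith only [huω, hj, hj.2]
        have h2 : ((M.filter (fun j => ‖e j - u‖ < θ)).card : ℝ) ≤
            mu δ c e (S.filter (fun j => ‖e j - ω‖ ≤ 2 * θ)) x := by exact_mod_cast h1
        linarith only [hx, hcard, h2]
      rcases pairs_or_cap θ M e hMpos with h1 | ⟨i, hi, h1 | h1⟩
      · left
        rw [hA1]
        simp only [Set.mem_ofPred_eq]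
        have h2 : ((M ×ˢ M).filter (fun p => θ ≤ ‖e p.1 - e p.2‖ ∧ θ ≤ ‖e p.1 + e p.2‖)).card ≤
            ((S ×ˢ S).filter (fun p =>
              (x ∈ tube δ (c p.1) (e p.1) ∧ x ∈ tube δ (c p.2) (e p.2)) ∧
              θ ≤ ‖e p.1 - e p.2‖ ∧ θ ≤ ‖e p.1 + e p.2‖)).card := by
          apply Finset.card_le_card
          intro p hp
          rw [Finset.mem_filter, Finset.mem_product, hM, Finset.mem_filter, Finset.mem_filter] at hp
          rw [Finset.mem_filter, Finset.mem_product]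
          exact ⟨⟨hp.1.1.1, hp.1.2.1⟩, ⟨hp.1.1.2, hp.1.2.2⟩, hp.2⟩
        have h3 : (κ * S.card) ^ 2 / 2 ≤ (M.card : ℝ) ^ 2 / 2 := by gcongr
        have h4 : (((M ×ˢ M).filter (fun p => θ ≤ ‖e p.1 - e p.2‖ ∧
          θ ≤ ‖e p.1 + e p.2‖)).card : ℝ) ≤ (((S ×ˢ S).filter (fun p =>
              (x ∈ tube δ (c p.1) (e p.1) ∧ x ∈ tube δ (c p.2) (e p.2)) ∧
              θ ≤ ‖e p.1 - e p.2‖ ∧ θ ≤ ‖e p.1 + e p.2‖)).card : ℝ) := by exact_mod_cast h2
        linarith only [h1, h3, h4]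
      · right
        have hiS : i ∈ S := (Finset.mem_filter.1 hi).1
        exact hcapcase (e i) (by rw [hD, Finset.mem_union]; left; exact Finset.mem_image_of_mem _ hiS) h1
      · right
        have hiS : i ∈ S := (Finset.mem_filter.1 hi).1
        exact hcapcase (-e i) (by
          rw [hD, Finset.mem_union]; right; exact Finset.mem_image_of_mem (fun i => -e i) hiS) h1
    -- the first part
    have hv1 : volume A1 ≤ ENNReal.ofReal
        (2 ^ (d + 5) * κ⁻¹ * (δ ^ d * (S.card : ℝ) ^ (-(1 / (d : ℝ))))) := by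
      refine (pairs_bound hδ hθ0 S c e hF.unit (m := (κ * S.card) ^ 2 / 2) (by positivity) A1
        (fun x hx => hx)).trans (le_of_eq ?_)
      congr 1
      rw [hθdef, Real.rpow_neg hNr.le, mul_pow 2 δ d, pow_add 2 d 5]
      have : (0 : ℝ) < (S.card : ℝ) ^ (1 / (d : ℝ)) := by positivity
      field_simp
      norm_num
    -- the second part
    have hv2 : volume A2 ≤ ENNReal.ofReal (Mc d q ε C (κ / K1 d) * (4 * K0 d) ^ q *
        (CG d * 3 ^ (d + 1)) ^ (q - 1 / (d : ℝ)) *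
        κ ^ (-q) * (δ ^ d * (S.card : ℝ) ^ (-(1 / (d : ℝ))))) := by
      refine (sum_up A2 Ω (fun ω => {x | κ * S.card / 4 ≤
        mu δ c e (S.filter (fun j => ‖e j - ω‖ ≤ 2 * θ)) x})
        (fun ω => 3 * ((S.filter (fun j => ‖e j - ω‖ ≤ 2 * θ)).card : ℝ))
        (B := Mc d q ε C (κ / K1 d) * ((κ * S.card / 4 / K0 d) ^ (-q) * δ ^ d))
        (s := 3 * (CG d * 3 ^ d * S.card)) (by positivity) ha (fun k _ => by positivity) ?_ ?_
        (by rw [hA2])).trans (le_of_eq ?_)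
      · intro ω hω
        exact popular_cap hd hq hC hε h hκ0 hκ1 hδ S c e hF hS hθdef hθ.le
          (hDunit ω (hΩD hω)) (S.filter (fun j => ‖e j - ω‖ ≤ 2 * θ)) (Finset.filter_subset _ _)
          (fun j hj => (Finset.mem_filter.1 hj).2)
      · rw [← Finset.mul_sum]
        gcongr
        exact sum_caps hθ0 Ω hΩF S e
      · congr 1
        have h1 : (κ * S.card / 4 / K0 d : ℝ) ^ (-q) = (4 * K0 d) ^ q * κ ^ (-q) * (S.card : ℝ) ^ (-q) := by
          have : (κ * S.card / 4 / K0 d : ℝ) = (4 * (K0 d : ℝ))⁻¹ * (κ * S.card) := by field_simp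
          rw [this, Real.mul_rpow (by positivity) (by positivity), Real.mul_rpow hκ0.le hNr.le,
            Real.inv_rpow (by positivity), Real.rpow_neg (by positivity), inv_inv]
          ring
        have h2 : (3 * (CG d * 3 ^ d * S.card) : ℝ) ^ (q - 1 / (d : ℝ)) =
            (CG d * 3 ^ (d + 1)) ^ (q - 1 / (d : ℝ)) * (S.card : ℝ) ^ (q - 1 / (d : ℝ)) := by
          rw [← Real.mul_rpow (by positivity) hNr.le, pow_succ]; congr 1; ring
        rw [h1, h2, ← hNq]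
        ring
    calc volume {x | κ * S.card ≤ mu δ c e S x} ≤ volume (A1 ∪ A2) := measure_mono hcov
      _ ≤ volume A1 + volume A2 := measure_union_le _ _
      _ ≤ _ := by
          refine (add_le_add hv1 hv2).trans (le_of_eq ?_)
          rw [← ENNReal.ofReal_add (by positivity) (by positivity)]

end Pool.Agent.H53.Kak
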